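import Mathlib

/-- coordinatewise multiplication by the characters `χ i : H → (E i)ˣ`. -/
noncomputable def crAct {ι : Type} {E : ι → Type} [∀ i, Field (E i)] {H : Type} [CommGroup H]
    (χ : ∀ i, H →* (E i)ˣ) : H →* MulAut (Multiplicative (∀ i, E i)) where
  toFun h :=
    { toFun := fun v => Multiplicative.ofAdd fun i => ((χ i h : (E i)ˣ) : E i) * v.toAdd i
      invFun := fun v => Multiplicative.ofAdd fun i => (((χ i h)⁻¹ : (E i)ˣ) : E i) * v.toAdd i
      left_inv := fun v => by
        apply Multiplicative.toAdd.injective; funext i; simp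
      right_inv := fun v => by
        apply Multiplicative.toAdd.injective; funext i; simp
      map_mul' := fun v w => by
        apply Multiplicative.toAdd.injective; funext i; simp [mul_add] }
  map_one' := by
    ext v; simp
  map_mul' h k := by
    ext v; simp [mul_assoc]

/-- the group `(∏ E i) ⋊ H` -/
abbrev CRModel {ι : Type} {E : ι → Type} [∀ i, Field (E i)] {H : Type} [CommGroup H]
    (χ : ∀ i, H →* (E i)ˣ) : Type := Multiplicative (∀ i, E i) ⋊[crAct χ] H
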