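import Mathlib
import Pool.Agent.MPcb9dee.Model

/-- automorphism of the model given by additive automorphisms of the fields and an automorphism of `H` -/
noncomputable def crAut {ι : Type} {E : ι → Type} [∀ i, Field (E i)] {H : Type} [CommGroup H]
    (χ : ∀ i, H →* (E i)ˣ) (T : ∀ i, E i ≃+ E i) (s : H ≃* H)
    (hTs : ∀ i h x, T i (((χ i h : (E i)ˣ) : E i) * x) = ((χ i (s h) : (E i)ˣ) : E i) * T i x) :
    CRModel χ ≃* CRModel χ :=
  SemidirectProduct.congr (AddEquiv.toMultiplicative (AddEquiv.piCongrRight T)) s (by
    intro g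
    refine MulEquiv.ext fun v => ?_
    apply Multiplicative.toAdd.injective
    funext i
    exact hTs i g (v.toAdd i))
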