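import Mathlib

/-- conformal groups: for every `d ≥ 1` the equation `x ^ d = 1` has the same number of solutions. -/
def CRConformal (G₁ G₂ : Type) [Group G₁] [Group G₂] : Prop :=
  ∀ d : ℕ, 1 ≤ d → Nat.card {x : G₁ // x ^ d = 1} = Nat.card {x : G₂ // x ^ d = 1}

/-- `n` is conformally rigid: any two conformal groups of order `n` are isomorphic. -/
def CRRigid (n : ℕ) : Prop :=
  ∀ (G₁ G₂ : Type) [Group G₁] [Group G₂] [Finite G₁] [Finite G₂],
    Nat.card G₁ = n → Nat.card G₂ = n → CRConformal G₁ G₂ → Nonempty (G₁ ≃* G₂)
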