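import Mathlib

theorem cr_aux_index {G : Type} [Group G] [Finite G] {m : ℕ} (hm : 0 < m)
    (hG : Nat.card G = 2 * m) (K : Subgroup G) (hK : Nat.card K = m) : K.index = 2 := by
  have h := K.card_mul_index
  rw [hK, hG, mul_comm 2 m] at h
  exact Nat.eq_of_mul_eq_mul_left hm h

/-- groups of order `2 m`, `m` odd -/
theorem cr_even_split {G : Type} [Group G] [Finite G] {m : ℕ} (hm : Odd m) (hG : Nat.card G = 2 * m) :
    ∃ (K : Subgroup G) (t : G), K.Normal ∧ Nat.card K = m ∧ t ∉ K ∧ t ^ 2 = 1 := by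
  have hm0 : 0 < m := hm.pos
  have : Fact (Nat.Prime 2) := ⟨Nat.prime_two⟩
  obtain ⟨P⟩ : Nonempty (Sylow 2 G) := inferInstance
  have hfac : (Nat.card G).factorization 2 = 1 := by
    rw [hG, Nat.factorization_mul (by norm_num) hm0.ne']
    have h2 : m.factorization 2 = 0 := by
      apply Nat.factorization_eq_zero_of_not_dvd
      intro h
      exact (Nat.not_even_iff_odd.2 hm) (even_iff_two_dvd.2 h)
    simp [h2, Nat.Prime.factorization Nat.prime_two]
  have hP : Nat.card P = 2 := by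
    rw [P.card_eq_multiplicity, hfac, pow_one]
  have hcyc : IsCyclic P := isCyclic_of_prime_card (p := 2) hP
  have hmin : (Nat.card G).minFac = 2 := by
    rw [hG, Nat.minFac_eq_two_iff]
    exact ⟨m, rfl⟩
  have hcomp := IsCyclic.isComplement' hmin hcyc
  have hcard := hcomp.card_mul_card
  obtain ⟨t, ht⟩ := exists_prime_orderOf_dvd_card' (G := G) 2 (by rw [hG]; exact ⟨m, rfl⟩)
  rw [hP, hG, mul_comm 2 m] at hcard
  have hKm : Nat.card (MonoidHom.transferSylow P (hcyc.normalizer_le_centralizer hmin)).ker = m :=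
    Nat.eq_of_mul_eq_mul_right (by norm_num) hcard
  refine ⟨(MonoidHom.transferSylow P (hcyc.normalizer_le_centralizer hmin)).ker, t,
    inferInstance, hKm, ?_, ?_⟩
  · intro htK
    have h4 := Subgroup.orderOf_dvd_natCard _ htK
    rw [ht, hKm] at h4
    exact (Nat.not_even_iff_odd.2 hm) (even_iff_two_dvd.2 h4)
  · rw [← ht]
    exact pow_orderOf_eq_one t

/-- all involutions are conjugate -/
theorem cr_aux_conj {G : Type} [Group G] [Finite G] {m : ℕ} (hm : Odd m)
    (hG : Nat.card G = 2 * m) (K : Subgroup G) (hK : Nat.card K = m) (s t : G)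
    (hs : s ∉ K) (ht : t ∉ K) (hs2 : s ^ 2 = 1) (ht2 : t ^ 2 = 1) :
    ∃ k ∈ K, k * t * k⁻¹ = s := by
  have hidx := cr_aux_index hm.pos hG K hK
  have hss : s * s = 1 := by rw [← sq]; exact hs2
  have htt : t * t = 1 := by rw [← sq]; exact ht2
  have hst : s * t ∈ K := by
    rw [Subgroup.mul_mem_iff_of_index_two hidx]
    exact ⟨fun h => absurd h hs, fun h => absurd h ht⟩
  have hodd : Odd (orderOf (s * t)) := by
    have h1 := Subgroup.orderOf_dvd_natCard _ hst
    rw [hK] at h1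
    exact hm.of_dvd_nat h1
  obtain ⟨j, hj⟩ := hodd
  have hr : (s * t) ^ (j + 1) * (s * t) ^ (j + 1) = s * t := by
    rw [← pow_add, show j + 1 + (j + 1) = orderOf (s * t) + 1 by omega, pow_add,
      pow_orderOf_eq_one, one_mul, pow_one]
  have hconj : t * (s * t) * t⁻¹ = (s * t)⁻¹ := by
    rw [mul_inv_rev]
    have h1 : t⁻¹ = t := inv_eq_of_mul_eq_one_right htt
    have h2 : s⁻¹ = s := inv_eq_of_mul_eq_one_right hss
    rw [h1, h2, mul_assoc, mul_assoc, htt, mul_one]
  have hconj2 : t * (s * t) ^ (j + 1) * t⁻¹ = ((s * t) ^ (j + 1))⁻¹ := by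
    rw [← conj_pow, hconj, inv_pow]
  refine ⟨(s * t) ^ (j + 1), K.pow_mem hst _, ?_⟩
  have h3 : t * ((s * t) ^ (j + 1))⁻¹ = (s * t) ^ (j + 1) * t := by
    rw [← hconj2]
    have h1 : t⁻¹ = t := inv_eq_of_mul_eq_one_right htt
    rw [h1, ← mul_assoc, ← mul_assoc, htt, one_mul]
  rw [mul_assoc, h3, ← mul_assoc, hr, mul_assoc, htt, mul_one]

/-- counting involutions -/
theorem cr_card_involutions {G : Type} [Group G] [Finite G] {m : ℕ} (hm : Odd m)
    (hG : Nat.card G = 2 * m) (K : Subgroup G) [K.Normal] (hK : Nat.card K = m) (t : G) (ht : t ∉ K)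
    (ht2 : t ^ 2 = 1) :
    (Nat.card {x : G // x ^ 2 = 1} - 1) * Nat.card {x : K // MulAut.conjNormal t x = x} = m := by
  classical
  have hout : ∀ x : G, x ^ 2 = 1 → x ≠ 1 → x ∉ K := by
    intro x hx hx1 hxK
    have h1 : orderOf x = 2 := orderOf_eq_prime hx hx1
    have h2 := Subgroup.orderOf_dvd_natCard _ hxK
    rw [h1, hK] at h2
    exact (Nat.not_even_iff_odd.2 hm) (even_iff_two_dvd.2 h2)
  let I := {x : G // x ^ 2 = 1 ∧ x ≠ 1}
  let act : MulAction K I :=
    { smul := fun k x => ⟨(k : G) * x.1 * (k : G)⁻¹, by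
        rw [conj_pow, x.2.1, mul_one, mul_inv_cancel], by
        intro h
        apply x.2.2
        rw [mul_inv_eq_one] at h
        exact mul_eq_left.1 h⟩
      one_smul := by
        intro x
        apply Subtype.ext
        change ((1 : K) : G) * x.1 * ((1 : K) : G)⁻¹ = x.1
        simp
      mul_smul := by
        intro k k' x
        apply Subtype.ext
        change ((k * k' : K) : G) * x.1 * ((k * k' : K) : G)⁻¹ =
          (k : G) * ((k' : G) * x.1 * (k' : G)⁻¹) * (k : G)⁻¹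
        rw [Subgroup.coe_mul, mul_inv_rev]
        group }
  have hsm : ∀ (k : K) (x : I), (k • x).1 = (k : G) * x.1 * (k : G)⁻¹ := fun k x => rfl
  have ht1 : t ≠ 1 := by
    rintro rfl
    exact ht K.one_mem
  let t' : I := ⟨t, ht2, ht1⟩
  have horb : MulAction.orbit K t' = Set.univ := by
    rw [Set.eq_univ_iff_forall]
    intro x
    obtain ⟨k, hk, hkx⟩ := cr_aux_conj hm hG K hK x.1 t (hout x.1 x.2.1 x.2.2) ht x.2.1 ht2
    exact ⟨⟨k, hk⟩, Subtype.ext hkx⟩
  have h1 : (MulAction.stabilizer K t').index = Nat.card I := by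
    rw [MulAction.index_stabilizer, horb, Set.ncard_univ]
  have h2 := (MulAction.stabilizer K t').card_mul_index
  rw [h1, hK] at h2
  have h3 : Nat.card {x : K // MulAut.conjNormal t x = x} = Nat.card (MulAction.stabilizer K t') := by
    apply Nat.card_congr
    apply Equiv.subtypeEquivRight
    intro x
    rw [MulAction.mem_stabilizer_iff]
    constructor
    · intro h
      apply Subtype.ext
      rw [hsm]
      change (x : G) * t * (x : G)⁻¹ = t
      have h4 : t * (x : G) * t⁻¹ = x := by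
        have := congrArg (Subtype.val : K → G) h
        rw [MulAut.conjNormal_apply] at this
        exact this
      rw [mul_inv_eq_iff_eq_mul] at h4 ⊢
      exact h4.symm
    · intro h
      have h4 := congrArg (Subtype.val : I → G) h
      rw [hsm] at h4
      change (x : G) * t * (x : G)⁻¹ = t at h4
      apply Subtype.ext
      rw [MulAut.conjNormal_apply]
      rw [mul_inv_eq_iff_eq_mul] at h4 ⊢
      exact h4.symm
  have h5 : Nat.card {x : G // x ^ 2 = 1} = Nat.card I + 1 := by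
    have h6 : {x : G | x ^ 2 = 1} = insert 1 {x : G | x ^ 2 = 1 ∧ x ≠ 1} := by
      ext x
      simp only [Set.mem_ofPred_eq, Set.mem_insert_iff]
      constructor
      · intro hx
        by_cases h : x = 1
        · exact Or.inl h
        · exact Or.inr ⟨hx, h⟩
      · rintro (rfl | h)
        · simp
        · exact h.1
    have h7 : ({x : G | x ^ 2 = 1} : Set G).ncard = ({x : G | x ^ 2 = 1 ∧ x ≠ 1} : Set G).ncard + 1 := by
      rw [h6, Set.ncard_insert_of_notMem (by simp)]
    exact h7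
  rw [h5, Nat.add_sub_cancel, h3, mul_comm]
  exact h2

/-- solutions of `x ^ d = 1` in the subgroup of odd order -/
theorem cr_card_sol_odd {G : Type} [Group G] [Finite G] {m : ℕ} (hm : Odd m)
    (hG : Nat.card G = 2 * m) (K : Subgroup G) [K.Normal] (hK : Nat.card K = m) (d : ℕ) (hd : 1 ≤ d) :
    1 ≤ d / 2 ^ d.factorization 2 ∧
      Nat.card {x : K // x ^ d = 1} = Nat.card {x : G // x ^ (d / 2 ^ d.factorization 2) = 1} := by
  have hidx := cr_aux_index hm.pos hG K hK
  have hd0 : d ≠ 0 := by omega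
  have he1 : 0 < d / 2 ^ d.factorization 2 := Nat.ordCompl_pos 2 hd0
  have hde : 2 ^ d.factorization 2 * (d / 2 ^ d.factorization 2) = d :=
    Nat.ordProj_mul_ordCompl_eq_self d 2
  have hcop : Nat.Coprime 2 (d / 2 ^ d.factorization 2) :=
    Nat.coprime_ordCompl Nat.prime_two hd0
  refine ⟨he1, ?_⟩
  generalize d / 2 ^ d.factorization 2 = e at *
  have hodd : Odd e := Nat.coprime_two_left.1 hcop
  have hiff : ∀ x : G, x ∈ K → (x ^ d = 1 ↔ x ^ e = 1) := by
    intro x hx
    have h1 := Subgroup.orderOf_dvd_natCard _ hx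
    rw [hK] at h1
    have h2 : Odd (orderOf x) := hm.of_dvd_nat h1
    constructor
    · intro h
      have h3 := orderOf_dvd_of_pow_eq_one h
      rw [← hde] at h3
      have h4 : Nat.Coprime (orderOf x) (2 ^ d.factorization 2) :=
        (Nat.Coprime.pow_right _ (Nat.coprime_two_right.2 h2))
      exact orderOf_dvd_iff_pow_eq_one.1 (h4.dvd_of_dvd_mul_left h3)
    · intro h
      rw [← hde, mul_comm, pow_mul, h, one_pow]
  have hmemK : ∀ x : G, x ^ e = 1 → x ∈ K := by
    intro x hx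
    obtain ⟨j, hj⟩ := hodd
    have h1 : x ^ e = (x ^ 2) ^ j * x := by
      rw [hj, pow_succ, pow_mul]
    rw [hx] at h1
    have h2 : (x ^ 2) ^ j ∈ K := K.pow_mem (Subgroup.sq_mem_of_index_two hidx x) j
    have h3 : (x ^ 2) ^ j * x ∈ K := by
      rw [← h1]
      exact K.one_mem
    exact (K.mul_mem_cancel_left h2).1 h3
  apply Nat.card_congr
  exact
    { toFun := fun x => ⟨(x.1 : G), (hiff _ x.1.2).1 (by
        have := congrArg (Subtype.val : K → G) x.2
        simpa using this)⟩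
      invFun := fun x => ⟨⟨x.1, hmemK x.1 x.2⟩, by
        apply Subtype.ext
        simpa using (hiff _ (hmemK x.1 x.2)).2 x.2⟩
      left_inv := fun x => rfl
      right_inv := fun x => rfl }

/-- isomorphism criterion for extensions by an involution -/
theorem cr_ext_iso {G₁ G₂ : Type} [Group G₁] [Group G₂] [Finite G₁] [Finite G₂]
    (K₁ : Subgroup G₁) (K₂ : Subgroup G₂) [K₁.Normal] [K₂.Normal]
    (hK₁ : Nat.card G₁ = 2 * Nat.card K₁) (hK₂ : Nat.card G₂ = 2 * Nat.card K₂)
    (t₁ : G₁) (t₂ : G₂) (h₁ : t₁ ∉ K₁) (h₂ : t₂ ∉ K₂) (h₁' : t₁ ^ 2 = 1) (h₂' : t₂ ^ 2 = 1)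
    (f : K₁ ≃* K₂) (hf : ∀ x, f (MulAut.conjNormal t₁ x) = MulAut.conjNormal t₂ (f x)) :
    Nonempty (G₁ ≃* G₂) := by
  classical
  have hidx : K₁.index = 2 := cr_aux_index Nat.card_pos hK₁ K₁ rfl
  have ht1 : t₁ * t₁ = 1 := by rw [← sq]; exact h₁'
  have ht2 : t₂ * t₂ = 1 := by rw [← sq]; exact h₂'
  have hi1 : t₁⁻¹ = t₁ := inv_eq_of_mul_eq_one_right ht1
  have hi2 : t₂⁻¹ = t₂ := inv_eq_of_mul_eq_one_right ht2
  have hmt : ∀ g, g ∉ K₁ → g * t₁ ∈ K₁ := by
    intro g hg
    rw [Subgroup.mul_mem_iff_of_index_two hidx]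
    exact ⟨fun h => absurd h hg, fun h => absurd h h₁⟩
  let F : G₁ → G₂ := fun g =>
    if h : g ∈ K₁ then (f ⟨g, h⟩ : G₂) else (f ⟨g * t₁, hmt g h⟩ : G₂) * t₂
  have hF1 : ∀ (g : G₁) (h : g ∈ K₁), F g = (f ⟨g, h⟩ : G₂) := fun g h => dif_pos h
  have hF2 : ∀ (g : G₁) (h : g ∉ K₁), F g = (f ⟨g * t₁, hmt g h⟩ : G₂) * t₂ := fun g h => dif_neg h
  have hconj : ∀ x : K₁, ((f (MulAut.conjNormal t₁ x) : K₂) : G₂) = t₂ * (f x : G₂) * t₂ := by
    intro x
    rw [hf, MulAut.conjNormal_apply, hi2]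
  have hmul : ∀ a b, F (a * b) = F a * F b := by
    intro a b
    by_cases ha : a ∈ K₁
    · by_cases hb : b ∈ K₁
      · have hab : a * b ∈ K₁ := K₁.mul_mem ha hb
        rw [hF1 _ hab, hF1 _ ha, hF1 _ hb, ← Subgroup.coe_mul, ← map_mul]
        rfl
      · have hab : a * b ∉ K₁ := fun h => hb ((K₁.mul_mem_cancel_left ha).1 h)
        rw [hF2 _ hab, hF1 _ ha, hF2 _ hb, ← mul_assoc, ← Subgroup.coe_mul, ← map_mul]
        congr 3
        apply Subtype.ext
        exact mul_assoc a b t₁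
    · by_cases hb : b ∈ K₁
      · have hab : a * b ∉ K₁ := fun h => ha ((K₁.mul_mem_cancel_right hb).1 h)
        rw [hF2 _ hab, hF2 _ ha, hF1 _ hb]
        have e1 : (⟨a * b * t₁, hmt _ hab⟩ : K₁) =
            ⟨a * t₁, hmt _ ha⟩ * MulAut.conjNormal t₁ ⟨b, hb⟩ := by
          apply Subtype.ext
          rw [Subgroup.coe_mul, MulAut.conjNormal_apply, hi1]
          change a * b * t₁ = a * t₁ * (t₁ * b * t₁)
          rw [mul_assoc t₁ b t₁, mul_assoc a t₁, ← mul_assoc t₁ t₁, ht1, one_mul, mul_assoc]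
        rw [e1, map_mul, Subgroup.coe_mul, hconj]
        rw [mul_assoc, mul_assoc, mul_assoc, mul_assoc, ht2, mul_one]
      · have hab : a * b ∈ K₁ := by
          rw [Subgroup.mul_mem_iff_of_index_two hidx]
          exact ⟨fun h => absurd h ha, fun h => absurd h hb⟩
        rw [hF1 _ hab, hF2 _ ha, hF2 _ hb]
        have e1 : (⟨a * b, hab⟩ : K₁) =
            ⟨a * t₁, hmt _ ha⟩ * MulAut.conjNormal t₁ ⟨b * t₁, hmt _ hb⟩ := by
          apply Subtype.ext
          rw [Subgroup.coe_mul, MulAut.conjNormal_apply, hi1]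
          change a * b = a * t₁ * (t₁ * (b * t₁) * t₁)
          rw [mul_assoc t₁ (b * t₁) t₁, mul_assoc b t₁ t₁, ht1, mul_one, mul_assoc a t₁,
            ← mul_assoc t₁ t₁, ht1, one_mul]
        rw [e1, map_mul, Subgroup.coe_mul, hconj]
        simp only [mul_assoc]
  let Fh : G₁ →* G₂ := MonoidHom.mk' F hmul
  have hinj : Function.Injective Fh := by
    rw [injective_iff_map_eq_one]
    intro g hg
    have hg' : F g = 1 := hg
    by_cases h : g ∈ K₁
    · rw [hF1 _ h] at hg'
      have h3 : f ⟨g, h⟩ = 1 := Subtype.ext hg'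
      have h4 : (⟨g, h⟩ : K₁) = 1 := (map_eq_one_iff f f.injective).1 h3
      exact congrArg Subtype.val h4
    · exfalso
      rw [hF2 _ h] at hg'
      apply h₂
      have h3 : t₂ = (f ⟨g * t₁, hmt g h⟩ : G₂)⁻¹ := (inv_eq_of_mul_eq_one_right hg').symm
      rw [h3]
      exact K₂.inv_mem (f ⟨g * t₁, hmt g h⟩).2
  have hcard : Nat.card G₁ = Nat.card G₂ := by
    rw [hK₁, hK₂, Nat.card_congr f.toEquiv]
  have hbij : Function.Bijective Fh := (Nat.bijective_iff_injective_and_card Fh).2 ⟨hinj, hcard⟩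
  exact ⟨MulEquiv.ofBijective Fh hbij⟩
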