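import Mathlib
import Pool.Agent.MPcb9dee.Aut

theorem cr_mul_left {ι : Type} {E : ι → Type} [∀ i, Field (E i)] {H : Type} [CommGroup H]
    (χ : ∀ i, H →* (E i)ˣ) (x y : CRModel χ) (i : ι) :
    (x * y).left.toAdd i = x.left.toAdd i + ((χ i x.right : (E i)ˣ) : E i) * y.left.toAdd i := rfl

theorem cr_coprime_zero {A : Type} [AddGroup A] (m n : ℕ) (h : Nat.Coprime m n) (x : A)
    (hm : m • x = 0) (hn : n • x = 0) : x = 0 := by
  have h1 := Nat.dvd_gcd (addOrderOf_dvd_of_nsmul_eq_zero hm) (addOrderOf_dvd_of_nsmul_eq_zero hn)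
  rw [h] at h1
  exact AddMonoid.addOrderOf_eq_one_iff.1 (Nat.dvd_one.1 h1)

/-- TARGET: normal form of involutory automorphisms of the model -/
theorem cr_aut_normal {ι : Type} [Fintype ι] {E : ι → Type} [∀ i, Field (E i)] [∀ i, Finite (E i)]
    {H : Type} [CommGroup H] [Finite H] (χ : ∀ i, H →* (E i)ˣ)
    (hcopE : Pairwise fun i j => Nat.Coprime (Nat.card (E i)) (Nat.card (E j)))
    (hcopH : ∀ i, Nat.Coprime (Nat.card (E i)) (Nat.card H)) (hχ : ∀ i, χ i ≠ 1)
    (hodd : ∀ i, Odd (Nat.card (E i))) (τ : CRModel χ ≃* CRModel χ) (hτ : ∀ x, τ (τ x) = x) :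
    ∃ (β : CRModel χ ≃* CRModel χ) (T : ∀ i, E i ≃+ E i) (s : H ≃* H)
      (hTs : ∀ i h x, T i (((χ i h : (E i)ˣ) : E i) * x) = ((χ i (s h) : (E i)ˣ) : E i) * T i x),
      (∀ i x, T i (T i x) = x) ∧ (∀ h, s (s h) = h) ∧
      ∀ x, β (τ x) = crAut χ T s hTs (β x) := by
  classical
  -- Step 1: the normal subgroup is preserved
  have hR : ∀ v : Multiplicative (∀ i, E i),
      (τ (SemidirectProduct.inl v : CRModel χ)).right = 1 := by
    intro v
    have hcop : Nat.Coprime (Nat.card (Multiplicative (∀ i, E i))) (Nat.card H) := by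
      have h1 : Nat.card (Multiplicative (∀ i, E i)) = ∏ i, Nat.card (E i) := Nat.card_pi
      rw [h1]
      exact Nat.Coprime.prod_left fun i _ => hcopH i
    have h2 : (τ (SemidirectProduct.inl v : CRModel χ)).right ^
        (Nat.card (Multiplicative (∀ i, E i))) = 1 := by
      have h3 : (SemidirectProduct.inl v : CRModel χ) ^
          (Nat.card (Multiplicative (∀ i, E i))) = 1 := by
        rw [← map_pow, pow_card_eq_one', map_one]
      have h4 := congrArg (fun y => SemidirectProduct.rightHom (τ y)) h3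
      simp only [map_pow, map_one] at h4
      exact h4
    have h5 := Nat.dvd_gcd (orderOf_dvd_of_pow_eq_one h2)
      (orderOf_dvd_natCard (τ (SemidirectProduct.inl v : CRModel χ)).right)
    rw [hcop] at h5
    exact orderOf_eq_one_iff.1 (Nat.dvd_one.1 h5)
  let inl' : (∀ i, E i) → CRModel χ := fun v => SemidirectProduct.inl (Multiplicative.ofAdd v)
  have hinl_l : ∀ v i, (inl' v).left.toAdd i = v i := fun v i => rfl
  have hinl_r : ∀ v, (inl' v).right = 1 := fun v => rfl
  have hinl_add : ∀ v w, inl' (v + w) = inl' v * inl' w := fun v w => by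
    change SemidirectProduct.inl (Multiplicative.ofAdd (v + w)) = _
    rw [ofAdd_add, map_mul]
  let Tt : (∀ i, E i) → (∀ i, E i) := fun v => (τ (inl' v)).left.toAdd
  have hτinl : ∀ v, τ (inl' v) = inl' (Tt v) := by
    intro v
    apply SemidirectProduct.ext
    · rfl
    · exact hR _
  have hinj : ∀ v w, inl' v = inl' w → v = w := by
    intro v w h
    have := congrArg (fun x : CRModel χ => x.left.toAdd) h
    exact this
  have hTadd : ∀ v w, Tt (v + w) = Tt v + Tt w := by
    intro v w
    apply hinj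
    rw [← hτinl, hinl_add, map_mul, hτinl, hτinl, hinl_add]
  have hTT : ∀ v, Tt (Tt v) = v := by
    intro v
    apply hinj
    rw [← hτinl, ← hτinl, hτ]
  let TA : (∀ i, E i) →+ (∀ i, E i) := AddMonoidHom.mk' Tt hTadd
  have hTA : ∀ v, TA v = Tt v := fun v => rfl
  have hcard : ∀ (i : ι) (x : E i), Nat.card (E i) • x = 0 := fun i x => card_nsmul_eq_zero'
  have hoff : ∀ (j : ι) (x : E j) (i : ι), i ≠ j → Tt (Pi.single j x) i = 0 := by
    intro j x i hij
    have h1 : Nat.card (E j) • Tt (Pi.single j x) = 0 := by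
      rw [← hTA, ← map_nsmul]
      have h2 : Nat.card (E j) • (Pi.single j x : ∀ i, E i) = 0 := by
        rw [← Pi.single_smul, hcard, Pi.single_zero]
      rw [h2, map_zero]
    have h3 : Nat.card (E j) • Tt (Pi.single j x) i = 0 := congrFun h1 i
    exact cr_coprime_zero _ _ (hcopE hij) _ (hcard i _) h3
  have hdec : ∀ v i, Tt v i = Tt (Pi.single i (v i)) i := by
    intro v i
    have h1 : Tt v = ∑ j, Tt (Pi.single j (v j)) := by
      have h2 := congrArg TA (Finset.univ_sum_single v).symm
      rw [map_sum] at h2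
      exact h2
    rw [h1, Finset.sum_apply, Finset.sum_eq_single i]
    · intro j _ hji
      exact hoff j (v j) i (Ne.symm hji)
    · intro h
      exact absurd (Finset.mem_univ i) h
  have hTi : ∀ (i : ι) (x : E i), Tt (Pi.single i (Tt (Pi.single i x) i)) i = x := by
    intro i x
    rw [← hdec (Tt (Pi.single i x)) i, hTT, Pi.single_eq_same]
  let T : ∀ i, E i ≃+ E i := fun i =>
    { toFun := fun x => Tt (Pi.single i x) i
      invFun := fun x => Tt (Pi.single i x) i
      left_inv := fun x => hTi i x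
      right_inv := fun x => hTi i x
      map_add' := fun x y => by
        rw [Pi.single_add, hTadd, Pi.add_apply] }
  have hTv : ∀ v i, Tt v i = T i (v i) := fun v i => hdec v i
  -- the quotient
  let inr' : H → CRModel χ := fun h => SemidirectProduct.inr h
  have hinr_l : ∀ h i, (inr' h).left.toAdd i = 0 := fun h i => rfl
  have hinr_r : ∀ h, (inr' h).right = h := fun h => rfl
  have hinr_mul : ∀ h k, inr' (h * k) = inr' h * inr' k := fun h k => map_mul _ h k
  let c : H → (∀ i, E i) := fun h => (τ (inr' h)).left.toAdd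
  let s0 : H → H := fun h => (τ (inr' h)).right
  have hdecx : ∀ x : CRModel χ, x = inl' x.left.toAdd * inr' x.right := fun x =>
    (SemidirectProduct.inl_left_mul_inr_right x).symm
  have hττ : ∀ h, inl' (Tt (c h)) * τ (inr' (s0 h)) = inr' h := by
    intro h
    have h1 : τ (inr' h) = inl' (c h) * inr' (s0 h) := hdecx (τ (inr' h))
    have h2 := hτ (inr' h)
    rw [h1, map_mul, hτinl] at h2
    exact h2
  have hss : ∀ h, s0 (s0 h) = h := by
    intro h
    have h1 := congrArg (fun x : CRModel χ => x.right) (hττ h)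
    simp only [SemidirectProduct.mul_right, hinl_r, one_mul, hinr_r] at h1
    exact h1
  have hcs : ∀ h i, T i (c h i) + c (s0 h) i = 0 := by
    intro h i
    have h1 := congrArg (fun x : CRModel χ => x.left.toAdd i) (hττ h)
    simp only [cr_mul_left, hinl_l, hinl_r, map_one, Units.val_one, one_mul, hinr_l] at h1
    rw [hTv] at h1
    exact h1
  have hsmul : ∀ h k, s0 (h * k) = s0 h * s0 k := by
    intro h k
    change (τ (inr' (h * k))).right = _
    rw [hinr_mul, map_mul, SemidirectProduct.mul_right]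
  let s : H ≃* H :=
    { toFun := s0
      invFun := s0
      left_inv := hss
      right_inv := hss
      map_mul' := hsmul }
  have hs : ∀ h, s h = s0 h := fun h => rfl
  have hcomp : ∀ h v i, Tt (fun j => ((χ j h : (E j)ˣ) : E j) * v j) i =
      ((χ i (s0 h) : (E i)ˣ) : E i) * Tt v i := by
    intro h v i
    have h1 : inr' h * inl' v = inl' (fun j => ((χ j h : (E j)ˣ) : E j) * v j) * inr' h := by
      apply SemidirectProduct.ext
      · apply Multiplicative.toAdd.injective
        funext j
        rw [cr_mul_left, cr_mul_left, hinr_l, hinl_l, hinl_l, hinr_r, hinl_r]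
        ring
      · rw [SemidirectProduct.mul_right, SemidirectProduct.mul_right, hinl_r, hinl_r, hinr_r,
          one_mul, mul_one]
    have h2 := congrArg (fun x : CRModel χ => (τ x).left.toAdd i) h1
    simp only [map_mul, hτinl] at h2
    rw [cr_mul_left, cr_mul_left, hinl_l, hinl_l, hinl_r, map_one, Units.val_one, one_mul] at h2
    have h3 : (τ (inr' h)).left.toAdd i = c h i := rfl
    have h4 : (τ (inr' h)).right = s0 h := rfl
    rw [h3, h4] at h2
    linear_combination -h2
  have hTs : ∀ i h x, T i (((χ i h : (E i)ˣ) : E i) * x) =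
      ((χ i (s h) : (E i)ˣ) : E i) * T i x := by
    intro i h x
    have h1 := hcomp h (Pi.single i x) i
    rw [hTv, hTv] at h1
    simp only [Pi.single_eq_same] at h1
    exact h1
  have hcc : ∀ h k i, c h i + ((χ i (s0 h) : (E i)ˣ) : E i) * c k i =
      c k i + ((χ i (s0 k) : (E i)ˣ) : E i) * c h i := by
    intro h k i
    have h1 : τ (inr' h) * τ (inr' k) = τ (inr' k) * τ (inr' h) := by
      have h0 : inr' h * inr' k = inr' k * inr' h := by
        rw [← hinr_mul, ← hinr_mul, mul_comm h k]
      have h00 := congrArg τ h0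
      rwa [map_mul, map_mul] at h00
    have h2 := congrArg (fun x : CRModel χ => x.left.toAdd i) h1
    simp only [cr_mul_left] at h2
    exact h2
  have hχ' : ∀ i, ∃ h, ((χ i h : (E i)ˣ) : E i) ≠ 1 := by
    intro i
    by_contra hcon
    push Not at hcon
    apply hχ i
    ext h
    rw [hcon h]
    rfl
  choose kk hkk using hχ'
  let u : ∀ i, E i := fun i => c (s0 (kk i)) i / (1 - ((χ i (kk i) : (E i)ˣ) : E i))
  have hcu : ∀ h i, c h i = (1 - ((χ i (s0 h) : (E i)ˣ) : E i)) * u i := by
    intro h i
    have h1 := hcc h (s0 (kk i)) i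
    rw [hss] at h1
    have h2 : (1 - ((χ i (kk i) : (E i)ˣ) : E i)) ≠ 0 := sub_ne_zero.2 (Ne.symm (hkk i))
    have h3 : u i * (1 - ((χ i (kk i) : (E i)ˣ) : E i)) = c (s0 (kk i)) i :=
      div_mul_cancel₀ _ h2
    apply mul_right_cancel₀ h2
    rw [mul_assoc, h3]
    linear_combination h1
  have hTu : ∀ i, T i (u i) = - u i := by
    intro i
    have h1 := hcs (kk i) i
    rw [hcu (kk i) i, hcu (s0 (kk i)) i, hss, sub_mul, one_mul, map_sub, hTs, hs, hss] at h1
    have h2 : (1 - ((χ i (kk i) : (E i)ˣ) : E i)) ≠ 0 := sub_ne_zero.2 (Ne.symm (hkk i))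
    have h3 : (1 - ((χ i (kk i) : (E i)ˣ) : E i)) * (T i (u i) + u i) = 0 := by
      linear_combination h1
    rcases mul_eq_zero.1 h3 with h4 | h4
    · exact absurd h4 h2
    · exact eq_neg_of_add_eq_zero_left h4
  have h2ne : ∀ i, (2 : E i) ≠ 0 := by
    intro i h2
    obtain ⟨m, hm⟩ := hodd i
    have h1 := hcard i 1
    rw [hm, nsmul_eq_mul, mul_one] at h1
    push_cast at h1
    rw [h2, zero_mul, zero_add] at h1
    exact one_ne_zero h1
  let w : ∀ i, E i := fun i => u i / 2
  have hw2 : ∀ i, w i + w i = u i := fun i => by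
    have := h2ne i
    change u i / 2 + u i / 2 = u i
    field_simp
    ring
  have hTw : ∀ i, T i (w i) = - w i := by
    intro i
    have h1 : T i (w i) + T i (w i) = - u i := by rw [← map_add, hw2, hTu]
    have h3 : (2 : E i) * (T i (w i) + w i) = 0 := by
      linear_combination h1 + hw2 i
    rcases mul_eq_zero.1 h3 with h4 | h4
    · exact absurd h4 (h2ne i)
    · exact eq_neg_of_add_eq_zero_left h4
  have hβinv : (inl' (-w))⁻¹ = inl' w := by
    rw [inv_eq_iff_mul_eq_one, ← hinl_add, neg_add_cancel]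
    rfl
  refine ⟨MulAut.conj (inl' (-w)), T, s, hTs, fun i x => hTi i x, hss, fun x => ?_⟩
  have hβ : ∀ y : CRModel χ, MulAut.conj (inl' (-w)) y = inl' (-w) * y * inl' w := by
    intro y
    rw [MulAut.conj_apply, hβinv]
  have hβl : ∀ (y : CRModel χ) i, (inl' (-w) * y * inl' w).left.toAdd i =
      -w i + y.left.toAdd i + ((χ i y.right : (E i)ˣ) : E i) * w i := by
    intro y i
    rw [cr_mul_left, cr_mul_left, hinl_l, hinl_l, hinl_r, SemidirectProduct.mul_right, hinl_r,
      one_mul, map_one, Units.val_one, one_mul, Pi.neg_apply]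
  have hβr : ∀ y : CRModel χ, (inl' (-w) * y * inl' w).right = y.right := by
    intro y
    rw [SemidirectProduct.mul_right, SemidirectProduct.mul_right, hinl_r, hinl_r, one_mul, mul_one]
  have hτx : τ x = inl' (Tt x.left.toAdd) * τ (inr' x.right) := by
    conv_lhs => rw [hdecx x]
    rw [map_mul, hτinl]
  have hτl : ∀ i, (τ x).left.toAdd i = T i (x.left.toAdd i) + c x.right i := by
    intro i
    rw [hτx, cr_mul_left, hinl_l, hinl_r, map_one, Units.val_one, one_mul, hTv]
  have hτr : (τ x).right = s0 x.right := by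
    rw [hτx, SemidirectProduct.mul_right, hinl_r, one_mul]
  rw [hβ, hβ]
  apply SemidirectProduct.ext
  · apply Multiplicative.toAdd.injective
    funext i
    rw [hβl, hτl, hτr]
    change _ = T i ((inl' (-w) * x * inl' w).left.toAdd i)
    rw [hβl, map_add, map_add, map_neg, hTs, hTw, hcu, ← hw2 i, hs]
    ring
  · rw [hβr, hτr]
    change _ = s (inl' (-w) * x * inl' w).right
    rw [hβr]
    rfl
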