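import Mathlib

theorem crs_char {E : Type} [Field E] [Finite E] {p : ℕ} (hp : p.Prime)
    (hE : Nat.card E = p ∨ Nat.card E = p ^ 2) :
    CharP E p ∧ ∀ x : E, x ^ (p ^ 2) = x := by
  obtain ⟨q, hq⟩ := CharP.exists E
  haveI : Fintype E := Fintype.ofFinite E
  obtain ⟨n, hqp, hc⟩ := FiniteField.card E q
  rw [← Nat.card_eq_fintype_card] at hc
  have hqp' : q = p := by
    have hn : (n : ℕ) ≠ 0 := n.pos.ne'
    have h1 : q ∣ Nat.card E := by rw [hc]; exact dvd_pow_self q hn
    rcases hE with h | h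
    · rw [h] at h1
      exact (Nat.prime_dvd_prime_iff_eq hqp hp).1 h1
    · rw [h] at h1
      exact (Nat.prime_dvd_prime_iff_eq hqp hp).1 (hqp.dvd_of_dvd_pow h1)
  refine ⟨hqp' ▸ hq, fun x => ?_⟩
  have h2 := FiniteField.pow_card x
  rw [← Nat.card_eq_fintype_card] at h2
  rcases hE with h | h
  · rw [h] at h2
    rw [sq, pow_mul, h2, h2]
  · rw [h] at h2
    exact h2

/-- the subfield of multipliers -/
def crsA {E : Type} [Field E] (T : E ≃+ E) : Subfield E where
  carrier := {x | ∃ y, ∀ z, T (x * z) = y * T z}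
  mul_mem' := by
    rintro a b ⟨y, hy⟩ ⟨w, hw⟩
    exact ⟨y * w, fun z => by rw [mul_assoc, hy, hw, mul_assoc]⟩
  one_mem' := ⟨1, fun z => by rw [one_mul, one_mul]⟩
  add_mem' := by
    rintro a b ⟨y, hy⟩ ⟨w, hw⟩
    exact ⟨y + w, fun z => by rw [add_mul, map_add, hy, hw, add_mul]⟩
  zero_mem' := ⟨0, fun z => by rw [zero_mul, map_zero, zero_mul]⟩
  neg_mem' := by
    rintro a ⟨y, hy⟩
    exact ⟨-y, fun z => by rw [neg_mul, map_neg, hy, neg_mul]⟩
  inv_mem' := by
    rintro a ⟨y, hy⟩
    by_cases ha : a = 0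
    · exact ⟨0, fun z => by rw [ha, inv_zero, zero_mul, map_zero, zero_mul]⟩
    · have hy0 : y ≠ 0 := by
        intro h0
        have h1 := hy a⁻¹
        rw [h0, zero_mul, mul_inv_cancel₀ ha] at h1
        have h2 : (1 : E) = 0 := T.injective (by rw [h1, map_zero])
        exact one_ne_zero h2
      refine ⟨y⁻¹, fun z => ?_⟩
      have h1 := hy (a⁻¹ * z)
      rw [← mul_assoc, mul_inv_cancel₀ ha, one_mul] at h1
      rw [h1, ← mul_assoc, inv_mul_cancel₀ hy0, one_mul]

theorem crs_T1 {E : Type} [Field E] (T : E ≃+ E) : T 1 ≠ 0 := by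
  intro h
  have h2 : (1 : E) = 0 := T.injective (by rw [h, map_zero])
  exact one_ne_zero h2

theorem crs_semi {E : Type} [Field E] [Finite E] {p : ℕ} (hp : p.Prime) (T : E ≃+ E)
    (hE : Nat.card E = p ∨ (Nat.card E = p ^ 2 ∧ ∃ a0 : E, a0 ^ p ≠ a0 ∧
      ∃ b, ∀ z, T (a0 * z) = b * T z)) :
    ∀ x z, T (x * z) = T x * (T 1)⁻¹ * T z := by
  have hdvd : Nat.card (crsA T) ∣ Nat.card E :=
    AddSubgroup.card_addSubgroup_dvd_card (crsA T).toSubring.toAddSubgroup
  have hone : 1 < Nat.card (crsA T) := Finite.one_lt_card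
  have hcard : Nat.card (crsA T) = Nat.card E := by
    rcases hE with h | ⟨h, a0, ha0, hb⟩
    · rw [h] at hdvd ⊢
      rcases (Nat.dvd_prime hp).1 hdvd with h1 | h1
      · omega
      · exact h1
    · rw [h] at hdvd ⊢
      obtain ⟨k, hk, hk2⟩ := (Nat.dvd_prime_pow hp).1 hdvd
      interval_cases k
      · rw [hk2, pow_zero] at hone
        omega
      · exfalso
        rw [pow_one] at hk2
        haveI : Fintype (crsA T) := Fintype.ofFinite _
        have h3 := FiniteField.pow_card (⟨a0, hb⟩ : crsA T)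
        rw [← Nat.card_eq_fintype_card, hk2] at h3
        exact ha0 (congrArg Subtype.val h3)
      · exact hk2
  have htop : (crsA T).toSubring.toAddSubgroup = ⊤ :=
    AddSubgroup.eq_top_of_card_eq _ hcard
  intro x z
  have hx : x ∈ (crsA T).toSubring.toAddSubgroup := by rw [htop]; exact AddSubgroup.mem_top x
  obtain ⟨y, hy⟩ := (show ∃ y, ∀ z, T (x * z) = y * T z from hx)
  have h1 := hy 1
  rw [mul_one] at h1
  rw [hy z, h1, mul_assoc, mul_assoc, mul_inv_cancel_left₀ (crs_T1 T)]

theorem crs_frob {E : Type} [Field E] {p : ℕ} [Fact p.Prime] [CharP E p] (σ : E →+* E)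
    (hpow : ∀ x : E, x ^ (p ^ 2) = x) : (∀ x, σ x = x) ∨ (∀ x, σ x = x ^ p) := by
  have hfix : ∀ x : E, x ^ p = x → σ x = x := by
    intro x hx
    obtain ⟨n, hn⟩ := (mem_bot_iff_intCast p E).1 ((Subfield.mem_bot_iff_pow_eq_self E p).2 hx)
    rw [← hn, map_intCast]
  have hpp : ∀ x : E, (x ^ p) ^ p = x := fun x => by rw [← pow_mul, ← sq, hpow]
  have key : ∀ x, σ x = x ∨ σ x = x ^ p := by
    intro x
    have hs : σ (x + x ^ p) = x + x ^ p := by
      apply hfix
      rw [add_pow_char, hpp, add_comm]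
    have hm : σ (x * x ^ p) = x * x ^ p := by
      apply hfix
      rw [mul_pow, hpp, mul_comm]
    have h1 : σ (x * x - (x + x ^ p) * x + x * x ^ p) = 0 := by
      have : x * x - (x + x ^ p) * x + x * x ^ p = 0 := by ring
      rw [this, map_zero]
    rw [map_add, map_sub, map_mul, map_mul σ (x + x ^ p), hs, hm] at h1
    have h2 : (σ x - x) * (σ x - x ^ p) = 0 := by linear_combination h1
    rcases mul_eq_zero.1 h2 with h3 | h3
    · exact Or.inl (sub_eq_zero.1 h3)
    · exact Or.inr (sub_eq_zero.1 h3)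
  by_contra hcon
  push Not at hcon
  obtain ⟨⟨u, hu⟩, ⟨v, hv⟩⟩ := hcon
  have hu' : σ u = u ^ p := (key u).resolve_left hu
  have hv' : σ v = v := (key v).resolve_right hv
  rcases key (u + v) with h | h
  · rw [map_add, hu', hv'] at h
    exact hu (by rw [hu']; exact add_right_cancel h)
  · rw [map_add, hu', hv', add_pow_char] at h
    exact hv (by rw [hv']; exact add_left_cancel h)

theorem crs_tri {E : Type} [Field E] {p : ℕ} [Fact p.Prime] [CharP E p] (T : E ≃+ E)
    (hpow : ∀ x : E, x ^ (p ^ 2) = x) (hT : ∀ x, T (T x) = x)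
    (hsemi : ∀ x z, T (x * z) = T x * (T 1)⁻¹ * T z) :
    (∀ x, T x = x) ∨ (∀ x, T x = -x) ∨
      ((¬ ∀ x : E, x ^ p = x) ∧ ∀ x z, T (x * z) = x ^ p * T z) := by
  have hT1 := crs_T1 T
  let σ : E →+* E :=
    { toFun := fun x => T x * (T 1)⁻¹
      map_one' := mul_inv_cancel₀ hT1
      map_mul' := fun x y => by
        show T (x * y) * (T 1)⁻¹ = T x * (T 1)⁻¹ * (T y * (T 1)⁻¹)
        rw [hsemi]; ring
      map_zero' := by show T 0 * (T 1)⁻¹ = 0; rw [map_zero, zero_mul]
      map_add' := fun x y => by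
        show T (x + y) * (T 1)⁻¹ = T x * (T 1)⁻¹ + T y * (T 1)⁻¹
        rw [map_add, add_mul] }
  have hσ : ∀ x, σ x = T x * (T 1)⁻¹ := fun x => rfl
  have hid : (∀ x, σ x = x) → (∀ x, T x = x) ∨ (∀ x, T x = -x) := by
    intro h
    have h1 : ∀ x, T x = x * T 1 := by
      intro x
      have h2 := h x
      rw [hσ] at h2
      calc T x = T x * (T 1)⁻¹ * T 1 := by rw [mul_assoc, inv_mul_cancel₀ hT1, mul_one]
        _ = x * T 1 := by rw [h2]
    have h2 : T 1 * T 1 = 1 := by
      have h3 := hT 1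
      rw [h1 (T 1)] at h3
      exact h3
    rcases mul_self_eq_one_iff.1 h2 with h3 | h3
    · left; intro x; rw [h1, h3, mul_one]
    · right; intro x; rw [h1, h3]; ring
  by_cases hall : ∀ x : E, x ^ p = x
  · have : ∀ x, σ x = x := by
      rcases crs_frob σ hpow with h | h
      · exact h
      · intro x; rw [h, hall]
    rcases hid this with h | h
    · exact Or.inl h
    · exact Or.inr (Or.inl h)
  · rcases crs_frob σ hpow with h | h
    · rcases hid h with h | h
      · exact Or.inl h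
      · exact Or.inr (Or.inl h)
    · refine Or.inr (Or.inr ⟨hall, fun x z => ?_⟩)
      rw [hsemi, ← hσ, h]

theorem crs_all {E : Type} [Finite E] (T : E → E)
    (h : Nat.card {x : E // T x = x} = Nat.card E) : ∀ x, T x = x := by
  have hb := Function.Injective.bijective_of_nat_card_le
    (f := fun x : {x : E // T x = x} => (x : E)) Subtype.val_injective h.ge
  intro x
  obtain ⟨y, hy⟩ := hb.2 x
  have h1 := y.2
  have hy' : (y : E) = x := hy
  rwa [hy'] at h1

theorem crs_none {E : Type} [Field E] [Finite E] (T : E ≃+ E) (hT : ∀ x, T (T x) = x)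
    (h : Nat.card {x : E // T x = x} = 1) : ∀ x, T x = -x := by
  obtain ⟨hs, _⟩ := Nat.card_eq_one_iff_unique.1 h
  intro x
  have h1 : T (x + T x) = x + T x := by rw [map_add, hT, add_comm]
  have h2 := hs.elim (⟨x + T x, h1⟩ : {x : E // T x = x}) ⟨0, map_zero T⟩
  have h3 : x + T x = 0 := congrArg Subtype.val h2
  exact eq_neg_of_add_eq_zero_right h3

theorem crs_one {E : Type} [Field E] [Finite E] {p : ℕ} [CharP E p] (hp2 : p ≠ 2)
    (T : E ≃+ E) (h : ∀ x, T x = -x) : Nat.card {x : E // T x = x} = 1 := by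
  have h2 : (2 : E) ≠ 0 := Ring.two_ne_zero (by rwa [ringChar.eq E p])
  refine Nat.card_eq_one_iff_unique.2 ⟨⟨fun a b => ?_⟩, ⟨⟨0, map_zero T⟩⟩⟩
  have key : ∀ a : {x : E // T x = x}, (a : E) = 0 := by
    intro a
    have h3 := a.2
    rw [h] at h3
    have h4 : 2 * (a : E) = 0 := by linear_combination -h3
    exact (mul_eq_zero.1 h4).resolve_left h2
  exact Subtype.ext (by rw [key a, key b])

/-- TARGET: semilinear involutions of a field with `p` or `p^2` elements are determined up to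
conjugation by the number of fixed points -/
theorem cr_semilinear_conj {E : Type} [Field E] [Finite E] {p : ℕ} (hp : p.Prime) (hp2 : p ≠ 2)
    {H : Type} [CommGroup H] [Finite H]
    (hE : Nat.card E = p ∨ (Nat.card E = p ^ 2 ∧ ∀ r, r.Prime → r ∣ Nat.card H → ¬ r ∣ p - 1))
    (χ : H →* Eˣ) (hχ : χ ≠ 1) (T T' : E ≃+ E) (s s' : H ≃* H) (hT : ∀ x, T (T x) = x)
    (hT' : ∀ x, T' (T' x) = x)
    (h1 : ∀ h x, T (((χ h : Eˣ) : E) * x) = ((χ (s h) : Eˣ) : E) * T x)
    (h1' : ∀ h x, T' (((χ h : Eˣ) : E) * x) = ((χ (s' h) : Eˣ) : E) * T' x)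
    (hfix : Nat.card {x : E // T x = x} = Nat.card {x : E // T' x = x}) :
    (∀ h, χ (s h) = χ (s' h)) ∧ ∃ e : Eˣ, ∀ x, T' ((e : E) * x) = (e : E) * T x := by
  haveI : Fact p.Prime := ⟨hp⟩
  have hE' : Nat.card E = p ∨ Nat.card E = p ^ 2 := by
    rcases hE with h | h
    · exact Or.inl h
    · exact Or.inr h.1
  obtain ⟨hchar, hpow⟩ := crs_char hp hE'
  haveI := hchar
  have hex : (Nat.card E = p ^ 2 ∧ ∀ r, r.Prime → r ∣ Nat.card H → ¬ r ∣ p - 1) →
      ∃ h0 : H, ((χ h0 : Eˣ) : E) ^ p ≠ ((χ h0 : Eˣ) : E) := by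
    rintro ⟨_, hr⟩
    by_contra hcon
    push Not at hcon
    apply hχ
    ext h
    have h3 := hcon h
    have h4 : (χ h) ^ (p - 1) = 1 := by
      apply Units.ext
      have h5 : ((χ h : Eˣ) : E) ^ (p - 1) * ((χ h : Eˣ) : E) = 1 * ((χ h : Eˣ) : E) := by
        rw [← pow_succ, Nat.sub_add_cancel hp.one_lt.le, h3, one_mul]
      rw [Units.val_pow_eq_pow_val, Units.val_one]
      exact mul_right_cancel₀ (Units.ne_zero _) h5
    have h6 : (χ h) ^ (Nat.card H) = 1 := by
      rw [← map_pow, pow_card_eq_one', map_one]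
    have hcop : Nat.Coprime (Nat.card H) (p - 1) := Nat.coprime_of_dvd hr
    have h7 : orderOf (χ h) ∣ 1 := by
      rw [← hcop]
      exact Nat.dvd_gcd (orderOf_dvd_of_pow_eq_one h6) (orderOf_dvd_of_pow_eq_one h4)
    rw [orderOf_eq_one_iff.1 (Nat.dvd_one.1 h7)]
    rfl
  have hsemi : ∀ x z, T (x * z) = T x * (T 1)⁻¹ * T z := by
    refine crs_semi hp T ?_
    rcases hE with h | h
    · exact Or.inl h
    · obtain ⟨h0, hh0⟩ := hex h
      exact Or.inr ⟨h.1, _, hh0, _, fun z => h1 h0 z⟩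
  have hsemi' : ∀ x z, T' (x * z) = T' x * (T' 1)⁻¹ * T' z := by
    refine crs_semi hp T' ?_
    rcases hE with h | h
    · exact Or.inl h
    · obtain ⟨h0, hh0⟩ := hex h
      exact Or.inr ⟨h.1, _, hh0, _, fun z => h1' h0 z⟩
  -- the three cases
  have cId : (∀ x, T x = x) → (∀ x, T' x = x) →
      (∀ h, χ (s h) = χ (s' h)) ∧ ∃ e : Eˣ, ∀ x, T' ((e : E) * x) = (e : E) * T x := by
    intro a a'
    refine ⟨fun h => ?_, 1, fun x => by rw [a, a']⟩
    have e1 := h1 h 1
    have e2 := h1' h 1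
    rw [a, a, mul_one, mul_one] at e1
    rw [a', a', mul_one, mul_one] at e2
    exact Units.ext (e1.symm.trans e2)
  have cNeg : (∀ x, T x = -x) → (∀ x, T' x = -x) →
      (∀ h, χ (s h) = χ (s' h)) ∧ ∃ e : Eˣ, ∀ x, T' ((e : E) * x) = (e : E) * T x := by
    intro a a'
    refine ⟨fun h => ?_, 1, fun x => by rw [a, a', Units.val_one, one_mul, one_mul]⟩
    have e1 := h1 h 1
    have e2 := h1' h 1
    rw [a, a, mul_one] at e1
    rw [a', a', mul_one] at e2
    apply Units.ext
    linear_combination e1 - e2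
  have tId : (∀ x, T x = x) → (∀ x, T' x = x) := by
    intro a
    refine crs_all T' ?_
    rw [← hfix]
    exact Nat.card_congr (Equiv.subtypeUnivEquiv a)
  have tId' : (∀ x, T' x = x) → (∀ x, T x = x) := by
    intro a
    refine crs_all T ?_
    rw [hfix]
    exact Nat.card_congr (Equiv.subtypeUnivEquiv a)
  have tNeg : (∀ x, T x = -x) → (∀ x, T' x = -x) := by
    intro a
    exact crs_none T' hT' (by rw [← hfix]; exact crs_one hp2 T a)
  have tNeg' : (∀ x, T' x = -x) → (∀ x, T x = -x) := by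
    intro a
    exact crs_none T hT (by rw [hfix]; exact crs_one hp2 T' a)
  rcases crs_tri T hpow hT hsemi with a | a | ⟨hnot, a⟩
  · exact cId a (tId a)
  · exact cNeg a (tNeg a)
  · rcases crs_tri T' hpow hT' hsemi' with a' | a' | ⟨_, a'⟩
    · exact cId (tId' a') a'
    · exact cNeg (tNeg' a') a'
    · have hT1 := crs_T1 T
      have hT1' := crs_T1 T'
      refine ⟨fun h => ?_, ?_⟩
      · have e1 := h1 h 1
        have e2 := h1' h 1
        rw [a] at e1
        rw [a'] at e2
        have e3 := mul_right_cancel₀ hT1 e1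
        have e4 := mul_right_cancel₀ hT1' e2
        exact Units.ext (e3.symm.trans e4)
      · have k1 : (T 1) ^ p * T 1 = 1 := by
          have := hT 1
          conv_lhs at this => rw [← mul_one (T 1)]
          rwa [a] at this
        have k2 : (T' 1) ^ p * T' 1 = 1 := by
          have := hT' 1
          conv_lhs at this => rw [← mul_one (T' 1)]
          rwa [a'] at this
        set dd := T 1 * (T' 1)⁻¹ with hdd
        have hd : dd ^ p * dd = 1 := by
          have : dd ^ p * dd = ((T 1) ^ p * T 1) * ((T' 1) ^ p * T' 1)⁻¹ := by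
            rw [hdd, mul_pow, inv_pow, mul_inv]; ring
          rw [this, k1, k2, inv_one, one_mul]
        have hpp : ∀ x : E, (x ^ p) ^ p = x := fun x => by rw [← pow_mul, ← sq, hpow]
        have hy : ∃ y : E, y + dd ^ p * y ^ p ≠ 0 := by
          by_contra hcon
          push Not at hcon
          apply hnot
          have h3 := hcon 1
          rw [one_pow, mul_one] at h3
          intro x
          have h4 := hcon x
          have h5 : dd ^ p = -1 := (neg_eq_of_add_eq_zero_right h3).symm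
          rw [h5] at h4
          linear_combination -h4
        obtain ⟨y, hy⟩ := hy
        refine ⟨Units.mk0 _ hy, fun x => ?_⟩
        rw [Units.val_mk0]
        have hep : (y + dd ^ p * y ^ p) ^ p = dd * (y + dd ^ p * y ^ p) := by
          rw [add_pow_char, mul_pow, hpp, hpp]
          linear_combination (-(y ^ p)) * hd
        have e1 : T x = x ^ p * T 1 := by
          conv_lhs => rw [← mul_one x]
          rw [a]
        have e2 : T' 1 * dd = T 1 := by
          rw [hdd]
          field_simp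
        have e3 : T' ((y + dd ^ p * y ^ p) * x) = ((y + dd ^ p * y ^ p) * x) ^ p * T' 1 := by
          conv_lhs => rw [← mul_one ((y + dd ^ p * y ^ p) * x)]
          rw [a']
        rw [e3, e1, mul_pow, hep, ← e2]
        ring
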