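import Mathlib
import Pool.Agent.MPcb9dee.Aut

theorem cr_arith_dvd {ι : Type} [Fintype ι] (a a' e : ι → ℕ) (b b' n : ℕ)
    (ha : ∀ i, a i ∣ e i) (ha' : ∀ i, a' i ∣ e i) (hb : b ∣ n) (hb' : b' ∣ n)
    (he : Pairwise fun i j => Nat.Coprime (e i) (e j)) (hn : ∀ i, Nat.Coprime (e i) n)
    (h : (∏ i, a i) * b = (∏ i, a' i) * b') : (∀ i, a i ∣ a' i) ∧ b ∣ b' := by
  classical
  constructor
  · intro i
    have h1 : a i ∣ (∏ i, a' i) * b' := by
      rw [← h]
      exact Dvd.dvd.mul_right (Finset.dvd_prod_of_mem a (Finset.mem_univ i)) b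
    have h2 : Nat.Coprime (a i) b' := ((hn i).coprime_dvd_left (ha i)).coprime_dvd_right hb'
    have h3 : a i ∣ ∏ i, a' i := h2.dvd_of_dvd_mul_right h1
    rw [← Finset.mul_prod_erase Finset.univ a' (Finset.mem_univ i)] at h3
    refine Nat.Coprime.dvd_of_dvd_mul_right ?_ h3
    refine Nat.Coprime.prod_right fun j hj => ?_
    have hji : i ≠ j := (Finset.ne_of_mem_erase hj).symm
    exact ((he hji).coprime_dvd_left (ha i)).coprime_dvd_right (ha' j)
  · have h1 : b ∣ (∏ i, a' i) * b' := by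
      rw [← h]
      exact Dvd.intro_left _ rfl
    refine Nat.Coprime.dvd_of_dvd_mul_left ?_ h1
    refine Nat.Coprime.prod_right fun j _ => ?_
    exact (((hn j).coprime_dvd_left (ha' j)).coprime_dvd_right hb).symm

theorem cr_card {ι : Type} [Fintype ι] {E : ι → Type} [∀ i, Field (E i)] [∀ i, Finite (E i)]
    {H : Type} [CommGroup H] [Finite H] (χ : ∀ i, H →* (E i)ˣ)
    (T : ∀ i, E i ≃+ E i) (s : H ≃* H)
    (hTs : ∀ i h x, T i (((χ i h : (E i)ˣ) : E i) * x) = ((χ i (s h) : (E i)ˣ) : E i) * T i x) :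
    Nat.card {x : CRModel χ // crAut χ T s hTs x = x} =
      (∏ i, Nat.card {x : E i // T i x = x}) * Nat.card {h : H // s h = h} := by
  rw [← Nat.card_pi, ← Nat.card_prod]
  refine Nat.card_congr ?_
  refine
    { toFun := fun x => (fun i => ⟨x.1.left.toAdd i, ?_⟩, ⟨x.1.right, ?_⟩)
      invFun := fun y => ⟨⟨Multiplicative.ofAdd fun i => (y.1 i).1, y.2.1⟩, ?_⟩
      left_inv := ?_
      right_inv := ?_ }
  · have h1 := congrArg (fun z : CRModel χ => z.left.toAdd i) x.2
    exact h1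
  · have h1 := congrArg (fun z : CRModel χ => z.right) x.2
    exact h1
  · refine SemidirectProduct.ext ?_ ?_
    · apply Multiplicative.toAdd.injective
      funext i
      exact (y.1 i).2
    · exact y.2.2
  · intro x
    rfl
  · intro y
    rfl

theorem cr_dvdE {E : Type} [Field E] [Finite E] (T : E ≃+ E) :
    Nat.card {x : E // T x = x} ∣ Nat.card E :=
  AddSubgroup.card_addSubgroup_dvd_card (T.toAddMonoidHom.eqLocus (AddMonoidHom.id E))

theorem cr_dvdH {H : Type} [CommGroup H] [Finite H] (s : H ≃* H) :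
    Nat.card {x : H // s x = x} ∣ Nat.card H :=
  Subgroup.card_subgroup_dvd_card (s.toMonoidHom.eqLocus (MonoidHom.id H))

/-- TARGET: fixed points of `crAut` -/
theorem cr_fix_eq {ι : Type} [Fintype ι] {E : ι → Type} [∀ i, Field (E i)] [∀ i, Finite (E i)]
    {H : Type} [CommGroup H] [Finite H] (χ : ∀ i, H →* (E i)ˣ)
    (hcopE : Pairwise fun i j => Nat.Coprime (Nat.card (E i)) (Nat.card (E j)))
    (hcopH : ∀ i, Nat.Coprime (Nat.card (E i)) (Nat.card H))
    (T T' : ∀ i, E i ≃+ E i) (s s' : H ≃* H)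
    (hTs : ∀ i h x, T i (((χ i h : (E i)ˣ) : E i) * x) = ((χ i (s h) : (E i)ˣ) : E i) * T i x)
    (hTs' : ∀ i h x, T' i (((χ i h : (E i)ˣ) : E i) * x) = ((χ i (s' h) : (E i)ˣ) : E i) * T' i x)
    (hfix : Nat.card {x : CRModel χ // crAut χ T s hTs x = x} =
      Nat.card {x : CRModel χ // crAut χ T' s' hTs' x = x}) :
    (∀ i, Nat.card {x : E i // T i x = x} = Nat.card {x : E i // T' i x = x}) ∧
      Nat.card {h : H // s h = h} = Nat.card {h : H // s' h = h} := by
  rw [cr_card χ T s hTs, cr_card χ T' s' hTs'] at hfix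
  obtain ⟨h1, h2⟩ := cr_arith_dvd (fun i => Nat.card {x : E i // T i x = x})
    (fun i => Nat.card {x : E i // T' i x = x}) (fun i => Nat.card (E i))
    (Nat.card {h : H // s h = h}) (Nat.card {h : H // s' h = h}) (Nat.card H)
    (fun i => cr_dvdE (T i)) (fun i => cr_dvdE (T' i)) (cr_dvdH s) (cr_dvdH s') hcopE hcopH hfix
  obtain ⟨h3, h4⟩ := cr_arith_dvd (fun i => Nat.card {x : E i // T' i x = x})
    (fun i => Nat.card {x : E i // T i x = x}) (fun i => Nat.card (E i))
    (Nat.card {h : H // s' h = h}) (Nat.card {h : H // s h = h}) (Nat.card H)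
    (fun i => cr_dvdE (T' i)) (fun i => cr_dvdE (T i)) (cr_dvdH s') (cr_dvdH s) hcopE hcopH
    hfix.symm
  exact ⟨fun i => Nat.dvd_antisymm (h1 i) (h3 i), Nat.dvd_antisymm h2 h4⟩
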