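import Mathlib

theorem cr_aux_sq {X : Type} [CommGroup X] [Finite X] {r : ℕ} (hr : r.Prime) (hr2 : r ≠ 2)
    (hX : Nat.card X ∣ r ^ 2) (x : X) : (x * x) ^ ((r ^ 2 + 1) / 2) = x := by
  have hodd : Odd r := hr.odd_of_ne_two hr2
  have h2 : 2 ∣ r ^ 2 + 1 := by
    obtain ⟨k, hk⟩ := hodd
    exact ⟨2 * k ^ 2 + 2 * k + 1, by rw [hk]; ring⟩
  have h1 : x ^ (r ^ 2) = 1 := by
    obtain ⟨k, hk⟩ := hX
    rw [hk, pow_mul, pow_card_eq_one', one_pow]
  rw [← pow_two, ← pow_mul, Nat.mul_div_cancel' h2, pow_succ, h1, one_mul]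

theorem cr_aux_one {X : Type} [CommGroup X] [Finite X] {r : ℕ} (hr : r.Prime) (hr2 : r ≠ 2)
    (hX : Nat.card X ∣ r ^ 2) (x : X) (hx : x * x = 1) : x = 1 := by
  rw [← cr_aux_sq hr hr2 hX x, hx, one_pow]

/-- two subgroups of order `r` -/
theorem cr_aux_L {X : Type} [CommGroup X] [Finite X] {r : ℕ} (hr : r.Prime)
    (D P P' : Subgroup X) (hc : Nat.card P = r) (hc' : Nat.card P' = r)
    (p p' : X →* X) (h1 : ∀ x ∈ P, p x ∈ P') (h2 : ∀ x ∈ P, p x * x⁻¹ ∈ D)
    (h1' : ∀ x ∈ P', p' x ∈ P) (h2' : ∀ x ∈ P', p' x * x⁻¹ ∈ D) :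
    ∃ e : P ≃* P', ∀ x : P, (e x : X) * (x : X)⁻¹ ∈ D := by
  haveI : Fact r.Prime := ⟨hr⟩
  -- the restricted homomorphisms
  let q : P →* P' := (p.comp P.subtype).codRestrict P' (fun x => h1 _ x.2)
  let q' : P' →* P := (p'.comp P'.subtype).codRestrict P (fun x => h1' _ x.2)
  have hq : ∀ x : P, (q x : X) = p x := fun x => rfl
  have hq' : ∀ x : P', (q' x : X) = p' x := fun x => rfl
  -- a homomorphism from a group of order `r` is injective or trivial
  have key : ∀ {G H : Type} [Group G] [Group H] [Finite G] [Finite H] (f : G →* H),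
      Nat.card G = r → Nat.card H = r → (Function.Bijective f) ∨ ∀ x, f x = 1 := by
    intro G H _ _ _ _ f hG hH
    rcases (Nat.dvd_prime hr).1 (hG ▸ Subgroup.card_subgroup_dvd_card f.ker) with h | h
    · left
      have h3 : f.ker = ⊥ := Subgroup.card_eq_one.1 h
      have hinj : Function.Injective f := (MonoidHom.ker_eq_bot_iff f).1 h3
      exact (Nat.bijective_iff_injective_and_card f).2 ⟨hinj, hG.trans hH.symm⟩
    · right
      have h3 : f.ker = ⊤ := Subgroup.eq_top_of_card_eq _ (h.trans hG.symm)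
      intro x
      have : x ∈ f.ker := by rw [h3]; trivial
      exact this
  rcases key q hc hc' with h | h
  · refine ⟨MulEquiv.ofBijective q h, fun x => ?_⟩
    show (q x : X) * (x : X)⁻¹ ∈ D
    rw [hq]; exact h2 _ x.2
  · rcases key q' hc' hc with h' | h'
    · refine ⟨(MulEquiv.ofBijective q' h').symm, fun x => ?_⟩
      obtain ⟨y, rfl⟩ := h'.2 x
      have : (MulEquiv.ofBijective q' h').symm (q' y) = y :=
        (MulEquiv.ofBijective q' h').symm_apply_apply y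
      rw [this]
      have h3 := D.inv_mem (h2' _ y.2)
      rw [mul_inv_rev, inv_inv] at h3
      rw [hq']; exact h3
    · refine ⟨mulEquivOfPrimeCardEq hc hc', fun x => ?_⟩
      have h3 : ∀ x : P, (x : X) ∈ D := by
        intro x
        have h4 := h2 _ x.2
        rw [← hq, h x, Subgroup.coe_one, one_mul] at h4
        exact (Subgroup.inv_mem_iff D).1 h4
      have h3' : ∀ x : P', (x : X) ∈ D := by
        intro x
        have h4 := h2' _ x.2
        rw [← hq', h' x, Subgroup.coe_one, one_mul] at h4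
        exact (Subgroup.inv_mem_iff D).1 h4
      exact D.mul_mem (h3' _) (D.inv_mem (h3 _))

theorem cr_aux_M {X : Type} [CommGroup X] [Finite X] {r : ℕ} (hr : r.Prime) (hr2 : r ≠ 2)
    (hX : Nat.card X ∣ r ^ 2) (s s' : X →* X) (hs : ∀ x, s (s x) = x) (hs' : ∀ x, s' (s' x) = x)
    (D : Subgroup X) (hD : ∀ x, s x * (s' x)⁻¹ ∈ D)
    (P P' : Subgroup X) (hP : ∀ x, x ∈ P ↔ s x = x) (hP' : ∀ x, x ∈ P' ↔ s' x = x)
    (hc : Nat.card P = r) (hc' : Nat.card P' = r) :
    ∃ e : P ≃* P', ∀ x : P, (e x : X) * (x : X)⁻¹ ∈ D := by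
  have hsq := cr_aux_sq hr hr2 hX
  refine cr_aux_L hr D P P' hc hc'
    ((powMonoidHom ((r ^ 2 + 1) / 2)).comp (MonoidHom.id X * s'))
    ((powMonoidHom ((r ^ 2 + 1) / 2)).comp (MonoidHom.id X * s)) ?_ ?_ ?_ ?_
  · intro x _
    rw [hP']
    show s' ((x * s' x) ^ _) = (x * s' x) ^ _
    rw [map_pow, map_mul, hs', mul_comm]
  · intro x hx
    have hx1 := (hP x).1 hx
    show (x * s' x) ^ ((r ^ 2 + 1) / 2) * x⁻¹ ∈ D
    have : (x * s' x) ^ ((r ^ 2 + 1) / 2) * x⁻¹ = (s x * (s' x)⁻¹)⁻¹ ^ ((r ^ 2 + 1) / 2) := by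
      conv_lhs => rw [← hsq x⁻¹]
      rw [← mul_pow, hx1]
      congr 1
      rw [mul_inv_rev, inv_inv]
      rw [mul_mul_mul_comm, mul_inv_cancel, one_mul]
    rw [this]
    exact D.pow_mem (D.inv_mem (hD x)) _
  · intro x _
    rw [hP]
    show s ((x * s x) ^ _) = (x * s x) ^ _
    rw [map_pow, map_mul, hs, mul_comm]
  · intro x hx
    have hx1 := (hP' x).1 hx
    show (x * s x) ^ ((r ^ 2 + 1) / 2) * x⁻¹ ∈ D
    have : (x * s x) ^ ((r ^ 2 + 1) / 2) * x⁻¹ = (s x * (s' x)⁻¹) ^ ((r ^ 2 + 1) / 2) := by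
      conv_lhs => rw [← hsq x⁻¹]
      rw [← mul_pow, hx1]
      congr 1
      rw [mul_mul_mul_comm, mul_inv_cancel, one_mul]
    rw [this]
    exact D.pow_mem (hD x) _

/-- TARGET: involutions of an abelian group of order dividing `r^2`, relative to a subgroup `D` -/
theorem cr_invol_conj_prime {X : Type} [CommGroup X] [Finite X] {r : ℕ} (hr : r.Prime) (hr2 : r ≠ 2)
    (hX : Nat.card X ∣ r ^ 2) (s s' : X ≃* X) (hs : ∀ x, s (s x) = x) (hs' : ∀ x, s' (s' x) = x)
    (hfix : Nat.card {x : X // s x = x} = Nat.card {x : X // s' x = x})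
    (D : Subgroup X) (hD : ∀ x, s x * (s' x)⁻¹ ∈ D) (hDs : ∀ x ∈ D, s x ∈ D) (hDs' : ∀ x ∈ D, s' x ∈ D) :
    ∃ α : X ≃* X, (∀ x, α (s x) = s' (α x)) ∧ ∀ x, α x * x⁻¹ ∈ D := by
  have hsq := cr_aux_sq hr hr2 hX
  have hone := cr_aux_one hr hr2 hX
  obtain ⟨m, hm⟩ : ∃ m, m = (r ^ 2 + 1) / 2 := ⟨_, rfl⟩
  rw [← hm] at hsq
  -- the four subgroups
  let F (t : X ≃* X) : Subgroup X := MonoidHom.eqLocus t.toMonoidHom (MonoidHom.id X)
  let I (t : X ≃* X) : Subgroup X := MonoidHom.eqLocus (t.toMonoidHom)⁻¹ (MonoidHom.id X)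
  have hF : ∀ (t : X ≃* X) x, x ∈ F t ↔ t x = x := fun t x => Iff.rfl
  have hI : ∀ (t : X ≃* X) x, x ∈ I t ↔ (t x)⁻¹ = x := fun t x => Iff.rfl
  -- product of the orders
  have hprod : ∀ t : X ≃* X, (∀ x, t (t x) = x) → Nat.card (F t) * Nat.card (I t) = Nat.card X := by
    intro t ht
    rw [← Nat.card_prod]
    refine Nat.card_congr (Equiv.ofBijective (fun y : F t × I t => (y.1 : X) * (y.2 : X)) ⟨?_, ?_⟩)
    · rintro ⟨⟨a, ha⟩, ⟨b, hb⟩⟩ ⟨⟨c, hc⟩, ⟨d, hd⟩⟩ h
      simp only at h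
      rw [hF] at ha hc
      rw [hI] at hb hd
      have hb' : t b = b⁻¹ := by rw [← hb, inv_inv, hb]
      have hd' : t d = d⁻¹ := by rw [← hd, inv_inv, hd]
      have h2 : a * b⁻¹ = c * d⁻¹ := by
        have := congrArg t h
        rwa [map_mul, map_mul, ha, hc, hb', hd'] at this
      have h3 : a * a = c * c := by
        calc a * a = (a * b) * (a * b⁻¹) := by
              rw [mul_comm a b⁻¹, ← mul_assoc, mul_assoc a b b⁻¹, mul_inv_cancel, mul_one]
          _ = (c * d) * (c * d⁻¹) := by rw [h, h2]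
          _ = c * c := by
              rw [mul_comm c d⁻¹, ← mul_assoc, mul_assoc c d d⁻¹, mul_inv_cancel, mul_one]
      have h4 : a = c := by rw [← hsq a, ← hsq c, h3]
      subst h4
      have h5 : b = d := mul_left_cancel h
      subst h5
      rfl
    · intro x
      refine ⟨⟨⟨(x * t x) ^ m, ?_⟩, ⟨(x * (t x)⁻¹) ^ m, ?_⟩⟩, ?_⟩
      · rw [hF, map_pow, map_mul, ht, mul_comm]
      · rw [hI, map_pow, map_mul, map_inv, ht, ← inv_pow, mul_inv_rev, inv_inv]
      · show (x * t x) ^ m * (x * (t x)⁻¹) ^ m = x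
        rw [← mul_pow]
        conv_rhs => rw [← hsq x]
        congr 1
        calc x * t x * (x * (t x)⁻¹) = x * (t x * (x * (t x)⁻¹)) := by rw [mul_assoc]
          _ = x * x := by rw [mul_comm x (t x)⁻¹, ← mul_assoc (t x), mul_inv_cancel, one_mul]
  have hFc : Nat.card (F s) = Nat.card (F s') := hfix
  have hpos : 0 < Nat.card (F s) := Nat.card_pos
  have hIc : Nat.card (I s) = Nat.card (I s') := by
    have h1 := hprod s hs
    have h2 := hprod s' hs'
    rw [← hFc, ← h1] at h2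
    exact (Nat.eq_of_mul_eq_mul_left hpos h2).symm
  by_cases hI1 : Nat.card (I s) = 1
  · -- both are the identity
    have hid : ∀ t : X ≃* X, (∀ x, t (t x) = x) → Nat.card (I t) = 1 → ∀ x, t x = x := by
      intro t ht h x
      have h1 := hprod t ht
      rw [h, mul_one] at h1
      have h2 : F t = ⊤ := Subgroup.eq_top_of_card_eq _ h1
      have : x ∈ F t := by rw [h2]; trivial
      exact this
    refine ⟨MulEquiv.refl X, fun x => ?_, fun x => ?_⟩
    · show s x = s' x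
      rw [hid s hs hI1, hid s' hs' (hIc ▸ hI1)]
    · show x * x⁻¹ ∈ D
      rw [mul_inv_cancel]; exact D.one_mem
  by_cases hF1 : Nat.card (F s) = 1
  · have hid : ∀ t : X ≃* X, (∀ x, t (t x) = x) → Nat.card (F t) = 1 → ∀ x, t x = x⁻¹ := by
      intro t ht h x
      have h1 := hprod t ht
      rw [h, one_mul] at h1
      have h2 : I t = ⊤ := Subgroup.eq_top_of_card_eq _ h1
      have : x ∈ I t := by rw [h2]; trivial
      rw [hI] at this
      rw [← this, inv_inv, this]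
    refine ⟨MulEquiv.refl X, fun x => ?_, fun x => ?_⟩
    · show s x = s' x
      rw [hid s hs hF1, hid s' hs' (hFc ▸ hF1)]
    · show x * x⁻¹ ∈ D
      rw [mul_inv_cancel]; exact D.one_mem
  -- both subgroups have order `r`
  have hcards : Nat.card (F s) = r ∧ Nat.card (I s) = r := by
    have h1 := hprod s hs
    have h2 : Nat.card (F s) * Nat.card (I s) ∣ r ^ 2 := h1 ▸ hX
    obtain ⟨a, ha, ha'⟩ := (Nat.dvd_prime_pow hr).1 ((Dvd.intro _ rfl).trans h2)
    obtain ⟨b, hb, hb'⟩ := (Nat.dvd_prime_pow hr).1 ((Dvd.intro_left _ rfl).trans h2)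
    rw [ha', hb', ← pow_add] at h2
    have h3 := (Nat.pow_dvd_pow_iff_le_right hr.one_lt).1 h2
    have ha0 : a ≠ 0 := fun h => hF1 (by rw [ha', h, pow_zero])
    have hb0 : b ≠ 0 := fun h => hI1 (by rw [hb', h, pow_zero])
    have ha1 : a = 1 := by omega
    have hb1 : b = 1 := by omega
    rw [ha', hb', ha1, hb1, pow_one]
    exact ⟨rfl, rfl⟩
  obtain ⟨eF, heF⟩ := cr_aux_M hr hr2 hX s.toMonoidHom s'.toMonoidHom hs hs' D hD (F s) (F s')
    (hF s) (hF s') hcards.1 (hFc ▸ hcards.1)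
  obtain ⟨eI, heI⟩ := cr_aux_M hr hr2 hX (s.toMonoidHom)⁻¹ (s'.toMonoidHom)⁻¹
    (fun x => by
      show (s (s x)⁻¹)⁻¹ = x
      rw [map_inv, inv_inv, hs])
    (fun x => by
      show (s' (s' x)⁻¹)⁻¹ = x
      rw [map_inv, inv_inv, hs']) D
    (fun x => by
      show (s x)⁻¹ * ((s' x)⁻¹)⁻¹ ∈ D
      have := D.inv_mem (hD x)
      rw [mul_inv] at this
      exact this) (I s) (I s')
    (hI s) (hI s') hcards.2 (hIc ▸ hcards.2)
  -- the projections
  let qF : X →* F s := ((powMonoidHom m).comp (MonoidHom.id X * s.toMonoidHom)).codRestrict (F s)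
    (fun x => by
      rw [hF]
      show s ((x * s x) ^ m) = (x * s x) ^ m
      rw [map_pow, map_mul, hs, mul_comm])
  let qI : X →* I s := ((powMonoidHom m).comp (MonoidHom.id X * (s.toMonoidHom)⁻¹)).codRestrict (I s)
    (fun x => by
      rw [hI]
      show (s ((x * (s x)⁻¹) ^ m))⁻¹ = (x * (s x)⁻¹) ^ m
      rw [map_pow, map_mul, map_inv, hs, ← inv_pow, mul_inv_rev, inv_inv])
  have hqF : ∀ x, (qF x : X) = (x * s x) ^ m := fun x => rfl
  have hqI : ∀ x, (qI x : X) = (x * (s x)⁻¹) ^ m := fun x => rfl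
  have hdec : ∀ x, (qF x : X) * (qI x : X) = x := by
    intro x
    rw [hqF, hqI, ← mul_pow]
    conv_rhs => rw [← hsq x]
    congr 1
    calc x * s x * (x * (s x)⁻¹) = x * (s x * (x * (s x)⁻¹)) := by rw [mul_assoc]
      _ = x * x := by rw [mul_comm x (s x)⁻¹, ← mul_assoc (s x), mul_inv_cancel, one_mul]
  let α : X →* X := ((F s').subtype.comp (eF.toMonoidHom.comp qF)) *
    ((I s').subtype.comp (eI.toMonoidHom.comp qI))
  have hα : ∀ x, α x = (eF (qF x) : X) * (eI (qI x) : X) := fun x => rfl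
  have hinj : Function.Injective α := by
    rw [injective_iff_map_eq_one]
    intro x hx
    rw [hα] at hx
    have h1 : s' (eF (qF x) : X) = (eF (qF x) : X) := (hF s' _).1 (eF (qF x)).2
    have h2 : (s' (eI (qI x) : X))⁻¹ = (eI (qI x) : X) := (hI s' _).1 (eI (qI x)).2
    have h3 : (eF (qF x) : X) = (eI (qI x) : X)⁻¹ := eq_inv_of_mul_eq_one_left hx
    have h4 : (eI (qI x) : X) = 1 := by
      apply hone
      rw [h3, map_inv, h2] at h1
      calc (eI (qI x) : X) * (eI (qI x) : X) = (eI (qI x) : X) * (eI (qI x) : X)⁻¹ := by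
            rw [← h1]
        _ = 1 := mul_inv_cancel _
    have h5 : (eF (qF x) : X) = 1 := by rw [h3, h4, inv_one]
    have h6 : qF x = 1 := by
      apply eF.injective
      rw [map_one]
      exact Subtype.ext h5
    have h7 : qI x = 1 := by
      apply eI.injective
      rw [map_one]
      exact Subtype.ext h4
    rw [← hdec x, h6, h7]
    simp
  refine ⟨MulEquiv.ofBijective α ⟨hinj, Finite.surjective_of_injective hinj⟩, fun x => ?_,
    fun x => ?_⟩
  · show α (s x) = s' (α x)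
    rw [hα, hα]
    have h1 : qF (s x) = qF x := by
      apply Subtype.ext
      rw [hqF, hqF, hs, mul_comm]
    have h2 : qI (s x) = (qI x)⁻¹ := by
      apply Subtype.ext
      rw [Subgroup.coe_inv, hqI, hqI, hs, ← inv_pow, mul_inv_rev, inv_inv]
    have h3 : s' (eF (qF x) : X) = (eF (qF x) : X) := (hF s' _).1 (eF (qF x)).2
    have h4 : (s' (eI (qI x) : X))⁻¹ = (eI (qI x) : X) := (hI s' _).1 (eI (qI x)).2
    rw [h1, h2, map_inv, map_mul, h3, Subgroup.coe_inv]
    congr 1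
    rw [← inv_inj, inv_inv]
    exact h4.symm
  · show α x * x⁻¹ ∈ D
    rw [hα]
    have : (eF (qF x) : X) * (eI (qI x) : X) * x⁻¹ =
        ((eF (qF x) : X) * (qF x : X)⁻¹) * ((eI (qI x) : X) * (qI x : X)⁻¹) := by
      calc (eF (qF x) : X) * (eI (qI x) : X) * x⁻¹ =
          (eF (qF x) : X) * (eI (qI x) : X) * ((qF x : X) * (qI x : X))⁻¹ := by rw [hdec x]
        _ = _ := by rw [mul_inv, mul_mul_mul_comm]
    rw [this]
    exact D.mul_mem (heF _) (heI _)
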