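import Mathlib

theorem s_hom_ext {H₁ : Type} [CommGroup H₁] [Finite H₁] (hcf : ∀ p, p.Prime → ¬ p ^ 3 ∣ Nat.card H₁)
    {K : Type} [Monoid K] (f g : H₁ →* K) (hfg : ∀ r : ℕ, r.Prime → ∀ x : H₁, x ^ (r ^ 2) = 1 → f x = g x) :
    f = g := by
  have key : ∀ m : ℕ, ∀ x : H₁, orderOf x = m → f x = g x := by
    intro m
    induction m using Nat.recOnPosPrimePosCoprime with
    | prime_pow p k hp hk =>
      intro x hx
      apply hfg p hp
      have h1 : p ^ k ∣ Nat.card H₁ := hx ▸ orderOf_dvd_natCard x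
      have hk2 : k ≤ 2 := by
        by_contra hcon
        exact hcf p hp ((pow_dvd_pow p (by omega : 3 ≤ k)).trans h1)
      rw [← orderOf_dvd_iff_pow_eq_one, hx]
      exact pow_dvd_pow p hk2
    | zero =>
      intro x hx
      exact absurd hx (orderOf_pos x).ne'
    | one =>
      intro x hx
      rw [orderOf_eq_one_iff] at hx
      rw [hx, map_one, map_one]
    | coprime a b ha hb hab iha ihb =>
      intro x hx
      have e1 : orderOf (x ^ b) = a := by
        rw [orderOf_pow_of_dvd (by omega) (by rw [hx]; exact dvd_mul_left b a), hx,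
          Nat.mul_div_cancel _ (by omega)]
      have e2 : orderOf (x ^ a) = b := by
        rw [orderOf_pow_of_dvd (by omega) (by rw [hx]; exact dvd_mul_right a b), hx,
          Nat.mul_div_cancel_left _ (by omega)]
      have f1 := iha _ e1
      have f2 := ihb _ e2
      obtain ⟨e, he1, he2⟩ := Nat.chineseRemainder hab 1 0
      obtain ⟨e', he1', he2'⟩ := Nat.chineseRemainder hab 0 1
      obtain ⟨v, hv⟩ := (Nat.modEq_zero_iff_dvd.mp he2)
      obtain ⟨u, hu⟩ := (Nat.modEq_zero_iff_dvd.mp he1')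
      have hmod : e + e' ≡ 1 [MOD a * b] := by
        rw [← Nat.modEq_and_modEq_iff_modEq_mul hab]
        exact ⟨he1.add he1', by simpa using he2.add he2'⟩
      have hxx : x ^ (e + e') = x := by
        have : x ^ (e + e') = x ^ 1 := by
          rw [pow_eq_pow_iff_modEq, hx]
          exact hmod
        rw [this, pow_one]
      have hx2 : x = (x ^ b) ^ v * (x ^ a) ^ u := by
        rw [← pow_mul, ← pow_mul, ← hv, ← hu, ← pow_add, hxx]
      calc f x = f (x ^ b) ^ v * f (x ^ a) ^ u := by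
            rw [← map_pow f (x ^ b) v, ← map_pow f (x ^ a) u, ← map_mul, ← hx2]
        _ = g (x ^ b) ^ v * g (x ^ a) ^ u := by rw [f1, f2]
        _ = g x := by
            rw [← map_pow g (x ^ b) v, ← map_pow g (x ^ a) u, ← map_mul, ← hx2]
  ext x
  exact key _ x rfl

theorem s_exp (n : ℕ) (hn : n ≠ 0) (hcf : ∀ p, p.Prime → ¬ p ^ 3 ∣ n) (r : ℕ) (hr : r.Prime) :
    ∃ e : ℕ, n ∣ e * r ^ 2 ∧ (∀ d, d ∣ n → d ∣ r ^ 2 → e ≡ 1 [MOD d]) ∧
      (∀ q, q.Prime → q ≠ r → ∀ d, d ∣ n → d ∣ q ^ 2 → d ∣ e) := by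
  set a := r ^ n.factorization r with ha
  set b := n / a with hb
  have hab' : a * b = n := Nat.ordProj_mul_ordCompl_eq_self n r
  have hrb : Nat.Coprime r b := Nat.coprime_ordCompl hr hn
  have hab : Nat.Coprime a b := hrb.pow_left _
  obtain ⟨e, he1, he2⟩ := Nat.chineseRemainder hab 1 0
  have hbe : b ∣ e := Nat.modEq_zero_iff_dvd.mp he2
  have hv : n.factorization r ≤ 2 := by
    by_contra hcon
    exact hcf r hr ((hr.pow_dvd_iff_le_factorization hn).mpr (by omega))
  refine ⟨e, ?_, ?_, ?_⟩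
  · rw [← hab', mul_comm e]
    exact mul_dvd_mul (pow_dvd_pow r hv) hbe
  · intro d hd1 hd2
    have hdb : Nat.Coprime d b := Nat.Coprime.coprime_dvd_left hd2 (hrb.pow_left 2)
    have hda : d ∣ a := hdb.dvd_of_dvd_mul_right (hab' ▸ hd1)
    exact he1.of_dvd hda
  · intro q hq hqr d hd1 hd2
    have hqa : Nat.Coprime (q ^ 2) a := Nat.Coprime.pow 2 _ ((Nat.coprime_primes hq hr).mpr hqr)
    have hda : Nat.Coprime d a := Nat.Coprime.coprime_dvd_left hd2 hqa
    have hdb : d ∣ b := hda.dvd_of_dvd_mul_left (hab' ▸ hd1)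
    exact hdb.trans hbe

theorem s_glue_hom {H K : Type} [CommGroup H] [CommGroup K] [Finite H]
    (hcf : ∀ p, p.Prime → ¬ p ^ 3 ∣ Nat.card H)
    (θ : ∀ r : ℕ, r.Prime → ((powMonoidHom (r ^ 2) : H →* H).ker →* K)) :
    ∃ f : H →* K, ∀ r (hr : r.Prime) (x : (powMonoidHom (r ^ 2) : H →* H).ker),
      f x = θ r hr x := by
  classical
  set n := Nat.card H with hn
  have hn0 : n ≠ 0 := Nat.card_pos.ne'
  choose e he1 he2 he3 using (fun r (hr : Nat.Prime r) => s_exp n hn0 hcf r hr)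
  let π : ∀ r : ℕ, r.Prime → (H →* (powMonoidHom (r ^ 2) : H →* H).ker) := fun r hr =>
    (powMonoidHom (e r hr) : H →* H).codRestrict _ (by
      intro x
      rw [MonoidHom.mem_ker]
      show (x ^ (e r hr)) ^ (r ^ 2) = 1
      rw [← pow_mul, ← orderOf_dvd_iff_pow_eq_one]
      exact (orderOf_dvd_natCard x).trans (he1 r hr))
  let f : H →* K :=
    { toFun := fun x => ∏ r : n.primeFactors,
        θ r.1 (Nat.prime_of_mem_primeFactors r.2) (π r.1 (Nat.prime_of_mem_primeFactors r.2) x)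
      map_one' := by simp
      map_mul' := by
        intro x y
        simp only [map_mul, Finset.prod_mul_distrib] }
  refine ⟨f, ?_⟩
  intro q hq x
  have hxq : (x : H) ^ (q ^ 2) = 1 := x.2
  have hox : orderOf (x : H) ∣ q ^ 2 := orderOf_dvd_iff_pow_eq_one.mpr hxq
  have hon : orderOf (x : H) ∣ n := orderOf_dvd_natCard _
  by_cases hqn : q ∈ n.primeFactors
  · show ∏ r : n.primeFactors,
        θ r.1 (Nat.prime_of_mem_primeFactors r.2) (π r.1 (Nat.prime_of_mem_primeFactors r.2) x) = _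
    rw [Finset.prod_eq_single ⟨q, hqn⟩]
    · congr 1
      apply Subtype.ext
      show (x : H) ^ (e q _) = x
      have h1 := he2 q hq _ hon hox
      have h2 : (x : H) ^ (e q hq) = (x : H) ^ 1 := by
        rw [pow_eq_pow_iff_modEq]
        exact h1
      rw [h2, pow_one]
    · rintro ⟨r, hr⟩ _ hne
      have hr' := Nat.prime_of_mem_primeFactors hr
      have hrq : q ≠ r := by
        intro h
        apply hne
        exact Subtype.ext h.symm
      have h1 : orderOf (x : H) ∣ e r hr' := he3 r hr' q hq hrq _ hon hox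
      have h2 : π r hr' x = 1 := by
        apply Subtype.ext
        show (x : H) ^ (e r hr') = 1
        exact orderOf_dvd_iff_pow_eq_one.mp h1
      rw [h2, map_one]
    · intro h
      exact absurd (Finset.mem_univ _) h
  · have hndvd : ¬ q ∣ n := by
      intro h
      exact hqn (Nat.mem_primeFactors.mpr ⟨hq, h, hn0⟩)
    have hc : Nat.Coprime (q ^ 2) n := Nat.Coprime.pow_left 2 ((Nat.Prime.coprime_iff_not_dvd hq).mpr hndvd)
    have h1 : orderOf (x : H) = 1 := by
      have := Nat.dvd_gcd hox hon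
      rw [hc] at this
      exact Nat.dvd_one.mp this
    have h2 : x = 1 := by
      apply Subtype.ext
      exact orderOf_eq_one_iff.mp h1
    rw [h2]
    simp

/-- gluing isomorphisms of primary components of finite abelian groups of cubefree order -/
theorem cr_glue {H₁ H₂ : Type} [CommGroup H₁] [CommGroup H₂] [Finite H₁] [Finite H₂]
    (hcard : Nat.card H₁ = Nat.card H₂) (hcf : ∀ p, p.Prime → ¬ p ^ 3 ∣ Nat.card H₁)
    (θ : ∀ r : ℕ, r.Prime → ((powMonoidHom (r ^ 2) : H₁ →* H₁).ker ≃* (powMonoidHom (r ^ 2) : H₂ →* H₂).ker)) :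
    ∃ f : H₁ ≃* H₂, ∀ r (hr : r.Prime) (x : (powMonoidHom (r ^ 2) : H₁ →* H₁).ker), f x = θ r hr x := by
  have hcf2 : ∀ p, p.Prime → ¬ p ^ 3 ∣ Nat.card H₂ := by
    rw [← hcard]
    exact hcf
  obtain ⟨f, hf⟩ := s_glue_hom (K := H₂) hcf
    (fun r hr => ((powMonoidHom (r ^ 2) : H₂ →* H₂).ker.subtype).comp (θ r hr).toMonoidHom)
  obtain ⟨g, hg⟩ := s_glue_hom (K := H₁) hcf2
    (fun r hr => ((powMonoidHom (r ^ 2) : H₁ →* H₁).ker.subtype).comp (θ r hr).symm.toMonoidHom)
  have h1 : g.comp f = MonoidHom.id H₁ := by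
    apply s_hom_ext hcf
    intro r hr x hx
    have e1 := hf r hr ⟨x, hx⟩
    have e2 := hg r hr (θ r hr ⟨x, hx⟩)
    simp only [MonoidHom.comp_apply, MonoidHom.id_apply] at e1 e2 ⊢
    rw [e1]
    refine e2.trans ?_
    simp
  have h2 : f.comp g = MonoidHom.id H₂ := by
    apply s_hom_ext hcf2
    intro r hr x hx
    have e1 := hg r hr ⟨x, hx⟩
    have e2 := hf r hr ((θ r hr).symm ⟨x, hx⟩)
    simp only [MonoidHom.comp_apply, MonoidHom.id_apply] at e1 e2 ⊢
    rw [e1]
    refine e2.trans ?_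
    simp
  refine ⟨f.toMulEquiv g h1 h2, ?_⟩
  intro r hr x
  exact hf r hr x

/-- homs agreeing on primary components agree -/
theorem cr_hom_ext {H₁ : Type} [CommGroup H₁] [Finite H₁] (hcf : ∀ p, p.Prime → ¬ p ^ 3 ∣ Nat.card H₁)
    {K : Type} [Monoid K] (f g : H₁ →* K) (hfg : ∀ r : ℕ, r.Prime → ∀ x : H₁, x ^ (r ^ 2) = 1 → f x = g x) :
    f = g := s_hom_ext hcf f g hfg
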