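import Mathlib
import Pool.Agent.MPcb9dee.F6a
import Pool.Agent.MPcb9dee.J11

theorem cr_ic_fact {A : Type} [Finite A] {r : ℕ} (hr : r.Prime) (hcf : ¬ r ^ 3 ∣ Nat.card A) :
    (Nat.card A).factorization r ≤ 2 := by
  by_contra h
  push Not at h
  exact hcf ((pow_dvd_pow r h).trans (Nat.ordProj_dvd _ _))

theorem cr_ic_card {A : Type} [CommGroup A] [Finite A] {r : ℕ} (hr : r.Prime)
    (hcf : ¬ r ^ 3 ∣ Nat.card A) :
    Nat.card (powMonoidHom (r ^ 2) : A →* A).ker = r ^ (Nat.card A).factorization r := by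
  haveI : Fact r.Prime := ⟨hr⟩
  have hp : IsPGroup r (powMonoidHom (r ^ 2) : A →* A).ker := by
    intro x
    exact ⟨2, Subtype.ext x.2⟩
  obtain ⟨P, hP⟩ := hp.exists_le_sylow
  have hPc := P.card_eq_multiplicity
  have hle : (P : Subgroup A) ≤ (powMonoidHom (r ^ 2) : A →* A).ker := by
    intro x hx
    rw [MonoidHom.mem_ker, powMonoidHom_apply]
    have h1 : x ^ Nat.card P = 1 := by
      have := pow_card_eq_one' (x := (⟨x, hx⟩ : P))
      exact congrArg Subtype.val this
    obtain ⟨k, hk⟩ : Nat.card P ∣ r ^ 2 := by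
      rw [hPc]
      exact pow_dvd_pow r (cr_ic_fact hr hcf)
    rw [hk, pow_mul, h1, one_pow]
  have e : (powMonoidHom (r ^ 2) : A →* A).ker = (P : Subgroup A) := le_antisymm hP hle
  rw [e]
  exact hPc

/-- restriction of an automorphism -/
def cr_ic_restr {H : Type} [CommGroup H] (s : H ≃* H) (r : ℕ) :
    (powMonoidHom (r ^ 2) : H →* H).ker ≃* (powMonoidHom (r ^ 2) : H →* H).ker where
  toFun x := ⟨s x, by
    have h : (x : H) ^ (r ^ 2) = 1 := x.2
    rw [MonoidHom.mem_ker, powMonoidHom_apply, ← map_pow, h, map_one]⟩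
  invFun x := ⟨s.symm x, by
    have h : (x : H) ^ (r ^ 2) = 1 := x.2
    rw [MonoidHom.mem_ker, powMonoidHom_apply, ← map_pow, h, map_one]⟩
  left_inv x := by simp
  right_inv x := by simp
  map_mul' x y := by simp

/-- the fixed points -/
def cr_ic_F {H : Type} [CommGroup H] (s : H ≃* H) : Subgroup H where
  carrier := {x | s x = x}
  one_mem' := map_one s
  mul_mem' := by
    intro a b ha hb
    show s (a * b) = a * b
    rw [map_mul, show s a = a from ha, show s b = b from hb]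
  inv_mem' := by
    intro a ha
    show s a⁻¹ = a⁻¹
    rw [map_inv, show s a = a from ha]

theorem cr_ic_fix {H : Type} [CommGroup H] [Finite H] (s : H ≃* H)
    (hcf : ∀ p, p.Prime → ¬ p ^ 3 ∣ Nat.card H) (r : ℕ) (hr : r.Prime) :
    Nat.card {x : (powMonoidHom (r ^ 2) : H →* H).ker // cr_ic_restr s r x = x} =
      r ^ (Nat.card (cr_ic_F s)).factorization r := by
  rw [← cr_ic_card hr (fun h => hcf r hr (h.trans (Subgroup.card_subgroup_dvd_card _)))]
  refine Nat.card_congr ⟨fun x => ⟨⟨x.1.1, congrArg Subtype.val x.2⟩, Subtype.ext x.1.2⟩,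
    fun y => ⟨⟨y.1.1, congrArg Subtype.val y.2⟩, Subtype.ext y.1.2⟩, fun x => rfl, fun y => rfl⟩

/-- TARGET: involutions of an abelian group of odd cubefree order, relative to a subgroup `D` -/
theorem cr_invol_conj {H : Type} [CommGroup H] [Finite H] (hodd : Odd (Nat.card H))
    (hcf : ∀ p, p.Prime → ¬ p ^ 3 ∣ Nat.card H) (s s' : H ≃* H) (hs : ∀ x, s (s x) = x)
    (hs' : ∀ x, s' (s' x) = x)
    (hfix : Nat.card {x : H // s x = x} = Nat.card {x : H // s' x = x})
    (D : Subgroup H) (hD : ∀ x, s x * (s' x)⁻¹ ∈ D) (hDs : ∀ x ∈ D, s x ∈ D) (hDs' : ∀ x ∈ D, s' x ∈ D) :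
    ∃ α : H ≃* H, (∀ x, α (s x) = s' (α x)) ∧ ∀ x, α x * x⁻¹ ∈ D := by
  have hcard : ∀ r : ℕ, r.Prime → Nat.card (powMonoidHom (r ^ 2) : H →* H).ker ∣ r ^ 2 := by
    intro r hr
    rw [cr_ic_card hr (hcf r hr)]
    exact pow_dvd_pow r (cr_ic_fact hr (hcf r hr))
  have hloc : ∀ r (hr : r.Prime), ∃ α : (powMonoidHom (r ^ 2) : H →* H).ker ≃*
      (powMonoidHom (r ^ 2) : H →* H).ker,
      (∀ x, α (cr_ic_restr s r x) = cr_ic_restr s' r (α x)) ∧
      ∀ x, α x * x⁻¹ ∈ D.subgroupOf (powMonoidHom (r ^ 2) : H →* H).ker := by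
    intro r hr
    by_cases hr2 : r = 2
    · subst hr2
      have h1 : Nat.card (powMonoidHom (2 ^ 2) : H →* H).ker = 1 := by
        rw [cr_ic_card hr (hcf 2 hr)]
        have : (Nat.card H).factorization 2 = 0 := by
          apply Nat.factorization_eq_zero_of_not_dvd
          intro h
          exact (Nat.not_even_iff_odd.2 hodd) (even_iff_two_dvd.2 h)
        rw [this, pow_zero]
      have hsub : Subsingleton (powMonoidHom (2 ^ 2) : H →* H).ker :=
        (Nat.card_eq_one_iff_unique.1 h1).1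
      refine ⟨MulEquiv.refl _, fun x => Subsingleton.elim _ _, fun x => ?_⟩
      rw [Subsingleton.elim ((MulEquiv.refl _) x * x⁻¹) 1]
      exact one_mem _
    · refine cr_invol_conj_prime hr hr2 (hcard r hr) (cr_ic_restr s r) (cr_ic_restr s' r) ?_ ?_ ?_
        (D.subgroupOf _) ?_ ?_ ?_
      · intro x
        exact Subtype.ext (hs x)
      · intro x
        exact Subtype.ext (hs' x)
      · rw [cr_ic_fix s hcf r hr, cr_ic_fix s' hcf r hr]
        have e1 : Nat.card (cr_ic_F s) = Nat.card {x : H // s x = x} := rfl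
        have e2 : Nat.card (cr_ic_F s') = Nat.card {x : H // s' x = x} := rfl
        rw [e1, e2, hfix]
      · intro x
        exact hD x
      · intro x hx
        exact hDs x hx
      · intro x hx
        exact hDs' x hx
  choose α hα1 hα2 using hloc
  obtain ⟨f, hf⟩ := cr_glue rfl hcf α
  have hmem : ∀ (r : ℕ) (x : H), x ^ (r ^ 2) = 1 → x ∈ (powMonoidHom (r ^ 2) : H →* H).ker :=
    fun r x hx => hx
  refine ⟨f, ?_, ?_⟩
  · have h : f.toMonoidHom.comp s.toMonoidHom = s'.toMonoidHom.comp f.toMonoidHom := by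
      apply cr_hom_ext hcf
      intro r hr x hx
      have h1 := hα1 r hr ⟨x, hmem r x hx⟩
      have h2 := hf r hr (cr_ic_restr s r ⟨x, hmem r x hx⟩)
      have h3 := hf r hr ⟨x, hmem r x hx⟩
      show f (s x) = s' (f x)
      have h2' : f (s x) = α r hr (cr_ic_restr s r ⟨x, hmem r x hx⟩) := h2
      have h3' : f x = α r hr ⟨x, hmem r x hx⟩ := h3
      rw [h2', h1, h3']
      rfl
    intro x
    exact DFunLike.congr_fun h x
  · have h : (QuotientGroup.mk' D).comp (f.toMonoidHom * (MonoidHom.id H)⁻¹) = 1 := by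
      apply cr_hom_ext hcf
      intro r hr x hx
      have h3 : f x = α r hr ⟨x, hmem r x hx⟩ := hf r hr ⟨x, hmem r x hx⟩
      show (QuotientGroup.mk' D) (f x * x⁻¹) = 1
      rw [QuotientGroup.mk'_apply, QuotientGroup.eq_one_iff, h3]
      exact hα2 r hr ⟨x, hmem r x hx⟩
    intro x
    have := DFunLike.congr_fun h x
    have h2 : (QuotientGroup.mk' D) (f x * x⁻¹) = 1 := this
    rwa [QuotientGroup.mk'_apply, QuotientGroup.eq_one_iff] at h2
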