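import Mathlib
import Pool.Agent.MPcb9dee.Defs

/-- `CRActs n p m`: either `p ∣ n` and `m ∣ p - 1`, or `p ^ 2 ∣ n` and `m ∣ p + 1`. -/
def CRActs (n p m : ℕ) : Prop := (p ∣ n ∧ m ∣ p - 1) ∨ (p ^ 2 ∣ n ∧ m ∣ p + 1)

/-- The arithmetic conditions of the classification. -/
def CRGood (n : ℕ) : Prop :=
  (∀ p, p.Prime → Odd p → ¬ p ^ 3 ∣ n) ∧
  (∀ p r, p.Prime → r.Prime → Odd r → r ∣ p - 1 → ¬ p ^ 2 * r ∣ n) ∧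
  (∀ r p q, r.Prime → p.Prime → q.Prime → 5 ≤ r → r ∣ n → CRActs n p r → CRActs n q r → p = q) ∧
  (3 ∣ n → ∀ p q, p.Prime → q.Prime → p ∣ n → q ∣ n → 3 ∣ p - 1 → 3 ∣ q - 1 → p = q) ∧
  (9 ∣ n → ∀ p q, p.Prime → q.Prime → CRActs n p 9 → CRActs n q 9 → p = q)
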