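import Mathlib
import Pool.Agent.MPcb9dee.Defs

/-- the Heisenberg group modulo `p` -/
@[ext] structure CRHeis (p : ℕ) where
  a : ZMod p
  b : ZMod p
  c : ZMod p

namespace CRHeis

variable {p : ℕ}

instance : Group (CRHeis p) where
  mul x y := ⟨x.a + y.a, x.b + y.b, x.c + y.c + x.a * y.b⟩
  one := ⟨0, 0, 0⟩
  inv x := ⟨-x.a, -x.b, -x.c + x.a * x.b⟩
  mul_assoc x y z := by
    apply CRHeis.ext
    · exact add_assoc _ _ _
    · exact add_assoc _ _ _
    · show (x.c + y.c + x.a * y.b) + z.c + (x.a + y.a) * z.b =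
        x.c + (y.c + z.c + y.a * z.b) + x.a * (y.b + z.b)
      ring
  one_mul x := by
    apply CRHeis.ext
    · exact zero_add _
    · exact zero_add _
    · show 0 + x.c + 0 * x.b = x.c
      ring
  mul_one x := by
    apply CRHeis.ext
    · exact add_zero _
    · exact add_zero _
    · show x.c + 0 + x.a * 0 = x.c
      ring
  inv_mul_cancel x := by
    apply CRHeis.ext
    · exact neg_add_cancel _
    · exact neg_add_cancel _
    · show -x.c + x.a * x.b + x.c + (-x.a) * x.b = 0
      ring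

theorem mul_a (x y : CRHeis p) : (x * y).a = x.a + y.a := rfl
theorem mul_b (x y : CRHeis p) : (x * y).b = x.b + y.b := rfl
theorem mul_c (x y : CRHeis p) : (x * y).c = x.c + y.c + x.a * y.b := rfl

theorem pow_form (x : CRHeis p) (k : ℕ) :
    x ^ k = ⟨k * x.a, k * x.b, k * x.c + (k.choose 2 : ℕ) * (x.a * x.b)⟩ := by
  induction k with
  | zero =>
    rw [pow_zero]
    apply CRHeis.ext
    · show (0 : ZMod p) = _
      simp
    · show (0 : ZMod p) = _
      simp
    · show (0 : ZMod p) = _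
      simp
  | succ k ih =>
    rw [pow_succ, ih]
    apply CRHeis.ext
    · rw [mul_a]
      push_cast
      ring
    · rw [mul_b]
      push_cast
      ring
    · rw [mul_c]
      have : (k + 1).choose 2 = k + k.choose 2 := by
        rw [Nat.choose_succ_succ' k 1, Nat.choose_one_right]
      rw [this]
      push_cast
      ring

theorem pow_p (hp : p.Prime) (hodd : Odd p) (x : CRHeis p) : x ^ p = 1 := by
  have h2 : 2 < p := by
    have := hp.two_le
    obtain ⟨k, hk⟩ := hodd
    omega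
  have h3 : ((p.choose 2 : ℕ) : ZMod p) = 0 := by
    rw [ZMod.natCast_eq_zero_iff]
    exact hp.dvd_choose_self (by norm_num) h2
  rw [pow_form, h3]
  apply CRHeis.ext
  · show _ = (0 : ZMod p)
    simp
  · show _ = (0 : ZMod p)
    simp
  · show _ = (0 : ZMod p)
    simp

/-- the Heisenberg group as a product -/
def equiv : CRHeis p ≃ ZMod p × ZMod p × ZMod p where
  toFun x := (x.a, x.b, x.c)
  invFun x := ⟨x.1, x.2.1, x.2.2⟩
  left_inv _ := rfl
  right_inv _ := rfl

end CRHeis

theorem cr_card_exp {G : Type} [Group G] {p : ℕ} (hp : p.Prime) (hG : ∀ x : G, x ^ p = 1) (d : ℕ) :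
    Nat.card {x : G // x ^ d = 1} = if p ∣ d then Nat.card G else 1 := by
  split_ifs with h
  · have h1 : ∀ x : G, x ^ d = 1 := by
      intro x
      obtain ⟨k, rfl⟩ := h
      rw [pow_mul, hG, one_pow]
    exact Nat.card_congr (Equiv.subtypeUnivEquiv h1)
  · have h1 : ∀ x : G, x ^ d = 1 → x = 1 := by
      intro x hx
      have h2 : orderOf x ∣ Nat.gcd p d := Nat.dvd_gcd (orderOf_dvd_of_pow_eq_one (hG x))
        (orderOf_dvd_of_pow_eq_one hx)
      have h3 : Nat.gcd p d = 1 := (Nat.Prime.coprime_iff_not_dvd hp).2 h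
      rw [h3, Nat.dvd_one] at h2
      exact orderOf_eq_one_iff.1 h2
    haveI : Unique {x : G // x ^ d = 1} :=
      ⟨⟨⟨1, one_pow d⟩⟩, fun x => Subtype.ext (h1 x.1 x.2)⟩
    exact Nat.card_unique

theorem cr_card_prod {G Z : Type} [Group G] [Group Z] (d : ℕ) :
    Nat.card {x : G × Z // x ^ d = 1} =
      Nat.card {x : G // x ^ d = 1} * Nat.card {x : Z // x ^ d = 1} := by
  rw [← Nat.card_prod]
  refine Nat.card_congr ⟨fun x => (⟨x.1.1, congrArg Prod.fst x.2⟩, ⟨x.1.2, congrArg Prod.snd x.2⟩),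
    fun x => ⟨(x.1.1, x.2.1), Prod.ext x.1.2 x.2.2⟩, fun _ => rfl, fun _ => rfl⟩

/-- TARGET 1: for an odd prime `p`, multiples of `p^3` are not rigid. -/
theorem cr_not_rigid_cube {n p : ℕ} (hp : p.Prime) (hodd : Odd p) (hn : n ≠ 0) (h : p ^ 3 ∣ n) :
    ¬ CRRigid n := by
  intro hrig
  obtain ⟨m, rfl⟩ := h
  have hm : m ≠ 0 := fun h => hn (by rw [h, mul_zero])
  haveI : NeZero m := ⟨hm⟩
  haveI : Fact p.Prime := ⟨hp⟩
  haveI : NeZero p := ⟨hp.ne_zero⟩
  haveI : Finite (CRHeis p) := Finite.of_equiv _ CRHeis.equiv.symm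
  have hc1 : Nat.card (Multiplicative (ZMod p × ZMod p × ZMod p)) = p ^ 3 := by
    rw [Nat.card_congr Multiplicative.toAdd, Nat.card_prod, Nat.card_prod, Nat.card_zmod]
    ring
  have hc2 : Nat.card (CRHeis p) = p ^ 3 := by
    rw [Nat.card_congr CRHeis.equiv, Nat.card_prod, Nat.card_prod, Nat.card_zmod]
    ring
  have hcm : Nat.card (Multiplicative (ZMod m)) = m := by
    rw [Nat.card_congr Multiplicative.toAdd, Nat.card_zmod]
  have he1 : ∀ x : Multiplicative (ZMod p × ZMod p × ZMod p), x ^ p = 1 := by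
    intro x
    apply Multiplicative.toAdd.injective
    rw [toAdd_pow, toAdd_one]
    refine Prod.ext ?_ (Prod.ext ?_ ?_)
    · simp
    · simp
    · simp
  have he2 := CRHeis.pow_p hp hodd
  haveI : Finite (Multiplicative (ZMod m)) := Finite.of_equiv _ Multiplicative.ofAdd
  haveI : Finite (Multiplicative (ZMod p × ZMod p × ZMod p)) :=
    Finite.of_equiv _ Multiplicative.ofAdd
  obtain ⟨e⟩ := hrig (Multiplicative (ZMod p × ZMod p × ZMod p) × Multiplicative (ZMod m))
    (CRHeis p × Multiplicative (ZMod m)) (by rw [Nat.card_prod, hc1, hcm])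
    (by rw [Nat.card_prod, hc2, hcm]) (by
      intro d _
      rw [cr_card_prod, cr_card_prod, cr_card_exp hp he1, cr_card_exp hp he2, hc1, hc2])
  have hcomm : ∀ x y : CRHeis p, x * y = y * x := by
    intro x y
    have h1 : e.symm (x, 1) * e.symm (y, 1) = e.symm (y, 1) * e.symm (x, 1) := mul_comm _ _
    rw [← map_mul, ← map_mul] at h1
    have h2 := e.symm.injective h1
    exact congrArg Prod.fst h2
  have h1 := congrArg CRHeis.c (hcomm ⟨1, 0, 0⟩ ⟨0, 1, 0⟩)
  rw [CRHeis.mul_c, CRHeis.mul_c] at h1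
  simp at h1
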