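import Mathlib
import Pool.Agent.MPcb9dee.Defs

theorem cr_fpf_key {V C : Type} [CommGroup V] [Finite V] [Group C]
    (φ : C →* MulAut V) (hφ : ∀ c : C, c ≠ 1 → ∀ v, φ c v = v → v = 1) (x : V ⋊[φ] C) (d : ℕ) :
    x ^ d = 1 ↔ (x.right = 1 ∧ x.left ^ d = 1) ∨ (x.right ≠ 1 ∧ x.right ^ d = 1) := by
  by_cases hc : x.right = 1
  · have hx : x = SemidirectProduct.inl x.left := by
      apply SemidirectProduct.ext
      · simp
      · simp [hc]
    rw [hx, ← map_pow]
    simp only [SemidirectProduct.left_inl, SemidirectProduct.right_inl, ne_eq, not_true_eq_false,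
      false_and, or_false, true_and]
    constructor
    · intro h
      rw [← (SemidirectProduct.inl (φ := φ)).map_one] at h
      exact SemidirectProduct.inl_injective h
    · intro h
      rw [h, map_one]
  · have hinj : Function.Injective (fun w : V => w * (φ x.right w)⁻¹) := by
      intro w w' h
      simp only at h
      have h1 : φ x.right (w'⁻¹ * w) = w'⁻¹ * w := by
        rw [map_mul, map_inv]
        have h2 : w * (φ x.right w)⁻¹ * (φ x.right w) * w'⁻¹
            = w' * (φ x.right w')⁻¹ * (φ x.right w) * w'⁻¹ := by rw [h]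
        rw [inv_mul_cancel_right] at h2
        have h3 : w' * (φ x.right w')⁻¹ * (φ x.right w) * w'⁻¹
            = (φ x.right w')⁻¹ * (φ x.right w) := by
          rw [mul_comm _ w'⁻¹, ← mul_assoc, ← mul_assoc, inv_mul_cancel, one_mul]
        rw [h3, mul_comm w] at h2
        exact h2.symm
      have h4 := hφ x.right hc _ h1
      exact (inv_mul_eq_one.1 h4).symm
    obtain ⟨w, hw⟩ := (Finite.injective_iff_surjective.1 hinj) x.left
    simp only at hw
    have hx : x = SemidirectProduct.inl w * SemidirectProduct.inr x.right *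
        (SemidirectProduct.inl w)⁻¹ := by
      apply SemidirectProduct.ext
      · simp [hw]
      · simp
    have hconj : x ^ d = 1 ↔ x.right ^ d = 1 := by
      constructor
      · intro h
        have := congrArg SemidirectProduct.rightHom h
        rw [map_pow, map_one] at this
        exact this
      · intro h
        rw [hx, conj_pow, ← map_pow, h, map_one, mul_one, mul_inv_cancel]
    rw [hconj]
    simp [hc]

/-- fixed-point-free actions of the same group on the same group give conformal groups -/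
theorem cr_conformal_of_fpf {V C : Type} [CommGroup V] [Finite V] [Group C] [Finite C]
    (φ ψ : C →* MulAut V) (hφ : ∀ c : C, c ≠ 1 → ∀ v, φ c v = v → v = 1)
    (hψ : ∀ c : C, c ≠ 1 → ∀ v, ψ c v = v → v = 1) : CRConformal (V ⋊[φ] C) (V ⋊[ψ] C) := by
  intro d _
  let e : (V ⋊[φ] C) ≃ (V ⋊[ψ] C) :=
    { toFun := fun x => ⟨x.left, x.right⟩
      invFun := fun x => ⟨x.left, x.right⟩
      left_inv := fun _ => rfl
      right_inv := fun _ => rfl }
  refine Nat.card_congr (e.subtypeEquiv fun x => ?_)
  rw [cr_fpf_key φ hφ, cr_fpf_key ψ hψ]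
  rfl

/-- conformality is preserved by direct products with a common factor -/
theorem cr_conformal_prod {G₁ G₂ Z : Type} [Group G₁] [Group G₂] [Group Z]
    (h : CRConformal G₁ G₂) : CRConformal (G₁ × Z) (G₂ × Z) := by
  intro d hd
  have key : ∀ (G : Type) [Group G], Nat.card {x : G × Z // x ^ d = 1}
      = Nat.card {x : G // x ^ d = 1} * Nat.card {z : Z // z ^ d = 1} := by
    intro G _
    rw [← Nat.card_prod]
    refine Nat.card_congr
      { toFun := fun x => (⟨x.1.1, congrArg Prod.fst x.2⟩, ⟨x.1.2, congrArg Prod.snd x.2⟩)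
        invFun := fun y => ⟨(y.1.1, y.2.1), Prod.ext y.1.2 y.2.2⟩
        left_inv := fun _ => rfl
        right_inv := fun _ => rfl }
  rw [key, key, h d hd]

theorem cr_iso_aux {V C Z : Type} [CommGroup V] [Finite V] [Group C] [Finite C] [CommGroup Z] [Finite Z]
    (φ φ' : C →* MulAut V) (hcop : Nat.Coprime (Nat.card V) (Nat.card C * Nat.card Z))
    (Φ : (V ⋊[φ] C) × Z ≃* (V ⋊[φ'] C) × Z) (v : V) :
    Φ (SemidirectProduct.inl v, 1) =
      (SemidirectProduct.inl (Φ (SemidirectProduct.inl v, 1)).1.left, 1) := by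
  have h1 : ((SemidirectProduct.inl v, 1) : (V ⋊[φ] C) × Z) ^ Nat.card V = 1 := by
    rw [Prod.pow_mk, ← map_pow, pow_card_eq_one', map_one, one_pow]
    rfl
  have h2 : (Φ (SemidirectProduct.inl v, 1)) ^ Nat.card V = 1 := by
    rw [← map_pow, h1, map_one]
  have h3 : (Φ (SemidirectProduct.inl v, 1)).2 ^ Nat.card V = 1 := congrArg Prod.snd h2
  have h4 : (Φ (SemidirectProduct.inl v, 1)).1 ^ Nat.card V = 1 := congrArg Prod.fst h2
  have h5 : (Φ (SemidirectProduct.inl v, 1)).1.right ^ Nat.card V = 1 := by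
    have := congrArg SemidirectProduct.rightHom h4
    rw [map_pow, map_one] at this
    exact this
  have hone : ∀ {H : Type} [Group H] (x : H) (m : ℕ), Nat.Coprime (Nat.card V) m →
      x ^ Nat.card V = 1 → x ^ m = 1 → x = 1 := by
    intro H _ x m hm hx1 hx2
    have h6 := Nat.dvd_gcd (orderOf_dvd_of_pow_eq_one hx1) (orderOf_dvd_of_pow_eq_one hx2)
    rw [hm] at h6
    exact orderOf_eq_one_iff.1 (Nat.dvd_one.1 h6)
  have h6 : (Φ (SemidirectProduct.inl v, 1)).2 = 1 :=
    hone _ (Nat.card Z) (Nat.Coprime.coprime_mul_left_right hcop) h3 pow_card_eq_one'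
  have h7 : (Φ (SemidirectProduct.inl v, 1)).1.right = 1 :=
    hone _ (Nat.card C) (Nat.Coprime.coprime_mul_right_right hcop) h5 pow_card_eq_one'
  apply Prod.ext
  · apply SemidirectProduct.ext
    · simp
    · simp [h7]
  · exact h6

theorem cr_iso_gives {V C Z : Type} [CommGroup V] [Finite V] [Group C] [Finite C] [CommGroup Z] [Finite Z]
    (φ φ' : C →* MulAut V) (hcop : Nat.Coprime (Nat.card V) (Nat.card C * Nat.card Z))
    (Φ : (V ⋊[φ] C) × Z ≃* (V ⋊[φ'] C) × Z) :
    ∃ f : V ≃* V, ∀ c : C, ∃ c' : C, ∀ v, f (φ c v) = φ' c' (f v) := by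
  have hA := cr_iso_aux φ φ' hcop Φ
  have hB := cr_iso_aux φ' φ hcop Φ.symm
  let f : V ≃* V :=
    { toFun := fun v => (Φ (SemidirectProduct.inl v, 1)).1.left
      invFun := fun v => (Φ.symm (SemidirectProduct.inl v, 1)).1.left
      left_inv := fun v => by
        show (Φ.symm (SemidirectProduct.inl (Φ (SemidirectProduct.inl v, 1)).1.left, 1)).1.left = v
        rw [← hA v, MulEquiv.symm_apply_apply]
        simp
      right_inv := fun v => by
        show (Φ (SemidirectProduct.inl (Φ.symm (SemidirectProduct.inl v, 1)).1.left, 1)).1.left = v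
        rw [← hB v, MulEquiv.apply_symm_apply]
        simp
      map_mul' := fun v w => by
        have h1 : ((SemidirectProduct.inl (v * w), 1) : (V ⋊[φ] C) × Z)
            = (SemidirectProduct.inl v, 1) * (SemidirectProduct.inl w, 1) := by
          rw [Prod.mk_mul_mk, ← map_mul, one_mul]
        show (Φ (SemidirectProduct.inl (v * w), 1)).1.left = _
        rw [h1, map_mul, hA v, hA w]
        simp }
  have hf : ∀ v, f v = (Φ (SemidirectProduct.inl v, 1)).1.left := fun v => rfl
  refine ⟨f, fun c => ⟨(Φ (SemidirectProduct.inr c, 1)).1.right, fun v => ?_⟩⟩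
  have h1 : ((SemidirectProduct.inl (φ c v), 1) : (V ⋊[φ] C) × Z)
      = (SemidirectProduct.inr c, 1) * (SemidirectProduct.inl v, 1) *
        (SemidirectProduct.inr c, 1)⁻¹ := by
    rw [SemidirectProduct.inl_aut, Prod.mk_mul_mk, Prod.inv_mk, Prod.mk_mul_mk]
    simp
  rw [hf (φ c v), h1, map_mul, map_mul, map_inv, hA v, ← hf v]
  set y := Φ (SemidirectProduct.inr c, 1) with hy
  show (y.1 * SemidirectProduct.inl (f v) * y.1⁻¹).left = φ' y.1.right (f v)
  simp only [SemidirectProduct.mul_left, SemidirectProduct.mul_right, SemidirectProduct.inv_left,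
    SemidirectProduct.left_inl, SemidirectProduct.right_inl, mul_one]
  have h2 : (φ' y.1.right) ((φ' y.1.right⁻¹) y.1.left⁻¹) = y.1.left⁻¹ := by
    rw [map_inv φ', MulAut.apply_inv_self]
  rw [mul_comm y.1.left, mul_assoc, h2, mul_inv_cancel, mul_one]
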