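import Mathlib
import Pool.Agent.MPcb9dee.J16

/-- diagonal action -/
def crDiag (p : ℕ) (u v : (ZMod p)ˣ) : MulAut (Multiplicative (ZMod p × ZMod p)) where
  toFun x := Multiplicative.ofAdd
    ((u : ZMod p) * (Multiplicative.toAdd x).1, (v : ZMod p) * (Multiplicative.toAdd x).2)
  invFun x := Multiplicative.ofAdd
    (((u⁻¹ : (ZMod p)ˣ) : ZMod p) * (Multiplicative.toAdd x).1,
      ((v⁻¹ : (ZMod p)ˣ) : ZMod p) * (Multiplicative.toAdd x).2)
  left_inv x := by simp
  right_inv x := by simp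
  map_mul' x y := by
    simp only [toAdd_mul, Prod.fst_add, Prod.snd_add, mul_add]
    rfl

/-- diagonal action as a homomorphism -/
def crDiagHom (p : ℕ) : (ZMod p)ˣ × (ZMod p)ˣ →* MulAut (Multiplicative (ZMod p × ZMod p)) where
  toFun q := crDiag p q.1 q.2
  map_one' := by
    ext x <;> simp [crDiag]
  map_mul' q q' := by
    ext x <;> simp [crDiag, mul_assoc]

theorem crDiagHom_fpf (p : ℕ) [Fact p.Prime] (u v : (ZMod p)ˣ) (hu : u ≠ 1) (hv : v ≠ 1)
    (x : Multiplicative (ZMod p × ZMod p)) (hx : crDiagHom p (u, v) x = x) : x = 1 := by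
  have h0 : ((u : ZMod p) * (Multiplicative.toAdd x).1, (v : ZMod p) * (Multiplicative.toAdd x).2) =
      Multiplicative.toAdd x := congrArg Multiplicative.toAdd hx
  have h1 : (u : ZMod p) * (Multiplicative.toAdd x).1 = (Multiplicative.toAdd x).1 :=
    congrArg Prod.fst h0
  have h2 : (v : ZMod p) * (Multiplicative.toAdd x).2 = (Multiplicative.toAdd x).2 :=
    congrArg Prod.snd h0
  have key : ∀ (w : (ZMod p)ˣ) (t : ZMod p), w ≠ 1 → (w : ZMod p) * t = t → t = 0 := by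
    intro w t hw ht
    by_contra hne
    apply hw
    have : (w : ZMod p) = 1 := mul_right_cancel₀ hne (by rw [ht, one_mul])
    exact Units.ext this
  have h3 := key u _ hu h1
  have h4 := key v _ hv h2
  apply Multiplicative.toAdd.injective
  rw [toAdd_one]
  exact Prod.ext h3 h4

/-- TARGET: cubefree multiples of `p^2 r`, `r` an odd prime dividing `p-1`, are not rigid. -/
theorem cr_not_rigid_two {n p r : ℕ} (hp : p.Prime) (hr : r.Prime) (hr2 : Odd r) (hrp : r ∣ p - 1)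
    (hn : n ≠ 0) (h : p ^ 2 * r ∣ n) (hcf : ¬ p ^ 3 ∣ n) : ¬ CRRigid n := by
  intro hrig
  obtain ⟨m, hm⟩ := h
  have hpf : Fact p.Prime := ⟨hp⟩
  have hrf : Fact r.Prime := ⟨hr⟩
  have hm0 : m ≠ 0 := by
    rintro rfl
    exact hn (by rw [hm, mul_zero])
  have hmn : NeZero m := ⟨hm0⟩
  obtain ⟨a, ha⟩ : ∃ a : (ZMod p)ˣ, orderOf a = r :=
    exists_prime_orderOf_dvd_card r (by rw [ZMod.card_units_eq_totient, Nat.totient_prime hp]; exact hrp)
  let C := Subgroup.zpowers a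
  let V := Multiplicative (ZMod p × ZMod p)
  let Z := Multiplicative (ZMod m)
  let φ : C →* MulAut V := (crDiagHom p).comp (C.subtype.prod C.subtype)
  let ψ : C →* MulAut V := (crDiagHom p).comp (C.subtype.prod (invMonoidHom.comp C.subtype))
  have hφ : ∀ c : C, c ≠ 1 → ∀ v, φ c v = v → v = 1 := by
    intro c hc v hv
    have hc' : (c : (ZMod p)ˣ) ≠ 1 := fun h => hc (Subtype.ext h)
    exact crDiagHom_fpf p c c hc' hc' v hv
  have hψ : ∀ c : C, c ≠ 1 → ∀ v, ψ c v = v → v = 1 := by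
    intro c hc v hv
    have hc' : (c : (ZMod p)ˣ) ≠ 1 := fun h => hc (Subtype.ext h)
    exact crDiagHom_fpf p c (c : (ZMod p)ˣ)⁻¹ hc' (inv_ne_one.2 hc') v hv
  have hVfin : Finite V := inferInstanceAs (Finite (ZMod p × ZMod p))
  have hZfin : Finite Z := inferInstanceAs (Finite (ZMod m))
  have hcV : Nat.card V = p ^ 2 := by
    have : Nat.card V = Nat.card (ZMod p × ZMod p) := rfl
    rw [this, Nat.card_prod, Nat.card_zmod]
    ring
  have hcZ : Nat.card Z = m := by
    have : Nat.card Z = Nat.card (ZMod m) := rfl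
    rw [this, Nat.card_zmod]
  have hcC : Nat.card C = r := by
    rw [← ha]
    exact Nat.card_zpowers a
  have hf1 : Finite (V ⋊[φ] C) := Finite.of_equiv _ SemidirectProduct.equivProd.symm
  have hf2 : Finite (V ⋊[ψ] C) := Finite.of_equiv _ SemidirectProduct.equivProd.symm
  have hc1 : Nat.card ((V ⋊[φ] C) × Z) = n := by
    rw [Nat.card_prod, Nat.card_congr SemidirectProduct.equivProd, Nat.card_prod, hcV, hcC, hcZ,
      hm]
  have hc2 : Nat.card ((V ⋊[ψ] C) × Z) = n := by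
    rw [Nat.card_prod, Nat.card_congr SemidirectProduct.equivProd, Nat.card_prod, hcV, hcC, hcZ,
      hm]
  obtain ⟨Φ⟩ := hrig ((V ⋊[φ] C) × Z) ((V ⋊[ψ] C) × Z) hc1 hc2
    (cr_conformal_prod (cr_conformal_of_fpf φ ψ hφ hψ))
  have hpr : ¬ p ∣ r := by
    intro h
    have h1 : p = r := (Nat.prime_dvd_prime_iff_eq hp hr).1 h
    have h2 := Nat.le_of_dvd (by have := hp.two_le; omega) hrp
    have := hp.two_le
    omega
  have hpm : ¬ p ∣ m := by
    intro h
    apply hcf
    rw [hm]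
    obtain ⟨m', hm'⟩ := h
    exact ⟨r * m', by rw [hm']; ring⟩
  have hcop : Nat.Coprime (Nat.card V) (Nat.card C * Nat.card Z) := by
    rw [hcV, hcC, hcZ]
    apply Nat.Coprime.pow_left
    rw [Nat.Prime.coprime_iff_not_dvd hp]
    intro h
    rcases (Nat.Prime.dvd_mul hp).1 h with h | h
    · exact hpr h
    · exact hpm h
  obtain ⟨f, hf⟩ := cr_iso_gives φ ψ hcop Φ
  obtain ⟨c', hc'⟩ := hf ⟨a, Subgroup.mem_zpowers a⟩
  have hpow : ∀ v : V, φ ⟨a, Subgroup.mem_zpowers a⟩ v = v ^ (a : ZMod p).val := by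
    intro v
    apply Multiplicative.toAdd.injective
    rw [toAdd_pow]
    have h1 : Multiplicative.toAdd (φ ⟨a, Subgroup.mem_zpowers a⟩ v) =
      ((a : ZMod p) * (Multiplicative.toAdd v).1, (a : ZMod p) * (Multiplicative.toAdd v).2) := rfl
    rw [h1]
    apply Prod.ext
    · rw [Prod.smul_fst, nsmul_eq_mul, ZMod.natCast_zmod_val]
    · rw [Prod.smul_snd, nsmul_eq_mul, ZMod.natCast_zmod_val]
  have hall : ∀ w : V, w ^ (a : ZMod p).val = ψ c' w := by
    intro w
    obtain ⟨v, rfl⟩ := f.surjective w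
    rw [← hc' v, hpow v, map_pow]
  have h1 := congrArg Multiplicative.toAdd (hall (Multiplicative.ofAdd (1, 1)))
  rw [toAdd_pow, toAdd_ofAdd] at h1
  have h2 : Multiplicative.toAdd (ψ c' (Multiplicative.ofAdd ((1 : ZMod p), (1 : ZMod p)))) =
      (((c' : (ZMod p)ˣ) : ZMod p) * 1, (((c' : (ZMod p)ˣ)⁻¹ : (ZMod p)ˣ) : ZMod p) * 1) := rfl
  rw [h2] at h1
  have h3 := congrArg Prod.fst h1
  have h4 := congrArg Prod.snd h1
  rw [Prod.smul_fst, nsmul_eq_mul, ZMod.natCast_zmod_val, mul_one] at h3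
  rw [Prod.smul_snd, nsmul_eq_mul, ZMod.natCast_zmod_val, mul_one] at h4
  simp only [mul_one] at h3 h4
  have h5 : a = (c' : (ZMod p)ˣ) := Units.ext h3
  have h6 : a = (c' : (ZMod p)ˣ)⁻¹ := Units.ext h4
  have h7 : a ^ 2 = 1 := by
    rw [pow_two]
    nth_rw 2 [h6]
    rw [← h5, mul_inv_cancel]
  have h8 : r ∣ 2 := by
    rw [← ha]
    exact orderOf_dvd_of_pow_eq_one h7
  have h9 := Nat.le_of_dvd (by norm_num) h8
  have h10 := hr.two_le
  have h11 : r = 2 := by omega
  rw [h11] at hr2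
  exact absurd hr2 (by decide)
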