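import Mathlib

/-- scalars commuting with an additive map -/
def cr_conj_pow_sf {K : Type} [Field K] (f : K ≃+ K) : Subfield K where
  carrier := {t | ∀ x, f (t * x) = t * f x}
  one_mem' := by
    intro x
    rw [one_mul, one_mul]
  mul_mem' := by
    intro s t hs ht x
    rw [mul_assoc, hs, ht, mul_assoc]
  zero_mem' := by
    intro x
    rw [zero_mul, zero_mul, map_zero]
  add_mem' := by
    intro s t hs ht x
    rw [add_mul, map_add, hs, ht, add_mul]
  neg_mem' := by
    intro t ht x
    rw [neg_mul, map_neg, ht, neg_mul]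
  inv_mem' := by
    intro t ht x
    by_cases h0 : t = 0
    · rw [h0, inv_zero, zero_mul, zero_mul, map_zero]
    · apply mul_left_cancel₀ h0
      rw [← ht, mul_inv_cancel_left₀ h0, mul_inv_cancel_left₀ h0]

theorem cr_conj_pow_prime {p : ℕ} [Fact p.Prime] {K : Type} [Field K] [CharP K p] (f : K ≃+ K) (t : K)
    (ht : t ^ p = t) (x : K) : f (t * x) = t * f x := by
  have h1 : t ∈ (⊥ : Subfield K) := (Subfield.mem_bot_iff_pow_eq_self K p).mpr ht
  have h2 : (⊥ : Subfield K) ≤ cr_conj_pow_sf f := bot_le
  exact h2 h1 x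

theorem cr_conj_pow {p : ℕ} [Fact p.Prime] {K : Type} [Field K] [Finite K]
    (hK : Nat.card K = p ∨ Nat.card K = p ^ 2) (a c : K) (f : K ≃+ K)
    (hf : ∀ x, f (a * x) = c * f x) : c = a ∨ (Nat.card K = p ^ 2 ∧ c = a ^ p) := by
  have hFin : Fintype K := Fintype.ofFinite K
  rw [Nat.card_eq_fintype_card] at hK ⊢
  have hchar : CharP K p := by
    rcases hK with h | h
    · exact charP_of_card_eq_prime h
    · exact charP_of_card_eq_prime_pow h
  obtain ⟨x, hx⟩ : ∃ x, f x = 1 := ⟨f.symm 1, f.apply_symm_apply 1⟩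
  rcases hK with h | h
  · left
    have ha : a ^ p = a := by
      have := FiniteField.pow_card a
      rw [h] at this
      exact this
    have h1 := cr_conj_pow_prime f a ha x
    rw [hf, hx, mul_one, mul_one] at h1
    exact h1
  · have haq : a ^ (p ^ 2) = a := by
      have := FiniteField.pow_card a
      rw [h] at this
      exact this
    have hapq : (a ^ p) ^ p = a := by rw [← pow_mul, ← pow_two, haq]
    obtain ⟨b, hb⟩ : ∃ b, b = a ^ p := ⟨_, rfl⟩
    rw [← hb] at hapq ⊢
    have hs : (a + b) ^ p = a + b := by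
      rw [add_pow_char, hapq, ← hb, add_comm]
    have hm : (a * b) ^ p = a * b := by
      rw [mul_pow, hapq, ← hb, mul_comm]
    have h1 : f ((a * b) * x) = (a * b) * f x := cr_conj_pow_prime f _ hm x
    have h2 : f ((a + b) * (a * x)) = (a + b) * f (a * x) := cr_conj_pow_prime f _ hs _
    have h3 : f (a * (a * x)) = c * (c * f x) := by rw [hf, hf]
    have h4 : a * (a * x) + (a * b) * x = (a + b) * (a * x) := by ring
    have h5 := congrArg f h4
    rw [map_add, h1, h2, h3, hf, hx] at h5
    have h6 : (c - a) * (c - b) = 0 := by linear_combination h5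
    rcases mul_eq_zero.mp h6 with h7 | h7
    · left
      exact sub_eq_zero.mp h7
    · right
      exact ⟨h, sub_eq_zero.mp h7⟩
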