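import Mathlib
import Pool.Agent.MPcb9dee.J15
import Pool.Agent.MPcb9dee.J16

/-- diagonal automorphisms -/
def cr_not_rigid_pair_act {K L : Type} [Field K] [Field L] (w : Kˣ × Lˣ) :
    MulAut (Multiplicative (K × L)) where
  toFun x := Multiplicative.ofAdd ((w.1 : K) * (Multiplicative.toAdd x).1,
    (w.2 : L) * (Multiplicative.toAdd x).2)
  invFun x := Multiplicative.ofAdd (((w.1⁻¹ : Kˣ) : K) * (Multiplicative.toAdd x).1,
    ((w.2⁻¹ : Lˣ) : L) * (Multiplicative.toAdd x).2)
  left_inv x := by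
    apply Multiplicative.toAdd.injective
    simp
  right_inv x := by
    apply Multiplicative.toAdd.injective
    simp
  map_mul' x y := by
    apply Multiplicative.toAdd.injective
    simp [mul_add]

def cr_not_rigid_pair_hom (K L : Type) [Field K] [Field L] :
    Kˣ × Lˣ →* MulAut (Multiplicative (K × L)) where
  toFun := cr_not_rigid_pair_act
  map_one' := by
    apply MulEquiv.ext
    intro x
    simp [cr_not_rigid_pair_act]
  map_mul' u v := by
    apply MulEquiv.ext
    intro x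
    simp [cr_not_rigid_pair_act, mul_assoc]

theorem cr_not_rigid_pair_hom_apply {K L : Type} [Field K] [Field L] (w : Kˣ × Lˣ) (x : K) (y : L) :
    cr_not_rigid_pair_hom K L w (Multiplicative.ofAdd (x, y)) =
      Multiplicative.ofAdd ((w.1 : K) * x, (w.2 : L) * y) := rfl

theorem cr_not_rigid_pair_first {K L : Type} [Field K] [Field L] [Finite K] {p : ℕ}
    (hpK : (p : K) = 0) (hpL : (p : L) ≠ 0)
    (f : Multiplicative (K × L) ≃* Multiplicative (K × L)) (a c : K) (b d : L)
    (hf : ∀ (x : K) (y : L), f (Multiplicative.ofAdd (a * x, b * y)) =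
      Multiplicative.ofAdd (c * (Multiplicative.toAdd (f (Multiplicative.ofAdd (x, y)))).1,
        d * (Multiplicative.toAdd (f (Multiplicative.ofAdd (x, y)))).2)) :
    ∃ f1 : K ≃+ K, ∀ x, f1 (a * x) = c * f1 x := by
  let F : K →+ K :=
    { toFun := fun x => (Multiplicative.toAdd (f (Multiplicative.ofAdd (x, (0 : L))))).1
      map_zero' := by
        have : (Multiplicative.ofAdd ((0 : K), (0 : L))) = 1 := rfl
        rw [this, map_one]; rfl
      map_add' := fun x y => by
        have : Multiplicative.ofAdd (x + y, (0 : L)) =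
            Multiplicative.ofAdd (x, (0 : L)) * Multiplicative.ofAdd (y, (0 : L)) := by
          rw [← ofAdd_add]; simp
        rw [this, map_mul]; rfl }
  have hsnd : ∀ x : K, (Multiplicative.toAdd (f (Multiplicative.ofAdd (x, (0 : L))))).2 = 0 := by
    intro x
    have h1 : (f (Multiplicative.ofAdd (x, (0 : L)))) ^ p = 1 := by
      rw [← map_pow, ← ofAdd_nsmul]
      have : p • (x, (0 : L)) = 0 := by
        ext
        · simp [hpK]
        · simp
      rw [this, ofAdd_zero, map_one]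
    have h2 := congrArg (fun z => (Multiplicative.toAdd z).2) h1
    simp only [toAdd_pow, Prod.smul_snd, toAdd_one, Prod.snd_zero, nsmul_eq_mul] at h2
    exact (mul_eq_zero.1 h2).resolve_left hpL
  have hinj : Function.Injective F := by
    rw [injective_iff_map_eq_zero]
    intro x hx
    have h1 : f (Multiplicative.ofAdd (x, (0 : L))) = 1 := by
      apply Multiplicative.toAdd.injective
      exact Prod.ext hx (hsnd x)
    rw [map_eq_one_iff f f.injective] at h1
    have h2 := congrArg (fun z => (Multiplicative.toAdd z).1) h1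
    exact h2
  refine ⟨AddEquiv.ofBijective F (Finite.injective_iff_bijective.1 hinj), fun x => ?_⟩
  have h1 := hf x 0
  rw [mul_zero] at h1
  have h2 := congrArg (fun z => (Multiplicative.toAdd z).1) h1
  exact h2

theorem cr_not_rigid_pair_second {K L : Type} [Field K] [Field L] [Finite L] {q : ℕ}
    (hqL : (q : L) = 0) (hqK : (q : K) ≠ 0)
    (f : Multiplicative (K × L) ≃* Multiplicative (K × L)) (a c : K) (b d : L)
    (hf : ∀ (x : K) (y : L), f (Multiplicative.ofAdd (a * x, b * y)) =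
      Multiplicative.ofAdd (c * (Multiplicative.toAdd (f (Multiplicative.ofAdd (x, y)))).1,
        d * (Multiplicative.toAdd (f (Multiplicative.ofAdd (x, y)))).2)) :
    ∃ f2 : L ≃+ L, ∀ x, f2 (b * x) = d * f2 x := by
  let F : L →+ L :=
    { toFun := fun x => (Multiplicative.toAdd (f (Multiplicative.ofAdd ((0 : K), x)))).2
      map_zero' := by
        have : (Multiplicative.ofAdd ((0 : K), (0 : L))) = 1 := rfl
        rw [this, map_one]; rfl
      map_add' := fun x y => by
        have : Multiplicative.ofAdd ((0 : K), x + y) =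
            Multiplicative.ofAdd ((0 : K), x) * Multiplicative.ofAdd ((0 : K), y) := by
          rw [← ofAdd_add]; simp
        rw [this, map_mul]; rfl }
  have hsnd : ∀ x : L, (Multiplicative.toAdd (f (Multiplicative.ofAdd ((0 : K), x)))).1 = 0 := by
    intro x
    have h1 : (f (Multiplicative.ofAdd ((0 : K), x))) ^ q = 1 := by
      rw [← map_pow, ← ofAdd_nsmul]
      have : q • ((0 : K), x) = 0 := by
        ext
        · simp
        · simp [hqL]
      rw [this, ofAdd_zero, map_one]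
    have h2 := congrArg (fun z => (Multiplicative.toAdd z).1) h1
    simp only [toAdd_pow, Prod.smul_fst, toAdd_one, Prod.fst_zero, nsmul_eq_mul] at h2
    exact (mul_eq_zero.1 h2).resolve_left hqK
  have hinj : Function.Injective F := by
    rw [injective_iff_map_eq_zero]
    intro x hx
    have h1 : f (Multiplicative.ofAdd ((0 : K), x)) = 1 := by
      apply Multiplicative.toAdd.injective
      exact Prod.ext (hsnd x) hx
    rw [map_eq_one_iff f f.injective] at h1
    have h2 := congrArg (fun z => (Multiplicative.toAdd z).2) h1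
    exact h2
  refine ⟨AddEquiv.ofBijective F (Finite.injective_iff_bijective.1 hinj), fun x => ?_⟩
  have h1 := hf 0 x
  rw [mul_zero] at h1
  have h2 := congrArg (fun z => (Multiplicative.toAdd z).2) h1
  exact h2

/-- an element of order exactly `r` -/
theorem cr_not_rigid_pair_ord {K : Type} [Field K] [Finite K] {r : ℕ} (h : r ∣ Nat.card K - 1) :
    ∃ a : Kˣ, orderOf a = r := by
  obtain ⟨g, hg⟩ := IsCyclic.exists_ofOrder_eq_natCard (α := Kˣ)
  have hc : Nat.card Kˣ = Nat.card K - 1 := Nat.card_units K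
  refine ⟨g ^ (orderOf g / r), orderOf_pow_orderOf_div ?_ ?_⟩
  · rw [hg]; exact Nat.card_pos.ne'
  · rw [hg, hc]; exact h

/-- the arithmetic at the end -/
theorem cr_not_rigid_pair_arith {r i p q e f : ℕ} (hr : 3 ≤ r) (hef : 5 ≤ r ∨ (e = 1 ∧ f = 1))
    (h1 : i ≡ 1 [MOD r] ∨ (e = 2 ∧ r ∣ p + 1 ∧ i ≡ p [MOD r]))
    (h2 : 2 * i ≡ 1 [MOD r] ∨ (f = 2 ∧ r ∣ q + 1 ∧ 2 * i ≡ q [MOD r])) : False := by
  have hz : ∀ u v : ℕ, u ≡ v [MOD r] → (r : ℤ) ∣ (v : ℤ) - u := fun u v h =>
    (Nat.modEq_iff_dvd.1 h)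
  have hfin : ∀ m : ℤ, 0 < m → (r : ℤ) ∣ m → (r : ℤ) ≤ m := fun m hm h => Int.le_of_dvd hm h
  rcases h1 with h1 | ⟨he, hp, h1⟩ <;> rcases h2 with h2 | ⟨hf, hq, h2⟩
  · have a1 := hz _ _ h1
    have a2 := hz _ _ h2
    push_cast at a1 a2
    have a3 : (r : ℤ) ∣ 1 := by
      have := (dvd_mul_of_dvd_right a1 2).sub a2
      have e : 2 * ((1 : ℤ) - i) - (1 - 2 * i) = 1 := by ring
      rwa [e] at this
    have := hfin 1 (by norm_num) a3
    omega
  · have a1 := hz _ _ h1
    have a2 := hz _ _ h2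
    have a4 : (r : ℤ) ∣ (q : ℤ) + 1 := by exact_mod_cast hq
    push_cast at a1 a2
    have a3 : (r : ℤ) ∣ 3 := by
      have := ((dvd_mul_of_dvd_right a1 2).sub a2).add a4
      have e : 2 * ((1 : ℤ) - i) - ((q : ℤ) - 2 * i) + (q + 1) = 3 := by ring
      rwa [e] at this
    have := hfin 3 (by norm_num) a3
    omega
  · have a1 := hz _ _ h1
    have a2 := hz _ _ h2
    have a4 : (r : ℤ) ∣ (p : ℤ) + 1 := by exact_mod_cast hp
    push_cast at a1 a2
    have a3 : (r : ℤ) ∣ 3 := by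
      have := (a2.sub (dvd_mul_of_dvd_right a1 2)).add (dvd_mul_of_dvd_right a4 2)
      have e : ((1 : ℤ) - 2 * i) - 2 * ((p : ℤ) - i) + 2 * (p + 1) = 3 := by ring
      rwa [e] at this
    have := hfin 3 (by norm_num) a3
    omega
  · have a1 := hz _ _ h1
    have a2 := hz _ _ h2
    have a4 : (r : ℤ) ∣ (p : ℤ) + 1 := by exact_mod_cast hp
    have a5 : (r : ℤ) ∣ (q : ℤ) + 1 := by exact_mod_cast hq
    push_cast at a1 a2
    have a3 : (r : ℤ) ∣ 1 := by
      have := ((a2.sub (dvd_mul_of_dvd_right a1 2)).add (dvd_mul_of_dvd_right a4 2)).sub a5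
      have e : ((q : ℤ) - 2 * i) - 2 * ((p : ℤ) - i) + 2 * (p + 1) - (q + 1) = 1 := by ring
      rwa [e] at this
    have := hfin 1 (by norm_num) a3
    omega

theorem cr_not_rigid_pair_fpf {K L : Type} [Field K] [Field L] (w : Kˣ × Lˣ) (h1 : w.1 ≠ 1)
    (h2 : w.2 ≠ 1) (v : Multiplicative (K × L)) (h : cr_not_rigid_pair_hom K L w v = v) :
    v = 1 := by
  have h3 : ((w.1 : K) * (Multiplicative.toAdd v).1, (w.2 : L) * (Multiplicative.toAdd v).2) =
      Multiplicative.toAdd v := congrArg Multiplicative.toAdd h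
  have h4 := congrArg Prod.fst h3
  have h5 := congrArg Prod.snd h3
  simp only at h4 h5
  apply Multiplicative.toAdd.injective
  apply Prod.ext
  · show (Multiplicative.toAdd v).1 = 0
    by_contra hne
    apply h1
    apply Units.ext
    rw [Units.val_one]
    exact mul_right_cancel₀ hne (by rw [h4, one_mul])
  · show (Multiplicative.toAdd v).2 = 0
    by_contra hne
    apply h2
    apply Units.ext
    rw [Units.val_one]
    exact mul_right_cancel₀ hne (by rw [h5, one_mul])

theorem cr_not_rigid_pair_main {K L : Type} [Field K] [Field L] [Finite K] [Finite L]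
    {n p q r e f : ℕ} (hp : p.Prime) (hq : q.Prime)
    (hr : 3 ≤ r) (hrodd : Odd r) (hn : n ≠ 0)
    (he : (e = 1 ∧ r ∣ p - 1) ∨ (e = 2 ∧ r ∣ p + 1)) (hf : (f = 1 ∧ r ∣ q - 1) ∨ (f = 2 ∧ r ∣ q + 1))
    (hef : 5 ≤ r ∨ (e = 1 ∧ f = 1)) (h : p ^ e * q ^ f * r ∣ n)
    (hpn : ¬ p ^ (e + 1) ∣ n) (hqn : ¬ q ^ (f + 1) ∣ n)
    (hKc : Nat.card K = p ^ e) (hLc : Nat.card L = q ^ f) (hpK : (p : K) = 0) (hqL : (q : L) = 0)
    (hpL : (p : L) ≠ 0) (hqK : (q : K) ≠ 0) (a : Kˣ) (b : Lˣ) (ha : orderOf a = r)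
    (hb : orderOf b = r) : ¬ CRRigid n := by
  intro hrig
  have : Fact p.Prime := ⟨hp⟩
  have : Fact q.Prime := ⟨hq⟩
  have : NeZero r := ⟨by omega⟩
  obtain ⟨m, hm⟩ := h
  have hm0 : m ≠ 0 := by rintro rfl; exact hn (by rw [hm, mul_zero])
  have : NeZero m := ⟨hm0⟩
  let C := Multiplicative (ZMod r)
  let Z := Multiplicative (ZMod m)
  let V := Multiplicative (K × L)
  let g : C := Multiplicative.ofAdd (1 : ZMod r)
  have hgp : ∀ c : C, ∃ k : ℕ, c = g ^ k := by
    intro c
    refine ⟨(Multiplicative.toAdd c).val, ?_⟩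
    apply Multiplicative.toAdd.injective
    rw [toAdd_pow]
    show Multiplicative.toAdd c = _ • (1 : ZMod r)
    rw [nsmul_eq_mul, mul_one, ZMod.natCast_zmod_val]
  have hgr : g ^ r = 1 := by
    apply Multiplicative.toAdd.injective
    rw [toAdd_pow]
    show r • (1 : ZMod r) = 0
    rw [nsmul_eq_mul, mul_one, ZMod.natCast_self]
  have hgen : ∀ c : C, c ∈ Subgroup.zpowers g := by
    intro c
    obtain ⟨k, rfl⟩ := hgp c
    exact Subgroup.npow_mem_zpowers g k
  have hgo : orderOf g = r := by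
    rw [orderOf_ofAdd_eq_addOrderOf]; exact ZMod.addOrderOf_one r
  have har : a ^ r = 1 := by rw [← ha]; exact pow_orderOf_eq_one a
  have hbr : b ^ r = 1 := by rw [← hb]; exact pow_orderOf_eq_one b
  have hw1 : orderOf (cr_not_rigid_pair_hom K L (a, b)) ∣ orderOf g := by
    rw [hgo]
    apply orderOf_dvd_of_pow_eq_one
    rw [← map_pow, Prod.pow_mk, har, hbr]
    exact map_one _
  have hw2 : orderOf (cr_not_rigid_pair_hom K L (a, b ^ 2)) ∣ orderOf g := by
    rw [hgo]
    apply orderOf_dvd_of_pow_eq_one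
    rw [← map_pow, Prod.pow_mk, har, ← pow_mul, mul_comm 2 r, pow_mul, hbr, one_pow]
    exact map_one _
  let φ : C →* MulAut V := monoidHomOfForallMemZpowers hgen hw1
  let ψ : C →* MulAut V := monoidHomOfForallMemZpowers hgen hw2
  have hφg : φ g = cr_not_rigid_pair_hom K L (a, b) := monoidHomOfForallMemZpowers_apply_gen _ _
  have hψg : ψ g = cr_not_rigid_pair_hom K L (a, b ^ 2) := monoidHomOfForallMemZpowers_apply_gen _ _
  have hφk : ∀ k : ℕ, φ (g ^ k) = cr_not_rigid_pair_hom K L (a ^ k, b ^ k) := by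
    intro k; rw [map_pow, hφg, ← map_pow, Prod.pow_mk]
  have hψk : ∀ k : ℕ, ψ (g ^ k) = cr_not_rigid_pair_hom K L (a ^ k, (b ^ 2) ^ k) := by
    intro k; rw [map_pow, hψg, ← map_pow, Prod.pow_mk]
  have hne : ∀ k : ℕ, g ^ k ≠ 1 → ¬ r ∣ k := by
    intro k hk hrk
    obtain ⟨j, rfl⟩ := hrk
    apply hk
    rw [pow_mul, hgr, one_pow]
  have hfpφ : ∀ c : C, c ≠ 1 → ∀ v, φ c v = v → v = 1 := by
    intro c hc v hv
    obtain ⟨k, rfl⟩ := hgp c
    rw [hφk] at hv
    refine cr_not_rigid_pair_fpf _ ?_ ?_ v hv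
    · intro h1; exact hne k hc (by rw [← ha]; exact orderOf_dvd_of_pow_eq_one h1)
    · intro h1; exact hne k hc (by rw [← hb]; exact orderOf_dvd_of_pow_eq_one h1)
  have hfpψ : ∀ c : C, c ≠ 1 → ∀ v, ψ c v = v → v = 1 := by
    intro c hc v hv
    obtain ⟨k, rfl⟩ := hgp c
    rw [hψk] at hv
    refine cr_not_rigid_pair_fpf _ ?_ ?_ v hv
    · intro h1; exact hne k hc (by rw [← ha]; exact orderOf_dvd_of_pow_eq_one h1)
    · intro h1
      apply hne k hc
      have h2 : r ∣ 2 * k := by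
        rw [← hb]; apply orderOf_dvd_of_pow_eq_one; rw [pow_mul]; exact h1
      exact (Nat.Coprime.dvd_of_dvd_mul_left (Nat.coprime_two_right.2 hrodd) h2)
  have hVc : Nat.card V = p ^ e * q ^ f := by
    show Nat.card (K × L) = _
    rw [Nat.card_prod, hKc, hLc]
  have hCc : Nat.card C = r := by
    show Nat.card (ZMod r) = _
    exact Nat.card_zmod r
  have hZc : Nat.card Z = m := by
    show Nat.card (ZMod m) = _
    exact Nat.card_zmod m
  have : Finite C := inferInstanceAs (Finite (ZMod r))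
  have : Finite Z := inferInstanceAs (Finite (ZMod m))
  have : Finite V := inferInstanceAs (Finite (K × L))
  have : Finite (V ⋊[φ] C) := Finite.of_equiv _ SemidirectProduct.equivProd.symm
  have : Finite (V ⋊[ψ] C) := Finite.of_equiv _ SemidirectProduct.equivProd.symm
  have hc1 : Nat.card ((V ⋊[φ] C) × Z) = n := by
    rw [Nat.card_prod, SemidirectProduct.card, hVc, hCc, hZc, hm]
  have hc2 : Nat.card ((V ⋊[ψ] C) × Z) = n := by
    rw [Nat.card_prod, SemidirectProduct.card, hVc, hCc, hZc, hm]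
  obtain ⟨Φ⟩ := hrig _ _ hc1 hc2 (cr_conformal_prod (cr_conformal_of_fpf φ ψ hfpφ hfpψ))
  have hnot : ∀ (p : ℕ), p.Prime → ∀ e : ℕ, ((e = 1 ∧ r ∣ p - 1) ∨ (e = 2 ∧ r ∣ p + 1)) →
      ¬ p ∣ r := by
    intro p hp e he hpr
    rcases he with ⟨_, h1⟩ | ⟨_, h1⟩
    · have h2 := hpr.trans h1
      have := Nat.le_of_dvd (by have := hp.two_le; omega) h2
      have := hp.two_le
      omega
    · have h2 := hpr.trans h1
      have h3 : p ∣ 1 := (Nat.dvd_add_right (dvd_refl p)).1 h2
      exact hp.one_lt.ne' (Nat.dvd_one.1 h3)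
  have hcop : Nat.Coprime (Nat.card V) (Nat.card C * Nat.card Z) := by
    rw [hVc, hCc, hZc]
    have hpr := hnot p hp e he
    have hqr := hnot q hq f hf
    have hpm : ¬ p ∣ m := by
      rintro ⟨t, rfl⟩
      apply hpn
      rw [hm, pow_succ]
      exact ⟨q ^ f * r * t, by ring⟩
    have hqm : ¬ q ∣ m := by
      rintro ⟨t, rfl⟩
      apply hqn
      rw [hm, pow_succ]
      exact ⟨p ^ e * r * t, by ring⟩
    apply Nat.Coprime.mul_left
    · apply Nat.Coprime.pow_left
      rw [Nat.Prime.coprime_iff_not_dvd hp, hp.dvd_mul]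
      tauto
    · apply Nat.Coprime.pow_left
      rw [Nat.Prime.coprime_iff_not_dvd hq, hq.dvd_mul]
      tauto
  obtain ⟨F, hF⟩ := cr_iso_gives φ ψ hcop Φ
  obtain ⟨c', hc'⟩ := hF g
  obtain ⟨i, rfl⟩ := hgp c'
  have hff : ∀ (x : K) (y : L), F (Multiplicative.ofAdd ((a : K) * x, (b : L) * y)) =
      Multiplicative.ofAdd (((a ^ i : Kˣ) : K) * (Multiplicative.toAdd (F (Multiplicative.ofAdd (x, y)))).1,
        (((b ^ 2) ^ i : Lˣ) : L) * (Multiplicative.toAdd (F (Multiplicative.ofAdd (x, y)))).2) := by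
    intro x y
    have h1 := hc' (Multiplicative.ofAdd (x, y))
    rw [hφg, hψk] at h1
    exact h1
  obtain ⟨f1, hf1⟩ := cr_not_rigid_pair_first hpK hpL F _ _ _ _ hff
  obtain ⟨f2, hf2⟩ := cr_not_rigid_pair_second hqL hqK F _ _ _ _ hff
  have k1 := cr_conj_pow (p := p) (by
    rcases he with ⟨h1, _⟩ | ⟨h1, _⟩
    · left; rw [hKc, h1, pow_one]
    · right; rw [hKc, h1]) _ _ f1 hf1
  have k2 := cr_conj_pow (p := q) (by
    rcases hf with ⟨h1, _⟩ | ⟨h1, _⟩
    · left; rw [hLc, h1, pow_one]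
    · right; rw [hLc, h1]) _ _ f2 hf2
  have m1 : i ≡ 1 [MOD r] ∨ (e = 2 ∧ r ∣ p + 1 ∧ i ≡ p [MOD r]) := by
    rcases k1 with k1 | ⟨k0, k1⟩
    · left
      have h1 : a ^ i = a ^ 1 := by rw [pow_one]; exact Units.ext k1
      have h2 := pow_eq_pow_iff_modEq.1 h1
      rwa [ha] at h2
    · right
      rw [hKc] at k0
      have he2 : e = 2 := Nat.pow_right_injective hp.two_le k0
      refine ⟨he2, ?_, ?_⟩
      · rcases he with h1 | h1
        · omega
        · exact h1.2
      · have h1 : a ^ i = a ^ p := Units.ext (by rw [k1]; simp)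
        have h2 := pow_eq_pow_iff_modEq.1 h1
        rwa [ha] at h2
  have m2 : 2 * i ≡ 1 [MOD r] ∨ (f = 2 ∧ r ∣ q + 1 ∧ 2 * i ≡ q [MOD r]) := by
    rcases k2 with k2 | ⟨k0, k2⟩
    · left
      have h1 : b ^ (2 * i) = b ^ 1 := by rw [pow_one, pow_mul]; exact Units.ext k2
      have h2 := pow_eq_pow_iff_modEq.1 h1
      rwa [hb] at h2
    · right
      rw [hLc] at k0
      have he2 : f = 2 := Nat.pow_right_injective hq.two_le k0
      refine ⟨he2, ?_, ?_⟩
      · rcases hf with h1 | h1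
        · omega
        · exact h1.2
      · have h1 : b ^ (2 * i) = b ^ q := by
          rw [pow_mul]
          exact Units.ext (by rw [k2]; simp)
        have h2 := pow_eq_pow_iff_modEq.1 h1
        rwa [hb] at h2
  exact cr_not_rigid_pair_arith hr hef m1 m2

/-- TARGET: two independent faithful actions of a cyclic group of order `r` -/
theorem cr_not_rigid_pair {n p q r e f : ℕ} (hp : p.Prime) (hq : q.Prime) (hpq : p ≠ q)
    (hr : 3 ≤ r) (hrodd : Odd r) (hn : n ≠ 0)
    (he : (e = 1 ∧ r ∣ p - 1) ∨ (e = 2 ∧ r ∣ p + 1)) (hf : (f = 1 ∧ r ∣ q - 1) ∨ (f = 2 ∧ r ∣ q + 1))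
    (hef : 5 ≤ r ∨ (e = 1 ∧ f = 1)) (h : p ^ e * q ^ f * r ∣ n)
    (hpn : ¬ p ^ (e + 1) ∣ n) (hqn : ¬ q ^ (f + 1) ∣ n) : ¬ CRRigid n := by
  have : Fact p.Prime := ⟨hp⟩
  have : Fact q.Prime := ⟨hq⟩
  have he0 : e ≠ 0 := by rcases he with h | h <;> omega
  have hf0 : f ≠ 0 := by rcases hf with h | h <;> omega
  have hKc := GaloisField.card p e he0
  have hLc := GaloisField.card q f hf0
  have hdiv : ∀ (p e : ℕ), ((e = 1 ∧ r ∣ p - 1) ∨ (e = 2 ∧ r ∣ p + 1)) → r ∣ p ^ e - 1 := by
    intro p e he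
    rcases he with ⟨h1, h2⟩ | ⟨h1, h2⟩
    · rw [h1, pow_one]; exact h2
    · rw [h1]
      have : p ^ 2 - 1 = (p + 1) * (p - 1) := by
        have := Nat.sq_sub_sq p 1
        simpa using this
      rw [this]; exact h2.mul_right _
  obtain ⟨a, ha⟩ := cr_not_rigid_pair_ord (K := GaloisField p e) (r := r)
    (by rw [hKc]; exact hdiv p e he)
  obtain ⟨b, hb⟩ := cr_not_rigid_pair_ord (K := GaloisField q f) (r := r)
    (by rw [hLc]; exact hdiv q f hf)
  refine cr_not_rigid_pair_main (K := GaloisField p e) (L := GaloisField q f) hp hq hr hrodd hn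
    he hf hef h hpn hqn hKc hLc (CharP.cast_eq_zero _ p) (CharP.cast_eq_zero _ q) ?_ ?_ a b ha hb
  · intro h0
    rw [CharP.cast_eq_zero_iff (GaloisField q f) q] at h0
    exact hpq ((Nat.prime_dvd_prime_iff_eq hq hp).1 h0).symm
  · intro h0
    rw [CharP.cast_eq_zero_iff (GaloisField p e) p] at h0
    exact hpq ((Nat.prime_dvd_prime_iff_eq hp hq).1 h0)
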