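import Mathlib
import Pool.Agent.MPcb9dee.Good
import Pool.Agent.MPcb9dee.J17
import Pool.Agent.MPcb9dee.J18
import Pool.Agent.MPcb9dee.J19

theorem cr_acts_odd {p r : ℕ} (hp : p.Prime) (hr : 5 ≤ r) (h : r ∣ p - 1 ∨ r ∣ p + 1) : Odd p := by
  rcases hp.eq_two_or_odd' with h2 | h2
  · subst h2
    rcases h with h | h
    · have := Nat.le_of_dvd (by norm_num) h; omega
    · have := Nat.le_of_dvd (by norm_num) h; omega
  · exact h2

theorem cr_good_of_rigid {n : ℕ} (hn : n ≠ 0) (h : CRRigid n) : CRGood n := by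
  have g1 : ∀ p, p.Prime → Odd p → ¬ p ^ 3 ∣ n := fun p hp hodd hdvd =>
    cr_not_rigid_cube hp hodd hn hdvd h
  have hpodd : ∀ p r, p.Prime → r.Prime → r ∣ p - 1 → Odd p := by
    intro p r hp hr hrp
    rcases hp.eq_two_or_odd' with h2 | h2
    · subst h2
      have := Nat.le_of_dvd (by norm_num) hrp
      have := hr.two_le
      omega
    · exact h2
  have g2 : ∀ p r, p.Prime → r.Prime → Odd r → r ∣ p - 1 → ¬ p ^ 2 * r ∣ n := by
    intro p r hp hr hrodd hrp hdvd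
    exact cr_not_rigid_two hp hr hrodd hrp hn hdvd (g1 p hp (hpodd p r hp hr hrp)) h
  -- general pair obstruction
  have key : ∀ (m p q : ℕ), p.Prime → q.Prime → 3 ≤ m → Odd m → m ∣ n →
      (∀ s : ℕ, s = p ∨ s = q → (s ∣ n ∧ m ∣ s - 1) ∨ (5 ≤ m ∧ s ^ 2 ∣ n ∧ m ∣ s + 1)) →
      (5 ≤ m ∨ (m ∣ p - 1 ∧ m ∣ q - 1)) → p = q := by
    intro m p q hp hq hm hmodd hmn hs hor
    by_contra hpq
    -- data for one prime
    have hd : ∀ s, s.Prime → s = p ∨ s = q → ∃ e, ((e = 1 ∧ m ∣ s - 1) ∨ (e = 2 ∧ 5 ≤ m ∧ m ∣ s + 1)) ∧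
        s ^ e ∣ n ∧ ¬ s ^ (e + 1) ∣ n ∧ Nat.Coprime s m := by
      intro s hsp hs'
      have hcop : ∀ k, m ∣ k → Nat.Coprime s k → Nat.Coprime s m := fun k h1 h2 =>
        Nat.Coprime.coprime_dvd_right h1 h2
      have hc1 : Nat.Coprime s (s - 1) := by
        have h1 := hsp.two_le
        have := (Nat.coprime_self_add_right (m := s - 1) (n := 1)).2 (Nat.coprime_one_right _)
        rw [Nat.sub_add_cancel (by omega)] at this
        exact this.symm
      have hc2 : Nat.Coprime s (s + 1) := by simp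
      obtain ⟨r, hr, hrm⟩ := Nat.exists_prime_and_dvd (n := m) (by omega)
      have hrodd : Odd r := Odd.of_dvd_nat hmodd hrm
      rcases hs s hs' with ⟨h1, h2⟩ | ⟨h0, h1, h2⟩
      · refine ⟨1, Or.inl ⟨rfl, h2⟩, by simpa using h1, ?_, hcop _ h2 hc1⟩
        intro h3
        refine g2 s r hsp hr hrodd (hrm.trans h2) ?_
        refine Nat.Coprime.mul_dvd_of_dvd_of_dvd ?_ h3 (hrm.trans hmn)
        exact Nat.Coprime.pow_left _ (Nat.Coprime.coprime_dvd_right hrm (hcop _ h2 hc1))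
      · refine ⟨2, Or.inr ⟨rfl, h0, h2⟩, h1, ?_, hcop _ h2 hc2⟩
        exact g1 s hsp (cr_acts_odd hsp h0 (Or.inr h2))
    obtain ⟨e, he, he1, he2, he3⟩ := hd p hp (Or.inl rfl)
    obtain ⟨f, hf, hf1, hf2, hf3⟩ := hd q hq (Or.inr rfl)
    have hpqc : Nat.Coprime p q := (Nat.coprime_primes hp hq).2 hpq
    have hdvd : p ^ e * q ^ f * m ∣ n := by
      refine Nat.Coprime.mul_dvd_of_dvd_of_dvd ?_ ?_ hmn
      · exact Nat.Coprime.mul_left (Nat.Coprime.pow_left _ he3) (Nat.Coprime.pow_left _ hf3)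
      · exact Nat.Coprime.mul_dvd_of_dvd_of_dvd (Nat.Coprime.pow _ _ hpqc) he1 hf1
    have hmul : 5 ≤ m ∨ (e = 1 ∧ f = 1) := by
      rcases he with ⟨h1, _⟩ | ⟨_, h1, _⟩
      · rcases hf with ⟨h2, _⟩ | ⟨_, h2, _⟩
        · exact Or.inr ⟨h1, h2⟩
        · exact Or.inl h2
      · exact Or.inl h1
    exact cr_not_rigid_pair hp hq hpq hm hmodd hn
      (he.imp id (fun h => ⟨h.1, h.2.2⟩)) (hf.imp id (fun h => ⟨h.1, h.2.2⟩)) hmul hdvd he2 hf2 h
  refine ⟨g1, g2, ?_, ?_, ?_⟩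
  · intro r p q hr hp hq hr5 hrn hap haq
    have hrodd : Odd r := by
      rcases hr.eq_two_or_odd' with h2 | h2
      · omega
      · exact h2
    refine key r p q hp hq (by omega) hrodd hrn ?_ (Or.inl hr5)
    rintro s (rfl | rfl)
    · exact hap.imp id (fun h => ⟨hr5, h⟩)
    · exact haq.imp id (fun h => ⟨hr5, h⟩)
  · intro h3 p q hp hq hpn hqn hp3 hq3
    refine key 3 p q hp hq le_rfl (by decide) h3 ?_ (Or.inr ⟨hp3, hq3⟩)
    rintro s (rfl | rfl)
    · exact Or.inl ⟨hpn, hp3⟩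
    · exact Or.inl ⟨hqn, hq3⟩
  · intro h9 p q hp hq hap haq
    refine key 9 p q hp hq (by norm_num) (by decide) h9 ?_ (Or.inl (by norm_num))
    rintro s (rfl | rfl)
    · exact hap.imp id (fun h => ⟨by norm_num, h⟩)
    · exact haq.imp id (fun h => ⟨by norm_num, h⟩)
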