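import Mathlib

open Classical in
/-- a finite abelian group is the direct product of subgroups of coprime orders whose product is the
order of the group; version with given isomorphisms of the factors. -/
theorem cr_exists_iso_pi {N : Type} [CommGroup N] [Finite N] {ι : Type} [Fintype ι] (E : ι → Type)
    [∀ i, AddCommGroup (E i)] [∀ i, Finite (E i)]
    (hcop : Pairwise fun i j => Nat.Coprime (Nat.card (E i)) (Nat.card (E j)))
    (hcard : Nat.card N = ∏ i, Nat.card (E i))
    (V : ι → Subgroup N) (e : ∀ i, V i ≃* Multiplicative (E i)) :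
    (⨆ i, V i = ⊤) ∧ ∃ f : N ≃* Multiplicative (∀ i, E i),
      ∀ i (x : V i), f x = Multiplicative.ofAdd (Pi.single i (e i x).toAdd) := by
  have : ∀ i, Fintype (V i) := fun i => Fintype.ofFinite _
  have hcardV : ∀ i, Nat.card (V i) = Nat.card (E i) := fun i =>
    Nat.card_congr ((e i).toEquiv.trans Multiplicative.toAdd)
  have hcomm : Pairwise fun i j : ι => ∀ x y : N, x ∈ V i → y ∈ V j → Commute x y :=
    fun i j _ x y _ _ => Commute.all x y
  have hind : iSupIndep V := Subgroup.independent_of_coprime_order hcomm (fun i j hij => by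
    show Nat.Coprime (Fintype.card (V i)) (Fintype.card (V j))
    rw [← Nat.card_eq_fintype_card, ← Nat.card_eq_fintype_card, hcardV, hcardV]
    exact hcop hij)
  have hinj := Subgroup.injective_noncommPiCoprod_of_iSupIndep (hcomm := hcomm) hind
  have hbij : Function.Bijective (Subgroup.noncommPiCoprod hcomm) := by
    refine (Nat.bijective_iff_injective_and_card _).mpr ⟨hinj, ?_⟩
    rw [Nat.card_pi, hcard]
    exact Finset.prod_congr rfl fun i _ => hcardV i
  refine ⟨?_, ?_⟩
  · rw [← Subgroup.noncommPiCoprod_range (hcomm := hcomm)]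
    exact MonoidHom.range_eq_top.mpr hbij.2
  · let F : (∀ i, V i) ≃* N := MulEquiv.ofBijective _ hbij
    let A : (∀ i, V i) ≃* (∀ i, Multiplicative (E i)) := MulEquiv.piCongrRight e
    let B : (∀ i, Multiplicative (E i)) ≃* Multiplicative (∀ i, E i) :=
      { toFun := fun g => Multiplicative.ofAdd fun i => (g i).toAdd
        invFun := fun g i => Multiplicative.ofAdd (g.toAdd i)
        left_inv := fun g => rfl
        right_inv := fun g => rfl
        map_mul' := fun g h => rfl }
    refine ⟨F.symm.trans (A.trans B), fun i x => ?_⟩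
    have hx : F.symm x = Pi.mulSingle i x := by
      rw [MulEquiv.symm_apply_eq]
      exact (Subgroup.noncommPiCoprod_mulSingle (hcomm := hcomm) i x).symm
    rw [MulEquiv.trans_apply, hx]
    apply Multiplicative.toAdd.injective
    funext j
    by_cases hj : j = i
    · subst hj
      simp [A, B]
    · simp [A, B, Pi.mulSingle_eq_of_ne hj, Pi.single_eq_of_ne hj]
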