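import Mathlib

theorem j24780_iso (R : Type) [Ring R] (hR : IsField R) [Finite R] (E : Type) [Field E] [Finite E]
    (h : Nat.card R = Nat.card E) : Nonempty (R ≃+* E) := by
  let _ := hR.toField
  let _ := Fintype.ofFinite R
  let _ := Fintype.ofFinite E
  exact ⟨FiniteField.ringEquivOfCardEq (K := R) (K' := E)
    (by rw [← Nat.card_eq_fintype_card, ← Nat.card_eq_fintype_card]; exact h)⟩

theorem j24780_add {A : Type} [AddCommGroup A] [Finite A] [Nontrivial A] {H : Type} [Group H]
    (ψ : H →* AddMonoid.End A) (hcomm : ∀ a b : H, ψ a * ψ b = ψ b * ψ a)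
    (hsimple : ∀ W : AddSubgroup A, (∀ h : H, ∀ w ∈ W, ψ h w ∈ W) → W = ⊥ ∨ W = ⊤)
    (E : Type) [Field E] [Finite E] (hcard : Nat.card E = Nat.card A) :
    ∃ (χ : H →* Eˣ) (e : A ≃+ E), ∀ h v, e (ψ h v) = (χ h : E) * e v := by
  classical
  obtain ⟨v0, hv0⟩ := exists_ne (0 : A)
  obtain ⟨R, hRdef⟩ : ∃ R : Subring (AddMonoid.End A), R = Subring.closure (Set.range ψ) := ⟨_, rfl⟩
  have hψR : ∀ h, ψ h ∈ R := fun h => by rw [hRdef]; exact Subring.subset_closure ⟨h, rfl⟩
  have hcR : ∀ ρ ∈ R, ∀ h, ρ * ψ h = ψ h * ρ := by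
    intro ρ hρ h
    rw [hRdef] at hρ
    induction hρ using Subring.closure_induction with
    | mem x hx => obtain ⟨h', rfl⟩ := hx; exact hcomm h' h
    | zero => rw [zero_mul, mul_zero]
    | one => rw [one_mul, mul_one]
    | add x y _ _ hx hy => rw [add_mul, mul_add, hx, hy]
    | neg x _ hx => rw [neg_mul, mul_neg, hx]
    | mul x y _ _ hx hy => rw [mul_assoc, hy, ← mul_assoc, hx, mul_assoc]
  have hRR : ∀ ρ ∈ R, ∀ σ ∈ R, ρ * σ = σ * ρ := by
    intro ρ hρ σ hσ
    rw [hRdef] at hσ
    induction hσ using Subring.closure_induction with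
    | mem x hx => obtain ⟨h', rfl⟩ := hx; exact hcR ρ hρ h'
    | zero => rw [zero_mul, mul_zero]
    | one => rw [one_mul, mul_one]
    | add x y _ _ hx hy => rw [add_mul, mul_add, hx, hy]
    | neg x _ hx => rw [neg_mul, mul_neg, hx]
    | mul x y _ _ hx hy => rw [← mul_assoc, hx, mul_assoc, hy, ← mul_assoc]
  have hker : ∀ ρ ∈ R, ρ ≠ 0 → ∀ v : A, ρ v = 0 → v = 0 := by
    intro ρ hρ h0 v hv
    let W : AddSubgroup A :=
      { carrier := {w | ρ w = 0}
        zero_mem' := map_zero ρ
        add_mem' := fun {a b} ha hb => by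
          have ha' : ρ a = 0 := ha
          have hb' : ρ b = 0 := hb
          show ρ (a + b) = 0
          rw [map_add, ha', hb', add_zero]
        neg_mem' := fun {a} ha => by
          have ha' : ρ a = 0 := ha
          show ρ (-a) = 0
          rw [map_neg, ha', neg_zero] }
    have hW := hsimple W (by
      intro h w hw
      have h1 := DFunLike.congr_fun (hcR ρ hρ h) w
      have h2 : ρ (ψ h w) = ψ h (ρ w) := h1
      have h3 : ρ w = 0 := hw
      rw [h3, map_zero] at h2
      exact h2)
    rcases hW with hW | hW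
    · have h1 : v ∈ W := hv
      rw [hW] at h1
      exact AddSubgroup.mem_bot.1 h1
    · exfalso
      apply h0
      apply DFunLike.ext
      intro w
      have h1 : w ∈ W := by rw [hW]; exact AddSubgroup.mem_top w
      exact h1
  have hsurj : ∀ v : A, ∃ ρ ∈ R, ρ v0 = v := by
    let W : AddSubgroup A :=
      { carrier := {v | ∃ ρ ∈ R, ρ v0 = v}
        zero_mem' := ⟨0, R.zero_mem, rfl⟩
        add_mem' := by
          rintro a b ⟨ρ, hρ, rfl⟩ ⟨σ, hσ, rfl⟩
          exact ⟨ρ + σ, R.add_mem hρ hσ, rfl⟩
        neg_mem' := by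
          rintro a ⟨ρ, hρ, rfl⟩
          exact ⟨-ρ, R.neg_mem hρ, rfl⟩ }
    have hW := hsimple W (by
      rintro h w ⟨ρ, hρ, rfl⟩
      exact ⟨ψ h * ρ, R.mul_mem (hψR h) hρ, rfl⟩)
    have h1 : v0 ∈ W := ⟨1, R.one_mem, rfl⟩
    rcases hW with hW | hW
    · rw [hW] at h1
      exact absurd (AddSubgroup.mem_bot.1 h1) hv0
    · intro v
      have h2 : v ∈ W := by rw [hW]; exact AddSubgroup.mem_top v
      exact h2
  let ev : R →+ A :=
    { toFun := fun ρ => (ρ : AddMonoid.End A) v0
      map_zero' := rfl
      map_add' := fun _ _ => rfl }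
  have hev : Function.Bijective ev := by
    constructor
    · rw [injective_iff_map_eq_zero]
      intro ρ hρ
      by_contra hne
      have h1 : (ρ : AddMonoid.End A) ≠ 0 := fun h => hne (Subtype.ext h)
      exact hv0 (hker ρ ρ.2 h1 v0 hρ)
    · intro v
      obtain ⟨ρ, hρ, h⟩ := hsurj v
      exact ⟨⟨ρ, hρ⟩, h⟩
  let evE : R ≃+ A := AddEquiv.ofBijective ev hev
  have : Finite R := Finite.of_injective ev hev.1
  have hfield : IsField R := by
    refine ⟨⟨0, 1, ?_⟩, ?_, ?_⟩
    · intro h
      apply hv0
      have h1 : ev 0 = ev 1 := congrArg ev h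
      rw [map_zero] at h1
      exact h1.symm
    · intro ρ σ
      exact Subtype.ext (hRR ρ ρ.2 σ σ.2)
    · intro ρ hρ
      have hρ' : (ρ : AddMonoid.End A) ≠ 0 := fun h => hρ (Subtype.ext h)
      have hinj : Function.Injective (fun σ : R => ρ * σ) := by
        intro σ σ' h
        have h0 : ρ * (σ - σ') = 0 := by
          rw [mul_sub]; exact sub_eq_zero.2 h
        have h1 : (σ - σ' : R) = 0 := by
          apply Subtype.ext
          apply DFunLike.ext
          intro w
          apply hker ρ ρ.2 hρ'
          have h2 := congrArg (fun τ : R => (τ : AddMonoid.End A) w) h0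
          exact h2
        exact sub_eq_zero.1 h1
      obtain ⟨σ, hσ⟩ := (Finite.injective_iff_surjective.1 hinj) 1
      exact ⟨σ, hσ⟩
  obtain ⟨θ⟩ := j24780_iso R hfield E (by rw [hcard]; exact Nat.card_congr evE.toEquiv)
  let ψR : H →* R := ψ.codRestrict R hψR
  refine ⟨((θ : R →* E).comp ψR).toHomUnits, evE.symm.trans θ.toAddEquiv, ?_⟩
  intro h v
  have h1 : evE.symm (ψ h v) = ψR h * evE.symm v := by
    rw [AddEquiv.symm_apply_eq]
    have h2 : evE (evE.symm v) = v := evE.apply_symm_apply v
    have h3 : evE (ψR h * evE.symm v) = ψ h (evE (evE.symm v)) := rfl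
    rw [h3, h2]
  show θ (evE.symm (ψ h v)) = θ (ψR h) * θ (evE.symm v)
  rw [h1, map_mul]

/-- A finite abelian group `V` which is simple for a commuting action of `H` is the additive group
of a finite field, with `H` acting by multiplications. -/
theorem cr_exists_field_action {V : Type} [CommGroup V] [Finite V] [Nontrivial V] {H : Type} [Group H]
    (φ : H →* MulAut V) (hcomm : ∀ a b : H, φ (a * b) = φ (b * a))
    (hsimple : ∀ W : Subgroup V, (∀ h : H, ∀ w ∈ W, φ h w ∈ W) → W = ⊥ ∨ W = ⊤)
    (E : Type) [Field E] [Finite E] (hcard : Nat.card E = Nat.card V) :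
    ∃ (χ : H →* Eˣ) (e : V ≃* Multiplicative E),
      ∀ h v, (e (φ h v)).toAdd = (χ h : E) * (e v).toAdd := by
  let ψ : H →* AddMonoid.End (Additive V) :=
    { toFun := fun h => (MonoidHom.toAdditive (φ h).toMonoidHom : Additive V →+ Additive V)
      map_one' := by
        apply DFunLike.ext
        intro v
        show Additive.ofMul ((φ 1) (Additive.toMul v)) = v
        rw [map_one]
        rfl
      map_mul' := by
        intro a b
        apply DFunLike.ext
        intro v
        show Additive.ofMul ((φ (a * b)) (Additive.toMul v)) = _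
        rw [map_mul]
        rfl }
  have hψ : ∀ h v, ψ h v = Additive.ofMul (φ h (Additive.toMul v)) := fun h v => rfl
  obtain ⟨χ, e, he⟩ := j24780_add (A := Additive V) ψ (by
      intro a b
      rw [← map_mul, ← map_mul]
      apply DFunLike.ext
      intro v
      rw [hψ, hψ, hcomm]) (by
      intro W hW
      let W' : Subgroup V :=
        { carrier := {v | Additive.ofMul v ∈ W}
          one_mem' := W.zero_mem
          mul_mem' := fun {a b} ha hb => W.add_mem ha hb
          inv_mem' := fun {a} ha => W.neg_mem ha }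
      rcases hsimple W' (fun h w hw => hW h _ hw) with h | h
      · left
        rw [eq_bot_iff]
        intro v hv
        have h1 : Additive.toMul v ∈ W' := hv
        rw [h] at h1
        have h2 : Additive.toMul v = 1 := Subgroup.mem_bot.1 h1
        exact AddSubgroup.mem_bot.2 h2
      · right
        rw [eq_top_iff]
        intro v _
        have h1 : Additive.toMul v ∈ W' := by rw [h]; exact Subgroup.mem_top _
        exact h1) E hcard
  refine ⟨χ,
    { toFun := fun v => Multiplicative.ofAdd (e (Additive.ofMul v))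
      invFun := fun x => Additive.toMul (e.symm x.toAdd)
      left_inv := fun v => by simp
      right_inv := fun x => by simp
      map_mul' := fun a b => by
        show Multiplicative.ofAdd (e (Additive.ofMul a + Additive.ofMul b)) = _
        rw [map_add]
        rfl }, ?_⟩
  intro h v
  exact he h (Additive.ofMul v)
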