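import Mathlib

theorem cr_aux_prime {H : Type} [Group H] {p : ℕ} (hp : p.Prime) (hH : Nat.card H = p)
    (f : H →* H) (k : ℕ) (hk0 : k ≠ 0) (hk : k.Coprime (p-1)) (hf : ∀ x, f^[k] x = x) :
    ∀ x, f x = x := by
  have : Fact p.Prime := ⟨hp⟩
  have : Finite H := Nat.finite_of_card_ne_zero (by rw [hH]; exact hp.ne_zero)
  have : IsCyclic H := isCyclic_of_prime_card hH
  obtain ⟨g, hg⟩ := IsCyclic.exists_generator (α := H)
  have hord : orderOf g = p := by
    rw [← hH]; exact orderOf_eq_card_of_forall_mem_zpowers hg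
  have h1 : ∃ a : ℕ, g ^ a = f g := by
    have := hg (f g)
    rw [← mem_powers_iff_mem_zpowers] at this
    exact this
  obtain ⟨a, ha⟩ := h1
  have h2 : ∀ j, f^[j] g = g ^ (a ^ j) := by
    intro j
    induction j with
    | zero => simp
    | succ j ih =>
      rw [Function.iterate_succ_apply', ih, map_pow, ← ha, ← pow_mul, pow_succ, mul_comm a]
  have h3 : g ^ (a ^ k) = g ^ 1 := by
    rw [← h2 k, hf g, pow_one]
  rw [pow_inj_mod, hord] at h3
  have h4 : ((a : ZMod p)) ^ k = 1 := by
    have : ((a ^ k : ℕ) : ZMod p) = ((1 : ℕ) : ZMod p) := (ZMod.natCast_eq_natCast_iff' _ _ _).2 h3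
    simpa using this
  have h5 : (a : ZMod p) ≠ 0 := by
    intro h
    rw [h, zero_pow hk0] at h4
    exact zero_ne_one h4
  have h6 : (a : ZMod p) ^ (p - 1) = 1 := ZMod.pow_card_sub_one_eq_one h5
  have h7 : orderOf (a : ZMod p) ∣ Nat.gcd k (p-1) :=
    Nat.dvd_gcd (orderOf_dvd_of_pow_eq_one h4) (orderOf_dvd_of_pow_eq_one h6)
  rw [Nat.Coprime] at hk
  rw [hk, Nat.dvd_one, orderOf_eq_one_iff] at h7
  have h8 : g ^ a = g ^ 1 := by
    rw [pow_inj_mod, hord]
    apply (ZMod.natCast_eq_natCast_iff' _ _ _).1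
    simpa using h7
  intro x
  have hx := hg x
  rw [Subgroup.mem_zpowers_iff] at hx
  obtain ⟨m, rfl⟩ := hx
  rw [map_zpow, ← ha, h8, pow_one]

/-- If a group of order prime to `p (p-1)` acts on an abelian group of order `p^2` and leaves a
proper nontrivial subgroup invariant, then it acts trivially. -/
theorem cr_trivial_of_invariant {V : Type} [CommGroup V] [Finite V] {p : ℕ} (hp : p.Prime)
    (hV : Nat.card V = p ^ 2) {Γ : Type} [Group Γ] [Finite Γ]
    (hcop : Nat.Coprime (Nat.card Γ) (p * (p - 1))) (φ : Γ →* MulAut V) (W : Subgroup V)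
    (hW : ∀ g, ∀ w ∈ W, φ g w ∈ W) (h1 : W ≠ ⊥) (h2 : W ≠ ⊤) : ∀ g v, φ g v = v := by
  have hWp : Nat.card W = p := by
    have hd : Nat.card W ∣ p ^ 2 := hV ▸ Subgroup.card_subgroup_dvd_card W
    rw [Nat.dvd_prime_pow hp] at hd
    obtain ⟨k, hk, hk'⟩ := hd
    interval_cases k
    · exfalso; apply h1
      rw [pow_zero] at hk'
      exact (Subgroup.card_eq_one).1 hk'
    · simpa using hk'
    · exfalso; apply h2
      apply Subgroup.eq_top_of_card_eq
      rw [hk', hV]
  have hQp : Nat.card (V ⧸ W) = p := by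
    have := Subgroup.card_eq_card_quotient_mul_card_subgroup W
    rw [hWp, hV, pow_two] at this
    exact (Nat.eq_of_mul_eq_mul_right hp.pos this).symm
  set k := Nat.card Γ with hk
  have hk0 : k ≠ 0 := Nat.card_pos.ne'
  have hkp : k.Coprime p := Nat.Coprime.coprime_mul_right_right hcop
  have hkp1 : k.Coprime (p-1) := Nat.Coprime.coprime_mul_left_right hcop
  intro g
  have hit : ∀ j : ℕ, ∀ v, (φ g)^[j] v = φ (g ^ j) v := by
    intro j
    induction j with
    | zero => intro v; simp
    | succ j ih =>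
      intro v
      rw [Function.iterate_succ_apply', ih, pow_succ', map_mul, MulAut.mul_apply]
  have hitk : ∀ v, (φ g)^[k] v = v := by
    intro v
    rw [hit, hk, pow_card_eq_one', map_one, MulAut.one_apply]
  -- action on W
  let fW : W →* W :=
    { toFun := fun w => ⟨φ g w, hW g w w.2⟩
      map_one' := Subtype.ext (by simp)
      map_mul' := fun a b => Subtype.ext (by simp) }
  have hfW : ∀ w : W, ((fW w : W) : V) = φ g w := fun w => rfl
  have hfWit : ∀ (j : ℕ) (w : W), ((fW^[j] w : W) : V) = (φ g)^[j] w := by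
    intro j
    induction j with
    | zero => intro w; rfl
    | succ j ih =>
      intro w
      rw [Function.iterate_succ_apply', Function.iterate_succ_apply', hfW, ih]
  have hWtriv : ∀ w ∈ W, φ g w = w := by
    intro w hw
    have := cr_aux_prime hp hWp fW k hk0 hkp1 (fun x => Subtype.ext (by rw [hfWit, hitk])) ⟨w, hw⟩
    have h := congrArg (fun x : W => (x : V)) this
    simpa [hfW] using h
  let fQ : (V ⧸ W) →* (V ⧸ W) := QuotientGroup.map W W (φ g).toMonoidHom (fun w hw => hW g w hw)
  have hfQ : ∀ v : V, fQ (v : V ⧸ W) = ((φ g v : V) : V ⧸ W) := fun v => rfl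
  have hfQit : ∀ (j : ℕ) (v : V), fQ^[j] (v : V ⧸ W) = (((φ g)^[j] v : V) : V ⧸ W) := by
    intro j
    induction j with
    | zero => intro w; rfl
    | succ j ih =>
      intro w
      rw [Function.iterate_succ_apply', Function.iterate_succ_apply', ih, hfQ]
  have hQtriv : ∀ v : V, ((φ g v : V) : V ⧸ W) = (v : V ⧸ W) := by
    intro v
    have := cr_aux_prime hp hQp fQ k hk0 hkp1 (fun x => by
      induction x using QuotientGroup.induction_on with
      | H z => rw [hfQit, hitk]) (v : V ⧸ W)
    rw [hfQ] at this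
    exact this
  intro v
  have hv : v⁻¹ * φ g v ∈ W := QuotientGroup.eq.1 (hQtriv v).symm
  set w := v⁻¹ * φ g v with hw
  have hvw : φ g v = v * w := by rw [hw]; group
  have hpow : ∀ j : ℕ, (φ g)^[j] v = v * w ^ j := by
    intro j
    induction j with
    | zero => simp
    | succ j ih =>
      rw [Function.iterate_succ_apply', ih, map_mul, map_pow, hWtriv w hv, hvw, pow_succ', mul_assoc]
  have hwk : w ^ k = 1 := by
    have := hpow k
    rw [hitk] at this
    exact (mul_eq_left.1 this.symm)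
  have hwp : w ^ p = 1 := by
    have := pow_card_eq_one' (x := (⟨w, hv⟩ : W))
    rw [hWp] at this
    have h := congrArg (fun x : W => (x : V)) this
    simpa using h
  have hord : orderOf w ∣ Nat.gcd k p := Nat.dvd_gcd (orderOf_dvd_of_pow_eq_one hwk) (orderOf_dvd_of_pow_eq_one hwp)
  rw [Nat.Coprime] at hkp
  rw [hkp, Nat.dvd_one, orderOf_eq_one_iff] at hord
  rw [hvw, hord, mul_one]
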