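import Mathlib
import Pool.Agent.MPcb9dee.J01
import Pool.Agent.MPcb9dee.J03

theorem cr_comm_of_acts_sq (p : ℕ) [Fact p.Prime] (σ : GaloisField p 2 →+* GaloisField p 2)
    (x : GaloisField p 2) : σ (σ x) = x := by
  have hc : ∀ r : ZMod p, σ (algebraMap (ZMod p) (GaloisField p 2) r) =
      algebraMap (ZMod p) (GaloisField p 2) r := by
    intro r
    have h : σ.comp (algebraMap (ZMod p) (GaloisField p 2)) =
        algebraMap (ZMod p) (GaloisField p 2) := Subsingleton.elim _ _
    exact congrArg (fun f : ZMod p →+* GaloisField p 2 => f r) h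
  let τ : GaloisField p 2 →ₐ[ZMod p] GaloisField p 2 := { σ with commutes' := hc }
  have hinj : Function.Injective τ := σ.injective
  have hbij : Function.Bijective τ := ⟨hinj, Finite.surjective_of_injective hinj⟩
  let ρ : GaloisField p 2 ≃ₐ[ZMod p] GaloisField p 2 := AlgEquiv.ofBijective τ hbij
  have hcard : Nat.card (GaloisField p 2 ≃ₐ[ZMod p] GaloisField p 2) = 2 := by
    have h1 := IsGalois.card_aut_eq_finrank (ZMod p) (GaloisField p 2)
    rw [GaloisField.finrank p two_ne_zero] at h1
    exact h1
  have h2 : ρ ^ 2 = 1 := by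
    have h := pow_card_eq_one' (x := ρ)
    rw [hcard] at h
    exact h
  have h3 : (ρ ^ 2) x = x := by rw [h2]; rfl
  have h4 : (ρ ^ 2) x = σ (σ x) := by rw [pow_two]; rfl
  rw [← h4, h3]

theorem cr_comm_of_acts_core (p : ℕ) [Fact p.Prime] {Γ : Type} [Group Γ] [Finite Γ]
    (hodd : Odd (Nat.card Γ)) (T : Γ → GaloisField p 2 → GaloisField p 2)
    (Tadd : ∀ g x y, T g (x + y) = T g x + T g y)
    (Tmul : ∀ g h x, T (g * h) x = T g (T h x)) (Tone : ∀ x, T 1 x = x)
    (N : Subgroup Γ) (hN : N.Normal) (χ : Γ → GaloisField p 2)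
    (hχ : ∀ h ∈ N, ∀ x, T h x = χ h * x)
    (hS : ∀ S : AddSubgroup (GaloisField p 2), (1 : GaloisField p 2) ∈ S →
      (∀ h ∈ N, ∀ y ∈ S, χ h * y ∈ S) → S = ⊤) :
    ∀ g h x, T g (T h x) = T h (T g x) := by
  have T0 : ∀ g, T g 0 = 0 := by
    intro g
    have h := Tadd g 0 0
    rw [add_zero] at h
    have h2 : T g 0 + 0 = T g 0 + T g 0 := by rw [add_zero]; exact h
    exact (add_left_cancel h2).symm
  have Tneg : ∀ g x, T g (-x) = - T g x := by
    intro g x
    have h := Tadd g (-x) x
    rw [neg_add_cancel, T0] at h
    exact eq_neg_of_add_eq_zero_left h.symm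
  have Tne : ∀ g, T g 1 ≠ 0 := by
    intro g h
    have h1 := Tmul g⁻¹ g 1
    rw [inv_mul_cancel, Tone, h, T0] at h1
    exact one_ne_zero h1
  have Tsemi : ∀ g, ∀ h ∈ N, ∀ y, T g (χ h * y) = χ (g * h * g⁻¹) * T g y := by
    intro g h hh y
    rw [← hχ h hh, ← Tmul, ← hχ _ (hN.conj_mem h hh g), ← Tmul]
    congr 1
    group
  have hstar : ∀ g y x, T g (y * x) * T g 1 = T g y * T g x := by
    intro g
    let S : AddSubgroup (GaloisField p 2) :=
      { carrier := {y | ∀ x, T g (y * x) * T g 1 = T g y * T g x}
        zero_mem' := by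
          intro x
          rw [zero_mul, T0, zero_mul, zero_mul]
        add_mem' := by
          intro a b ha hb x
          rw [add_mul, Tadd, add_mul, ha x, hb x, Tadd, add_mul]
        neg_mem' := by
          intro a ha x
          rw [neg_mul, Tneg, neg_mul, ha x, Tneg, neg_mul] }
    have hST : S = ⊤ := by
      apply hS S
      · intro x
        rw [one_mul, mul_comm]
      · intro h hh y hy x
        have hy' : ∀ x, T g (y * x) * T g 1 = T g y * T g x := hy
        rw [mul_assoc, Tsemi g h hh, Tsemi g h hh]
        linear_combination (χ (g * h * g⁻¹)) * hy' x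
    intro y
    have hy : y ∈ S := by rw [hST]; exact AddSubgroup.mem_top y
    exact hy
  let σ : Γ → (GaloisField p 2 →+* GaloisField p 2) := fun g =>
    { toFun := fun x => T g x / T g 1
      map_one' := div_self (Tne g)
      map_mul' := by
        intro x y
        rw [div_mul_div_comm, ← hstar g x y, mul_div_mul_right _ _ (Tne g)]
      map_zero' := by
        rw [T0, zero_div]
      map_add' := by
        intro x y
        rw [Tadd, add_div] }
  have hσ : ∀ g x, T g x = σ g x * T g 1 := by
    intro g x
    exact (div_mul_cancel₀ (T g x) (Tne g)).symm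
  have hσmul : ∀ g h x, σ (g * h) x = σ g (σ h x) := by
    intro g h x
    have h1 : T (g * h) x = σ g (σ h x) * T (g * h) 1 := by
      rw [Tmul, Tmul, hσ h x]
      have h2 := hstar g (σ h x) (T h 1)
      have h3 := hσ g (σ h x)
      rw [h3] at h2
      have h4 : T g (σ h x * T h 1) * T g 1 = (σ g (σ h x) * T g (T h 1)) * T g 1 := by
        rw [h2]; ring
      exact mul_right_cancel₀ (Tne g) h4
    have h2 := hσ (g * h) x
    rw [h2] at h1
    exact mul_right_cancel₀ (Tne (g * h)) h1
  have hσid : ∀ g x, σ g x = x := by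
    intro g x
    obtain ⟨m, hm⟩ := hodd
    have h1 : g = g ^ (m + 1) * g ^ (m + 1) := by
      rw [← pow_add]
      have h2 : m + 1 + (m + 1) = Nat.card Γ + 1 := by omega
      rw [h2, pow_succ, pow_card_eq_one', one_mul]
    rw [h1, hσmul]
    exact cr_comm_of_acts_sq p _ x
  have hT : ∀ g x, T g x = x * T g 1 := by
    intro g x
    have := hσ g x
    rwa [hσid] at this
  intro g h x
  rw [hT g (T h x), hT h x, hT h (T g x), hT g x]
  ring

/-- TARGET: an odd order soluble group of order prime to `p (p-1)` acts on a group of order `p^2`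
through an abelian group. -/
theorem cr_comm_of_acts {V : Type} [CommGroup V] [Finite V] {p : ℕ} (hp : p.Prime)
    (hV : Nat.card V = p ^ 2) {Γ : Type} [Group Γ] [Finite Γ] [Group.IsSolvable Γ]
    (hodd : Odd (Nat.card Γ)) (hcop : Nat.Coprime (Nat.card Γ) (p * (p - 1)))
    (φ : Γ →* MulAut V) : ∀ a b : Γ, φ (a * b) = φ (b * a) := by
  classical
  haveI : Fact p.Prime := ⟨hp⟩
  obtain ⟨n, hn⟩ := Group.IsSolvable.solvable (G := Γ)
  have hex : ∃ k, ∀ g ∈ derivedSeries Γ k, φ g = 1 := by
    refine ⟨n, ?_⟩
    intro g hg
    rw [hn, Subgroup.mem_bot] at hg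
    rw [hg, map_one]
  have hk := Nat.find_spec hex
  have hmin : ∀ j < Nat.find hex, ¬ ∀ g ∈ derivedSeries Γ j, φ g = 1 :=
    fun j hj => Nat.find_min hex hj
  generalize Nat.find hex = k at hk hmin
  cases k with
  | zero =>
    intro a b
    rw [hk (a * b) (by rw [derivedSeries_zero]; trivial),
      hk (b * a) (by rw [derivedSeries_zero]; trivial)]
  | succ j =>
    have hnt := hmin j (Nat.lt_succ_self j)
    have hNn : (derivedSeries Γ j).Normal := inferInstance
    have hNc : ∀ a ∈ derivedSeries Γ j, ∀ b ∈ derivedSeries Γ j, φ (a * b) = φ (b * a) := by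
      intro a ha b hb
      have h1 : a * b * a⁻¹ * b⁻¹ ∈ derivedSeries Γ (j + 1) := by
        rw [derivedSeries_succ]
        exact Subgroup.commutator_mem_commutator ha hb
      have h2 := hk _ h1
      have h3 : a * b = (a * b * a⁻¹ * b⁻¹) * (b * a) := by
        group
      rw [h3, map_mul, h2, one_mul]
    generalize derivedSeries Γ j = N at hnt hNn hNc
    have hcopN : Nat.Coprime (Nat.card N) (p * (p - 1)) :=
      Nat.Coprime.coprime_dvd_left (Subgroup.card_subgroup_dvd_card N) hcop
    have hVnt : Nontrivial V := by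
      rw [← Finite.one_lt_card_iff_nontrivial, hV]
      exact Nat.one_lt_pow two_ne_zero hp.one_lt
    obtain ⟨χ, e, he⟩ := cr_exists_field_action (V := V) (H := N) (φ.comp N.subtype)
      (fun a b => hNc a a.2 b b.2)
      (by
        intro W hW
        by_contra hne
        push Not at hne
        apply hnt
        intro g hg
        have h1 := cr_trivial_of_invariant hp hV hcopN (φ.comp N.subtype) W hW hne.1 hne.2 ⟨g, hg⟩
        ext v
        exact h1 v)
      (GaloisField p 2) (by rw [GaloisField.card p 2 two_ne_zero, hV])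
    have key := cr_comm_of_acts_core p hodd
      (fun g x => (e (φ g (e.symm (Multiplicative.ofAdd x)))).toAdd)
      (by
        intro g x y
        show (e (φ g (e.symm (Multiplicative.ofAdd (x + y))))).toAdd = _
        rw [ofAdd_add, map_mul, map_mul, map_mul, toAdd_mul])
      (by
        intro g h x
        show (e (φ (g * h) (e.symm (Multiplicative.ofAdd x)))).toAdd =
          (e (φ g (e.symm (Multiplicative.ofAdd
            ((e (φ h (e.symm (Multiplicative.ofAdd x)))).toAdd))))).toAdd
        rw [ofAdd_toAdd, MulEquiv.symm_apply_apply, map_mul, MulAut.mul_apply])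
      (by
        intro x
        show (e (φ 1 (e.symm (Multiplicative.ofAdd x)))).toAdd = x
        rw [map_one, MulAut.one_apply, MulEquiv.apply_symm_apply, toAdd_ofAdd])
      N hNn (fun g => if h : g ∈ N then ((χ ⟨g, h⟩ : (GaloisField p 2)ˣ) : GaloisField p 2) else 0)
      (by
        intro h hh x
        show (e (φ h (e.symm (Multiplicative.ofAdd x)))).toAdd = _
        have h1 := he ⟨h, hh⟩ (e.symm (Multiplicative.ofAdd x))
        have h2 : (φ.comp N.subtype) ⟨h, hh⟩ = φ h := rfl
        rw [h2, MulEquiv.apply_symm_apply, toAdd_ofAdd] at h1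
        rw [h1, dif_pos hh])
      (by
        intro S h1S hSinv
        let W : Subgroup V :=
          { carrier := {v | (e v).toAdd ∈ S}
            one_mem' := by
              show (e 1).toAdd ∈ S
              rw [map_one, toAdd_one]
              exact S.zero_mem
            mul_mem' := by
              intro a b ha hb
              show (e (a * b)).toAdd ∈ S
              rw [map_mul, toAdd_mul]
              exact S.add_mem ha hb
            inv_mem' := by
              intro a ha
              show (e a⁻¹).toAdd ∈ S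
              rw [map_inv, toAdd_inv]
              exact S.neg_mem ha }
        have hWinv : ∀ h : N, ∀ w ∈ W, (φ.comp N.subtype) h w ∈ W := by
          intro h w hw
          show (e ((φ.comp N.subtype) h w)).toAdd ∈ S
          rw [he h w]
          have h3 := hSinv h h.2 (e w).toAdd hw
          rw [dif_pos h.2] at h3
          exact h3
        have hWb : W ≠ ⊥ := by
          intro hb
          have h3 : e.symm (Multiplicative.ofAdd 1) ∈ W := by
            show (e (e.symm (Multiplicative.ofAdd 1))).toAdd ∈ S
            rw [MulEquiv.apply_symm_apply, toAdd_ofAdd]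
            exact h1S
          rw [hb, Subgroup.mem_bot] at h3
          have h4 := congrArg (fun v => (e v).toAdd) h3
          simp only [MulEquiv.apply_symm_apply, toAdd_ofAdd, map_one, toAdd_one] at h4
          exact one_ne_zero h4
        have hWt : W = ⊤ := by
          by_contra hWne
          apply hnt
          intro g hg
          have h1 := cr_trivial_of_invariant hp hV hcopN (φ.comp N.subtype) W hWinv hWb hWne
            ⟨g, hg⟩
          ext v
          exact h1 v
        rw [eq_top_iff]
        intro y _
        have h5 : e.symm (Multiplicative.ofAdd y) ∈ W := by rw [hWt]; trivial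
        have h6 : (e (e.symm (Multiplicative.ofAdd y))).toAdd ∈ S := h5
        rw [MulEquiv.apply_symm_apply, toAdd_ofAdd] at h6
        exact h6)
    intro a b
    ext v
    have h1 := key a b (e v).toAdd
    simp only [ofAdd_toAdd, MulEquiv.symm_apply_apply] at h1
    have h2 := e.injective (Multiplicative.toAdd.injective h1)
    rw [map_mul, map_mul, MulAut.mul_apply, MulAut.mul_apply]
    exact h2
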