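import Mathlib

theorem cr_fix {A : Type} [Group A] [Finite A] (α : MulAut A) {q : ℕ} (hq : q.Prime)
    (hα : orderOf α = q) : ∃ F : Subgroup A, F ≠ ⊤ ∧ Nat.card A ≡ Nat.card F [MOD q] := by
  haveI : Fact q.Prime := ⟨hq⟩
  refine ⟨α.toMonoidHom.eqLocus (MonoidHom.id A), ?_, ?_⟩
  · intro h
    have h1 : α = 1 := by
      ext x
      have hx : x ∈ α.toMonoidHom.eqLocus (MonoidHom.id A) := by rw [h]; exact Subgroup.mem_top x
      exact hx
    rw [h1, orderOf_one] at hα
    exact hq.one_lt.ne hα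
  · have hP : IsPGroup q (Subgroup.zpowers α) := by
      apply IsPGroup.of_card (n := 1)
      rw [Nat.card_zpowers, hα, pow_one]
    have h1 := hP.card_modEq_card_fixedPoints A
    have h2 : MulAction.fixedPoints (Subgroup.zpowers α) A =
        ((α.toMonoidHom.eqLocus (MonoidHom.id A) : Subgroup A) : Set A) := by
      ext x
      constructor
      · intro hx
        exact hx ⟨α, Subgroup.mem_zpowers α⟩
      · intro hx g
        have h3 : Subgroup.zpowers α ≤ MulAction.stabilizer (MulAut A) x := by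
          rw [Subgroup.zpowers_le, MulAction.mem_stabilizer_iff]
          exact hx
        exact MulAction.mem_stabilizer_iff.1 (h3 g.2)
    rw [h2] at h1
    exact h1

theorem cr_comm {A : Type} [Group A] [Finite A] {s : ℕ} [Fact s.Prime] {k : ℕ} (hk : k ≤ 2)
    (hA : Nat.card A = s ^ k) : IsMulCommutative A := by
  obtain rfl | rfl | rfl : k = 0 ∨ k = 1 ∨ k = 2 := by omega
  · rw [pow_zero] at hA
    have := (Nat.card_eq_one_iff_unique.1 hA).1
    exact ⟨⟨fun a b => Subsingleton.elim _ _⟩⟩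
  · rw [pow_one] at hA
    have := isCyclic_of_prime_card hA
    exact ⟨⟨fun a b => by
      letI := IsCyclic.commGroup (α := A)
      exact mul_comm a b⟩⟩
  · exact IsPGroup.isMulCommutative_of_card_eq_prime_sq hA

theorem cr_arith {s q k j : ℕ} (hs : s.Prime) (hq : q.Prime) (hsq : s < q) (hso : Odd s)
    (hqo : Odd q) (hk : k ≤ 2) (hj : j < k) (h : s ^ k ≡ s ^ j [MOD q]) : False := by
  have hs2 := hs.two_le
  have h1 : q ∣ s ^ k - s ^ j := (Nat.modEq_iff_dvd' (Nat.pow_le_pow_right hs.pos hj.le)).1 h.symm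
  have h2 : s ^ k - s ^ j = s ^ j * (s ^ (k - j) - 1) := by
    rw [Nat.mul_sub, mul_one, ← pow_add]
    congr 2
    omega
  rw [h2] at h1
  rcases hq.dvd_mul.1 h1 with h3 | h3
  · have h4 := hq.dvd_of_dvd_pow h3
    have h5 := Nat.le_of_dvd hs.pos h4
    omega
  · obtain h5 | h5 : k - j = 1 ∨ k - j = 2 := by omega
    · rw [h5, pow_one] at h3
      have h6 := Nat.le_of_dvd (by omega) h3
      omega
    · rw [h5] at h3
      have h7 : s ^ 2 - 1 = (s + 1) * (s - 1) := by
        have := Nat.sq_sub_sq s 1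
        simpa using this
      rw [h7] at h3
      rcases hq.dvd_mul.1 h3 with h8 | h8
      · have h9 := Nat.le_of_dvd (by omega) h8
        have h10 : q = s + 1 := by omega
        rw [h10] at hqo
        exact (Nat.not_odd_iff_even.2 hso.add_one) hqo
      · have h9 := Nat.le_of_dvd (by omega) h8
        omega

/-- hypothesis of Burnside's transfer theorem for the smallest prime `s` of an odd number. -/
theorem cr_normalizer_le_centralizer {G : Type} [Group G] [Finite G] (hodd : Odd (Nat.card G))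
    {s : ℕ} [Fact s.Prime] (hs : ∀ q : ℕ, q.Prime → q ∣ Nat.card G → s ≤ q) (P : Sylow s G)
    (hP : Nat.card P ∣ s ^ 2) :
    Subgroup.normalizer (P : Subgroup G) ≤ Subgroup.centralizer ((P : Subgroup G) : Set G) := by
  obtain ⟨k, hk2, hk⟩ := (Nat.dvd_prime_pow Fact.out).1 hP
  have hsp : s.Prime := Fact.out
  haveI : IsMulCommutative (P : Subgroup G) := cr_comm hk2 hk
  by_contra hcon
  rw [← Subgroup.relIndex_eq_one] at hcon
  obtain ⟨φ, hφ⟩ : ∃ φ, φ = (P : Subgroup G).normalizerMonoidHom := ⟨_, rfl⟩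
  have hker : Nat.card φ.range = (Subgroup.centralizer ((P : Subgroup G) : Set G)).relIndex
      (Subgroup.normalizer (P : Subgroup G)) := by
    rw [← Subgroup.index_ker, hφ, Subgroup.normalizerMonoidHom_ker]
    rfl
  obtain ⟨q, hq, hqd⟩ := Nat.exists_prime_and_dvd hcon
  have hqs : q ≠ s := by
    rintro rfl
    have h1 := hqd.trans ((Subgroup.relIndex_dvd_of_le_left _ P.le_centralizer).trans
      (Subgroup.relIndex_dvd_index_of_le P.le_normalizer))
    exact P.not_dvd_index h1
  have hqG : q ∣ Nat.card G :=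
    hqd.trans ((Subgroup.relIndex_dvd_card _ _).trans (Subgroup.card_subgroup_dvd_card _))
  have hsq : s < q := lt_of_le_of_ne (hs q hq hqG) (Ne.symm hqs)
  haveI : Fact q.Prime := ⟨hq⟩
  rw [← hker] at hqd
  obtain ⟨α, hα⟩ := exists_prime_orderOf_dvd_card' q hqd
  have hα' : orderOf (α : MulAut (P : Subgroup G)) = q := by
    rw [Subgroup.orderOf_coe, hα]
  obtain ⟨F, hF, hFm⟩ := cr_fix (α : MulAut (P : Subgroup G)) hq hα'
  have hFd := Subgroup.card_subgroup_dvd_card F
  have hPk : Nat.card (P : Subgroup G) = s ^ k := hk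
  rw [hPk] at hFd hFm
  obtain ⟨j, hjk, hj⟩ := (Nat.dvd_prime_pow hsp).1 hFd
  rw [hj] at hFm
  have hjlt : j < k := by
    rcases hjk.lt_or_eq with h | h
    · exact h
    · exfalso
      apply hF
      apply Subgroup.eq_top_of_card_eq
      rw [hj, hPk, h]
  have hsG : s ∣ Nat.card G := by
    have h1 : s ∣ Nat.card (P : Subgroup G) := by
      rw [hPk]
      exact dvd_pow_self s (by omega)
    exact h1.trans (Subgroup.card_subgroup_dvd_card _)
  exact cr_arith hsp hq hsq (hodd.of_dvd_nat hsG) (hodd.of_dvd_nat hqG) hk2 hjlt hFm
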