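import Mathlib
import Pool.Agent.MPcb9dee.J04

/-- TARGET: a group of odd cubefree order is soluble and, if nontrivial, has a normal Sylow subgroup. -/
theorem cr_exists_normal_sylow (n : ℕ) : ∀ (G : Type) [Group G] [Finite G], Nat.card G = n → Odd n →
    (∀ p, p.Prime → ¬ p ^ 3 ∣ n) →
    Group.IsSolvable G ∧ (n ≠ 1 → ∃ p, ∃ _ : Fact p.Prime, ∃ P : Sylow p G, p ∣ n ∧ (P : Subgroup G).Normal) := by
  classical
  induction n using Nat.strong_induction_on with
  | _ n ih =>
  intro G _ _ hG hodd hcf
  by_cases h1 : n = 1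
  · have hsub : Subsingleton G := by
      rw [h1] at hG
      exact (Nat.card_eq_one_iff_unique.mp hG).1
    exact ⟨inferInstance, fun h => absurd h1 h⟩
  · have hsp : (n.minFac).Prime := Nat.minFac_prime h1
    obtain ⟨s, hs⟩ : ∃ s, s = n.minFac := ⟨_, rfl⟩
    rw [← hs] at hsp
    haveI : Fact s.Prime := ⟨hsp⟩
    have hsn : s ∣ Nat.card G := by rw [hG, hs]; exact Nat.minFac_dvd n
    have P : Sylow s G := default
    have hn0 : n ≠ 0 := by rw [← hG]; exact Nat.card_pos.ne'
    have hPc : Nat.card P ∣ s ^ 2 := by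
      rw [P.card_eq_multiplicity, hG]
      apply pow_dvd_pow
      by_contra h3
      push Not at h3
      exact hcf s hsp ((hsp.pow_dvd_iff_le_factorization hn0).mpr h3)
    have hN := cr_normalizer_le_centralizer (by rw [hG]; exact hodd)
      (fun q hq hqd => by rw [hs]; rw [hG] at hqd; exact Nat.minFac_le_of_dvd hq.two_le hqd) P hPc
    let f := MonoidHom.transferSylow P hN
    have hcompl : f.ker.IsComplement' (P : Subgroup G) := MonoidHom.ker_transferSylow_isComplement' P hN
    have hnd : ¬ s ∣ Nat.card f.ker := MonoidHom.not_dvd_card_ker_transferSylow P hN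
    have hmul : Nat.card f.ker * Nat.card (P : Subgroup G) = Nat.card G := hcompl.card_mul_card
    have hPs : s ∣ Nat.card (P : Subgroup G) := P.dvd_card_of_dvd_card hsn
    have hKpos : 0 < Nat.card f.ker := Nat.card_pos
    have hPpos : 0 < Nat.card (P : Subgroup G) := Nat.card_pos
    have hP1 : 1 < Nat.card (P : Subgroup G) := lt_of_lt_of_le hsp.one_lt (Nat.le_of_dvd hPpos hPs)
    have hKdvd : Nat.card f.ker ∣ n := by rw [← hG, ← hmul]; exact dvd_mul_right _ _
    have hKlt : Nat.card f.ker < n := by
      rw [← hG, ← hmul]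
      exact lt_mul_of_one_lt_right hKpos hP1
    obtain ⟨hKsol, hKn⟩ := ih (Nat.card f.ker) hKlt f.ker rfl (Odd.of_dvd_nat hodd hKdvd)
      (fun p hp hd => hcf p hp (hd.trans hKdvd))
    have hPnil : Group.IsNilpotent P := P.isPGroup'.isNilpotent
    have hPsol : Group.IsSolvable P := inferInstance
    have hGsol : Group.IsSolvable G :=
      Group.isSolvable_of_ker_le_range f.ker.subtype f (by simp)
    refine ⟨hGsol, fun _ => ?_⟩
    by_cases hK1 : Nat.card f.ker = 1
    · refine ⟨s, inferInstance, P, by rw [← hG]; exact hsn, ?_⟩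
      rw [hK1, one_mul] at hmul
      have htop : (P : Subgroup G) = ⊤ := Subgroup.eq_top_of_card_eq _ hmul
      rw [htop]
      infer_instance
    · obtain ⟨q, hq, Q, hqd, hQn⟩ := hKn hK1
      have hchar : (Q : Subgroup f.ker).Characteristic := Q.characteristic_of_normal hQn
      have hnorm : ((Q : Subgroup f.ker).map f.ker.subtype).Normal := inferInstance
      have hpg : IsPGroup q ((Q : Subgroup f.ker).map f.ker.subtype) := Q.isPGroup'.map _
      have hidx : ¬ q ∣ ((Q : Subgroup f.ker).map f.ker.subtype).index := by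
        rw [Subgroup.index_map_subtype]
        intro hd
        rcases hq.out.dvd_mul.mp hd with hd | hd
        · exact Q.not_dvd_index hd
        · have h2 : f.ker.index = Nat.card (P : Subgroup G) := hcompl.symm.index_eq_card
          rw [h2, P.card_eq_multiplicity] at hd
          have h3 : q = s := (Nat.prime_dvd_prime_iff_eq hq.out hsp).mp (hq.out.dvd_of_dvd_pow hd)
          exact hnd (h3 ▸ hqd)
      exact ⟨q, hq, hpg.toSylow hidx, hqd.trans hKdvd, hnorm⟩
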