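import Mathlib

/-- transfer: a central element of an abelian Sylow subgroup lying in the commutator subgroup is trivial. -/
theorem cr_eq_one_of_central {K : Type} [Group K] [Finite K] {p : ℕ} [Fact p.Prime] (Q : Sylow p K)
    (hQ : ∀ a ∈ Q, ∀ b ∈ Q, a * b = b * a) {x : K} (hxQ : x ∈ Q) (hxc : x ∈ Subgroup.center K)
    (hxk : x ∈ commutator K) : x = 1 := by
  letI : CommGroup (Q : Subgroup K) :=
    { (inferInstance : Group (Q : Subgroup K)) with
      mul_comm := fun a b => Subtype.ext (hQ a.1 a.2 b.1 b.2) }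
  have hcomm : ∀ (k : ℕ) (g₀ : K), g₀⁻¹ * x ^ k * g₀ = x ^ k := by
    intro k g₀
    have h1 : x ^ k ∈ Subgroup.center K := Subgroup.pow_mem _ hxc k
    have h2 := Subgroup.mem_center_iff.1 h1 g₀
    rw [mul_assoc, ← h2, ← mul_assoc, inv_mul_cancel, one_mul]
  have key : ∀ (k : ℕ) (g₀ : K), g₀⁻¹ * x ^ k * g₀ ∈ (Q : Subgroup K) →
      g₀⁻¹ * x ^ k * g₀ = x ^ k := fun k g₀ _ => hcomm k g₀
  have h1 := MonoidHom.transfer_eq_pow (MonoidHom.id (Q : Subgroup K)) x key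
  have h2 : x ∈ (MonoidHom.transfer (MonoidHom.id (Q : Subgroup K))).ker :=
    Abelianization.commutator_subset_ker _ hxk
  rw [MonoidHom.mem_ker, h1] at h2
  have h3 : x ^ (Q : Subgroup K).index = 1 := congrArg Subtype.val h2
  obtain ⟨k, hk⟩ := Q.isPGroup' ⟨x, hxQ⟩
  have h4 : x ^ p ^ k = 1 := congrArg Subtype.val hk
  have hcop : Nat.Coprime (Q : Subgroup K).index (p ^ k) := by
    apply Nat.Coprime.pow_right
    exact ((Nat.Prime.coprime_iff_not_dvd Fact.out).2 Q.not_dvd_index).symm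
  have h5 : orderOf x ∣ 1 := by
    rw [← hcop]
    exact Nat.dvd_gcd (orderOf_dvd_of_pow_eq_one h3) (orderOf_dvd_of_pow_eq_one h4)
  exact orderOf_eq_one_iff.1 (Nat.dvd_one.1 h5)
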