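import Mathlib

theorem cr_trivial_of_prime {V : Type} [Group V] [Finite V] {p : ℕ} (hp : p.Prime)
    (hV : Nat.card V = p) {Γ : Type} [Group Γ] [Finite Γ]
    (hcop : Nat.Coprime (Nat.card Γ) (p - 1)) (φ : Γ →* MulAut V) : ∀ g v, φ g v = v := by
  haveI : Fact p.Prime := ⟨hp⟩
  haveI : IsCyclic V := isCyclic_of_prime_card hV
  intro g v
  have h1 : Nat.card (MulAut V) = p - 1 := by
    rw [IsCyclic.card_mulAut, hV, Nat.totient_prime hp]
  haveI : Finite (MulAut V) := Nat.finite_of_card_ne_zero (by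
    rw [h1]
    have := hp.two_le
    omega)
  have h2 : orderOf (φ g) ∣ p - 1 := by
    rw [← h1]
    exact orderOf_dvd_natCard _
  have h3 : orderOf (φ g) ∣ Nat.card Γ :=
    (orderOf_map_dvd φ g).trans (orderOf_dvd_natCard g)
  have h4 : orderOf (φ g) = 1 := Nat.eq_one_of_dvd_coprimes hcop h3 h2
  rw [orderOf_eq_one_iff.mp h4]
  rfl

theorem cr_comm_of_prime {V : Type} [Group V] [Finite V] {p : ℕ} (hp : p.Prime)
    (hV : Nat.card V = p) {Γ : Type} [Group Γ]
    (φ : Γ →* MulAut V) : ∀ a b : Γ, φ (a * b) = φ (b * a) := by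
  haveI : Fact p.Prime := ⟨hp⟩
  haveI : IsCyclic V := isCyclic_of_prime_card hV
  intro a b
  rw [map_mul, map_mul]
  apply (IsCyclic.mulAutMulEquiv V).injective
  rw [map_mul, map_mul, mul_comm]
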