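import Mathlib
import Pool.Agent.MPcb9dee.J02
import Pool.Agent.MPcb9dee.J05
import Pool.Agent.MPcb9dee.J06
import Pool.Agent.MPcb9dee.J07

theorem cr_comm_of_isPGroup_card {H : Type} [Group H] [Finite H] {p : ℕ} [hp : Fact p.Prime]
    (hH : IsPGroup p H) (h3 : ¬ p ^ 3 ∣ Nat.card H) : ∀ a b : H, a * b = b * a := by
  obtain ⟨k, hk⟩ := (IsPGroup.iff_card).1 hH
  have hk2 : k < 3 := by
    by_contra h
    exact h3 (hk ▸ pow_dvd_pow p (not_lt.1 h))
  interval_cases k
  · intro a b
    have : Subsingleton H := (Nat.card_eq_one_iff_unique.1 (by simpa using hk)).1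
    exact Subsingleton.elim _ _
  · have hc : IsCyclic H := isCyclic_of_prime_card (p := p) (by simpa using hk)
    obtain ⟨g, hg⟩ := hc.exists_generator
    intro a b
    obtain ⟨i, rfl⟩ := Subgroup.mem_zpowers_iff.1 (hg a)
    obtain ⟨j, rfl⟩ := Subgroup.mem_zpowers_iff.1 (hg b)
    rw [← zpow_add, ← zpow_add, add_comm]
  · exact fun a b => (IsPGroup.isMulCommutative_of_card_eq_prime_sq hk).is_comm.comm a b

open scoped commutatorElement in
/-- TARGET -/
theorem cr_commutator_comm (n : ℕ) : ∀ (G : Type) [Group G] [Finite G], Nat.card G = n → Odd n →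
    (∀ p, p.Prime → ¬ p ^ 3 ∣ n) →
    (∀ p r, p.Prime → r.Prime → r ∣ p - 1 → ¬ p ^ 2 * r ∣ n) →
    ∀ x ∈ commutator G, ∀ y ∈ commutator G, x * y = y * x := by
  induction n using Nat.strong_induction_on with
  | _ n ih =>
  intro G _ _ hcard hodd hcube hc2
  by_cases hn1 : n = 1
  · intro x _ y _
    have : Subsingleton G := (Nat.card_eq_one_iff_unique.1 (hcard.trans hn1)).1
    exact Subsingleton.elim _ _
  obtain ⟨hsol, hP⟩ := cr_exists_normal_sylow n G hcard hodd hcube
  obtain ⟨p, hpF, P, hpn, hPn⟩ := hP hn1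
  have hp : p.Prime := hpF.out
  have hn0 : 0 < n := hcard ▸ Nat.card_pos
  have hPcomm : ∀ a b : P, a * b = b * a := by
    refine cr_comm_of_isPGroup_card (p := p) P.isPGroup' ?_
    intro h
    exact hcube p hp (h.trans (hcard ▸ Subgroup.card_subgroup_dvd_card (P : Subgroup G)))
  have hPcard : Nat.card P = p ^ n.factorization p := by
    rw [Sylow.card_eq_multiplicity, hcard]
  have hf2 : n.factorization p < 3 := by
    by_contra h
    exact hcube p hp ((pow_dvd_pow p (not_lt.1 h)).trans (Nat.ordProj_dvd n p))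
  have hf1 : 1 ≤ n.factorization p := (hp.dvd_iff_one_le_factorization hn0.ne').1 hpn
  let φ : G →* MulAut (P : Subgroup G) := MulAut.conjNormal
  have hφapp : ∀ (g : G) (v : (P : Subgroup G)), ((φ g v : (P : Subgroup G)) : G) = g * v * g⁻¹ :=
    fun g v => MulAut.conjNormal_apply g v
  -- the kernel contains P
  have hPker : (P : Subgroup G) ≤ φ.ker := by
    intro u hu
    rw [MonoidHom.mem_ker]
    ext v
    rw [hφapp, MulAut.one_apply]
    have := hPcomm ⟨u, hu⟩ v
    have h2 : u * (v : G) = v * u := congrArg Subtype.val this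
    rw [h2, mul_inv_cancel_right]
  have hcommφ : ∀ a b : G, φ (a * b) = φ (b * a) := by
    have hcases : n.factorization p = 1 ∨ n.factorization p = 2 := by omega
    rcases hcases with h1 | h2
    · rw [h1, pow_one] at hPcard
      exact cr_comm_of_prime hp hPcard φ
    · rw [h2] at hPcard
      let instC : CommGroup (P : Subgroup G) :=
        { (inferInstance : Group (P : Subgroup G)) with mul_comm := hPcomm }
      have hdvd : p ^ 2 * Nat.card φ.range ∣ n := by
        have e1 : Nat.card φ.ker * Nat.card φ.range = n := by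
          rw [← Subgroup.index_ker, Subgroup.card_mul_index, hcard]
        rw [← e1]
        refine mul_dvd_mul ?_ (dvd_refl _)
        rw [← hPcard]
        exact Subgroup.card_dvd_of_le hPker
      have hΓsol : Group.IsSolvable φ.range := by
        have := hsol
        exact Group.isSolvable_of_surjective φ.rangeRestrict_surjective
      have hΓodd : Odd (Nat.card φ.range) :=
        Odd.of_dvd_nat hodd ((Dvd.intro_left _ rfl).trans hdvd)
      have hcop : Nat.Coprime (Nat.card φ.range) (p * (p - 1)) := by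
        refine Nat.Coprime.mul_right ?_ ?_
        · rw [Nat.coprime_comm]
          refine (Nat.Prime.coprime_iff_not_dvd hp).2 fun h => ?_
          refine hcube p hp (Dvd.dvd.trans ?_ hdvd)
          rw [pow_succ]
          exact mul_dvd_mul (dvd_refl _) h
        · refine Nat.Coprime.symm (Nat.coprime_of_dvd fun r hr h1 h2 => ?_)
          exact hc2 p r hp hr h1 ((mul_dvd_mul (dvd_refl _) h2).trans hdvd)
      have key := @cr_comm_of_acts (P : Subgroup G) instC _ p hp hPcard φ.range _ _ hΓsol hΓodd hcop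
        φ.range.subtype
      intro a b
      have := key ⟨φ a, a, rfl⟩ ⟨φ b, b, rfl⟩
      simpa using this
  have hKker : commutator G ≤ φ.ker := by
    rw [commutator_def, Subgroup.commutator_le]
    intro a _ b _
    have h5 : φ a * φ b = φ b * φ a := by rw [← map_mul, ← map_mul, hcommφ a b]
    rw [MonoidHom.mem_ker, commutatorElement_def, map_mul, map_mul, map_mul, map_inv, map_inv, h5]
    group
  have hKP : ∀ k ∈ commutator G, ∀ v ∈ (P : Subgroup G), k * v = v * k := by
    intro k hk v hv
    have h1 := MonoidHom.mem_ker.1 (hKker hk)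
    have h2 : ((φ k ⟨v, hv⟩ : (P : Subgroup G)) : G) = v := by rw [h1]; rfl
    rw [hφapp] at h2
    exact mul_inv_eq_iff_eq_mul.1 h2
  -- the quotient
  have := hPn
  have hQcard : Nat.card (G ⧸ (P : Subgroup G)) * Nat.card P = n := by
    rw [← hcard]; exact (Subgroup.card_eq_card_quotient_mul_card_subgroup (P : Subgroup G)).symm
  have hQdvd : Nat.card (G ⧸ (P : Subgroup G)) ∣ n := Dvd.intro _ hQcard
  have hPone : 1 < Nat.card P := by
    rw [hPcard]; exact Nat.one_lt_pow (by omega) hp.one_lt
  have hQlt : Nat.card (G ⧸ (P : Subgroup G)) < n := by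
    have hpos : 0 < Nat.card (G ⧸ (P : Subgroup G)) := Nat.card_pos
    nlinarith
  have ihQ := ih _ hQlt (G ⧸ (P : Subgroup G)) rfl (Odd.of_dvd_nat hodd hQdvd)
    (fun q hq h => hcube q hq (h.trans hQdvd))
    (fun q r hq hr h1 h2 => hc2 q r hq hr h1 (h2.trans hQdvd))
  have hKmap : ∀ k ∈ commutator G, (QuotientGroup.mk' (P : Subgroup G)) k ∈
      commutator (G ⧸ (P : Subgroup G)) := by
    intro k hk
    have h1 : (commutator G).map (QuotientGroup.mk' (P : Subgroup G)) ≤
        commutator (G ⧸ (P : Subgroup G)) := by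
      rw [commutator_def, commutator_def, Subgroup.map_commutator]
      exact Subgroup.commutator_mono le_top le_top
    exact h1 (Subgroup.mem_map_of_mem _ hk)
  intro x hx y hy
  have hcP : ⁅x, y⁆ ∈ (P : Subgroup G) := by
    rw [← QuotientGroup.eq_one_iff (N := (P : Subgroup G))]
    have := ihQ _ (hKmap x hx) _ (hKmap y hy)
    change (QuotientGroup.mk' (P : Subgroup G)) ⁅x, y⁆ = 1
    rw [commutatorElement_def, map_mul, map_mul, map_mul, map_inv, map_inv, this]
    group
  let K := commutator G
  let c : K := ⁅(⟨x, hx⟩ : K), (⟨y, hy⟩ : K)⁆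
  have hcval : (c : G) = ⁅x, y⁆ := rfl
  have hcc : c ∈ Subgroup.center K := by
    rw [Subgroup.mem_center_iff]
    intro k
    apply Subtype.ext
    exact hKP k k.2 _ (hcval ▸ hcP)
  have hck : c ∈ commutator K := by
    rw [commutator_def]
    exact Subgroup.commutator_mem_commutator (Subgroup.mem_top _) (Subgroup.mem_top _)
  have hPK : IsPGroup p ((P : Subgroup G).subgroupOf K) :=
    P.isPGroup'.comap_subtype
  obtain ⟨Q, hQ⟩ := hPK.exists_le_sylow
  have hcQ : c ∈ Q := hQ (Subgroup.mem_subgroupOf.2 (hcval ▸ hcP))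
  have hQcomm : ∀ a b : Q, a * b = b * a := by
    refine cr_comm_of_isPGroup_card (p := p) Q.isPGroup' ?_
    intro h
    refine hcube p hp (h.trans ((Subgroup.card_subgroup_dvd_card (Q : Subgroup K)).trans ?_))
    exact hcard ▸ Subgroup.card_subgroup_dvd_card K
  have hc1 := cr_eq_one_of_central Q (fun a ha b hb => congrArg Subtype.val (hQcomm ⟨a, ha⟩ ⟨b, hb⟩))
    hcQ hcc hck
  have : ⁅x, y⁆ = 1 := by rw [← hcval, hc1]; rfl
  exact commutatorElement_eq_one_iff_mul_comm.1 this
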