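import Mathlib
import Pool.Agent.MPcb9dee.J06
import Pool.Agent.MPcb9dee.J07
import Pool.Agent.MPcb9dee.J05
import Pool.Agent.MPcb9dee.J02

/-- TARGET -/
theorem cr_commutator_hall {G : Type} [Group G] [Finite G] (hodd : Odd (Nat.card G))
    (c1 : ∀ p, p.Prime → ¬ p ^ 3 ∣ Nat.card G)
    (c2 : ∀ p r, p.Prime → r.Prime → r ∣ p - 1 → ¬ p ^ 2 * r ∣ Nat.card G)
    (hcomm : ∀ x ∈ commutator G, ∀ y ∈ commutator G, x * y = y * x)
    {p : ℕ} [Fact p.Prime] (hp : p ∣ Nat.card (commutator G)) (P : Sylow p G) :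
    (P : Subgroup G) ≤ commutator G ∧ (P : Subgroup G).Normal ∧
      ∃ g x : G, x ∈ P ∧ g * x * g⁻¹ ≠ x := by
  classical
  have hpp : p.Prime := Fact.out
  obtain ⟨S⟩ : Nonempty (Sylow p (commutator G)) := inferInstance
  have hSn : (S : Subgroup (commutator G)).Normal := by
    constructor
    intro n hn g
    have e : g * n = n * g := Subtype.ext (hcomm g g.2 n n.2)
    have : g * n * g⁻¹ = n := by rw [e, mul_assoc, mul_inv_cancel, mul_one]
    rw [this]; exact hn
  have hSc : (S : Subgroup (commutator G)).Characteristic := Sylow.characteristic_of_normal S hSn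
  obtain ⟨V, hV⟩ : ∃ V : Subgroup G, V = (S : Subgroup (commutator G)).map (commutator G).subtype :=
    ⟨_, rfl⟩
  have hVn : V.Normal := by rw [hV]; exact ConjAct.normal_of_characteristic_of_normal
  have hVK : V ≤ commutator G := by rw [hV]; exact Subgroup.map_subtype_le _
  have hVp : IsPGroup p V := by rw [hV]; exact S.2.map _
  have hVc : p ∣ Nat.card V := by
    have h1 : p ∣ Nat.card S := Sylow.dvd_card_of_dvd_card S hp
    rw [hV, Subgroup.card_map_of_injective (Subgroup.subtype_injective _)]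
    exact h1
  -- `V ≤ P`
  have hVP : V ≤ (P : Subgroup G) := by
    obtain ⟨Q, hQ⟩ := hVp.exists_le_sylow
    obtain ⟨g, hg⟩ := MulAction.exists_smul_eq G Q P
    intro x hx
    rw [← hg]
    have h1 : g⁻¹ * x * g ∈ V := by
      have := hVn.conj_mem x hx g⁻¹
      simpa using this
    have h2 := hQ h1
    have h3 : MulAut.conj g • (g⁻¹ * x * g) = x := by
      simp [MulAut.smul_def, mul_assoc]
    rw [← h3]
    exact Subgroup.smul_mem_pointwise_smul _ _ _ h2
  obtain ⟨a, ha⟩ := (IsPGroup.iff_card (p := p) (G := V)).1 hVp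
  obtain ⟨b, hb⟩ := (IsPGroup.iff_card (p := p) (G := P)).1 P.2
  have hPG : Nat.card P ∣ Nat.card G := Subgroup.card_subgroup_dvd_card _
  have hb2 : b ≤ 2 := by
    by_contra hlt
    push Not at hlt
    refine c1 p hpp ?_
    refine (Nat.pow_dvd_pow p hlt).trans ?_
    rw [← hb]; exact hPG
  have ha1 : 1 ≤ a := by
    rcases Nat.eq_zero_or_pos a with h | h
    · rw [ha, h, pow_zero] at hVc
      exact absurd (Nat.dvd_one.1 hVc) hpp.one_lt.ne'
    · exact h
  have hVPeq : V = (P : Subgroup G) := by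
    by_contra hne
    have hlt : Nat.card V < Nat.card P := by
      refine lt_of_le_of_ne (Subgroup.card_le_of_le hVP) fun h => hne ?_
      exact Subgroup.eq_of_le_of_card_ge hVP h.ge
    rw [ha, hb] at hlt
    have hab : a < b := (Nat.pow_lt_pow_iff_right hpp.one_lt).1 hlt
    have ha' : a = 1 := by omega
    have hb' : b = 2 := by omega
    subst ha' hb'
    have hcop : Nat.Coprime (Nat.card G) (p - 1) := by
      rw [Nat.coprime_iff_gcd_eq_one] 
      by_contra hgcd
      obtain ⟨r, hr, hrd⟩ := Nat.exists_prime_and_dvd hgcd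
      have hr1 : r ∣ Nat.card G := hrd.trans (Nat.gcd_dvd_left _ _)
      have hr2 : r ∣ p - 1 := hrd.trans (Nat.gcd_dvd_right _ _)
      refine c2 p r hpp hr hr2 ?_
      have hrp : r ≤ p - 1 := Nat.le_of_dvd (by have := hpp.one_lt; omega) hr2
      have hne : p ≠ r := by have := hpp.one_lt; omega
      have hco : Nat.Coprime (p ^ 2) r := Nat.Coprime.pow_left 2 ((Nat.coprime_primes hpp hr).2 hne)
      refine hco.mul_dvd_of_dvd_of_dvd ?_ hr1
      rw [← hb]; exact hPG
    have htriv := cr_trivial_of_prime hpp (by rw [ha, pow_one]) hcop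
      (MulAut.conjNormal : G →* MulAut V)
    have hPc : ∀ a ∈ P, ∀ b ∈ P, a * b = b * a := by
      intro x hx y hy
      have := IsPGroup.commutative_of_card_eq_prime_sq (p := p) (G := P) hb ⟨x, hx⟩ ⟨y, hy⟩
      exact congrArg Subtype.val this
    have hbot : V = ⊥ := by
      rw [Subgroup.eq_bot_iff_forall]
      intro x hx
      refine cr_eq_one_of_central P hPc (hVP hx) ?_ (hVK hx)
      rw [Subgroup.mem_center_iff]
      intro g
      have h1 := congrArg Subtype.val (htriv g ⟨x, hx⟩)
      rw [MulAut.conjNormal_apply] at h1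
      simp only at h1
      calc g * x = g * x * g⁻¹ * g := by group
        _ = x * g := by rw [h1]
    rw [hbot, Subgroup.card_bot] at hVc
    exact absurd (Nat.dvd_one.1 hVc) hpp.one_lt.ne'
  refine ⟨hVPeq ▸ hVK, hVPeq ▸ hVn, ?_⟩
  by_contra hno
  push Not at hno
  have hPK : (P : Subgroup G) ≤ commutator G := hVPeq ▸ hVK
  have hbot : V = ⊥ := by
    rw [Subgroup.eq_bot_iff_forall]
    intro x hx
    refine cr_eq_one_of_central P (fun y hy z hz => hcomm y (hPK hy) z (hPK hz)) (hVP hx) ?_
      (hVK hx)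
    rw [Subgroup.mem_center_iff]
    intro g
    have h1 := hno g x (hVP hx)
    calc g * x = g * x * g⁻¹ * g := by group
      _ = x * g := by rw [h1]
  rw [hbot, Subgroup.card_bot] at hVc
  exact absurd (Nat.dvd_one.1 hVc) hpp.one_lt.ne'
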