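import Mathlib
import Pool.Agent.MPcb9dee.J20
import Pool.Agent.MPcb9dee.J21
import Pool.Agent.MPcb9dee.J03
import Pool.Agent.MPcb9dee.J01

/-- TARGET 1: each Sylow subgroup of the commutator subgroup is a field on which an abelian complement
acts by multiplications. -/
theorem cr_sylow_field {G : Type} [Group G] [Finite G] (hodd : Odd (Nat.card G))
    (c1 : ∀ p, p.Prime → ¬ p ^ 3 ∣ Nat.card G)
    (c2 : ∀ p r, p.Prime → r.Prime → r ∣ p - 1 → ¬ p ^ 2 * r ∣ Nat.card G)
    (H : Subgroup G) (hH : Subgroup.IsComplement' (commutator G) H)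
    {p : ℕ} [Fact p.Prime] (hp : p ∣ Nat.card (commutator G)) (P : Sylow p G)
    (E : Type) [Field E] [Finite E] (hE : Nat.card E = p ^ (Nat.card G).factorization p) :
    ∃ (χ : H →* Eˣ) (e : P ≃* Multiplicative E), χ ≠ 1 ∧
      ∀ (h : H) (v w : P), (w : G) = h * v * (h : G)⁻¹ → (e w).toAdd = (χ h : E) * (e v).toAdd := by
  have hpp : p.Prime := Fact.out
  have hKc := cr_commutator_comm (Nat.card G) G rfl hodd c1 c2
  obtain ⟨hPK, hPn, g0, x0, hx0, hne⟩ := cr_commutator_hall hodd c1 c2 hKc hp P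
  have hx0' : x0 ∈ (P : Subgroup G) := hx0
  -- the complement is commutative
  have hHc : ∀ a ∈ H, ∀ b ∈ H, a * b = b * a := by
    intro a ha b hb
    have h1 : a * b * a⁻¹ * b⁻¹ ∈ commutator G :=
      Subgroup.commutator_mem_commutator (Subgroup.mem_top a) (Subgroup.mem_top b)
    have h2 : a * b * a⁻¹ * b⁻¹ ∈ H :=
      H.mul_mem (H.mul_mem (H.mul_mem ha hb) (H.inv_mem ha)) (H.inv_mem hb)
    have h3 := hH.disjoint
    rw [Subgroup.disjoint_def] at h3
    have h4 := h3 h1 h2
    have h5 : a * b * a⁻¹ * b⁻¹ * (b * a) = b * a := by rw [h4, one_mul]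
    rw [← h5]
    group
  -- the contradiction when `H` centralises `P`
  have htriv : ¬ ∀ h ∈ H, ∀ v ∈ (P : Subgroup G), h * v * h⁻¹ = v := by
    intro hall
    obtain ⟨⟨k, h⟩, hkh, -⟩ := hH.existsUnique g0
    apply hne
    have hk : (k : G) ∈ commutator G := k.2
    have hh : (h : G) ∈ H := h.2
    have hkh' : (k : G) * (h : G) = g0 := hkh
    have h1 := hall h hh x0 hx0'
    have h2 := hKc k hk x0 (hPK hx0')
    calc g0 * x0 * g0⁻¹ = (k : G) * ((h : G) * x0 * (h : G)⁻¹) * (k : G)⁻¹ := by
          rw [← hkh']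
          group
      _ = (k : G) * x0 * (k : G)⁻¹ := by rw [h1]
      _ = x0 * (k : G) * (k : G)⁻¹ := by rw [h2]
      _ = x0 := by group
  -- cardinalities
  have hcardP : Nat.card (P : Subgroup G) = p ^ (Nat.card G).factorization p :=
    P.card_eq_multiplicity
  have hG0 : Nat.card G ≠ 0 := Nat.card_pos.ne'
  have hcardKH : Nat.card (commutator G) * Nat.card H = Nat.card G := hH.card_mul_card
  have hPdvd : Nat.card (P : Subgroup G) ∣ Nat.card (commutator G) := Subgroup.card_dvd_of_le hPK
  letI instP : CommGroup (P : Subgroup G) :=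
    { (inferInstance : Group (P : Subgroup G)) with
      mul_comm := fun a b => Subtype.ext (hKc a (hPK a.2) b (hPK b.2)) }
  haveI hnt : Nontrivial (P : Subgroup G) := by
    refine ⟨⟨x0, hx0'⟩, 1, fun h => hne ?_⟩
    have h1 : x0 = 1 := congrArg Subtype.val h
    rw [h1]
    group
  haveI := hPn
  let φ : H →* MulAut (P : Subgroup G) := (MulAut.conjNormal (H := (P : Subgroup G))).comp H.subtype
  have hφ : ∀ (h : H) (v : (P : Subgroup G)), ((φ h v : (P : Subgroup G)) : G) =
      (h : G) * (v : G) * (h : G)⁻¹ := fun h v => rfl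
  have hφtriv : ¬ ∀ (h : H) (v : (P : Subgroup G)), φ h v = v := by
    intro hall
    apply htriv
    intro h hh v hv
    have h1 := hall ⟨h, hh⟩ ⟨v, hv⟩
    exact (hφ ⟨h, hh⟩ ⟨v, hv⟩).symm.trans (congrArg Subtype.val h1)
  have hsimple : ∀ W : Subgroup (P : Subgroup G), (∀ h : H, ∀ w ∈ W, φ h w ∈ W) →
      W = ⊥ ∨ W = ⊤ := by
    intro W hW
    by_contra hcon
    rw [not_or] at hcon
    have hk3 : (Nat.card G).factorization p < 3 := by
      by_contra h
      exact c1 p hpp ((pow_dvd_pow p (not_lt.mp h)).trans (Nat.ordProj_dvd _ p))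
    have hk0 : (Nat.card G).factorization p ≠ 0 := by
      intro h
      rw [h, pow_zero] at hcardP
      have := Finite.one_lt_card (α := (P : Subgroup G))
      omega
    have hk1 : (Nat.card G).factorization p ≠ 1 := by
      intro h
      rw [h, pow_one] at hcardP
      haveI : Fact (Nat.card (P : Subgroup G)).Prime := ⟨by rw [hcardP]; exact hpp⟩
      rcases W.eq_bot_or_eq_top_of_prime_card with h' | h'
      · exact hcon.1 h'
      · exact hcon.2 h'
    have hk2 : (Nat.card G).factorization p = 2 := by omega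
    rw [hk2] at hcardP
    have hcop : Nat.Coprime (Nat.card H) (p * (p - 1)) := by
      by_contra hc
      obtain ⟨r, hr, hr1, hr2⟩ := Nat.Prime.not_coprime_iff_dvd.mp hc
      have h6 : p ^ 2 * r ∣ Nat.card G := by
        rw [← hcardKH]
        exact mul_dvd_mul (by rw [← hcardP]; exact hPdvd) hr1
      rcases (hr.dvd_mul).mp hr2 with h7 | h7
      · have h8 : r = p := (Nat.prime_dvd_prime_iff_eq hr hpp).mp h7
        rw [h8] at h6
        apply c1 p hpp
        rw [pow_succ]
        exact h6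
      · exact c2 p r hpp hr h7 h6
    exact hφtriv (cr_trivial_of_invariant hpp hcardP hcop φ W hW hcon.1 hcon.2)
  have hcomm : ∀ a b : H, φ (a * b) = φ (b * a) := by
    intro a b
    congr 1
    exact Subtype.ext (hHc a a.2 b b.2)
  obtain ⟨χ, e, he⟩ := cr_exists_field_action φ hcomm hsimple E (hE.trans hcardP.symm)
  refine ⟨χ, e, ?_, ?_⟩
  · intro hχ
    apply hφtriv
    intro h v
    apply e.injective
    have h1 := he h v
    rw [hχ, MonoidHom.one_apply, Units.val_one, one_mul] at h1
    exact h1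
  · intro h v w hw
    have h1 : w = φ h v := Subtype.ext hw
    rw [h1]
    exact he h v
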