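import Mathlib
import Pool.Agent.MPcb9dee.J22a
import Pool.Agent.MPcb9dee.J10
import Pool.Agent.MPcb9dee.Model

/-- TARGET: structure theorem -/
theorem cr_structure {G : Type} [Group G] [Finite G] (hodd : Odd (Nat.card G))
    (c1 : ∀ p, p.Prime → ¬ p ^ 3 ∣ Nat.card G)
    (c2 : ∀ p r, p.Prime → r.Prime → r ∣ p - 1 → ¬ p ^ 2 * r ∣ Nat.card G)
    (E : ℕ → Type) [∀ p, Field (E p)] [∀ p, Finite (E p)]
    (hE : ∀ p, p.Prime → p ∣ Nat.card G → Nat.card (E p) = p ^ (Nat.card G).factorization p) :
    ∃ (π : Finset ℕ) (H : Type) (_ : CommGroup H) (_ : Finite H) (χ : ∀ p : π, H →* (E p)ˣ),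
      (∀ p ∈ π, p.Prime ∧ p ∣ Nat.card G) ∧ (∀ p : π, χ p ≠ 1) ∧
      (∀ p : π, Nat.Coprime (Nat.card (E p)) (Nat.card H)) ∧
      Nat.card H * ∏ p : π, Nat.card (E p) = Nat.card G ∧ Nonempty (G ≃* CRModel χ) := by
  classical
  have hcomm := cr_commutator_comm (Nat.card G) G rfl hodd c1 c2
  have hG0 : Nat.card G ≠ 0 := Nat.card_pos.ne'
  have hK0 : Nat.card (commutator G) ≠ 0 := Nat.card_pos.ne'
  have hdvd : Nat.card (commutator G) ∣ Nat.card G := Subgroup.card_subgroup_dvd_card _
  have hfac : ∀ p, p.Prime → p ∣ Nat.card (commutator G) →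
      (Nat.card G).factorization p = (Nat.card (commutator G)).factorization p := by
    intro p hp hpK
    haveI := Fact.mk hp
    obtain ⟨P⟩ : Nonempty (Sylow p G) := inferInstance
    have h1 := (cr_commutator_hall hodd c1 c2 hcomm hpK P).1
    have h2 : Nat.card P ∣ Nat.card (commutator G) := Subgroup.card_dvd_of_le h1
    rw [P.card_eq_multiplicity] at h2
    apply le_antisymm
    · exact (hp.pow_dvd_iff_le_factorization hK0).1 h2
    · exact (Nat.factorization_le_iff_dvd hK0 hG0).2 hdvd p
  have hcop : Nat.Coprime (Nat.card (commutator G)) (commutator G).index := by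
    apply Nat.coprime_of_dvd
    intro p hp hpK hpi
    have h1 : p ^ ((Nat.card (commutator G)).factorization p) ∣ Nat.card (commutator G) :=
      Nat.ordProj_dvd _ _
    have h2 : p ^ ((Nat.card (commutator G)).factorization p) * p ∣
        Nat.card (commutator G) * (commutator G).index := mul_dvd_mul h1 hpi
    rw [(commutator G).card_mul_index, ← pow_succ, ← hfac p hp hpK] at h2
    exact Nat.pow_succ_factorization_not_dvd hG0 hp h2
  obtain ⟨H, hH⟩ := Subgroup.exists_right_complement'_of_coprime hcop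
  have hHcomm : ∀ a b : H, a * b = b * a := by
    intro a b
    have h1 : (a : G) * b * (a : G)⁻¹ * (b : G)⁻¹ ∈ commutator G :=
      Subgroup.commutator_mem_commutator (Subgroup.mem_top _) (Subgroup.mem_top _)
    have h2 : (a : G) * b * (a : G)⁻¹ * (b : G)⁻¹ ∈ H :=
      H.mul_mem (H.mul_mem (H.mul_mem a.2 b.2) (H.inv_mem a.2)) (H.inv_mem b.2)
    have h3 : (a : G) * b * (a : G)⁻¹ * (b : G)⁻¹ = 1 := by
      have := hH.disjoint
      rw [Subgroup.disjoint_def] at this
      exact this h1 h2
    apply Subtype.ext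
    show (a : G) * b = b * a
    rw [mul_inv_eq_one, mul_inv_eq_iff_eq_mul] at h3
    exact h3
  letI iH : CommGroup H := { (inferInstance : Group H) with mul_comm := hHcomm }
  letI iK : CommGroup (commutator G) :=
    { (inferInstance : Group (commutator G)) with
      mul_comm := fun a b => Subtype.ext (hcomm a a.2 b b.2) }
  obtain ⟨π, hπdef⟩ : ∃ π : Finset ℕ, π = (Nat.card (commutator G)).primeFactors := ⟨_, rfl⟩
  have hπ : ∀ p ∈ π, p.Prime ∧ p ∣ Nat.card (commutator G) := by
    intro p hp
    rw [hπdef] at hp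
    exact ⟨Nat.prime_of_mem_primeFactors hp, Nat.dvd_of_mem_primeFactors hp⟩
  have hdata : ∀ p : π, ∃ (P : Subgroup G) (χ : H →* (E p)ˣ) (e : P ≃* Multiplicative (E p)),
      P ≤ commutator G ∧ P.Normal ∧ χ ≠ 1 ∧
      ∀ (h : H) (v w : P), (w : G) = h * v * (h : G)⁻¹ → (e w).toAdd = (χ h : E p) * (e v).toAdd := by
    intro p
    obtain ⟨hp, hpK⟩ := hπ p p.2
    haveI := Fact.mk hp
    obtain ⟨P⟩ : Nonempty (Sylow (p : ℕ) G) := inferInstance
    obtain ⟨h1, h2, -⟩ := cr_commutator_hall hodd c1 c2 hcomm hpK P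
    obtain ⟨χ, e, hχ, he⟩ := cr_sylow_field hodd c1 c2 H hH hpK P (E p)
      (hE p hp (hpK.trans hdvd))
    exact ⟨P, χ, e, h1, h2, hχ, he⟩
  choose P χ e hPK hPn hχ he using hdata
  have hcardE : ∀ p : π, Nat.card (E p) = (p : ℕ) ^ (Nat.card (commutator G)).factorization p := by
    intro p
    obtain ⟨hp, hpK⟩ := hπ p p.2
    rw [hE p hp (hpK.trans hdvd), hfac p hp hpK]
  have hcardK : Nat.card (commutator G) = ∏ p : π, Nat.card (E p) := by
    simp_rw [hcardE]
    rw [Finset.prod_coe_sort π (fun p => p ^ (Nat.card (commutator G)).factorization p)]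
    conv_lhs => rw [← Nat.prod_factorization_pow_eq_self hK0]
    rw [Finsupp.prod, Nat.support_factorization, hπdef]
  have hcardH : (commutator G).index = Nat.card H := by
    have h1 := hH.card_mul
    have h2 := (commutator G).card_mul_index
    rw [← h1] at h2
    exact Nat.eq_of_mul_eq_mul_left (Nat.pos_of_ne_zero hK0) h2
  have hcopE : ∀ p : π, Nat.Coprime (Nat.card (E p)) (Nat.card H) := by
    intro p
    obtain ⟨hp, hpK⟩ := hπ p p.2
    rw [hcardE, ← hcardH]
    apply Nat.Coprime.pow_left
    exact Nat.Coprime.coprime_dvd_left hpK hcop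
  refine ⟨π, H, iH, inferInstance, χ, ?_, hχ, hcopE, ?_, ?_⟩
  · intro p hp
    exact ⟨(hπ p hp).1, (hπ p hp).2.trans hdvd⟩
  · rw [← hcardK, mul_comm]
    exact hH.card_mul
  · have hpair : Pairwise fun i j : π => Nat.Coprime (Nat.card (E i)) (Nat.card (E j)) := by
      intro i j hij
      rw [hcardE, hcardE]
      apply Nat.Coprime.pow
      exact (Nat.coprime_primes (hπ i i.2).1 (hπ j j.2).1).2 (fun h => hij (Subtype.ext h))
    obtain ⟨htop, f, hf⟩ := cr_exists_iso_pi (N := commutator G) (fun p : π => E p) hpair hcardK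
      (fun p => (P p).subgroupOf (commutator G))
      (fun p => (Subgroup.subgroupOfEquivOfLe (hPK p)).trans (e p))
    refine ⟨(SemidirectProduct.mulEquivSubgroup hH).symm.trans
      (SemidirectProduct.congr f (MulEquiv.refl H) ?_)⟩
    have hs1 : ∀ (D : DecidableEq π) (i : π) (v : E i),
        @Pi.single π (fun p : π => E p) _ D i v i = v := fun D i v => by
      exact @Pi.single_eq_same π (fun p : π => E p) _ D i v
    have hs2 : ∀ (D : DecidableEq π) (p i : π) (v : E p), i ≠ p →
        @Pi.single π (fun p : π => E p) _ D p v i = 0 := fun D p i v h => by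
      exact @Pi.single_eq_of_ne π (fun p : π => E p) _ D _ _ h v
    intro h
    have key : (f.toMonoidHom.comp
        ((((commutator G).normalizerMonoidHom.comp (Subgroup.inclusion
          ((commutator G).normalizer_eq_top ▸ le_top))) h).toMonoidHom)) =
        ((crAct χ h).toMonoidHom.comp f.toMonoidHom) := by
      have hle : ∀ p, (P p).subgroupOf (commutator G) ≤ MonoidHom.eqLocus (f.toMonoidHom.comp
        ((((commutator G).normalizerMonoidHom.comp (Subgroup.inclusion
          ((commutator G).normalizer_eq_top ▸ le_top))) h).toMonoidHom))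
        ((crAct χ h).toMonoidHom.comp f.toMonoidHom) := by
        intro p x hx
        show f _ = crAct χ h (f x)
        set x' : commutator G := (((commutator G).normalizerMonoidHom.comp (Subgroup.inclusion
          ((commutator G).normalizer_eq_top ▸ le_top))) h) x with hx'
        have hx'c : (x' : G) = h * x * (h : G)⁻¹ := rfl
        have hx'm : x' ∈ (P p).subgroupOf (commutator G) := by
          rw [Subgroup.mem_subgroupOf, hx'c]
          exact (hPn p).conj_mem _ hx _
        have e1 := hf p ⟨x, hx⟩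
        have e2 := hf p ⟨x', hx'm⟩
        simp only at e1 e2
        show f x' = crAct χ h (f x)
        rw [e1, e2]
        have e3 := he p h ⟨x, hx⟩ ⟨x', hx'm⟩ hx'c
        apply Multiplicative.toAdd.injective
        funext i
        by_cases hi : i = p
        · subst hi
          change _ = (χ i h : E i) * (Multiplicative.toAdd (Multiplicative.ofAdd (_ : ∀ p : π, E p)) i)
          rw [toAdd_ofAdd, toAdd_ofAdd, hs1 _ i, hs1 _ i]
          exact e3
        · change _ = (χ i h : E i) * (Multiplicative.toAdd (Multiplicative.ofAdd (_ : ∀ p : π, E p)) i)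
          rw [toAdd_ofAdd, toAdd_ofAdd, hs2 _ p i _ hi, hs2 _ p i _ hi, mul_zero]
      have htop' := iSup_le hle
      rw [htop] at htop'
      exact MonoidHom.ext fun x => htop' (Subgroup.mem_top x)
    ext1 x
    exact DFunLike.congr_fun key x
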