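import Mathlib
import Pool.Agent.MPcb9dee.Model

theorem cr_card_model_pow {ι : Type} {E : ι → Type} [∀ i, Field (E i)]
    {H : Type} [CommGroup H] (χ : ∀ i, H →* (E i)ˣ) (x : CRModel χ) (m : ℕ) :
    (x ^ m).right = x.right ^ m ∧ ∀ i, (x ^ m).left.toAdd i =
      (∑ j ∈ Finset.range m, ((χ i x.right : (E i)ˣ) : E i) ^ j) * x.left.toAdd i := by
  induction m with
  | zero =>
    refine ⟨by simp, fun i => ?_⟩
    simp
  | succ m ih =>
    obtain ⟨h1, h2⟩ := ih
    refine ⟨?_, fun i => ?_⟩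
    · rw [pow_succ, SemidirectProduct.mul_right, h1, pow_succ]
    · rw [pow_succ, SemidirectProduct.mul_left, toAdd_mul, Pi.add_apply, h2 i, h1,
        Finset.sum_range_succ, add_mul]
      congr 1
      show ((χ i (x.right ^ m) : (E i)ˣ) : E i) * x.left.toAdd i = _
      rw [map_pow, Units.val_pow_eq_pow_val]

theorem cr_card_model_iff {ι : Type} {E : ι → Type} [∀ i, Field (E i)]
    {H : Type} [CommGroup H] (χ : ∀ i, H →* (E i)ˣ) (x : CRModel χ) (m : ℕ) :
    x ^ m = 1 ↔ x.right ^ m = 1 ∧ ∀ i,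
      (∑ j ∈ Finset.range m, ((χ i x.right : (E i)ˣ) : E i) ^ j) * x.left.toAdd i = 0 := by
  obtain ⟨h1, h2⟩ := cr_card_model_pow χ x m
  constructor
  · intro h
    refine ⟨?_, fun i => ?_⟩
    · rw [← h1, h]
      rfl
    · rw [← h2 i, h]
      rfl
  · rintro ⟨h3, h4⟩
    apply SemidirectProduct.ext
    · apply Multiplicative.toAdd.injective
      funext i
      show (x ^ m).left.toAdd i = 0
      rw [h2 i, h4 i]
    · rw [h1, h3]
      rfl

open Classical in
/-- counting solutions of `x ^ m = 1` in the model -/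
theorem cr_card_model {ι : Type} [Fintype ι] {E : ι → Type} [∀ i, Field (E i)] [∀ i, Finite (E i)]
    {H : Type} [CommGroup H] [Fintype H] (χ : ∀ i, H →* (E i)ˣ) (m : ℕ) :
    Nat.card {x : CRModel χ // x ^ m = 1} =
      ∑ h ∈ Finset.univ.filter (fun h : H => h ^ m = 1),
        ∏ i, (if ∑ j ∈ Finset.range m, ((χ i h : (E i)ˣ) : E i) ^ j = 0 then Nat.card (E i) else 1) := by
  classical
  let e : {x : CRModel χ // x ^ m = 1} ≃ Σ h : {h : H // h ^ m = 1}, {v : ∀ i, E i // ∀ i,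
      (∑ j ∈ Finset.range m, ((χ i h.1 : (E i)ˣ) : E i) ^ j) * v i = 0} :=
    { toFun := fun x => ⟨⟨x.1.right, ((cr_card_model_iff χ x.1 m).1 x.2).1⟩,
        ⟨x.1.left.toAdd, ((cr_card_model_iff χ x.1 m).1 x.2).2⟩⟩
      invFun := fun y => ⟨⟨Multiplicative.ofAdd y.2.1, y.1.1⟩,
        (cr_card_model_iff χ _ m).2 ⟨y.1.2, y.2.2⟩⟩
      left_inv := fun x => rfl
      right_inv := fun y => rfl }
  letI i1 : Fintype {h : H // h ^ m = 1} := Subtype.fintype _
  rw [Nat.card_congr e, Nat.card_sigma]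
  rw [Finset.sum_subtype (Finset.univ.filter (fun h : H => h ^ m = 1)) (p := fun h => h ^ m = 1)
    (F := i1) (fun x => by simp)]
  apply Finset.sum_congr
  · ext x
    simp
  rintro ⟨h, hh⟩ _
  obtain ⟨s, hs⟩ : ∃ s : ∀ i, E i, ∀ i, s i = ∑ j ∈ Finset.range m, ((χ i h : (E i)ˣ) : E i) ^ j :=
    ⟨_, fun _ => rfl⟩
  simp only [← hs]
  have e2 : {v : ∀ i, E i // ∀ i, s i * v i = 0} ≃ ∀ i, {a : E i // s i * a = 0} :=
    Equiv.subtypePiEquivPi (p := fun i a => s i * a = 0)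
  rw [Nat.card_congr e2, Nat.card_pi]
  apply Finset.prod_congr rfl
  intro i _
  split_ifs with h0
  · exact Nat.card_congr (Equiv.subtypeUnivEquiv (fun a => by rw [h0, zero_mul]))
  · have h1 : ∀ a : {a : E i // s i * a = 0}, a = ⟨0, mul_zero _⟩ := by
      rintro ⟨a, ha⟩
      apply Subtype.ext
      exact (mul_eq_zero.1 ha).resolve_left h0
    haveI : Unique {a : E i // s i * a = 0} := ⟨⟨⟨0, mul_zero _⟩⟩, h1⟩
    exact Nat.card_unique
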