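import Mathlib
import Pool.Agent.MPcb9dee.J08

open Classical in
/-- TARGET -/
theorem cr_card_model_T {ι : Type} [Fintype ι] {E : ι → Type} [∀ i, Field (E i)] [∀ i, Finite (E i)]
    {H : Type} [CommGroup H] [Fintype H] (χ : ∀ i, H →* (E i)ˣ)
    (hcopE : Pairwise fun i j => Nat.Coprime (Nat.card (E i)) (Nat.card (E j)))
    (hcopH : ∀ i, Nat.Coprime (Nat.card (E i)) (Nat.card H))
    (T : Finset ι) (d : ℕ) (hd : d ∣ Nat.card H) :
    Nat.card {x : CRModel χ // x ^ (d * ∏ i ∈ T, Nat.card (E i)) = 1} =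
      ∑ h ∈ Finset.univ.filter (fun h : H => h ^ d = 1),
        ∏ i, (if i ∈ T ∨ χ i h ≠ 1 then Nat.card (E i) else 1) := by
  rw [cr_card_model χ (d * ∏ i ∈ T, Nat.card (E i))]
  have hfil : Finset.univ.filter (fun h : H => h ^ (d * ∏ i ∈ T, Nat.card (E i)) = 1) =
      Finset.univ.filter (fun h : H => h ^ d = 1) := by
    apply Finset.filter_congr
    intro h _
    constructor
    · intro hh
      have h1 : orderOf h ∣ d * ∏ i ∈ T, Nat.card (E i) := orderOf_dvd_of_pow_eq_one hh
      have h2 : Nat.Coprime (orderOf h) (∏ i ∈ T, Nat.card (E i)) := by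
        apply Nat.Coprime.prod_right
        intro j _
        exact (Nat.Coprime.coprime_dvd_left (orderOf_dvd_natCard h) (hcopH j).symm)
      exact orderOf_dvd_iff_pow_eq_one.mp (h2.dvd_of_dvd_mul_right h1)
    · intro hh
      rw [pow_mul, hh, one_pow]
  rw [hfil]
  refine Finset.sum_congr rfl fun h hh => ?_
  have hhd : h ^ d = 1 := (Finset.mem_filter.mp hh).2
  refine Finset.prod_congr rfl fun i _ => ?_
  have hiff : (∑ j ∈ Finset.range (d * ∏ i ∈ T, Nat.card (E i)),
      ((χ i h : (E i)ˣ) : E i) ^ j = 0) ↔ (i ∈ T ∨ χ i h ≠ 1) := by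
    by_cases hc : χ i h = 1
    · rw [hc]
      simp only [Units.val_one, one_pow, Finset.sum_const, Finset.card_range, nsmul_eq_mul,
        mul_one, ne_eq, not_true_eq_false, or_false]
      have : Fintype (E i) := Fintype.ofFinite _
      obtain ⟨n, hp, hn⟩ := FiniteField.card (E i) (ringChar (E i))
      rw [← Nat.card_eq_fintype_card] at hn
      have hpi : ringChar (E i) ∣ Nat.card (E i) := by
        rw [hn]
        exact dvd_pow_self _ n.ne_zero
      rw [CharP.cast_eq_zero_iff (E i) (ringChar (E i))]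
      constructor
      · intro hdvd
        rcases (Nat.Prime.dvd_mul hp).mp hdvd with h1 | h1
        · exfalso
          have h2 : ringChar (E i) ∣ Nat.card H := h1.trans hd
          have h3 := Nat.dvd_gcd hpi h2
          rw [hcopH i] at h3
          exact hp.one_lt.ne' (Nat.dvd_one.mp h3)
        · obtain ⟨j, hj, hpj⟩ := (Prime.dvd_finsetProd_iff hp.prime _).mp h1
          by_cases hij : i = j
          · rw [hij]
            exact hj
          · exfalso
            have h3 := Nat.dvd_gcd hpi hpj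
            rw [hcopE hij] at h3
            exact hp.one_lt.ne' (Nat.dvd_one.mp h3)
      · intro hi
        exact (hpi.trans (Finset.dvd_prod_of_mem (fun i => Nat.card (E i)) hi)).trans
          (dvd_mul_left _ _)
    · have hc' : ((χ i h : (E i)ˣ) : E i) ≠ 1 := fun h1 => hc (Units.ext h1)
      have hcm : ((χ i h : (E i)ˣ) : E i) ^ (d * ∏ i ∈ T, Nat.card (E i)) = 1 := by
        rw [← Units.val_pow_eq_pow_val, ← map_pow, pow_mul, hhd, one_pow, map_one, Units.val_one]
      have hg := mul_geom_sum ((χ i h : (E i)ˣ) : E i) (d * ∏ i ∈ T, Nat.card (E i))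
      rw [hcm, sub_self] at hg
      have hz := (mul_eq_zero.mp hg).resolve_left (sub_ne_zero.mpr hc')
      simp only [hz, true_iff]
      exact Or.inr hc
  by_cases hcond : i ∈ T ∨ χ i h ≠ 1
  · rw [if_pos hcond, if_pos (hiff.mpr hcond)]
  · rw [if_neg hcond, if_neg (fun h1 => hcond (hiff.mp h1))]
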