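import Mathlib
import Pool.Agent.MPcb9dee.J09

theorem cr_cop671 {G : Type} [Group G] [Finite G] (m k : ℕ) (h : ∀ x : G, x ^ m = 1)
    (hc : Nat.Coprime m k) : Nat.Coprime (Nat.card G) k := by
  by_contra hcon
  obtain ⟨r, hr, h1, h2⟩ := Nat.Prime.not_coprime_iff_dvd.1 hcon
  haveI : Fact r.Prime := ⟨hr⟩
  obtain ⟨x, hx⟩ := exists_prime_orderOf_dvd_card' r h1
  have h3 : r ∣ m := by rw [← hx]; exact orderOf_dvd_of_pow_eq_one (h x)
  exact Nat.Prime.not_coprime_iff_dvd.2 ⟨r, hr, h3, h2⟩ hc

theorem cr_ker671 {H : Type} [CommGroup H] [Fintype H] [DecidableEq H] (q d : ℕ)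
    (hcop : Nat.Coprime q d) (hcard : Nat.card H = d * q) :
    (Finset.univ.filter (fun h : H => h ^ d = 1)).card = d := by
  have hpos : 0 < Nat.card H := Nat.card_pos
  have hA : (Finset.univ.filter (fun h : H => h ^ d = 1)).card =
      Nat.card (powMonoidHom d : H →* H).ker := by
    rw [← Fintype.card_subtype, ← Nat.card_eq_fintype_card]
    exact Nat.card_congr (Equiv.subtypeEquivRight fun h => by
      rw [MonoidHom.mem_ker, powMonoidHom_apply])
  rw [hA]
  have h1 : Nat.card (powMonoidHom d : H →* H).ker * Nat.card (powMonoidHom d : H →* H).range =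
      d * q := by
    rw [← hcard, Subgroup.card_eq_card_quotient_mul_card_subgroup (powMonoidHom d : H →* H).ker,
      mul_comm]
    congr 1
    exact (Nat.card_congr (QuotientGroup.quotientKerEquivRange (powMonoidHom d : H →* H)).toEquiv).symm
  have h2 : Nat.Coprime (Nat.card (powMonoidHom d : H →* H).ker) q :=
    cr_cop671 d q (fun x => by
      apply Subtype.ext
      exact x.2) hcop.symm
  have h3 : Nat.Coprime (Nat.card (powMonoidHom d : H →* H).range) d :=
    cr_cop671 q d (fun x => by
      obtain ⟨y, hy⟩ := x.2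
      apply Subtype.ext
      have : (x : H) ^ q = 1 := by
        rw [← hy, powMonoidHom_apply, ← pow_mul, ← hcard]
        exact pow_card_eq_one'
      exact this) hcop
  have h4 : Nat.card (powMonoidHom d : H →* H).ker ∣ d :=
    h2.dvd_of_dvd_mul_right (Dvd.intro _ h1)
  have h5 : Nat.card (powMonoidHom d : H →* H).range ∣ q :=
    h3.dvd_of_dvd_mul_left (Dvd.intro_left _ h1)
  have hd : 0 < d := by
    rcases Nat.eq_zero_or_pos d with h | h
    · rw [h, zero_mul] at hcard; omega
    · exact h
  have hq : 0 < q := by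
    rcases Nat.eq_zero_or_pos q with h | h
    · rw [h, mul_zero] at hcard; omega
    · exact h
  have h6 := Nat.le_of_dvd hd h4
  have h7 := Nat.le_of_dvd hq h5
  by_contra hne
  have h8 : Nat.card (powMonoidHom d : H →* H).ker < d := lt_of_le_of_ne h6 hne
  have h9 : Nat.card (powMonoidHom d : H →* H).ker * Nat.card (powMonoidHom d : H →* H).range <
      d * q := by
    calc _ ≤ Nat.card (powMonoidHom d : H →* H).ker * q := Nat.mul_le_mul_left _ h7
      _ < d * q := Nat.mul_lt_mul_of_pos_right h8 hq
  omega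

/-- TARGET: which primes divide the order of the commutator subgroup can be read off the statistics -/
theorem cr_mem_pi_iff {n : ℕ} (hn : n ≠ 0) {π : Finset ℕ} {E : ℕ → Type} [∀ p, Field (E p)] [∀ p, Finite (E p)]
    {H : Type} [CommGroup H] [Finite H] (χ : ∀ p : π, H →* (E p)ˣ)
    (hπ : ∀ p ∈ π, p.Prime ∧ p ∣ n) (hE : ∀ p ∈ π, Nat.card (E p) = p ^ n.factorization p)
    (hχ : ∀ p : π, χ p ≠ 1) (hcopH : ∀ p : π, Nat.Coprime (Nat.card (E p)) (Nat.card H))
    (hcard : Nat.card H * ∏ p : π, Nat.card (E p) = n) {p : ℕ} (hp : p.Prime) (hpn : p ∣ n) :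
    p ∈ π ↔ Nat.card {x : CRModel χ // x ^ (n / p ^ n.factorization p) = 1} ≠ n / p ^ n.factorization p := by
  classical
  haveI : Fintype H := Fintype.ofFinite H
  have hcopE : Pairwise fun i j : π => Nat.Coprime (Nat.card (E i)) (Nat.card (E j)) := by
    intro i j hij
    show Nat.Coprime (Nat.card (E i)) (Nat.card (E j))
    rw [hE i i.2, hE j j.2]
    exact Nat.Coprime.pow _ _ ((Nat.coprime_primes (hπ i i.2).1 (hπ j j.2).1).2
      (fun h => hij (Subtype.ext h)))
  have hepos : ∀ i : π, 0 < Nat.card (E i) := fun i => Nat.card_pos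
  have hqpos : 0 < p ^ n.factorization p := pow_pos hp.pos _
  constructor
  · intro hpπ
    set i0 : π := ⟨p, hpπ⟩ with hi0
    have hq : p ^ n.factorization p = Nat.card (E i0) := (hE p hpπ).symm
    have hfac : 1 ≤ n.factorization p := hp.factorization_pos_of_dvd hn hpn
    have hq2 : 2 ≤ Nat.card (E i0) := by
      rw [← hq]
      calc 2 ≤ p := hp.two_le
        _ = p ^ 1 := (pow_one p).symm
        _ ≤ p ^ n.factorization p := Nat.pow_le_pow_right hp.pos hfac
    have hnq : n / p ^ n.factorization p =
        Nat.card H * ∏ i ∈ Finset.univ.erase i0, Nat.card (E i) := by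
      apply Nat.div_eq_of_eq_mul_left hqpos
      rw [hq, mul_assoc, mul_comm (∏ i ∈ Finset.univ.erase i0, Nat.card (E i)),
        Finset.mul_prod_erase _ (fun i : π => Nat.card (E i)) (Finset.mem_univ i0), hcard]
    rw [hnq, cr_card_model_T χ hcopE hcopH (Finset.univ.erase i0) (Nat.card H) dvd_rfl]
    have hfilt : Finset.univ.filter (fun h : H => h ^ Nat.card H = 1) = Finset.univ := by
      apply Finset.filter_true_of_mem
      intro h _
      exact pow_card_eq_one'
    rw [hfilt]
    have hprod : ∀ h : H, ∏ i : π, (if i ∈ Finset.univ.erase i0 ∨ χ i h ≠ 1 then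
        Nat.card (E i) else 1) = (∏ i ∈ Finset.univ.erase i0, Nat.card (E i)) *
          (if χ i0 h ≠ 1 then Nat.card (E i0) else 1) := by
      intro h
      rw [← Finset.mul_prod_erase _ _ (Finset.mem_univ i0), mul_comm]
      congr 1
      · refine Finset.prod_congr rfl fun i hi => ?_
        rw [if_pos (Or.inl hi)]
      · simp
    rw [Finset.sum_congr (g := fun h : H => (∏ i ∈ Finset.univ.erase i0, Nat.card (E i)) *
          (if χ i0 h ≠ 1 then Nat.card (E i0) else 1)) rfl (fun h _ => by convert hprod h),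
      ← Finset.mul_sum, mul_comm]
    have hPpos : 0 < ∏ i ∈ Finset.univ.erase i0, Nat.card (E i) :=
      Finset.prod_pos fun i _ => hepos i
    apply ne_of_gt
    apply Nat.mul_lt_mul_of_pos_right _ hPpos
    obtain ⟨h0, hh0⟩ : ∃ h, χ i0 h ≠ 1 := by
      by_contra hcon
      push Not at hcon
      exact hχ i0 (MonoidHom.ext hcon)
    calc Nat.card H = ∑ h : H, 1 := by
          rw [Finset.sum_const, Finset.card_univ, Nat.card_eq_fintype_card, smul_eq_mul, mul_one]
      _ < ∑ h : H, (if χ i0 h ≠ 1 then Nat.card (E i0) else 1) := by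
          apply Finset.sum_lt_sum
          · intro h _
            split_ifs
            · omega
            · exact le_rfl
          · refine ⟨h0, Finset.mem_univ _, ?_⟩
            rw [if_pos hh0]
            omega
  · intro hne
    by_contra hpπ
    apply hne
    have hcp : Nat.Coprime (p ^ n.factorization p) (∏ i : π, Nat.card (E i)) := by
      apply Nat.Coprime.prod_right
      intro i _
      rw [hE i i.2]
      exact Nat.Coprime.pow _ _ ((Nat.coprime_primes hp (hπ i i.2).1).2
        (fun h => hpπ (h ▸ i.2)))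
    have hqn : p ^ n.factorization p ∣ n := Nat.ordProj_dvd n p
    have hqH : p ^ n.factorization p ∣ Nat.card H := by
      apply hcp.dvd_of_dvd_mul_right
      rw [hcard]
      exact hqn
    obtain ⟨d, hd⟩ := hqH
    have hnq : n / p ^ n.factorization p = d * ∏ i ∈ (Finset.univ : Finset π), Nat.card (E i) := by
      apply Nat.div_eq_of_eq_mul_right hqpos
      rw [← mul_assoc, ← hd, hcard]
    have hcop : Nat.Coprime (p ^ n.factorization p) d := by
      apply Nat.Coprime.pow_left
      have h1 : Nat.Coprime p (n / p ^ n.factorization p) := Nat.coprime_ordCompl hp hn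
      rw [hnq] at h1
      exact Nat.Coprime.coprime_mul_right_right h1
    rw [hnq, cr_card_model_T χ hcopE hcopH Finset.univ d (by rw [hd]; exact dvd_mul_left _ _)]
    have hprod : ∀ h : H, ∏ i : π, (if i ∈ (Finset.univ : Finset π) ∨ χ i h ≠ 1 then
        Nat.card (E i) else 1) = ∏ i : π, Nat.card (E i) := by
      intro h
      refine Finset.prod_congr rfl fun i hi => ?_
      rw [if_pos (Or.inl hi)]
    rw [Finset.sum_congr (g := fun h : H => ∏ i : π, Nat.card (E i)) rfl
      (fun h _ => by convert hprod h), Finset.sum_const, smul_eq_mul]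
    congr 1
    exact cr_ker671 _ d hcop (by rw [hd, mul_comm])
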