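import Mathlib
import Pool.Agent.MPcb9dee.J09

open Classical in
theorem cr_counts_aux {ι : Type} [Fintype ι] {E : ι → Type} [∀ i, Field (E i)] [∀ i, Finite (E i)]
    {H : Type} [CommGroup H] [Fintype H] (χ : ∀ i, H →* (E i)ˣ)
    (hcopE : Pairwise fun i j => Nat.Coprime (Nat.card (E i)) (Nat.card (E j)))
    (hcopH : ∀ i, Nat.Coprime (Nat.card (E i)) (Nat.card H))
    (S : Finset ι) (d : ℕ) (hd : d ∣ Nat.card H) :
    (Nat.card {x : CRModel χ // x ^ (d * ∏ i ∈ Sᶜ, Nat.card (E i)) = 1} : ℤ) =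
      (∏ i ∈ Sᶜ, (Nat.card (E i) : ℤ)) *
      ∑ h ∈ Finset.univ.filter (fun h : H => h ^ d = 1),
        ∏ i ∈ S, ((Nat.card (E i) : ℤ) - ((Nat.card (E i) : ℤ) - 1) *
          (if χ i h = 1 then 1 else 0)) := by
  rw [cr_card_model_T χ hcopE hcopH Sᶜ d hd]
  push_cast
  rw [Finset.mul_sum]
  refine Finset.sum_congr rfl fun h _ => ?_
  rw [← Finset.prod_compl_mul_prod S]
  congr 1
  · refine Finset.prod_congr rfl fun i hi => ?_
    rw [if_pos (Or.inl hi)]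
  · refine Finset.prod_congr rfl fun i hi => ?_
    have hi' : i ∉ Sᶜ := by simpa using hi
    by_cases hx : χ i h = 1
    · rw [if_neg (by tauto), if_pos hx]
      ring
    · rw [if_pos (Or.inr hx), if_neg hx]
      ring

open Classical in
theorem cr_counts_main {ι : Type} [Fintype ι] {E : ι → Type} [∀ i, Field (E i)] [∀ i, Finite (E i)]
    {H₁ H₂ : Type} [CommGroup H₁] [CommGroup H₂] [Fintype H₁] [Fintype H₂]
    (χ₁ : ∀ i, H₁ →* (E i)ˣ) (χ₂ : ∀ i, H₂ →* (E i)ˣ)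
    (hcopE : Pairwise fun i j => Nat.Coprime (Nat.card (E i)) (Nat.card (E j)))
    (hcopH₁ : ∀ i, Nat.Coprime (Nat.card (E i)) (Nat.card H₁))
    (hcardH : Nat.card H₁ = Nat.card H₂)
    (hconf : ∀ m, 1 ≤ m → Nat.card {x : CRModel χ₁ // x ^ m = 1} = Nat.card {x : CRModel χ₂ // x ^ m = 1})
    (d : ℕ) (hd : d ∣ Nat.card H₁) (S : Finset ι) :
      ∑ h ∈ Finset.univ.filter (fun h : H₁ => h ^ d = 1),
        ∏ i ∈ S, ((Nat.card (E i) : ℤ) - ((Nat.card (E i) : ℤ) - 1) *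
          (if χ₁ i h = 1 then 1 else 0)) =
      ∑ h ∈ Finset.univ.filter (fun h : H₂ => h ^ d = 1),
        ∏ i ∈ S, ((Nat.card (E i) : ℤ) - ((Nat.card (E i) : ℤ) - 1) *
          (if χ₂ i h = 1 then 1 else 0)) := by
  have hE : ∀ i, 0 < Nat.card (E i) := fun i => Nat.card_pos
  have hd1 : 0 < d := by
    rcases Nat.eq_zero_or_pos d with h | h
    · rw [h, zero_dvd_iff] at hd
      exact absurd hd (Nat.card_pos (α := H₁)).ne'
    · exact h
  have hm : 1 ≤ d * ∏ i ∈ Sᶜ, Nat.card (E i) :=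
    Nat.succ_le_of_lt (Nat.mul_pos hd1 (Finset.prod_pos fun i _ => hE i))
  have h1 := cr_counts_aux χ₁ hcopE hcopH₁ S d hd
  have h2 := cr_counts_aux χ₂ hcopE (by intro i; rw [← hcardH]; exact hcopH₁ i) S d (hcardH ▸ hd)
  have h3 := hconf _ hm
  rw [h3, h2] at h1
  have hne : (∏ i ∈ Sᶜ, (Nat.card (E i) : ℤ)) ≠ 0 :=
    Finset.prod_ne_zero_iff.mpr fun i _ => by exact_mod_cast (hE i).ne'
  exact (mul_left_cancel₀ hne h1).symm

theorem cr_card_eq {H : Type} [Fintype H] (p : H → Prop) [DecidablePred p] :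
    (Nat.card {h : H // p h} : ℤ) = ∑ h : H, (if p h then (1:ℤ) else 0) := by
  rw [Nat.card_eq_fintype_card, Fintype.card_subtype, Finset.sum_boole]

/-- TARGET -/
theorem cr_counts {ι : Type} [Fintype ι] {E : ι → Type} [∀ i, Field (E i)] [∀ i, Finite (E i)]
    {H₁ H₂ : Type} [CommGroup H₁] [CommGroup H₂] [Finite H₁] [Finite H₂]
    (χ₁ : ∀ i, H₁ →* (E i)ˣ) (χ₂ : ∀ i, H₂ →* (E i)ˣ)
    (hcopE : Pairwise fun i j => Nat.Coprime (Nat.card (E i)) (Nat.card (E j)))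
    (hcopH₁ : ∀ i, Nat.Coprime (Nat.card (E i)) (Nat.card H₁))
    (hcardH : Nat.card H₁ = Nat.card H₂)
    (hconf : ∀ m, 1 ≤ m → Nat.card {x : CRModel χ₁ // x ^ m = 1} = Nat.card {x : CRModel χ₂ // x ^ m = 1})
    (d : ℕ) (hd : d ∣ Nat.card H₁) :
    Nat.card {h : H₁ // h ^ d = 1} = Nat.card {h : H₂ // h ^ d = 1} ∧
    (∀ i, Nat.card {h : H₁ // h ^ d = 1 ∧ χ₁ i h = 1} = Nat.card {h : H₂ // h ^ d = 1 ∧ χ₂ i h = 1}) ∧
    (∀ i j, Nat.card {h : H₁ // h ^ d = 1 ∧ χ₁ i h = 1 ∧ χ₁ j h = 1} =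
      Nat.card {h : H₂ // h ^ d = 1 ∧ χ₂ i h = 1 ∧ χ₂ j h = 1}) := by
  classical
  let _ : Fintype H₁ := Fintype.ofFinite H₁
  let _ : Fintype H₂ := Fintype.ofFinite H₂
  have key := cr_counts_main χ₁ χ₂ hcopE hcopH₁ hcardH hconf d hd
  have hE : ∀ i, (2:ℤ) ≤ Nat.card (E i) := fun i => by
    exact_mod_cast Nat.succ_le_of_lt (Finite.one_lt_card (α := E i))
  -- number of solutions
  have k0 : ∑ h : H₁, (if h ^ d = 1 then (1:ℤ) else 0) = ∑ h : H₂, (if h ^ d = 1 then (1:ℤ) else 0) := by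
    have := key ∅
    simp only [Finset.prod_empty] at this
    rw [Finset.sum_filter, Finset.sum_filter] at this
    exact this
  have k1 : ∀ i, ∑ h : H₁, (if h ^ d = 1 ∧ χ₁ i h = 1 then (1:ℤ) else 0) =
      ∑ h : H₂, (if h ^ d = 1 ∧ χ₂ i h = 1 then (1:ℤ) else 0) := by
    intro i
    have h1 := key {i}
    simp only [Finset.prod_singleton] at h1
    rw [Finset.sum_filter, Finset.sum_filter] at h1
    have e1 : ∀ (H : Type) [CommGroup H] [Fintype H] (χ : H →* (E i)ˣ),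
        ∑ h : H, (if h ^ d = 1 then ((Nat.card (E i) : ℤ) - ((Nat.card (E i) : ℤ) - 1) *
          (if χ h = 1 then 1 else 0)) else 0) =
        (Nat.card (E i) : ℤ) * ∑ h : H, (if h ^ d = 1 then (1:ℤ) else 0) -
          ((Nat.card (E i) : ℤ) - 1) * ∑ h : H, (if h ^ d = 1 ∧ χ h = 1 then (1:ℤ) else 0) := by
      intro H _ _ χ
      rw [Finset.mul_sum, Finset.mul_sum, ← Finset.sum_sub_distrib]
      refine Finset.sum_congr rfl fun h _ => ?_
      by_cases a : h ^ d = 1 <;> by_cases b : χ h = 1 <;> simp [a, b]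
    rw [e1 H₁ (χ₁ i), e1 H₂ (χ₂ i), k0] at h1
    have h2 : ((Nat.card (E i) : ℤ) - 1) ≠ 0 := by
      have := hE i
      linarith
    exact mul_left_cancel₀ h2 (by linarith [h1])
  have k2 : ∀ i j, i ≠ j → ∑ h : H₁, (if h ^ d = 1 ∧ χ₁ i h = 1 ∧ χ₁ j h = 1 then (1:ℤ) else 0) =
      ∑ h : H₂, (if h ^ d = 1 ∧ χ₂ i h = 1 ∧ χ₂ j h = 1 then (1:ℤ) else 0) := by
    intro i j hij
    have h1 := key {i, j}
    simp only [Finset.prod_pair hij] at h1
    rw [Finset.sum_filter, Finset.sum_filter] at h1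
    set a : ℤ := (Nat.card (E i) : ℤ) with ha
    set b : ℤ := (Nat.card (E j) : ℤ) with hb
    have e1 : ∀ (H : Type) [CommGroup H] [Fintype H] (χ : H →* (E i)ˣ) (χ' : H →* (E j)ˣ),
        ∑ h : H, (if h ^ d = 1 then ((a - (a - 1) * (if χ h = 1 then 1 else 0)) *
          (b - (b - 1) * (if χ' h = 1 then 1 else 0))) else 0) =
        a * b * ∑ h : H, (if h ^ d = 1 then (1:ℤ) else 0) -
          (a - 1) * b * ∑ h : H, (if h ^ d = 1 ∧ χ h = 1 then (1:ℤ) else 0) -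
          a * (b - 1) * ∑ h : H, (if h ^ d = 1 ∧ χ' h = 1 then (1:ℤ) else 0) +
          (a - 1) * (b - 1) * ∑ h : H, (if h ^ d = 1 ∧ χ h = 1 ∧ χ' h = 1 then (1:ℤ) else 0) := by
      intro H _ _ χ χ'
      rw [Finset.mul_sum, Finset.mul_sum, Finset.mul_sum, Finset.mul_sum,
        ← Finset.sum_sub_distrib, ← Finset.sum_sub_distrib, ← Finset.sum_add_distrib]
      refine Finset.sum_congr rfl fun h _ => ?_
      by_cases a' : h ^ d = 1 <;> by_cases b' : χ h = 1 <;> by_cases c' : χ' h = 1 <;>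
        simp [a', b', c'] <;> ring
    rw [e1 H₁ (χ₁ i) (χ₁ j), e1 H₂ (χ₂ i) (χ₂ j), k0, k1 i, k1 j] at h1
    have h2 : (a - 1) * (b - 1) ≠ 0 := by
      have h3 := hE i
      have h4 := hE j
      exact mul_ne_zero (by rw [ha]; linarith) (by rw [hb]; linarith)
    have h3 := add_left_cancel h1
    exact mul_left_cancel₀ h2 h3
  refine ⟨?_, ?_, ?_⟩
  · have := k0
    rw [← cr_card_eq, ← cr_card_eq] at this
    exact_mod_cast this
  · intro i
    have := k1 i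
    rw [← cr_card_eq, ← cr_card_eq] at this
    exact_mod_cast this
  · intro i j
    by_cases hij : i = j
    · subst hij
      have := k1 i
      rw [← cr_card_eq, ← cr_card_eq] at this
      simp only [and_self]
      exact_mod_cast this
    · have := k2 i j hij
      rw [← cr_card_eq, ← cr_card_eq] at this
      exact_mod_cast this
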