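import Mathlib

theorem crm_glue {F X₁ X₂ M : Type} [Group F] [Group X₁] [Group X₂] [Group M] (f₁ : F →* X₁)
    (f₂ : F →* X₂) (h₁ : Function.Surjective f₁) (h₂ : Function.Surjective f₂)
    (hk : f₁.ker = f₂.ker) (χ₁ : X₁ →* M) (χ₂ : X₂ →* M) (hχ : ∀ w, χ₁ (f₁ w) = χ₂ (f₂ w)) :
    ∃ θ : X₁ ≃* X₂, ∀ x, χ₂ (θ x) = χ₁ x := by
  let e1 := QuotientGroup.quotientKerEquivOfSurjective f₁ h₁
  let e2 := QuotientGroup.quotientKerEquivOfSurjective f₂ h₂
  let q := QuotientGroup.quotientMulEquivOfEq hk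
  refine ⟨(e1.symm.trans q).trans e2, ?_⟩
  intro x
  obtain ⟨w, rfl⟩ := h₁ x
  have h3 : e1.symm (f₁ w) = (w : F ⧸ f₁.ker) := by
    rw [MulEquiv.symm_apply_eq]; rfl
  show χ₂ (e2 (q (e1.symm (f₁ w)))) = _
  rw [h3]
  exact (hχ w).symm

theorem crm_card {X M : Type} [Group X] [Group M] (χ : X →* M) :
    Nat.card χ.ker * Nat.card χ.range = Nat.card X := by
  rw [← Subgroup.index_ker]
  exact Subgroup.card_mul_index _

theorem crm_sub {M : Type} [Group M] [Finite M] [IsCyclic M] (H K : Subgroup M)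
    (h : Nat.card H = Nat.card K) : H = K := by
  classical
  have _ := Fintype.ofFinite M
  have key : ∀ L : Subgroup M, (Finset.univ.filter (fun x => x ∈ L)) =
      Finset.univ.filter (fun x => x ^ (Nat.card L) = 1) := by
    intro L
    apply Finset.eq_of_subset_of_card_le
    · intro x hx
      simp only [Finset.mem_filter, Finset.mem_univ, true_and] at hx ⊢
      have h1 : (⟨x, hx⟩ : L) ^ Nat.card L = 1 := pow_card_eq_one'
      exact congrArg (fun y : L => (y : M)) h1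
    · refine (IsCyclic.card_pow_eq_one_le Nat.card_pos).trans ?_
      rw [Nat.card_eq_fintype_card, Fintype.card_subtype]
  ext x
  have h1 := key H
  rw [h, ← key K] at h1
  have h2 := congrArg (fun s => x ∈ s) h1
  simpa using h2

theorem crm_range {X₁ X₂ M : Type} [CommGroup X₁] [CommGroup X₂] [Finite X₁] [Finite X₂]
    [CommGroup M] [Finite M] [IsCyclic M] (hcard : Nat.card X₁ = Nat.card X₂)
    (χ₁ : X₁ →* M) (χ₂ : X₂ →* M) (hker : Nat.card χ₁.ker = Nat.card χ₂.ker) :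
    χ₁.range = χ₂.range := by
  apply crm_sub
  have h1 := crm_card χ₁
  have h2 := crm_card χ₂
  rw [hcard, ← h2, hker] at h1
  exact Nat.eq_of_mul_eq_mul_left Nat.card_pos h1

theorem crm_cyc {X₁ X₂ : Type} [CommGroup X₁] [CommGroup X₂] [Finite X₁] [Finite X₂]
    [IsCyclic X₁] [IsCyclic X₂] {r : ℕ}
    (hr : r.Prime) (h1 : Nat.card X₁ ∣ r ^ 2) (hcard : Nat.card X₁ = Nat.card X₂)
    {M : Type} [CommGroup M] [Finite M] [IsCyclic M] (χ₁ : X₁ →* M) (χ₂ : X₂ →* M)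
    (hker : Nat.card χ₁.ker = Nat.card χ₂.ker) :
    ∃ θ : X₁ ≃* X₂, ∀ x, χ₂ (θ x) = χ₁ x := by
  obtain ⟨z1, hz1⟩ := IsCyclic.exists_generator (α := X₁)
  obtain ⟨z2, hz2⟩ := IsCyclic.exists_generator (α := X₂)
  have hrange : χ₁.range = χ₂.range := crm_range hcard χ₁ χ₂ hker
  suffices hx : ∃ x2 : X₂, (∀ x, x ∈ Subgroup.zpowers x2) ∧ χ₂ x2 = χ₁ z1 by
    obtain ⟨x2, hx2, hχ⟩ := hx
    have ho : orderOf z1 = orderOf x2 := by
      rw [orderOf_eq_card_of_forall_mem_zpowers hz1, orderOf_eq_card_of_forall_mem_zpowers hx2,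
        hcard]
    refine ⟨mulEquivOfOrderOfEq hz1 hx2 ho, ?_⟩
    intro x
    obtain ⟨n, rfl⟩ := Subgroup.mem_zpowers_iff.1 (hz1 x)
    rw [map_zpow, map_zpow, map_zpow, mulEquivOfOrderOfEq_apply_gen, hχ]
  have h3 : χ₁ z1 ∈ χ₂.range := by rw [← hrange]; exact ⟨z1, rfl⟩
  obtain ⟨y, hy⟩ := h3
  obtain ⟨k, hk⟩ := Subgroup.mem_zpowers_iff.1 (hz2 y)
  have hzN : z2 ^ ((r : ℤ) ^ 2) = 1 := by
    rw [hcard] at h1
    obtain ⟨c, hc⟩ := h1
    have h5 : ((r : ℤ) ^ 2) = ((r ^ 2 : ℕ) : ℤ) := by push_cast; rfl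
    rw [h5, zpow_natCast, hc, pow_mul, pow_card_eq_one', one_pow]
  by_cases hrk : (r : ℤ) ∣ k
  · obtain ⟨k', rfl⟩ := hrk
    have h4 : χ₂ z2 ∈ χ₁.range := by rw [hrange]; exact ⟨z2, rfl⟩
    obtain ⟨w, hw⟩ := h4
    obtain ⟨l, hl⟩ := Subgroup.mem_zpowers_iff.1 (hz1 w)
    obtain ⟨g, hgdef⟩ : ∃ g, g = χ₂ z2 := ⟨_, rfl⟩
    have hg : g = g ^ ((r : ℤ) * (k' * l)) := by
      have e1 : g = (χ₁ z1) ^ l := by rw [hgdef, ← hw, ← hl, map_zpow]
      have e2 : χ₁ z1 = g ^ ((r : ℤ) * k') := by rw [← hy, ← hk, map_zpow, hgdef]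
      rw [e2, ← zpow_mul, mul_assoc] at e1
      exact e1
    have hN : g ^ ((r : ℤ) ^ 2) = 1 := by
      rw [hgdef, ← map_zpow, hzN, map_one]
    have hone : g = 1 := by
      have e3 : g = g ^ (((r : ℤ) ^ 2) * (k' * l) ^ 2) := by
        conv_lhs => rw [hg]
        conv_lhs => rw [hg]
        rw [← zpow_mul]
        congr 1
        ring
      rw [e3, zpow_mul, hN, one_zpow]
    refine ⟨z2, hz2, ?_⟩
    rw [← hy, ← hk, map_zpow, ← hgdef, hone, one_zpow]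
  · refine ⟨y, ?_, hy⟩
    have hcop : IsCoprime ((r : ℤ) ^ 2) k :=
      ((Prime.coprime_iff_not_dvd (Nat.prime_iff_prime_int.1 hr)).2 hrk).pow_left
    obtain ⟨u, v, huv⟩ := hcop
    intro x
    obtain ⟨n, rfl⟩ := Subgroup.mem_zpowers_iff.1 (hz2 x)
    rw [Subgroup.mem_zpowers_iff]
    refine ⟨v * n, ?_⟩
    rw [← hk, ← zpow_mul]
    have e4 : z2 ^ n = z2 ^ ((u * (r : ℤ) ^ 2 + v * k) * n) := by rw [huv, one_mul]
    have e5 : (u * (r : ℤ) ^ 2 + v * k) * n = (r : ℤ) ^ 2 * (u * n) + k * (v * n) := by ring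
    rw [e4, e5, zpow_add, zpow_mul z2 ((r : ℤ) ^ 2), hzN, one_zpow, one_mul]

theorem crm_pair {X : Type} [CommGroup X] [Finite X] {r : ℕ} (hr : r.Prime)
    (hcard : Nat.card X = r ^ 2) (hexp : ∀ x : X, x ^ r = 1) (a b : X) (ha : a ≠ 1)
    (hb : b ∉ Subgroup.zpowers a) :
    ∃ f : Multiplicative ℤ × Multiplicative ℤ →* X, Function.Surjective f ∧
      (∀ w, f w = a ^ w.1.toAdd * b ^ w.2.toAdd) ∧
      ∀ w, f w = 1 ↔ ((r : ℤ) ∣ w.1.toAdd ∧ (r : ℤ) ∣ w.2.toAdd) := by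
  have hfw : ∀ w, (MonoidHom.coprod (zpowersHom X a) (zpowersHom X b)) w =
      a ^ w.1.toAdd * b ^ w.2.toAdd := by
    intro w
    rw [MonoidHom.coprod_apply, zpowersHom_apply, zpowersHom_apply]
  have hfact : Fact r.Prime := ⟨hr⟩
  have hb1 : b ≠ 1 := fun h => hb (by rw [h]; exact Subgroup.one_mem _)
  have hoa : orderOf a = r := orderOf_eq_prime (hexp a) ha
  have hob : orderOf b = r := orderOf_eq_prime (hexp b) hb1
  refine ⟨MonoidHom.coprod (zpowersHom X a) (zpowersHom X b), ?_, hfw, ?_⟩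
  · rw [← MonoidHom.range_eq_top]
    obtain ⟨R, hR⟩ : ∃ R : Subgroup X,
      R = (MonoidHom.coprod (zpowersHom X a) (zpowersHom X b)).range := ⟨_, rfl⟩
    rw [← hR]
    have haR : a ∈ R := by
      rw [hR]; refine ⟨(Multiplicative.ofAdd 1, 1), ?_⟩; rw [hfw]; simp
    have hbR : b ∈ R := by
      rw [hR]; refine ⟨(1, Multiplicative.ofAdd 1), ?_⟩; rw [hfw]; simp
    have hle : Subgroup.zpowers a ≤ R := by
      rw [Subgroup.zpowers_le]; exact haR
    have hca : Nat.card (Subgroup.zpowers a) = r := by rw [Nat.card_zpowers, hoa]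
    have hdv : Nat.card R ∣ r ^ 2 := by rw [← hcard]; exact Subgroup.card_subgroup_dvd_card R
    obtain ⟨j, hj, hjR⟩ := (Nat.dvd_prime_pow hr).1 hdv
    have hgt : r < Nat.card R := by
      by_contra hcon
      push Not at hcon
      have h2 : Subgroup.zpowers a = R := Subgroup.eq_of_le_of_card_ge hle (by rw [hca]; exact hcon)
      exact hb (by rw [h2]; exact hbR)
    have hj2 : j = 2 := by
      interval_cases j
      · rw [hjR, pow_zero] at hgt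
        exact absurd hgt (by have := hr.one_lt; omega)
      · rw [hjR, pow_one] at hgt
        exact absurd hgt (lt_irrefl _)
      · rfl
    apply Subgroup.eq_top_of_card_eq
    rw [hjR, hj2, hcard]
  · intro w
    rw [hfw]
    constructor
    · intro h
      have hn : (r : ℤ) ∣ w.2.toAdd := by
        by_contra hn
        obtain ⟨u, v, huv⟩ := (Prime.coprime_iff_not_dvd (Nat.prime_iff_prime_int.1 hr)).2 hn
        apply hb
        have h2 : b ^ w.2.toAdd ∈ Subgroup.zpowers a := by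
          have h3 : b ^ w.2.toAdd = (a ^ w.1.toAdd)⁻¹ := by
            rw [eq_inv_iff_mul_eq_one, mul_comm]; exact h
          rw [h3]
          exact Subgroup.inv_mem _ (Subgroup.zpow_mem_zpowers a _)
        have h4 : b = (b ^ w.2.toAdd) ^ v := by
          have h5 : b = b ^ (u * (r : ℤ) + v * w.2.toAdd) := by rw [huv, zpow_one]
          have h6 : u * (r : ℤ) + v * w.2.toAdd = (r : ℤ) * u + w.2.toAdd * v := by ring
          rw [h6, zpow_add, zpow_mul, zpow_natCast, hexp, one_zpow, one_mul, zpow_mul] at h5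
          exact h5
        rw [h4]
        exact Subgroup.zpow_mem _ h2 _
      have h7 : b ^ w.2.toAdd = 1 := by
        rw [← orderOf_dvd_iff_zpow_eq_one, hob]; exact hn
      rw [h7, mul_one, ← orderOf_dvd_iff_zpow_eq_one, hoa] at h
      exact ⟨h, hn⟩
    · rintro ⟨h1, h2⟩
      have h7 : b ^ w.2.toAdd = 1 := by
        rw [← orderOf_dvd_iff_zpow_eq_one, hob]; exact h2
      have h8 : a ^ w.1.toAdd = 1 := by
        rw [← orderOf_dvd_iff_zpow_eq_one, hoa]; exact h1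
      rw [h7, h8, mul_one]

theorem crm_el2 {X₁ X₂ : Type} [CommGroup X₁] [CommGroup X₂] [Finite X₁] [Finite X₂] {r : ℕ}
    (hr : r.Prime) (h1 : Nat.card X₁ = r ^ 2) (h2 : Nat.card X₂ = r ^ 2)
    (he1 : ∀ x : X₁, x ^ r = 1) (he2 : ∀ x : X₂, x ^ r = 1)
    {M : Type} [CommGroup M] (χ₁ : X₁ →* M) (χ₂ : X₂ →* M) (a₁ b₁ : X₁) (a₂ b₂ : X₂)
    (ha1 : a₁ ≠ 1) (hb1 : b₁ ∉ Subgroup.zpowers a₁) (ha2 : a₂ ≠ 1)
    (hb2 : b₂ ∉ Subgroup.zpowers a₂) (hχa : χ₁ a₁ = χ₂ a₂) (hχb : χ₁ b₁ = χ₂ b₂) :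
    ∃ θ : X₁ ≃* X₂, ∀ x, χ₂ (θ x) = χ₁ x := by
  obtain ⟨f₁, hs1, hf1, hk1⟩ := crm_pair hr h1 he1 a₁ b₁ ha1 hb1
  obtain ⟨f₂, hs2, hf2, hk2⟩ := crm_pair hr h2 he2 a₂ b₂ ha2 hb2
  refine crm_glue f₁ f₂ hs1 hs2 ?_ χ₁ χ₂ ?_
  · ext w
    rw [MonoidHom.mem_ker, MonoidHom.mem_ker, hk1, hk2]
  · intro w
    rw [hf1, hf2, map_mul, map_mul, map_zpow, map_zpow, map_zpow, map_zpow, hχa, hχb]

theorem crm_ker {X M : Type} [CommGroup X] [Finite X] {r : ℕ} (hr : r.Prime)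
    (h1 : Nat.card X = r ^ 2) (he : ∀ x : X, x ^ r = 1) [CommGroup M] [IsCyclic M]
    (χ : X →* M) : ∃ a : X, a ≠ 1 ∧ χ a = 1 := by
  by_contra hcon
  push Not at hcon
  have hinj : Function.Injective χ := by
    rw [injective_iff_map_eq_one]
    intro a ha
    by_contra h
    exact hcon a h ha
  have hc : IsCyclic X := isCyclic_of_injective χ hinj
  obtain ⟨z, hz⟩ := IsCyclic.exists_generator (α := X)
  have h2 := orderOf_eq_card_of_forall_mem_zpowers hz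
  have h3 : orderOf z ∣ r := orderOf_dvd_of_pow_eq_one (he z)
  rw [h2, h1] at h3
  have h4 := Nat.le_of_dvd hr.pos h3
  have h5 := hr.one_lt
  nlinarith

theorem crm_out {X : Type} [CommGroup X] [Finite X] {r : ℕ} (hr : r.Prime)
    (h1 : Nat.card X = r ^ 2) (he : ∀ x : X, x ^ r = 1) : ∃ a b : X, a ≠ 1 ∧
      b ∉ Subgroup.zpowers a := by
  have h5 := hr.one_lt
  have hnt : Nontrivial X := by
    rw [← Finite.one_lt_card_iff_nontrivial, h1]
    nlinarith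
  obtain ⟨a, ha⟩ := exists_ne (1 : X)
  refine ⟨a, ?_⟩
  by_contra hcon
  push Not at hcon
  have h2 := orderOf_eq_card_of_forall_mem_zpowers (hcon · ha)
  have h3 : orderOf a ∣ r := orderOf_dvd_of_pow_eq_one (he a)
  rw [h2, h1] at h3
  have h4 := Nat.le_of_dvd hr.pos h3
  nlinarith

theorem crm_el {X₁ X₂ : Type} [CommGroup X₁] [CommGroup X₂] [Finite X₁] [Finite X₂] {r : ℕ}
    (hr : r.Prime) (h1 : Nat.card X₁ = r ^ 2) (h2 : Nat.card X₂ = r ^ 2)
    (he1 : ∀ x : X₁, x ^ r = 1) (he2 : ∀ x : X₂, x ^ r = 1)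
    {M : Type} [CommGroup M] [Finite M] [IsCyclic M] (χ₁ : X₁ →* M) (χ₂ : X₂ →* M)
    (hker : Nat.card χ₁.ker = Nat.card χ₂.ker) :
    ∃ θ : X₁ ≃* X₂, ∀ x, χ₂ (θ x) = χ₁ x := by
  have hrange : χ₁.range = χ₂.range := crm_range (h1.trans h2.symm) χ₁ χ₂ hker
  by_cases htr : ∀ x, χ₁ x = 1
  · have htr2 : ∀ x, χ₂ x = 1 := by
      intro x
      have h3 : χ₂ x ∈ χ₁.range := by rw [hrange]; exact ⟨x, rfl⟩
      obtain ⟨y, hy⟩ := h3
      rw [← hy, htr]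
    obtain ⟨a₁, b₁, ha1, hb1⟩ := crm_out hr h1 he1
    obtain ⟨a₂, b₂, ha2, hb2⟩ := crm_out hr h2 he2
    exact crm_el2 hr h1 h2 he1 he2 χ₁ χ₂ a₁ b₁ a₂ b₂ ha1 hb1 ha2 hb2
      (by rw [htr, htr2]) (by rw [htr, htr2])
  · push Not at htr
    obtain ⟨b₁, hb1⟩ := htr
    have h3 : χ₁ b₁ ∈ χ₂.range := by rw [← hrange]; exact ⟨b₁, rfl⟩
    obtain ⟨b₂, hb2⟩ := h3
    obtain ⟨a₁, ha1, ha1'⟩ := crm_ker hr h1 he1 χ₁
    obtain ⟨a₂, ha2, ha2'⟩ := crm_ker hr h2 he2 χ₂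
    have hn1 : b₁ ∉ Subgroup.zpowers a₁ := by
      intro h
      obtain ⟨n, hn⟩ := Subgroup.mem_zpowers_iff.1 h
      apply hb1
      rw [← hn, map_zpow, ha1', one_zpow]
    have hn2 : b₂ ∉ Subgroup.zpowers a₂ := by
      intro h
      obtain ⟨n, hn⟩ := Subgroup.mem_zpowers_iff.1 h
      apply hb1
      rw [← hb2, ← hn, map_zpow, ha2', one_zpow]
    exact crm_el2 hr h1 h2 he1 he2 χ₁ χ₂ a₁ b₁ a₂ b₂ ha1 hn1 ha2 hn2
      (by rw [ha1', ha2']) hb2.symm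

theorem crm_tor {X : Type} [CommGroup X] [Finite X] (r : ℕ) :
    Nat.card {x : X // x ^ r = 1} = Nat.card X ↔ ∀ x : X, x ^ r = 1 := by
  constructor
  · intro h x
    have hinj : Function.Injective (fun y : {x : X // x ^ r = 1} => (y : X)) :=
      Subtype.val_injective
    have hbij : Function.Bijective (fun y : {x : X // x ^ r = 1} => (y : X)) := by
      rw [Nat.bijective_iff_injective_and_card]
      exact ⟨hinj, h⟩
    obtain ⟨y, hy⟩ := hbij.2 x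
    rw [← hy]
    exact y.2
  · intro h
    exact Nat.card_congr (Equiv.subtypeUnivEquiv h)

theorem crm_cyc_of {X : Type} [CommGroup X] [Finite X] {r : ℕ} (hr : r.Prime)
    (h1 : Nat.card X = r ^ 2) (h : ¬ ∀ x : X, x ^ r = 1) : IsCyclic X := by
  push Not at h
  obtain ⟨x, hx⟩ := h
  apply isCyclic_of_orderOf_eq_card x
  have h2 : orderOf x ∣ r ^ 2 := by rw [← h1]; exact orderOf_dvd_natCard x
  obtain ⟨j, hj, hjx⟩ := (Nat.dvd_prime_pow hr).1 h2
  have hj2 : j = 2 := by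
    by_contra hne
    apply hx
    rw [← orderOf_dvd_iff_pow_eq_one, hjx]
    have hj1 : j ≤ 1 := by omega
    calc r ^ j ∣ r ^ 1 := pow_dvd_pow r hj1
      _ = r := pow_one r
  rw [hjx, hj2, h1]

/-- matching characters on abelian groups of order dividing `r^2` -/
theorem cr_match {X₁ X₂ : Type} [CommGroup X₁] [CommGroup X₂] [Finite X₁] [Finite X₂] {r : ℕ}
    (hr : r.Prime) (h1 : Nat.card X₁ ∣ r ^ 2) (hcard : Nat.card X₁ = Nat.card X₂)
    (htor : Nat.card {x : X₁ // x ^ r = 1} = Nat.card {x : X₂ // x ^ r = 1})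
    (E : Type) [Field E] [Finite E] (χ₁ : X₁ →* Eˣ) (χ₂ : X₂ →* Eˣ)
    (hker : Nat.card χ₁.ker = Nat.card χ₂.ker) :
    ∃ θ : X₁ ≃* X₂, ∀ x, χ₂ (θ x) = χ₁ x := by
  have hfact : Fact r.Prime := ⟨hr⟩
  obtain ⟨j, hj, hj1⟩ := (Nat.dvd_prime_pow hr).1 h1
  by_cases hj2 : j = 2
  · subst hj2
    have h2 : Nat.card X₂ = r ^ 2 := by rw [← hcard, hj1]
    by_cases hall : ∀ x : X₁, x ^ r = 1
    · have hall2 : ∀ x : X₂, x ^ r = 1 := by
        rw [← crm_tor, ← htor, ← hcard, crm_tor]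
        exact hall
      exact crm_el hr hj1 h2 hall hall2 χ₁ χ₂ hker
    · have hall2 : ¬ ∀ x : X₂, x ^ r = 1 := by
        rw [← crm_tor, ← htor, ← hcard, crm_tor]
        exact hall
      have hc1 := crm_cyc_of hr hj1 hall
      have hc2 := crm_cyc_of hr h2 hall2
      exact crm_cyc hr h1 hcard χ₁ χ₂ hker
  · have hd : Nat.card X₁ ∣ r := by
      rw [hj1]
      have hj3 : j ≤ 1 := by omega
      calc r ^ j ∣ r ^ 1 := pow_dvd_pow r hj3
        _ = r := pow_one r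
    have hc1 : IsCyclic X₁ := isCyclic_of_card_dvd_prime (p := r) hd
    have hc2 : IsCyclic X₂ := isCyclic_of_card_dvd_prime (p := r) (by rw [← hcard]; exact hd)
    exact crm_cyc hr h1 hcard χ₁ χ₂ hker
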