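import Mathlib

def crl_g : Fin 4 → ZMod 3 × ZMod 3 := ![(1, 0), (0, 1), (1, 1), (1, 2)]

theorem crl_mem : ∀ v : ZMod 3 × ZMod 3, v ≠ 0 → ∃ j, v = crl_g j ∨ v = -crl_g j := by
  decide

theorem crl_eps : ∀ ε : ZMod 3, ε * ε = 1 → ε = 1 ∨ ε = -1 := by
  decide

theorem crl_inj : ∀ j j' : Fin 4, ∀ t : ZMod 3, t • crl_g j = crl_g j' → j = j' := by
  decide

set_option maxRecDepth 100000 in
theorem crl_dec : ∀ s0 s1 s2 s3 : Fin 4, s0 ≠ s1 → s0 ≠ s2 → s0 ≠ s3 → s1 ≠ s2 → s1 ≠ s3 → s2 ≠ s3 →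
    ∃ ε : ZMod 3, ε * ε = 1 ∧
      (crl_g s0 + ε • crl_g s1 = crl_g s2 ∨ crl_g s0 + ε • crl_g s1 = - crl_g s2) ∧
      (crl_g s0 + (2 * ε) • crl_g s1 = crl_g s3 ∨
        crl_g s0 + (2 * ε) • crl_g s1 = - crl_g s3) := by
  decide

set_option maxRecDepth 100000 in
theorem crl_ind : ∀ s0 s1 : Fin 4, s0 ≠ s1 → ∀ ε : ZMod 3, ε * ε = 1 → ∀ v : ZMod 3 × ZMod 3,
    v.1 • crl_g s0 + v.2 • ε • crl_g s1 = 0 → v = 0 := by
  decide

theorem crl_iso {X : Type} [CommGroup X] (h : Nat.card X = 9) (he : ∀ x : X, x ^ 3 = 1) :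
    Nonempty (Multiplicative (ZMod 3 × ZMod 3) ≃* X) := by
  haveI : Fact (Nat.Prime 3) := ⟨by norm_num⟩
  letI : Module (ZMod 3) (Additive X) := AddCommGroup.zmodModule (n := 3) (fun x => by
    have := he x.toMul
    exact congrArg Additive.ofMul this)
  haveI : Finite X := Nat.finite_of_card_ne_zero (by rw [h]; norm_num)
  haveI : Finite (Additive X) := inferInstanceAs (Finite X)
  haveI : Module.Finite (ZMod 3) (Additive X) := Module.Finite.of_finite
  have h1 : Module.finrank (ZMod 3) (Additive X) = 2 := by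
    have h2 := Module.natCard_eq_pow_finrank (K := ZMod 3) (V := Additive X)
    have h3 : Nat.card (Additive X) = 9 := h
    rw [h3, Nat.card_zmod] at h2
    have h4 : 3 ^ 2 = 3 ^ Module.finrank (ZMod 3) (Additive X) := by rw [← h2]; norm_num
    exact (Nat.pow_right_injective (by norm_num) h4).symm
  have h5 : Module.finrank (ZMod 3) (ZMod 3 × ZMod 3) = Module.finrank (ZMod 3) (Additive X) := by
    rw [h1]; simp
  let e := LinearEquiv.ofFinrankEq (ZMod 3 × ZMod 3) (Additive X) h5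
  refine ⟨{ toFun := fun v => (e (Multiplicative.toAdd v)).toMul
            invFun := fun x => Multiplicative.ofAdd (e.symm (Additive.ofMul x))
            left_inv := fun v => by simp
            right_inv := fun x => by simp
            map_mul' := fun v w => by simp }⟩

theorem crl_line {X : Type} [CommGroup X] (he : ∀ x : X, x ^ 3 = 1)
    (A : Multiplicative (ZMod 3 × ZMod 3) ≃* X) (L : Subgroup X) (hL : Nat.card L = 3) :
    ∃ j, L = Subgroup.zpowers (A (Multiplicative.ofAdd (crl_g j))) := by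
  haveI : Fact (Nat.Prime 3) := ⟨by norm_num⟩
  haveI : Finite L := Nat.finite_of_card_ne_zero (by rw [hL]; norm_num)
  have hne : L ≠ ⊥ := by
    rintro rfl
    simp at hL
  obtain ⟨x, hxL, hx1⟩ : ∃ x ∈ L, x ≠ 1 := by
    rcases Subgroup.bot_or_exists_ne_one L with h | h
    · exact absurd h hne
    · exact h
  have hord : orderOf x = 3 := orderOf_eq_prime (he x) hx1
  have hz : Subgroup.zpowers x = L := by
    apply Subgroup.eq_of_le_of_card_ge (Subgroup.zpowers_le.2 hxL)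
    rw [Nat.card_zpowers, hord, hL]
  obtain ⟨v, hv⟩ := A.surjective x
  obtain ⟨w, hvw⟩ : ∃ w : ZMod 3 × ZMod 3, v = Multiplicative.ofAdd w :=
    ⟨Multiplicative.toAdd v, rfl⟩
  rw [hvw] at hv
  have hw0 : w ≠ 0 := by
    rintro rfl
    apply hx1
    rw [← hv]
    simp
  obtain ⟨j, hj⟩ := crl_mem w hw0
  refine ⟨j, ?_⟩
  rw [← hz, ← hv]
  rcases hj with rfl | rfl
  · rfl
  · rw [ofAdd_neg, map_inv, Subgroup.zpowers_inv]

theorem crl_zinj {X : Type} [CommGroup X] (A : Multiplicative (ZMod 3 × ZMod 3) ≃* X) (j j' : Fin 4)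
    (h : Subgroup.zpowers (A (Multiplicative.ofAdd (crl_g j))) =
      Subgroup.zpowers (A (Multiplicative.ofAdd (crl_g j')))) : j = j' := by
  have h1 : A (Multiplicative.ofAdd (crl_g j')) ∈
      Subgroup.zpowers (A (Multiplicative.ofAdd (crl_g j))) := by
    rw [h]; exact Subgroup.mem_zpowers _
  obtain ⟨k, hk⟩ := Subgroup.mem_zpowers_iff.1 h1
  rw [← map_zpow] at hk
  have h2 := A.injective hk
  rw [← ofAdd_zsmul] at h2
  have h3 : k • crl_g j = crl_g j' := Multiplicative.ofAdd.injective h2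
  apply crl_inj j j' (k : ZMod 3)
  rw [← h3]
  ext <;> simp

theorem cr_lines {X₁ X₂ : Type} [CommGroup X₁] [CommGroup X₂]
    (h1 : Nat.card X₁ = 9) (h2 : Nat.card X₂ = 9) (he1 : ∀ x : X₁, x ^ 3 = 1) (he2 : ∀ x : X₂, x ^ 3 = 1)
    {ι : Type} (κ₁ : ι → Subgroup X₁) (κ₂ : ι → Subgroup X₂) (hκ₁ : ∀ i, Nat.card (κ₁ i) = 3)
    (hκ₂ : ∀ i, Nat.card (κ₂ i) = 3) (hκ : ∀ i j, κ₁ i = κ₁ j ↔ κ₂ i = κ₂ j) :
    ∃ θ : X₁ ≃* X₂, ∀ i, (κ₁ i).map θ.toMonoidHom = κ₂ i := by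
  obtain ⟨A₁⟩ := crl_iso h1 he1
  obtain ⟨A₂⟩ := crl_iso h2 he2
  choose c₁ hc₁ using fun i => crl_line he1 A₁ (κ₁ i) (hκ₁ i)
  choose c₂ hc₂ using fun i => crl_line he2 A₂ (κ₂ i) (hκ₂ i)
  have hc : ∀ i j, c₁ i = c₁ j ↔ c₂ i = c₂ j := by
    intro i j
    have e1 : c₁ i = c₁ j ↔ κ₁ i = κ₁ j := by
      rw [hc₁ i, hc₁ j]
      exact ⟨fun h => by rw [h], fun h => crl_zinj A₁ _ _ h⟩
    have e2 : c₂ i = c₂ j ↔ κ₂ i = κ₂ j := by
      rw [hc₂ i, hc₂ j]
      exact ⟨fun h => by rw [h], fun h => crl_zinj A₂ _ _ h⟩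
    rw [e1, e2, hκ]
  -- the permutation
  obtain ⟨σ, hσ⟩ : ∃ σ : Equiv.Perm (Fin 4), ∀ i, σ (c₁ i) = c₂ i := by
    classical
    let p : Fin 4 → Prop := fun a => ∃ i, c₁ i = a
    let q : Fin 4 → Prop := fun a => ∃ i, c₂ i = a
    let f : {a // p a} → {a // q a} := fun a => ⟨c₂ a.2.choose, a.2.choose, rfl⟩
    have hf : Function.Bijective f := by
      constructor
      · intro a b hab
        have h3 : c₂ a.2.choose = c₂ b.2.choose := congrArg Subtype.val hab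
        have h4 := (hc _ _).2 h3
        apply Subtype.ext
        rw [← a.2.choose_spec, ← b.2.choose_spec]
        exact h4
      · rintro ⟨b, i, hi⟩
        refine ⟨⟨c₁ i, i, rfl⟩, ?_⟩
        apply Subtype.ext
        have h5 : ∃ k, c₁ k = c₁ i := ⟨i, rfl⟩
        have h6 : c₂ h5.choose = c₂ i := (hc _ _).1 h5.choose_spec
        exact h6.trans hi
    let e : {a // p a} ≃ {a // q a} := Equiv.ofBijective f hf
    refine ⟨e.extendSubtype, fun i => ?_⟩
    have h7 : p (c₁ i) := ⟨i, rfl⟩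
    rw [Equiv.extendSubtype_apply_of_mem e (c₁ i) h7]
    show c₂ h7.choose = c₂ i
    exact (hc _ _).1 h7.choose_spec
  obtain ⟨ε, hε, he2', he3'⟩ := crl_dec (σ 0) (σ 1) (σ 2) (σ 3)
    (σ.injective.ne (by decide)) (σ.injective.ne (by decide)) (σ.injective.ne (by decide))
    (σ.injective.ne (by decide)) (σ.injective.ne (by decide)) (σ.injective.ne (by decide))
  let T : ZMod 3 × ZMod 3 →+ ZMod 3 × ZMod 3 :=
    { toFun := fun v => v.1 • crl_g (σ 0) + v.2 • ε • crl_g (σ 1)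
      map_zero' := by simp
      map_add' := fun v w => by
        simp only [Prod.fst_add, Prod.snd_add, add_smul]
        abel }
  have hT : ∀ v, T v = v.1 • crl_g (σ 0) + v.2 • ε • crl_g (σ 1) := fun v => rfl
  have hinj : Function.Injective T := by
    rw [injective_iff_map_eq_zero]
    intro v hv
    exact crl_ind (σ 0) (σ 1) (σ.injective.ne (by decide)) ε hε v hv
  have hbij : Function.Bijective T := Finite.injective_iff_bijective.1 hinj
  let E : ZMod 3 × ZMod 3 ≃+ ZMod 3 × ZMod 3 := AddEquiv.ofBijective T hbij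
  have hE : ∀ v, E v = v.1 • crl_g (σ 0) + v.2 • ε • crl_g (σ 1) := fun v => rfl
  let θ : X₁ ≃* X₂ := (A₁.symm.trans (AddEquiv.toMultiplicative E)).trans A₂
  have hθ : ∀ v, θ (A₁ (Multiplicative.ofAdd v)) = A₂ (Multiplicative.ofAdd (E v)) := by
    intro v
    show A₂ (AddEquiv.toMultiplicative E (A₁.symm (A₁ (Multiplicative.ofAdd v)))) = _
    rw [MulEquiv.symm_apply_apply]
    rfl
  have hg : ∀ a : Fin 4, E (crl_g a) = crl_g (σ a) ∨ E (crl_g a) = - crl_g (σ a) := by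
    have hε' : ε = 1 ∨ ε = -1 := crl_eps ε hε
    have g0 : crl_g 0 = (1, 0) := rfl
    have g1 : crl_g 1 = (0, 1) := rfl
    have g2 : crl_g 2 = (1, 1) := rfl
    have g3 : crl_g 3 = (1, 2) := rfl
    rw [Fin.forall_fin_succ, Fin.forall_fin_succ, Fin.forall_fin_two]
    refine ⟨?_, ?_, ?_, ?_⟩
    · left; rw [hE, g0]; simp
    · show E (crl_g 1) = crl_g (σ 1) ∨ E (crl_g 1) = - crl_g (σ 1)
      rw [hE, g1]
      rcases hε' with h | h
      · left; rw [h]; simp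
      · right; rw [h]; simp
    · show E (crl_g 2) = crl_g (σ 2) ∨ E (crl_g 2) = - crl_g (σ 2)
      rw [hE, g2]
      rcases he2' with h | h
      · left; rw [← h]; simp
      · right; rw [← h]; simp
    · show E (crl_g 3) = crl_g (σ 3) ∨ E (crl_g 3) = - crl_g (σ 3)
      rw [hE, g3]
      rcases he3' with h | h
      · left; rw [← h]; simp [mul_smul]
      · right; rw [← h]; simp [mul_smul]
  refine ⟨θ, fun i => ?_⟩
  rw [hc₁ i, hc₂ i, MonoidHom.map_zpowers, ← hσ i]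
  show Subgroup.zpowers (θ (A₁ (Multiplicative.ofAdd (crl_g (c₁ i))))) = _
  rw [hθ]
  rcases hg (c₁ i) with h | h
  · rw [h]
  · rw [h, ofAdd_neg, map_inv, Subgroup.zpowers_inv]
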