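import Mathlib
import Pool.Agent.MPcb9dee.J12
import Pool.Agent.MPcb9dee.J13

theorem crx_P {X E : Type} [CommGroup X] [Field E] (χ χ' : X →* Eˣ) (hk : χ.ker = χ'.ker)
    (h3 : ∀ y, χ y ^ 3 = 1) : (∀ x, χ' x = χ x) ∨ (∀ x, χ' x = (χ x)⁻¹) := by
  have h3' : ∀ y, χ' y ^ 3 = 1 := by
    intro y
    have : y ^ 3 ∈ χ.ker := by rw [MonoidHom.mem_ker, map_pow]; exact h3 y
    rw [hk, MonoidHom.mem_ker, map_pow] at this
    exact this
  by_cases ht : ∀ x, χ x = 1
  · left
    intro x
    have : x ∈ χ.ker := ht x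
    rw [hk] at this
    rw [ht x]
    exact this
  push Not at ht
  obtain ⟨x0, hx0⟩ := ht
  have hx0' : χ' x0 ≠ 1 := by
    intro h
    apply hx0
    have : x0 ∈ χ'.ker := h
    rw [← hk] at this
    exact this
  have quad : ∀ w : Eˣ, w ^ 3 = 1 → w ≠ 1 → (w : E) ^ 2 + w + 1 = 0 := by
    intro w hw hw1
    have h1 : (w : E) ^ 3 = 1 := by rw [← Units.val_pow_eq_pow_val, hw]; rfl
    have h2 : (w : E) - 1 ≠ 0 := by
      intro h
      apply hw1
      ext
      rw [sub_eq_zero.1 h]; rfl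
    have h4 : ((w : E) - 1) * ((w : E) ^ 2 + w + 1) = 0 := by
      have : ((w : E) - 1) * ((w : E) ^ 2 + w + 1) = (w:E)^3 - 1 := by ring
      rw [this, h1, sub_self]
    exact (mul_eq_zero.1 h4).resolve_left h2
  -- two nontrivial cube roots of unity
  have two : ∀ w w' : Eˣ, w ^ 3 = 1 → w ≠ 1 → w' ^ 3 = 1 → w' ≠ 1 → w' = w ∨ w' = w⁻¹ := by
    intro w w' hw hw1 hw' hw1'
    have h1 := quad w hw hw1
    have h2 := quad w' hw' hw1'
    have h4 : ((w' : E) - w) * ((w' : E) + w + 1) = 0 := by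
      have : ((w' : E) - w) * ((w' : E) + w + 1) = ((w' : E) ^ 2 + w' + 1) - ((w : E) ^ 2 + w + 1) := by ring
      rw [this, h1, h2, sub_self]
    rcases mul_eq_zero.1 h4 with h5 | h5
    · left
      ext
      exact sub_eq_zero.1 h5
    · right
      have hinv : w⁻¹ = w ^ 2 := by
        rw [inv_eq_iff_mul_eq_one, ← pow_succ']
        exact hw
      rw [hinv]
      ext
      rw [Units.val_pow_eq_pow_val]
      have h6 : (w' : E) = - w - 1 := by linear_combination h5
      have h7 : (w : E) ^ 2 = - w - 1 := by linear_combination h1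
      rw [h6, h7]
  -- values of χ and χ'
  have val : ∀ y, χ y = 1 ∨ χ y = χ x0 ∨ χ y = (χ x0)⁻¹ := by
    intro y
    by_cases h : χ y = 1
    · exact Or.inl h
    · exact Or.inr (two (χ x0) (χ y) (h3 _) hx0 (h3 _) h)
  have trans1 : ∀ y, χ y = 1 → χ' y = 1 := by
    intro y hy
    have : y ∈ χ.ker := hy
    rw [hk] at this
    exact this
  have trans2 : ∀ y, χ y = χ x0 → χ' y = χ' x0 := by
    intro y hy
    have := trans1 (y * x0⁻¹) (by rw [map_mul, map_inv, hy, mul_inv_cancel])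
    rw [map_mul, map_inv] at this
    exact mul_inv_eq_one.1 this
  have trans3 : ∀ y, χ y = (χ x0)⁻¹ → χ' y = (χ' x0)⁻¹ := by
    intro y hy
    have := trans1 (y * x0) (by rw [map_mul, hy, inv_mul_cancel])
    rw [map_mul] at this
    exact mul_eq_one_iff_eq_inv.1 this
  rcases two (χ x0) (χ' x0) (h3 _) hx0 (h3' _) hx0' with h | h
  · left
    intro y
    rcases val y with hy | hy | hy
    · rw [trans1 y hy, hy]
    · rw [trans2 y hy, hy, h]
    · rw [trans3 y hy, hy, h]
  · right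
    intro y
    rcases val y with hy | hy | hy
    · rw [trans1 y hy, hy, inv_one]
    · rw [trans2 y hy, hy, h]
    · rw [trans3 y hy, hy, h]

theorem crx_card_comap {X₁ X₂ : Type} [CommGroup X₁] [CommGroup X₂] (θ : X₁ ≃* X₂) (K : Subgroup X₂) :
    Nat.card (K.comap θ.toMonoidHom) = Nat.card K := by
  have h1 := Nat.card_congr (θ.subgroupMap (K.comap θ.toMonoidHom)).toEquiv
  have h2 : (K.comap θ.toMonoidHom).map θ.toMonoidHom = K :=
    Subgroup.map_comap_eq_self_of_surjective θ.surjective K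
  rw [h1]
  exact congrArg (fun H : Subgroup X₂ => Nat.card H) h2

theorem crx_ker {X₁ X₂ E : Type} [CommGroup X₁] [CommGroup X₂] [Field E] (θ : X₁ ≃* X₂) (χ : X₂ →* Eˣ) :
    (χ.comp θ.toMonoidHom).ker = χ.ker.comap θ.toMonoidHom := rfl

theorem crx_fin {X₁ X₂ E : Type} [CommGroup X₁] [CommGroup X₂] [Field E] (θ : X₁ ≃* X₂)
    (χ₁ : X₁ →* Eˣ) (χ₂ : X₂ →* Eˣ) (hk : χ₁.ker = χ₂.ker.comap θ.toMonoidHom) (h3 : ∀ x, χ₁ x ^ 3 = 1) :
    (∀ x, χ₂ (θ x) = χ₁ x) ∨ (∀ x, χ₂ (θ x) = (χ₁ x)⁻¹) :=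
  crx_P χ₁ (χ₂.comp θ.toMonoidHom) (by rw [crx_ker]; exact hk) h3

theorem crx_cyc {X : Type} [CommGroup X] [Finite X] (h : Nat.card X = 9) (hn : ¬ ∀ x : X, x ^ 3 = 1) :
    IsCyclic X := by
  push Not at hn
  obtain ⟨x, hx⟩ := hn
  apply isCyclic_of_orderOf_eq_card x
  have h1 : orderOf x ∣ 3 ^ 2 := by
    have := orderOf_dvd_natCard x
    rw [h] at this
    exact this
  obtain ⟨k, hk, hk'⟩ := (Nat.dvd_prime_pow Nat.prime_three).1 h1
  have : k = 2 := by
    by_contra hne
    have hk1 : k ≤ 1 := by omega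
    apply hx
    have : orderOf x ∣ 3 := by
      rw [hk']
      calc 3 ^ k ∣ 3 ^ 1 := pow_dvd_pow 3 hk1
        _ = 3 := by norm_num
    exact orderOf_dvd_iff_pow_eq_one.1 this
  rw [hk', this, h]; norm_num

theorem crx_cyc_tor {X : Type} [CommGroup X] [Finite X] (h : Nat.card X = 9) (hc : IsCyclic X) :
    Nat.card {x : X // x ^ 3 = 1} = 3 := by
  have := IsCyclic.card_powMonoidHom_ker X 3
  rw [h] at this
  exact this

/-- in a cyclic group of order 9, a subgroup of order 3 is the 3-torsion -/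
theorem crx_sub {X : Type} [CommGroup X] [Finite X] (h : Nat.card X = 9) (hc : IsCyclic X)
    (K : Subgroup X) (hK : Nat.card K = 3) : K = (powMonoidHom 3 : X →* X).ker := by
  have h1 : K ≤ (powMonoidHom 3 : X →* X).ker := by
    intro x hx
    rw [MonoidHom.mem_ker, powMonoidHom_apply]
    have h2 : (⟨x, hx⟩ : K) ^ Nat.card K = 1 := pow_card_eq_one'
    rw [hK] at h2
    exact congrArg Subtype.val h2
  apply Subgroup.eq_of_le_of_card_ge h1
  have := IsCyclic.card_powMonoidHom_ker X 3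
  rw [this, h, hK]
  decide

theorem crx_three {X : Type} [CommGroup X] [Finite X] (h : Nat.card X = 9) (K : Subgroup X) (hK : K ≠ ⊥) :
    Nat.card K = 3 ∨ K = ⊤ := by
  have h1 : Nat.card K ∣ 3 ^ 2 := by
    have := Subgroup.card_subgroup_dvd_card K
    rw [h] at this
    exact this
  obtain ⟨k, hk, hk'⟩ := (Nat.dvd_prime_pow Nat.prime_three).1 h1
  interval_cases k
  · exact absurd (Subgroup.eq_bot_of_card_eq K (by simpa using hk')) hK
  · left; simpa using hk'
  · right
    apply Subgroup.eq_top_of_card_eq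
    rw [hk', h]; norm_num

/-- TARGET -/
theorem cr_match3 {X₁ X₂ : Type} [CommGroup X₁] [CommGroup X₂] [Finite X₁] [Finite X₂]
    (h1 : Nat.card X₁ ∣ 9) (hcard : Nat.card X₁ = Nat.card X₂)
    (htor : Nat.card {x : X₁ // x ^ 3 = 1} = Nat.card {x : X₂ // x ^ 3 = 1})
    {ι : Type} (E : ι → Type) [∀ i, Field (E i)] [∀ i, Finite (E i)]
    (χ₁ : ∀ i, X₁ →* (E i)ˣ) (χ₂ : ∀ i, X₂ →* (E i)ˣ)
    (hker : ∀ i, Nat.card (χ₁ i).ker = Nat.card (χ₂ i).ker)
    (hker2 : ∀ i j, Nat.card ((χ₁ i).ker ⊓ (χ₁ j).ker : Subgroup X₁) =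
      Nat.card ((χ₂ i).ker ⊓ (χ₂ j).ker : Subgroup X₂))
    (h9 : ∀ i j, Nat.card X₁ = 9 → (χ₁ i).ker = ⊥ → (χ₁ j).ker = ⊥ → i = j) :
    ∃ θ : X₁ ≃* X₂, ∀ i, (∀ x, χ₂ i (θ x) = χ₁ i x) ∨ (∀ x, χ₂ i (θ x) = (χ₁ i x)⁻¹) := by
  have h1' : Nat.card X₁ ∣ 3 ^ 2 := h1
  obtain ⟨k, hk, hk'⟩ := (Nat.dvd_prime_pow Nat.prime_three).1 h1'
  interval_cases k
  · -- trivial
    have hX₁ : Nat.card X₁ = 1 := by simpa using hk'
    have hX₂ : Nat.card X₂ = 1 := by rw [← hcard]; exact hX₁
    haveI : Subsingleton X₁ := (Nat.card_eq_one_iff_unique.1 hX₁).1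
    haveI : Subsingleton X₂ := (Nat.card_eq_one_iff_unique.1 hX₂).1
    haveI : Unique X₁ := ⟨⟨1⟩, fun a => Subsingleton.elim _ _⟩
    haveI : Unique X₂ := ⟨⟨1⟩, fun a => Subsingleton.elim _ _⟩
    refine ⟨MulEquiv.ofUnique, fun i => Or.inl fun x => ?_⟩
    rw [Subsingleton.elim x 1, map_one, map_one, map_one]
  · -- order 3
    have hX₁ : Nat.card X₁ = 3 := by simpa using hk'
    have hX₂ : Nat.card X₂ = 3 := by rw [← hcard]; exact hX₁
    haveI : Fact (Nat.Prime 3) := ⟨Nat.prime_three⟩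
    let θ : X₁ ≃* X₂ := mulEquivOfPrimeCardEq (p := 3) hX₁ hX₂
    refine ⟨θ, fun i => ?_⟩
    apply crx_fin
    · have hc := crx_card_comap θ (χ₂ i).ker
      rw [← hker i] at hc
      have h2 : Nat.card (χ₁ i).ker ∣ 3 := by
        have := Subgroup.card_subgroup_dvd_card (χ₁ i).ker
        rwa [hX₁] at this
      rcases (Nat.dvd_prime Nat.prime_three).1 h2 with h3 | h3
      · rw [Subgroup.eq_bot_of_card_eq _ h3, Subgroup.eq_bot_of_card_eq _ (hc.trans h3)]
      · rw [Subgroup.eq_top_of_card_eq _ (h3.trans hX₁.symm),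
          Subgroup.eq_top_of_card_eq _ ((hc.trans h3).trans hX₁.symm)]
    · intro x
      rw [← map_pow]
      have : x ^ Nat.card X₁ = 1 := pow_card_eq_one'
      rw [hX₁] at this
      rw [this, map_one]
  · have hX₁ : Nat.card X₁ = 9 := by simpa using hk'
    have hX₂ : Nat.card X₂ = 9 := by rw [← hcard]; exact hX₁
    by_cases hel : ∀ x : X₁, x ^ 3 = 1
    · -- elementary
      have hel2 : ∀ x : X₂, x ^ 3 = 1 := by
        by_contra hcon
        have hcy := crx_cyc hX₂ hcon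
        have h2 := crx_cyc_tor hX₂ hcy
        rw [← htor] at h2
        have h3 : Nat.card {x : X₁ // x ^ 3 = 1} = Nat.card X₁ :=
          Nat.card_congr (Equiv.subtypeUnivEquiv hel)
        rw [h2, hX₁] at h3
        omega
      have hnb : ∀ i, (χ₁ i).ker ≠ ⊥ := by
        intro i hbot
        have hinj : Function.Injective (χ₁ i) := (MonoidHom.ker_eq_bot_iff _).1 hbot
        have hcy : IsCyclic X₁ := isCyclic_of_injective (χ₁ i) hinj
        have h2 := crx_cyc_tor hX₁ hcy
        have h3 : Nat.card {x : X₁ // x ^ 3 = 1} = Nat.card X₁ :=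
          Nat.card_congr (Equiv.subtypeUnivEquiv hel)
        rw [h2, hX₁] at h3
        omega
      have key : ∀ i j, Nat.card (χ₁ i).ker = 3 → Nat.card (χ₁ j).ker = 3 →
          ((χ₁ i).ker = (χ₁ j).ker ↔ Nat.card ((χ₁ i).ker ⊓ (χ₁ j).ker : Subgroup X₁) = 3) := by
        intro i j hi hj
        constructor
        · intro h; rw [← h, inf_idem]; exact hi
        · intro h
          have e1 : (χ₁ i).ker ⊓ (χ₁ j).ker = (χ₁ i).ker :=
            Subgroup.eq_of_le_of_card_ge inf_le_left (by rw [h, hi])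
          have e2 : (χ₁ i).ker ⊓ (χ₁ j).ker = (χ₁ j).ker :=
            Subgroup.eq_of_le_of_card_ge inf_le_right (by rw [h, hj])
          rw [← e1, e2]
      have key2 : ∀ i j, Nat.card (χ₂ i).ker = 3 → Nat.card (χ₂ j).ker = 3 →
          ((χ₂ i).ker = (χ₂ j).ker ↔ Nat.card ((χ₂ i).ker ⊓ (χ₂ j).ker : Subgroup X₂) = 3) := by
        intro i j hi hj
        constructor
        · intro h; rw [← h, inf_idem]; exact hi
        · intro h
          have e1 : (χ₂ i).ker ⊓ (χ₂ j).ker = (χ₂ i).ker :=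
            Subgroup.eq_of_le_of_card_ge inf_le_left (by rw [h, hi])
          have e2 : (χ₂ i).ker ⊓ (χ₂ j).ker = (χ₂ j).ker :=
            Subgroup.eq_of_le_of_card_ge inf_le_right (by rw [h, hj])
          rw [← e1, e2]
      obtain ⟨θ, hθ⟩ := cr_lines hX₁ hX₂ hel hel2
        (fun i : {i // Nat.card (χ₁ i).ker = 3} => (χ₁ i.1).ker)
        (fun i : {i // Nat.card (χ₁ i).ker = 3} => (χ₂ i.1).ker)
        (fun i => i.2) (fun i => by rw [← hker]; exact i.2)
        (fun i j => by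
          rw [key _ _ i.2 j.2, key2 _ _ (by rw [← hker]; exact i.2) (by rw [← hker]; exact j.2), hker2])
      refine ⟨θ, fun i => crx_fin θ _ _ ?_ (fun x => by rw [← map_pow, hel x, map_one])⟩
      rcases crx_three hX₁ (χ₁ i).ker (hnb i) with h3 | h3
      · have := hθ ⟨i, h3⟩
        simp only at this
        rw [← this]
        exact (Subgroup.comap_map_eq_self_of_injective θ.injective _).symm
      · have hc := crx_card_comap θ (χ₂ i).ker
        rw [← hker i, h3] at hc
        rw [h3]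
        symm
        apply Subgroup.eq_top_of_card_eq
        rw [hc]
        exact Nat.card_congr (Subgroup.topEquiv (G := X₁)).toEquiv
    · -- cyclic
      have hc1 : IsCyclic X₁ := crx_cyc hX₁ hel
      have hc2 : IsCyclic X₂ := by
        apply crx_cyc hX₂
        intro hel2
        have h2 := crx_cyc_tor hX₁ hc1
        rw [htor] at h2
        have h3 : Nat.card {x : X₂ // x ^ 3 = 1} = Nat.card X₂ :=
          Nat.card_congr (Equiv.subtypeUnivEquiv hel2)
        rw [h2, hX₂] at h3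
        omega
      have gen : ∀ (θ : X₁ ≃* X₂) (i : ι), (χ₁ i).ker ≠ ⊥ →
          ((∀ x, χ₂ i (θ x) = χ₁ i x) ∨ (∀ x, χ₂ i (θ x) = (χ₁ i x)⁻¹)) := by
        intro θ i hne
        have hc := crx_card_comap θ (χ₂ i).ker
        rw [← hker i] at hc
        rcases crx_three hX₁ (χ₁ i).ker hne with h3 | h3
        · apply crx_fin
          · rw [crx_sub hX₁ hc1 _ h3, crx_sub hX₁ hc1 _ (hc.trans h3)]
          · intro x
            rw [← map_pow]
            have hidx : (χ₁ i).ker.index = 3 := by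
              have := Subgroup.card_mul_index (χ₁ i).ker
              rw [h3, hX₁] at this
              omega
            have := Subgroup.pow_index_mem (χ₁ i).ker x
            rw [hidx] at this
            exact this
        · apply crx_fin
          · rw [h3] at hc ⊢
            symm
            apply Subgroup.eq_top_of_card_eq
            rw [hc]
            exact Nat.card_congr (Subgroup.topEquiv (G := X₁)).toEquiv
          · intro x
            have : x ∈ (χ₁ i).ker := by rw [h3]; trivial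
            rw [MonoidHom.mem_ker.1 this, one_pow]
      by_cases hex : ∃ i0, (χ₁ i0).ker = ⊥
      · obtain ⟨i0, hi0⟩ := hex
        obtain ⟨θ, hθ⟩ := cr_match Nat.prime_three h1' hcard htor (E i0) (χ₁ i0) (χ₂ i0) (hker i0)
        refine ⟨θ, fun i => ?_⟩
        by_cases hi : (χ₁ i).ker = ⊥
        · have := h9 i i0 hX₁ hi hi0
          subst this
          exact Or.inl hθ
        · exact gen θ i hi
      · push Not at hex
        exact ⟨mulEquivOfCyclicCardEq hcard, fun i => gen _ i (hex i)⟩
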