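import Mathlib
import Pool.Agent.MPcb9dee.J14

theorem cr_match3_fields_aux1 {X₁ X₂ : Type} [CommGroup X₁] [CommGroup X₂] [Finite X₁]
    (h1 : Nat.card X₁ ∣ 9) (θ : X₁ ≃* X₂) (E : Type) [Field E] [Finite E] (p : ℕ) (hp : p.Prime)
    (hE : Nat.card E = p ^ 2) (h3 : 3 ∣ Nat.card X₁ → ¬ 3 ∣ p - 1)
    (χ₁ : X₁ →* Eˣ) (χ₂ : X₂ →* Eˣ) (hm : ∀ x, χ₂ (θ x) = (χ₁ x)⁻¹) :
    ∃ σ : E ≃+* E, ∀ x, σ ((χ₂ (θ x) : Eˣ) : E) = ((χ₁ x : Eˣ) : E) := by
  haveI : Fact p.Prime := ⟨hp⟩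
  haveI : Fintype E := Fintype.ofFinite E
  haveI : CharP E p := charP_of_card_eq_prime_pow (f := 2) (by rw [← Nat.card_eq_fintype_card, hE])
  refine ⟨RingEquiv.ofBijective (frobenius E p)
    ⟨frobenius_inj E p, Finite.surjective_of_injective (frobenius_inj E p)⟩, fun x => ?_⟩
  have key : (χ₁ x) ^ (p + 1) = 1 := by
    have hd9 : orderOf (χ₁ x) ∣ Nat.card X₁ := by
      apply orderOf_dvd_of_pow_eq_one
      rw [← map_pow, pow_card_eq_one', map_one]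
    obtain ⟨k, hk, hk'⟩ := (Nat.dvd_prime_pow Nat.prime_three).1 (show Nat.card X₁ ∣ 3 ^ 2 from h1)
    rcases Nat.eq_zero_or_pos k with hk0 | hk0
    · rw [hk0, pow_zero] at hk'
      rw [hk', Nat.dvd_one, orderOf_eq_one_iff] at hd9
      rw [hd9, one_pow]
    · have h3X : 3 ∣ Nat.card X₁ := by
        rw [hk']
        exact dvd_pow_self 3 (by omega)
      have hn := h3 h3X
      have hco : Nat.Coprime (orderOf (χ₁ x)) (p - 1) := by
        refine Nat.Coprime.coprime_dvd_left (hd9.trans (show Nat.card X₁ ∣ 3 ^ 2 from h1)) ?_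
        exact Nat.Coprime.pow_left 2 ((Nat.Prime.coprime_iff_not_dvd Nat.prime_three).2 hn)
      have hdu : orderOf (χ₁ x) ∣ (p + 1) * (p - 1) := by
        have h4 : orderOf (χ₁ x) ∣ Nat.card Eˣ := orderOf_dvd_natCard _
        rw [Nat.card_units, hE] at h4
        have h5 : p ^ 2 - 1 = (p + 1) * (p - 1) := by
          have := Nat.sq_sub_sq p 1
          simpa using this
        rwa [h5] at h4
      exact orderOf_dvd_iff_pow_eq_one.1 (hco.dvd_of_dvd_mul_right hdu)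
  rw [hm]
  show (((χ₁ x)⁻¹ : Eˣ) : E) ^ p = _
  rw [← Units.val_pow_eq_pow_val]
  congr 1
  rw [inv_pow, inv_eq_iff_mul_eq_one, ← pow_succ]
  exact key

theorem cr_match3_fields_aux2 {X₁ : Type} [CommGroup X₁] [Finite X₁]
    (h1 : Nat.card X₁ ∣ 9) (E : Type) [Field E] [Finite E]
    (χ₁ : X₁ →* Eˣ) (x : X₁) (hx : χ₁ x ≠ 1) : 3 ∣ Nat.card X₁ ∧ 3 ∣ Nat.card E - 1 := by
  have hd9 : orderOf (χ₁ x) ∣ Nat.card X₁ := by
    apply orderOf_dvd_of_pow_eq_one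
    rw [← map_pow, pow_card_eq_one', map_one]
  obtain ⟨k, hk, hk'⟩ := (Nat.dvd_prime_pow Nat.prime_three).1
    (show orderOf (χ₁ x) ∣ 3 ^ 2 from hd9.trans h1)
  have hk0 : k ≠ 0 := by
    intro h
    rw [h, pow_zero, orderOf_eq_one_iff] at hk'
    exact hx hk'
  have h3 : 3 ∣ orderOf (χ₁ x) := by
    rw [hk']
    exact dvd_pow_self 3 hk0
  refine ⟨h3.trans hd9, ?_⟩
  rw [← Nat.card_units]
  exact h3.trans (orderOf_dvd_natCard _)

/-- TARGET 1: the 3-part, with field automorphisms -/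
theorem cr_match3_fields {X₁ X₂ : Type} [CommGroup X₁] [CommGroup X₂] [Finite X₁] [Finite X₂]
    (h1 : Nat.card X₁ ∣ 9) (hcard : Nat.card X₁ = Nat.card X₂)
    (htor : Nat.card {x : X₁ // x ^ 3 = 1} = Nat.card {x : X₂ // x ^ 3 = 1})
    {ι : Type} (E : ι → Type) [∀ i, Field (E i)] [∀ i, Finite (E i)]
    (p : ι → ℕ) (hp : ∀ i, (p i).Prime)
    (hE : ∀ i, Nat.card (E i) = p i ∨
      (Nat.card (E i) = p i ^ 2 ∧ (3 ∣ Nat.card X₁ → ¬ 3 ∣ p i - 1)))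
    (χ₁ : ∀ i, X₁ →* (E i)ˣ) (χ₂ : ∀ i, X₂ →* (E i)ˣ)
    (hker : ∀ i, Nat.card (χ₁ i).ker = Nat.card (χ₂ i).ker)
    (hker2 : ∀ i j, Nat.card ((χ₁ i).ker ⊓ (χ₁ j).ker : Subgroup X₁) =
      Nat.card ((χ₂ i).ker ⊓ (χ₂ j).ker : Subgroup X₂))
    (h3 : 3 ∣ Nat.card X₁ → ∀ i j, Nat.card (E i) = p i → Nat.card (E j) = p j →
      3 ∣ p i - 1 → 3 ∣ p j - 1 → i = j)
    (h9 : 9 ∣ Nat.card X₁ → ∀ i j, 9 ∣ Nat.card (E i) - 1 → 9 ∣ Nat.card (E j) - 1 → i = j) :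
    ∃ (θ : X₁ ≃* X₂) (σ : ∀ i, E i ≃+* E i),
      ∀ i x, σ i ((χ₂ i (θ x) : (E i)ˣ) : E i) = ((χ₁ i x : (E i)ˣ) : E i) := by
  obtain ⟨θ0, hθ0⟩ := cr_match3 h1 hcard htor E χ₁ χ₂ hker hker2 (by
    intro i j hc hi hj
    have aux : ∀ l, (χ₁ l).ker = ⊥ → 9 ∣ Nat.card (E l) - 1 := by
      intro l hl
      have hinj : Function.Injective (χ₁ l) := (MonoidHom.ker_eq_bot_iff _).1 hl
      have := Subgroup.card_dvd_of_injective (χ₁ l) hinj
      rw [Nat.card_units, hc] at this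
      exact this
    exact h9 (by rw [hc]) i j (aux i hi) (aux j hj))
  by_cases hbad : ∃ b, Nat.card (E b) = p b ∧ (∃ x, χ₁ b x ≠ 1) ∧ ¬ (∀ x, χ₂ b (θ0 x) = χ₁ b x)
  · obtain ⟨b, hb1, ⟨xb, hxb⟩, hb3⟩ := hbad
    obtain ⟨hX3, hb4⟩ := cr_match3_fields_aux2 h1 (E b) (χ₁ b) xb hxb
    have main : ∀ i, ∃ σ : E i ≃+* E i, ∀ x,
        σ ((χ₂ i (((MulEquiv.inv X₁).trans θ0) x) : (E i)ˣ) : E i) =
          ((χ₁ i x : (E i)ˣ) : E i) := by
      intro i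
      by_cases hmin : ∀ x, χ₂ i (θ0 x) = (χ₁ i x)⁻¹
      · refine ⟨RingEquiv.refl _, fun x => ?_⟩
        show ((χ₂ i (θ0 x⁻¹) : (E i)ˣ) : E i) = _
        rw [hmin, map_inv, inv_inv]
      · have hpl : ∀ x, χ₂ i (θ0 x) = χ₁ i x := (hθ0 i).resolve_right hmin
        rcases hE i with hE1 | ⟨hE2, hE3⟩
        · exfalso
          by_cases htriv : ∀ x, χ₁ i x = 1
          · exact hmin (fun x => by rw [hpl, htriv, inv_one])
          · push Not at htriv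
            obtain ⟨xi, hxi⟩ := htriv
            obtain ⟨-, hi4⟩ := cr_match3_fields_aux2 h1 (E i) (χ₁ i) xi hxi
            rw [hE1] at hi4
            rw [hb1] at hb4
            have hib := h3 hX3 i b hE1 hb1 hi4 hb4
            subst hib
            exact hb3 hpl
        · refine cr_match3_fields_aux1 h1 ((MulEquiv.inv X₁).trans θ0) (E i) (p i) (hp i) hE2 hE3
            (χ₁ i) (χ₂ i) (fun x => ?_)
          show χ₂ i (θ0 x⁻¹) = _
          rw [hpl, map_inv]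
    choose σ hσ using main
    exact ⟨(MulEquiv.inv X₁).trans θ0, σ, hσ⟩
  · push Not at hbad
    have main : ∀ i, ∃ σ : E i ≃+* E i, ∀ x,
        σ ((χ₂ i (θ0 x) : (E i)ˣ) : E i) = ((χ₁ i x : (E i)ˣ) : E i) := by
      intro i
      by_cases hpl : ∀ x, χ₂ i (θ0 x) = χ₁ i x
      · refine ⟨RingEquiv.refl _, fun x => ?_⟩
        rw [hpl]
        rfl
      · have hmin : ∀ x, χ₂ i (θ0 x) = (χ₁ i x)⁻¹ := (hθ0 i).resolve_left hpl
        rcases hE i with hE1 | ⟨hE2, hE3⟩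
        · exfalso
          by_cases htriv : ∀ x, χ₁ i x = 1
          · exact hpl (fun x => by rw [hmin, htriv, inv_one])
          · push Not at htriv
            exact hpl (hbad i hE1 htriv)
        · exact cr_match3_fields_aux1 h1 θ0 (E i) (p i) (hp i) hE2 hE3 (χ₁ i) (χ₂ i) hmin
    choose σ hσ using main
    exact ⟨θ0, σ, hσ⟩
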