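import Mathlib
import Pool.Agent.MPcb9dee.J25a
import Pool.Agent.MPcb9dee.J11
import Pool.Agent.MPcb9dee.J12

theorem cr_match_all_pow {H : Type} [CommGroup H] [Finite H] (k : ℕ) (h : H) :
    h ^ k = 1 ↔ h ^ (Nat.gcd k (Nat.card H)) = 1 := by
  constructor
  · intro h1
    exact pow_gcd_eq_one.2 ⟨h1, pow_card_eq_one'⟩
  · intro h1
    exact orderOf_dvd_iff_pow_eq_one.1 ((orderOf_dvd_iff_pow_eq_one.2 h1).trans (Nat.gcd_dvd_left _ _))

theorem cr_match_all_card {H₁ H₂ : Type} [CommGroup H₁] [CommGroup H₂] [Finite H₁] [Finite H₂]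
    (hcard : Nat.card H₁ = Nat.card H₂) (P : H₁ → Prop) (Q : H₂ → Prop)
    (h : ∀ d, d ∣ Nat.card H₁ → Nat.card {h : H₁ // h ^ d = 1 ∧ P h} =
      Nat.card {h : H₂ // h ^ d = 1 ∧ Q h}) (k : ℕ) :
    Nat.card {h : H₁ // h ^ k = 1 ∧ P h} = Nat.card {h : H₂ // h ^ k = 1 ∧ Q h} := by
  have e1 : Nat.card {h : H₁ // h ^ k = 1 ∧ P h} =
      Nat.card {h : H₁ // h ^ (Nat.gcd k (Nat.card H₁)) = 1 ∧ P h} :=
    Nat.card_congr (Equiv.subtypeEquivRight (fun h => by rw [cr_match_all_pow k h]))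
  have e2 : Nat.card {h : H₂ // h ^ k = 1 ∧ Q h} =
      Nat.card {h : H₂ // h ^ (Nat.gcd k (Nat.card H₂)) = 1 ∧ Q h} :=
    Nat.card_congr (Equiv.subtypeEquivRight (fun h => by rw [cr_match_all_pow k h]))
  rw [e1, e2, ← hcard]
  exact h _ (Nat.gcd_dvd_right _ _)

theorem cr_match_all_sub {H : Type} [CommGroup H] (k : ℕ) (P : H → Prop) :
    Nat.card {x : (powMonoidHom k : H →* H).ker // P x} =
      Nat.card {h : H // h ^ k = 1 ∧ P h} := by
  refine Nat.card_congr ?_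
  refine (Equiv.subtypeSubtypeEquivSubtypeInter (fun h => h ∈ (powMonoidHom k : H →* H).ker) P).trans ?_
  exact Equiv.subtypeEquivRight (fun h => by rw [MonoidHom.mem_ker]; rfl)

theorem cr_match_all_dvd {H : Type} [CommGroup H] [Finite H]
    (hcf : ∀ p, p.Prime → ¬ p ^ 3 ∣ Nat.card H) (r : ℕ) (hr : r.Prime) :
    Nat.card (powMonoidHom (r ^ 2) : H →* H).ker ∣ r ^ 2 := by
  haveI : Fact r.Prime := ⟨hr⟩
  have h1 : IsPGroup r (powMonoidHom (r ^ 2) : H →* H).ker := by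
    intro x
    refine ⟨2, ?_⟩
    apply Subtype.ext
    have := x.2
    rw [MonoidHom.mem_ker] at this
    exact this
  obtain ⟨k, hk⟩ := IsPGroup.iff_card.1 h1
  rw [hk]
  apply pow_dvd_pow
  by_contra hcon
  apply hcf r hr
  refine dvd_trans ?_ (Subgroup.card_subgroup_dvd_card (powMonoidHom (r ^ 2) : H →* H).ker)
  rw [hk]
  exact pow_dvd_pow _ (by omega)

theorem cr_match_all_nontriv {H E : Type} [CommGroup H] [Finite H] [Field E] [Finite E]
    (r : ℕ) (hr : r.Prime) (χ : H →* Eˣ) (x : H) (hx : x ^ (r ^ 2) = 1) (hχ : χ x ≠ 1) :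
    r ∣ Nat.card E - 1 ∧ r ∣ Nat.card H := by
  have h1 : orderOf (χ x) ∣ r ^ 2 := by
    apply orderOf_dvd_of_pow_eq_one
    rw [← map_pow, hx, map_one]
  obtain ⟨k, hk, hk2⟩ := (Nat.dvd_prime_pow hr).1 h1
  have h2 : r ∣ orderOf (χ x) := by
    rw [hk2]
    apply dvd_pow_self
    rintro rfl
    rw [pow_zero, orderOf_eq_one_iff] at hk2
    exact hχ hk2
  constructor
  · have h3 : Nat.card Eˣ = Nat.card E - 1 := by
      rw [Nat.card_units]
    rw [← h3]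
    exact h2.trans (orderOf_dvd_natCard _)
  · exact h2.trans ((orderOf_map_dvd χ x).trans (orderOf_dvd_natCard _))

/-- TARGET: matching all the data -/
theorem cr_match_all {ι : Type} [Finite ι] (E : ι → Type) [∀ i, Field (E i)] [∀ i, Finite (E i)]
    {H₁ H₂ : Type} [CommGroup H₁] [CommGroup H₂] [Finite H₁] [Finite H₂]
    (hodd : Odd (Nat.card H₁)) (hcf : ∀ p, p.Prime → ¬ p ^ 3 ∣ Nat.card H₁)
    (hcard : Nat.card H₁ = Nat.card H₂)
    (p : ι → ℕ) (hp : ∀ i, (p i).Prime)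
    (hE : ∀ i, Nat.card (E i) = p i ∨
      (Nat.card (E i) = p i ^ 2 ∧ ∀ r, r.Prime → r ∣ Nat.card H₁ → ¬ r ∣ p i - 1))
    (χ₁ : ∀ i, H₁ →* (E i)ˣ) (χ₂ : ∀ i, H₂ →* (E i)ˣ)
    (hc0 : ∀ d, d ∣ Nat.card H₁ → Nat.card {h : H₁ // h ^ d = 1} = Nat.card {h : H₂ // h ^ d = 1})
    (hc1 : ∀ d, d ∣ Nat.card H₁ → ∀ i, Nat.card {h : H₁ // h ^ d = 1 ∧ χ₁ i h = 1} =
      Nat.card {h : H₂ // h ^ d = 1 ∧ χ₂ i h = 1})
    (hc2 : ∀ d, d ∣ Nat.card H₁ → ∀ i j, Nat.card {h : H₁ // h ^ d = 1 ∧ χ₁ i h = 1 ∧ χ₁ j h = 1} =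
      Nat.card {h : H₂ // h ^ d = 1 ∧ χ₂ i h = 1 ∧ χ₂ j h = 1})
    (h5 : ∀ r, r.Prime → 5 ≤ r → r ∣ Nat.card H₁ → ∀ i j, r ∣ Nat.card (E i) - 1 →
      r ∣ Nat.card (E j) - 1 → i = j)
    (h3 : 3 ∣ Nat.card H₁ → ∀ i j, Nat.card (E i) = p i → Nat.card (E j) = p j →
      3 ∣ p i - 1 → 3 ∣ p j - 1 → i = j)
    (h9 : 9 ∣ Nat.card H₁ → ∀ i j, 9 ∣ Nat.card (E i) - 1 → 9 ∣ Nat.card (E j) - 1 → i = j) :
    ∃ (θ : H₁ ≃* H₂) (σ : ∀ i, E i ≃+* E i),
      ∀ i h, σ i ((χ₂ i (θ h) : (E i)ˣ) : E i) = ((χ₁ i h : (E i)ˣ) : E i) := by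
  classical
  have hcf2 : ∀ p, p.Prime → ¬ p ^ 3 ∣ Nat.card H₂ := by rw [← hcard]; exact hcf
  have k0 : ∀ k, Nat.card {h : H₁ // h ^ k = 1 ∧ True} = Nat.card {h : H₂ // h ^ k = 1 ∧ True} :=
    cr_match_all_card hcard _ _ (fun d hd => by simpa using hc0 d hd)
  have k1 : ∀ i k, Nat.card {h : H₁ // h ^ k = 1 ∧ χ₁ i h = 1} =
      Nat.card {h : H₂ // h ^ k = 1 ∧ χ₂ i h = 1} :=
    fun i => cr_match_all_card hcard _ _ (fun d hd => hc1 d hd i)
  have k2 : ∀ i j k, Nat.card {h : H₁ // h ^ k = 1 ∧ χ₁ i h = 1 ∧ χ₁ j h = 1} =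
      Nat.card {h : H₂ // h ^ k = 1 ∧ χ₂ i h = 1 ∧ χ₂ j h = 1} :=
    fun i j => cr_match_all_card hcard _ _ (fun d hd => hc2 d hd i j)
  have cX : ∀ r : ℕ, Nat.card (powMonoidHom (r ^ 2) : H₁ →* H₁).ker =
      Nat.card (powMonoidHom (r ^ 2) : H₂ →* H₂).ker := by
    intro r
    have h1 := k0 (r ^ 2)
    rw [← cr_match_all_sub (r ^ 2) (fun _ : H₁ => True),
      ← cr_match_all_sub (r ^ 2) (fun _ : H₂ => True)] at h1
    simpa using h1
  have cT : ∀ r : ℕ, r.Prime →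
      Nat.card {x : (powMonoidHom (r ^ 2) : H₁ →* H₁).ker // x ^ r = 1} =
      Nat.card {x : (powMonoidHom (r ^ 2) : H₂ →* H₂).ker // x ^ r = 1} := by
    intro r hr
    have gen : ∀ (H : Type) [CommGroup H],
        Nat.card {x : (powMonoidHom (r ^ 2) : H →* H).ker // x ^ r = 1} =
        Nat.card {h : H // h ^ r = 1 ∧ True} := by
      intro H _
      have h1 : Nat.card {x : (powMonoidHom (r ^ 2) : H →* H).ker // x ^ r = 1} =
          Nat.card {x : (powMonoidHom (r ^ 2) : H →* H).ker // (x : H) ^ r = 1} :=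
        Nat.card_congr (Equiv.subtypeEquivRight (fun x => by
          rw [Subtype.ext_iff]; rfl))
      rw [h1, cr_match_all_sub (r ^ 2) (fun h : H => h ^ r = 1)]
      refine Nat.card_congr (Equiv.subtypeEquivRight (fun x => ?_))
      constructor
      · rintro ⟨_, h2⟩
        exact ⟨h2, trivial⟩
      · rintro ⟨h2, _⟩
        refine ⟨?_, h2⟩
        rw [pow_two, pow_mul, h2, one_pow]
    rw [gen H₁, gen H₂]
    exact k0 r
  have cK : ∀ (r : ℕ) i,
      Nat.card ((χ₁ i).comp (powMonoidHom (r ^ 2) : H₁ →* H₁).ker.subtype).ker =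
      Nat.card ((χ₂ i).comp (powMonoidHom (r ^ 2) : H₂ →* H₂).ker.subtype).ker := by
    intro r i
    have h1 := k1 i (r ^ 2)
    rw [← cr_match_all_sub (r ^ 2) (fun h : H₁ => χ₁ i h = 1),
      ← cr_match_all_sub (r ^ 2) (fun h : H₂ => χ₂ i h = 1)] at h1
    exact h1
  have cK2 : ∀ (r : ℕ) i j,
      Nat.card (((χ₁ i).comp (powMonoidHom (r ^ 2) : H₁ →* H₁).ker.subtype).ker ⊓
        ((χ₁ j).comp (powMonoidHom (r ^ 2) : H₁ →* H₁).ker.subtype).ker :
          Subgroup (powMonoidHom (r ^ 2) : H₁ →* H₁).ker) =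
      Nat.card (((χ₂ i).comp (powMonoidHom (r ^ 2) : H₂ →* H₂).ker.subtype).ker ⊓
        ((χ₂ j).comp (powMonoidHom (r ^ 2) : H₂ →* H₂).ker.subtype).ker :
          Subgroup (powMonoidHom (r ^ 2) : H₂ →* H₂).ker) := by
    intro r i j
    have h1 := k2 i j (r ^ 2)
    rw [← cr_match_all_sub (r ^ 2) (fun h : H₁ => χ₁ i h = 1 ∧ χ₁ j h = 1),
      ← cr_match_all_sub (r ^ 2) (fun h : H₂ => χ₂ i h = 1 ∧ χ₂ j h = 1)] at h1
    exact h1
  have hdX : ∀ r : ℕ, Nat.card (powMonoidHom (r ^ 2) : H₁ →* H₁).ker ∣ Nat.card H₁ :=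
    fun r => Subgroup.card_subgroup_dvd_card _
  -- the prime 3
  obtain ⟨θ3, σ, hσ⟩ := cr_match3_fields
    (X₁ := (powMonoidHom (3 ^ 2) : H₁ →* H₁).ker) (X₂ := (powMonoidHom (3 ^ 2) : H₂ →* H₂).ker)
    (cr_match_all_dvd hcf 3 Nat.prime_three) (cX 3) (cT 3 Nat.prime_three) E p hp
    (by
      intro i
      rcases hE i with h | ⟨h, h'⟩
      · exact Or.inl h
      · exact Or.inr ⟨h, fun h4 => h' 3 Nat.prime_three (h4.trans (hdX 3))⟩)
    (fun i => (χ₁ i).comp (powMonoidHom (3 ^ 2) : H₁ →* H₁).ker.subtype)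
    (fun i => (χ₂ i).comp (powMonoidHom (3 ^ 2) : H₂ →* H₂).ker.subtype)
    (fun i => cK 3 i) (fun i j => cK2 3 i j)
    (fun h => h3 (h.trans (hdX 3))) (fun h => h9 (h.trans (hdX 3)))
  have main : ∀ r : ℕ, r.Prime → ∃ θ : (powMonoidHom (r ^ 2) : H₁ →* H₁).ker ≃*
      (powMonoidHom (r ^ 2) : H₂ →* H₂).ker, ∀ i x,
      σ i ((χ₂ i (θ x : H₂) : (E i)ˣ) : E i) = ((χ₁ i (x : H₁) : (E i)ˣ) : E i) := by
    intro r hr
    by_cases hr3 : r = 3
    · subst hr3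
      exact ⟨θ3, hσ⟩
    by_cases hall : ∀ i (x : (powMonoidHom (r ^ 2) : H₁ →* H₁).ker), χ₁ i (x : H₁) = 1
    · have hall2 : ∀ i (x : (powMonoidHom (r ^ 2) : H₂ →* H₂).ker), χ₂ i (x : H₂) = 1 := by
        intro i x
        have h1 : ((χ₁ i).comp (powMonoidHom (r ^ 2) : H₁ →* H₁).ker.subtype).ker = ⊤ := by
          rw [eq_top_iff]
          intro y _
          exact hall i y
        have h2 := cK r i
        rw [h1, Subgroup.card_top, cX r] at h2
        have h3 : ((χ₂ i).comp (powMonoidHom (r ^ 2) : H₂ →* H₂).ker.subtype).ker = ⊤ :=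
          Subgroup.eq_top_of_card_eq _ h2.symm
        have h4 : x ∈ ((χ₂ i).comp (powMonoidHom (r ^ 2) : H₂ →* H₂).ker.subtype).ker := by
          rw [h3]; exact Subgroup.mem_top x
        exact h4
      haveI : Fact (Nat.Prime 2) := ⟨Nat.prime_two⟩
      obtain ⟨θ, _⟩ := cr_match hr (cr_match_all_dvd hcf r hr) (cX r) (cT r hr) (ZMod 2)
        (1 : (powMonoidHom (r ^ 2) : H₁ →* H₁).ker →* (ZMod 2)ˣ)
        (1 : (powMonoidHom (r ^ 2) : H₂ →* H₂).ker →* (ZMod 2)ˣ)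
        (by
          have h1 : (1 : (powMonoidHom (r ^ 2) : H₁ →* H₁).ker →* (ZMod 2)ˣ).ker = ⊤ := by
            rw [eq_top_iff]; intro y _; rfl
          have h2 : (1 : (powMonoidHom (r ^ 2) : H₂ →* H₂).ker →* (ZMod 2)ˣ).ker = ⊤ := by
            rw [eq_top_iff]; intro y _; rfl
          rw [h1, h2, Subgroup.card_top, Subgroup.card_top]
          exact cX r)
      refine ⟨θ, fun i x => ?_⟩
      rw [hall i x, hall2 i (θ x)]
      simp
    · push Not at hall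
      obtain ⟨i0, x0, hx0⟩ := hall
      have hx0' : (x0 : H₁) ^ (r ^ 2) = 1 := x0.2
      obtain ⟨hri0, hrn⟩ := cr_match_all_nontriv r hr (χ₁ i0) x0 hx0' hx0
      have hr2 : r ≠ 2 := by
        rintro rfl
        exact (Nat.not_even_iff_odd.2 hodd) (even_iff_two_dvd.2 hrn)
      have hr5 : 5 ≤ r := by
        have h2 := hr.two_le
        by_contra hlt
        push Not at hlt
        interval_cases r
        · exact hr2 rfl
        · exact hr3 rfl
        · exact absurd hr (by norm_num)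
      obtain ⟨θ, hθ⟩ := cr_match hr (cr_match_all_dvd hcf r hr) (cX r) (cT r hr) (E i0)
        ((χ₁ i0).comp (powMonoidHom (r ^ 2) : H₁ →* H₁).ker.subtype)
        ((Units.map ((σ i0 : E i0 ≃* E i0) : E i0 →* E i0)).comp
          ((χ₂ i0).comp (powMonoidHom (r ^ 2) : H₂ →* H₂).ker.subtype))
        (by
          rw [cK r i0]
          congr 2
          generalize ((χ₂ i0).comp (powMonoidHom (r ^ 2) : H₂ →* H₂).ker.subtype) = χ'
          ext y
          constructor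
          · intro hy
            have hy' : χ' y = 1 := hy
            show (Units.map ((σ i0 : E i0 ≃* E i0) : E i0 →* E i0)) (χ' y) = 1
            rw [hy', map_one]
          · intro hy
            have hy' : (Units.map ((σ i0 : E i0 ≃* E i0) : E i0 →* E i0)) (χ' y) = 1 := hy
            have h1 : σ i0 ((χ' y : (E i0)ˣ) : E i0) = 1 := congrArg Units.val hy'
            have h2 : ((χ' y : (E i0)ˣ) : E i0) = 1 := by
              apply (σ i0).injective
              rw [h1, map_one]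
            exact Units.ext h2)
      refine ⟨θ, fun i x => ?_⟩
      by_cases hi : i = i0
      · subst hi
        have h1 := congrArg Units.val (hθ x)
        exact h1
      · have e1 : χ₁ i (x : H₁) = 1 := by
          by_contra hne
          obtain ⟨h1, _⟩ := cr_match_all_nontriv r hr (χ₁ i) x x.2 hne
          exact hi (h5 r hr hr5 hrn i i0 h1 hri0)
        have e2 : χ₂ i (θ x : H₂) = 1 := by
          by_contra hne
          obtain ⟨h1, _⟩ := cr_match_all_nontriv r hr (χ₂ i) (θ x) (θ x).2 hne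
          exact hi (h5 r hr hr5 hrn i i0 h1 hri0)
        rw [e1, e2]
        simp
  choose θ hθ using main
  obtain ⟨f, hf⟩ := cr_glue hcard hcf θ
  refine ⟨f, σ, fun i h => ?_⟩
  have h1 := cr_hom_ext (H₁ := H₁) hcf (K := E i)
    ((((σ i : E i ≃* E i) : E i →* E i).comp (Units.coeHom (E i))).comp ((χ₂ i).comp (f : H₁ →* H₂)))
    ((Units.coeHom (E i)).comp (χ₁ i)) (by
      intro r hr x hx
      have h2 := hθ r hr i ⟨x, hx⟩
      have h3 := hf r hr ⟨x, hx⟩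
      rw [← h3] at h2
      exact h2)
  exact DFunLike.congr_fun h1 h
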