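import Mathlib
import Pool.Agent.MPcb9dee.Good
import Pool.Agent.MPcb9dee.J22b
import Pool.Agent.MPcb9dee.J23
import Pool.Agent.MPcb9dee.J24
import Pool.Agent.MPcb9dee.J25b

theorem cr_model_iso {ι : Type} {E : ι → Type} [∀ i, Field (E i)]
    {H₁ H₂ : Type} [CommGroup H₁] [CommGroup H₂] (χ₁ : ∀ i, H₁ →* (E i)ˣ) (χ₂ : ∀ i, H₂ →* (E i)ˣ)
    (θ : H₁ ≃* H₂) (σ : ∀ i, E i ≃+* E i)
    (h : ∀ i h, σ i ((χ₂ i (θ h) : (E i)ˣ) : E i) = ((χ₁ i h : (E i)ˣ) : E i)) :
    Nonempty (CRModel χ₁ ≃* CRModel χ₂) := by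
  let fn : Multiplicative (∀ i, E i) ≃* Multiplicative (∀ i, E i) :=
    AddEquiv.toMultiplicative (AddEquiv.piCongrRight fun i => (σ i).symm.toAddEquiv)
  refine ⟨SemidirectProduct.congr fn θ ?_⟩
  intro g
  refine MulEquiv.ext fun v => ?_
  apply Multiplicative.toAdd.injective
  funext i
  change (σ i).symm (((χ₁ i g : (E i)ˣ) : E i) * v.toAdd i) = ((χ₂ i (θ g) : (E i)ˣ) : E i) * (σ i).symm (v.toAdd i)
  rw [map_mul, ← h i g, RingEquiv.symm_apply_apply]

theorem cr_card_sol_congr {G K : Type} [Group G] [Group K] (e : G ≃* K) (m : ℕ) :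
    Nat.card {x : G // x ^ m = 1} = Nat.card {x : K // x ^ m = 1} := by
  refine Nat.card_congr (Equiv.subtypeEquiv e.toEquiv ?_)
  intro a
  change a ^ m = 1 ↔ (e a) ^ m = 1
  rw [← map_pow, EmbeddingLike.map_eq_one_iff]

theorem cr_fields : ∃ (E : ℕ → ℕ → Type) (_ : ∀ p k, Field (E p k)) (_ : ∀ p k, Finite (E p k)),
    ∀ p k, p.Prime → k ≠ 0 → Nat.card (E p k) = p ^ k := by
  have h : ∀ p k : ℕ, ∃ (F : Type) (_ : Field F) (_ : Finite F), p.Prime → k ≠ 0 → Nat.card F = p ^ k := by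
    intro p k
    by_cases hp : p.Prime
    · by_cases hk : k = 0
      · exact ⟨ZMod 2, inferInstance, inferInstance, fun _ h => absurd hk h⟩
      · have : Fact p.Prime := ⟨hp⟩
        exact ⟨GaloisField p k, inferInstance, inferInstance, fun _ _ => GaloisField.card p k hk⟩
    · exact ⟨ZMod 2, inferInstance, inferInstance, fun h => absurd h hp⟩
  choose E h1 h2 h3 using h
  exact ⟨E, h1, h2, h3⟩

theorem cr_rigid_odd {n : ℕ} (hodd : Odd n) (hg : CRGood n) : CRRigid n := by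
  obtain ⟨g1, g2, g3, g4, g5⟩ := hg
  have hn0 : n ≠ 0 := by rintro rfl; simp at hodd
  have c1 : ∀ p, p.Prime → ¬ p ^ 3 ∣ n := by
    intro p hp h
    refine g1 p hp ?_ h
    exact Odd.of_dvd_nat hodd ((dvd_pow_self p (by norm_num)).trans h)
  have c2 : ∀ p r, p.Prime → r.Prime → r ∣ p - 1 → ¬ p ^ 2 * r ∣ n := by
    intro p r hp hr h1 h2
    exact g2 p r hp hr (Odd.of_dvd_nat hodd ((Dvd.intro_left _ rfl).trans h2)) h1 h2
  intro G₁ G₂ _ _ _ _ hc1 hc2 hconf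
  obtain ⟨F, iF, fF, hF⟩ := cr_fields
  let E : ℕ → Type := fun p => F p (n.factorization p)
  haveI : ∀ p, Field (E p) := fun p => iF p _
  have : ∀ p, Finite (E p) := fun p => fF p _
  have hEc : ∀ p, p.Prime → p ∣ n → Nat.card (E p) = p ^ n.factorization p := by
    intro p hp hpn
    exact hF p _ hp (by
      have := (hp.dvd_iff_one_le_factorization hn0).1 hpn
      omega)
  obtain ⟨π₁, H₁, _, _, χ₁, a1, a2, a3, a4, ⟨e1⟩⟩ := cr_structure (G := G₁) (by rw [hc1]; exact hodd)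
    (by rw [hc1]; exact c1) (by rw [hc1]; exact c2) E (by rw [hc1]; exact hEc)
  obtain ⟨π₂, H₂, _, _, χ₂, b1, b2, b3, b4, ⟨e2⟩⟩ := cr_structure (G := G₂) (by rw [hc2]; exact hodd)
    (by rw [hc2]; exact c1) (by rw [hc2]; exact c2) E (by rw [hc2]; exact hEc)
  rw [hc1] at a1 a4
  rw [hc2] at b1 b4
  have hconf' : ∀ m, 1 ≤ m → Nat.card {x : CRModel χ₁ // x ^ m = 1} =
      Nat.card {x : CRModel χ₂ // x ^ m = 1} := by
    intro m hm
    rw [← cr_card_sol_congr e1, ← cr_card_sol_congr e2]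
    exact hconf m hm
  have hdiv : ∀ p, p.Prime → p ∣ n → 1 ≤ n / p ^ n.factorization p := by
    intro p hp hpn
    exact Nat.div_pos (Nat.le_of_dvd (Nat.pos_of_ne_zero hn0) (Nat.ordProj_dvd n p)) (pow_pos hp.pos _)
  have hπ : π₁ = π₂ := by
    ext p
    constructor
    · intro hp
      obtain ⟨hp1, hp2⟩ := a1 p hp
      rw [cr_mem_pi_iff hn0 χ₁ a1 (fun q hq => hEc q (a1 q hq).1 (a1 q hq).2) a2 a3 a4 hp1 hp2] at hp
      rw [cr_mem_pi_iff hn0 χ₂ b1 (fun q hq => hEc q (b1 q hq).1 (b1 q hq).2) b2 b3 b4 hp1 hp2]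
      rwa [← hconf' _ (hdiv p hp1 hp2)]
    · intro hp
      obtain ⟨hp1, hp2⟩ := b1 p hp
      rw [cr_mem_pi_iff hn0 χ₂ b1 (fun q hq => hEc q (b1 q hq).1 (b1 q hq).2) b2 b3 b4 hp1 hp2] at hp
      rw [cr_mem_pi_iff hn0 χ₁ a1 (fun q hq => hEc q (a1 q hq).1 (a1 q hq).2) a2 a3 a4 hp1 hp2]
      rwa [hconf' _ (hdiv p hp1 hp2)]
  subst hπ
  have hEi : ∀ i : π₁, Nat.card (E i) = (i : ℕ) ^ n.factorization i := fun i => hEc i (a1 i i.2).1 (a1 i i.2).2
  have hprod0 : ∏ p : π₁, Nat.card (E p) ≠ 0 := by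
    intro h
    rw [h, mul_zero] at a4
    exact hn0 a4.symm
  have hcardH : Nat.card H₁ = Nat.card H₂ :=
    Nat.eq_of_mul_eq_mul_right (Nat.pos_of_ne_zero hprod0) (a4.trans b4.symm)
  have hHn : Nat.card H₁ ∣ n := ⟨_, a4.symm⟩
  have hcopE : Pairwise fun i j : π₁ => Nat.Coprime (Nat.card (E i)) (Nat.card (E j)) := by
    intro i j hij
    rw [hEi, hEi]
    refine Nat.Coprime.pow _ _ ?_
    exact (Nat.coprime_primes (a1 i i.2).1 (a1 j j.2).1).2 (fun h => hij (Subtype.ext h))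
  have hcounts := cr_counts χ₁ χ₂ hcopE a3 hcardH hconf'
  -- the type of each field
  have hfac : ∀ i : π₁, n.factorization i = 1 ∨ n.factorization i = 2 := by
    intro i
    have h1 := ((a1 i i.2).1.dvd_iff_one_le_factorization hn0).1 (a1 i i.2).2
    have h2 : n.factorization i < 3 := by
      by_contra h
      exact c1 i (a1 i i.2).1 (((a1 i i.2).1.pow_dvd_iff_le_factorization hn0).2 (by omega))
    omega
  have hcopHi : ∀ (i : π₁) r, r.Prime → r ∣ Nat.card H₁ → r ≠ i := by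
    intro i r hr hrH hri
    have := a3 i
    rw [hEi i] at this
    have h1 := ((a1 i i.2).1.dvd_iff_one_le_factorization hn0).1 (a1 i i.2).2
    have h2 : r ∣ (i : ℕ) ^ n.factorization i := by
      rw [hri]; exact dvd_pow_self _ (by omega)
    exact hr.one_lt.ne' (Nat.dvd_one.1 (this ▸ Nat.dvd_gcd h2 hrH))
  have hE : ∀ i : π₁, Nat.card (E i) = (i : ℕ) ∨
      (Nat.card (E i) = (i : ℕ) ^ 2 ∧ ∀ r, r.Prime → r ∣ Nat.card H₁ → ¬ r ∣ (i : ℕ) - 1) := by
    intro i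
    rcases hfac i with h | h
    · left; rw [hEi, h, pow_one]
    · right
      refine ⟨by rw [hEi, h], ?_⟩
      intro r hr hrH hri
      refine c2 i r (a1 i i.2).1 hr hri ?_
      refine Nat.Coprime.mul_dvd_of_dvd_of_dvd ?_ ?_ (hrH.trans hHn)
      · exact Nat.Coprime.pow_left _ ((Nat.coprime_primes (a1 i i.2).1 hr).2 (hcopHi i r hr hrH).symm)
      · exact ((a1 i i.2).1.pow_dvd_iff_le_factorization hn0).2 (by omega)
  -- divisibility of `card - 1`
  have hacts : ∀ (i : π₁) (r m : ℕ), r.Prime → r ∣ Nat.card H₁ → (∀ q, q.Prime → q ∣ m → q = r) →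
      m ∣ Nat.card (E i) - 1 → CRActs n i m := by
    intro i r m hr hrH hm hdvd
    rcases hE i with h | ⟨h, h'⟩
    · left; rw [h] at hdvd; exact ⟨(a1 i i.2).2, hdvd⟩
    · right
      have h2 : n.factorization i = 2 := by
        have h3 := hEi i
        rw [h] at h3
        exact (Nat.pow_right_injective (a1 i i.2).1.two_le h3).symm
      refine ⟨((a1 i i.2).1.pow_dvd_iff_le_factorization hn0).2 (by omega), ?_⟩
      rw [h] at hdvd
      have h4 : (i : ℕ) ^ 2 - 1 = ((i : ℕ) + 1) * ((i : ℕ) - 1) := by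
        have := Nat.sq_sub_sq (i : ℕ) 1
        simpa using this
      rw [h4] at hdvd
      refine Nat.Coprime.dvd_of_dvd_mul_right ?_ hdvd
      refine Nat.Coprime.symm ?_
      by_contra hc
      obtain ⟨q, hq, hq1, hq2⟩ := Nat.Prime.not_coprime_iff_dvd.1 hc
      have := hm q hq hq2
      subst this
      exact h' q hq hrH hq1
  obtain ⟨θ, σ, hθ⟩ := cr_match_all (fun i : π₁ => E i) (Odd.of_dvd_nat hodd hHn)
    (fun p hp h => c1 p hp (h.trans hHn)) hcardH (fun i => (i : ℕ)) (fun i => (a1 i i.2).1) hE χ₁ χ₂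
    (fun d hd => (hcounts d hd).1) (fun d hd => (hcounts d hd).2.1) (fun d hd => (hcounts d hd).2.2)
    (by
      intro r hr hr5 hrH i j hi hj
      have hm : ∀ q, q.Prime → q ∣ r → q = r := fun q hq hqr => (Nat.prime_dvd_prime_iff_eq hq hr).1 hqr
      exact Subtype.ext (g3 r i j hr (a1 i i.2).1 (a1 j j.2).1 hr5 (hrH.trans hHn)
        (hacts i r r hr hrH hm hi) (hacts j r r hr hrH hm hj)))
    (by
      intro h3 i j hi hj hi' hj'
      exact Subtype.ext (g4 (h3.trans hHn) i j (a1 i i.2).1 (a1 j j.2).1 (a1 i i.2).2 (a1 j j.2).2 hi' hj'))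
    (by
      intro h9 i j hi hj
      have h3H : 3 ∣ Nat.card H₁ := (by norm_num : 3 ∣ 9).trans h9
      have hm : ∀ q, q.Prime → q ∣ 9 → q = 3 := by
        intro q hq hqr
        have : q ∣ 3 ^ 2 := by simpa using hqr
        exact (Nat.prime_dvd_prime_iff_eq hq Nat.prime_three).1 (hq.dvd_of_dvd_pow this)
      exact Subtype.ext (g5 (h9.trans hHn) i j (a1 i i.2).1 (a1 j j.2).1
        (hacts i 3 9 Nat.prime_three h3H hm hi) (hacts j 3 9 Nat.prime_three h3H hm hj)))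
  obtain ⟨e3⟩ := cr_model_iso χ₁ χ₂ θ σ hθ
  exact ⟨e1.trans (e3.trans e2.symm)⟩
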