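import Mathlib
import Pool.Agent.MPcb9dee.Rigid
import Pool.Agent.MPcb9dee.NonRigid

theorem cr_odd_iff {n : ℕ} (hodd : Odd n) : CRRigid n ↔ CRGood n :=
  ⟨fun h => cr_good_of_rigid (by rintro rfl; simp at hodd) h, fun h => cr_rigid_odd hodd h⟩
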