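import Mathlib
import Pool.Agent.MPcb9dee.Odd
import Pool.Agent.MPcb9dee.F1
import Pool.Agent.MPcb9dee.F3
import Pool.Agent.MPcb9dee.F4
import Pool.Agent.MPcb9dee.F5
import Pool.Agent.MPcb9dee.F6

theorem cr_card_fix_congr {X Y : Type} (τ : X → X) (τ' : Y → Y) (β : X ≃ Y)
    (h : ∀ x, β (τ x) = τ' (β x)) : Nat.card {x : X // τ x = x} = Nat.card {y : Y // τ' y = y} := by
  refine Nat.card_congr (Equiv.subtypeEquiv β ?_)
  intro a
  rw [← h, EmbeddingLike.apply_eq_iff_eq]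

theorem cr_conj_model {ι : Type} [Fintype ι] {E : ι → Type} [∀ i, Field (E i)] [∀ i, Finite (E i)]
    {H : Type} [CommGroup H] [Finite H] (χ : ∀ i, H →* (E i)ˣ)
    (hcopE : Pairwise fun i j => Nat.Coprime (Nat.card (E i)) (Nat.card (E j)))
    (hcopH : ∀ i, Nat.Coprime (Nat.card (E i)) (Nat.card H)) (hχ : ∀ i, χ i ≠ 1)
    (hoddH : Odd (Nat.card H)) (hcf : ∀ p, p.Prime → ¬ p ^ 3 ∣ Nat.card H)
    (p : ι → ℕ) (hp : ∀ i, (p i).Prime) (hp2 : ∀ i, p i ≠ 2)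
    (hE : ∀ i, Nat.card (E i) = p i ∨
      (Nat.card (E i) = p i ^ 2 ∧ ∀ r, r.Prime → r ∣ Nat.card H → ¬ r ∣ p i - 1))
    (τ τ' : CRModel χ ≃* CRModel χ) (hτ : ∀ x, τ (τ x) = x) (hτ' : ∀ x, τ' (τ' x) = x)
    (hfix : Nat.card {x : CRModel χ // τ x = x} = Nat.card {x : CRModel χ // τ' x = x}) :
    ∃ β : CRModel χ ≃* CRModel χ, ∀ x, β (τ x) = τ' (β x) := by
  have hodd : ∀ i, Odd (Nat.card (E i)) := by
    intro i
    have h1 : Odd (p i) := (hp i).odd_of_ne_two (hp2 i)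
    rcases hE i with h | ⟨h, _⟩
    · rw [h]; exact h1
    · rw [h]; exact h1.pow
  obtain ⟨β₁, T, s, hTs, hT, hs, h1⟩ := cr_aut_normal χ hcopE hcopH hχ hodd τ hτ
  obtain ⟨β₂, T', s', hTs', hT', hs', h2⟩ := cr_aut_normal χ hcopE hcopH hχ hodd τ' hτ'
  have hf1 := cr_card_fix_congr τ (crAut χ T s hTs) β₁.toEquiv h1
  have hf2 := cr_card_fix_congr τ' (crAut χ T' s' hTs') β₂.toEquiv h2
  obtain ⟨hfE, hfH⟩ := cr_fix_eq χ hcopE hcopH T T' s s' hTs hTs' (hf1.symm.trans (hfix.trans hf2))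
  have h3 := fun i => cr_semilinear_conj (hp i) (hp2 i) (hE i) (χ i) (hχ i) (T i) (T' i) s s'
    (hT i) (hT' i) (hTs i) (hTs' i) (hfE i)
  choose e he using fun i => (h3 i).2
  have hDs : ∀ (T : ∀ i, E i ≃+ E i) (s : H ≃* H),
      (∀ i h x, T i (((χ i h : (E i)ˣ) : E i) * x) = ((χ i (s h) : (E i)ˣ) : E i) * T i x) →
      ∀ x ∈ (⨅ i, (χ i).ker), s x ∈ (⨅ i, (χ i).ker) := by
    intro T s hTs x hx
    rw [Subgroup.mem_iInf] at hx ⊢
    intro i
    have h4 := hTs i x ((T i).symm 1)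
    have h5 : χ i x = 1 := hx i
    rw [h5, Units.val_one, one_mul, AddEquiv.apply_symm_apply, mul_one] at h4
    exact Units.ext h4.symm
  obtain ⟨α, hα1, hα2⟩ := cr_invol_conj hoddH hcf s s' hs hs' hfH (⨅ i, (χ i).ker)
    (by
      intro x
      rw [Subgroup.mem_iInf]
      intro i
      rw [MonoidHom.mem_ker, map_mul, map_inv, (h3 i).1 x, mul_inv_cancel])
    (hDs T s hTs) (hDs T' s' hTs')
  have hαχ : ∀ i h, χ i (α h) = χ i h := by
    intro i h
    have := hα2 h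
    rw [Subgroup.mem_iInf] at this
    have h4 := this i
    rw [MonoidHom.mem_ker, map_mul, map_inv, mul_inv_eq_one] at h4
    exact h4
  let M : ∀ i, E i ≃+ E i := fun i =>
    { toFun := fun x => (e i : E i) * x
      invFun := fun x => ((e i)⁻¹ : (E i)ˣ) * x
      left_inv := fun x => by simp
      right_inv := fun x => by simp
      map_add' := fun x y => by simp [mul_add] }
  have hM : ∀ i h x, M i (((χ i h : (E i)ˣ) : E i) * x) = ((χ i (α h) : (E i)ˣ) : E i) * M i x := by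
    intro i h x
    rw [hαχ]
    change (e i : E i) * _ = _ * ((e i : E i) * x)
    ring
  refine ⟨(β₁.trans (crAut χ M α hM)).trans β₂.symm, ?_⟩
  have key : ∀ y, crAut χ M α hM (crAut χ T s hTs y) = crAut χ T' s' hTs' (crAut χ M α hM y) := by
    intro y
    refine SemidirectProduct.ext ?_ ?_
    · apply Multiplicative.toAdd.injective
      funext i
      change (e i : E i) * T i (y.left.toAdd i) = T' i ((e i : E i) * y.left.toAdd i)
      exact (he i _).symm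
    · change α (s y.right) = s' (α y.right)
      exact hα1 _
  intro x
  change β₂.symm (crAut χ M α hM (β₁ (τ x))) = τ' (β₂.symm (crAut χ M α hM (β₁ x)))
  rw [h1, key, MulEquiv.symm_apply_eq, h2, MulEquiv.apply_symm_apply]

theorem cr_good_of_dvd {m n : ℕ} (h : m ∣ n) (hg : CRGood n) : CRGood m := by
  obtain ⟨g1, g2, g3, g4, g5⟩ := hg
  have ha : ∀ p r, CRActs m p r → CRActs n p r := fun p r hA =>
    hA.imp (fun h1 => ⟨h1.1.trans h, h1.2⟩) (fun h1 => ⟨h1.1.trans h, h1.2⟩)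
  refine ⟨fun p hp ho hd => g1 p hp ho (hd.trans h), fun p r hp hr ho hrp hd => g2 p r hp hr ho hrp (hd.trans h),
    fun r p q hr hp hq h5 hrm h1 h2 => g3 r p q hr hp hq h5 (hrm.trans h) (ha _ _ h1) (ha _ _ h2),
    fun h3 p q hp hq hpm hqm h1 h2 => g4 (h3.trans h) p q hp hq (hpm.trans h) (hqm.trans h) h1 h2,
    fun h9 p q hp hq h1 h2 => g5 (h9.trans h) p q hp hq (ha _ _ h1) (ha _ _ h2)⟩

theorem cr_structure' {G : Type} [Group G] [Finite G] (hodd : Odd (Nat.card G))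
    (hg : CRGood (Nat.card G)) :
    ∃ (ι : Type) (_ : Fintype ι) (E : ι → Type) (_ : ∀ i, Field (E i)) (_ : ∀ i, Finite (E i))
      (H : Type) (_ : CommGroup H) (_ : Finite H) (χ : ∀ i, H →* (E i)ˣ) (p : ι → ℕ),
      (Pairwise fun i j => Nat.Coprime (Nat.card (E i)) (Nat.card (E j))) ∧
      (∀ i, Nat.Coprime (Nat.card (E i)) (Nat.card H)) ∧ (∀ i, χ i ≠ 1) ∧ Odd (Nat.card H) ∧
      (∀ p, p.Prime → ¬ p ^ 3 ∣ Nat.card H) ∧ (∀ i, (p i).Prime) ∧ (∀ i, p i ≠ 2) ∧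
      (∀ i, Nat.card (E i) = p i ∨
        (Nat.card (E i) = p i ^ 2 ∧ ∀ r, r.Prime → r ∣ Nat.card H → ¬ r ∣ p i - 1)) ∧
      Nonempty (G ≃* CRModel χ) := by
  obtain ⟨g1, g2, -, -, -⟩ := hg
  set n := Nat.card G with hn
  have hn0 : n ≠ 0 := by rintro h; rw [h] at hodd; simp at hodd
  have c1 : ∀ p, p.Prime → ¬ p ^ 3 ∣ n := by
    intro p hp h
    refine g1 p hp ?_ h
    exact Odd.of_dvd_nat hodd ((dvd_pow_self p (by norm_num)).trans h)
  have c2 : ∀ p r, p.Prime → r.Prime → r ∣ p - 1 → ¬ p ^ 2 * r ∣ n := by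
    intro p r hp hr h1 h2
    exact g2 p r hp hr (Odd.of_dvd_nat hodd ((Dvd.intro_left _ rfl).trans h2)) h1 h2
  obtain ⟨F, iF, fF, hF⟩ := cr_fields
  let E : ℕ → Type := fun p => F p (n.factorization p)
  letI : ∀ p, Field (E p) := fun p => iF p _
  have : ∀ p, Finite (E p) := fun p => fF p _
  have hEc : ∀ p, p.Prime → p ∣ n → Nat.card (E p) = p ^ n.factorization p := by
    intro p hp hpn
    exact hF p _ hp (by
      have := (hp.dvd_iff_one_le_factorization hn0).1 hpn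
      omega)
  obtain ⟨π₁, H₁, iH, fH, χ₁, a1, a2, a3, a4, e1⟩ := cr_structure (G := G) hodd c1 c2 E hEc
  have hEi : ∀ i : π₁, Nat.card (E i) = (i : ℕ) ^ n.factorization i := fun i => hEc i (a1 i i.2).1 (a1 i i.2).2
  have hHn : Nat.card H₁ ∣ n := ⟨_, a4.symm⟩
  have hcopE : Pairwise fun i j : π₁ => Nat.Coprime (Nat.card (E i)) (Nat.card (E j)) := by
    intro i j hij
    rw [hEi, hEi]
    refine Nat.Coprime.pow _ _ ?_
    exact (Nat.coprime_primes (a1 i i.2).1 (a1 j j.2).1).2 (fun h => hij (Subtype.ext h))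
  have hfac : ∀ i : π₁, n.factorization i = 1 ∨ n.factorization i = 2 := by
    intro i
    have h1 := ((a1 i i.2).1.dvd_iff_one_le_factorization hn0).1 (a1 i i.2).2
    have h2 : n.factorization i < 3 := by
      by_contra h
      exact c1 i (a1 i i.2).1 (((a1 i i.2).1.pow_dvd_iff_le_factorization hn0).2 (by omega))
    omega
  have hcopHi : ∀ (i : π₁) r, r.Prime → r ∣ Nat.card H₁ → r ≠ i := by
    intro i r hr hrH hri
    have := a3 i
    rw [hEi i] at this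
    have h1 := ((a1 i i.2).1.dvd_iff_one_le_factorization hn0).1 (a1 i i.2).2
    have h2 : r ∣ (i : ℕ) ^ n.factorization i := by
      rw [hri]; exact dvd_pow_self _ (by omega)
    exact hr.one_lt.ne' (Nat.dvd_one.1 (this ▸ Nat.dvd_gcd h2 hrH))
  refine ⟨π₁, inferInstance, fun i => E i, fun i => inferInstance, fun i => inferInstance, H₁, iH, fH,
    χ₁, fun i => i, hcopE, a3, a2, Odd.of_dvd_nat hodd hHn, fun p hp h => c1 p hp (h.trans hHn),
    fun i => (a1 i i.2).1, ?_, ?_, e1⟩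
  · intro i h2
    have h3 := Odd.of_dvd_nat hodd (a1 i i.2).2
    have h4 : (i : ℕ) = 2 := h2
    rw [h4] at h3
    exact absurd h3 (by decide)
  · intro i
    rcases hfac i with h | h
    · left; rw [hEi, h, pow_one]
    · right
      refine ⟨by rw [hEi, h], ?_⟩
      intro r hr hrH hri
      refine c2 i r (a1 i i.2).1 hr hri ?_
      refine Nat.Coprime.mul_dvd_of_dvd_of_dvd ?_ ?_ (hrH.trans hHn)
      · exact Nat.Coprime.pow_left _ ((Nat.coprime_primes (a1 i i.2).1 hr).2 (hcopHi i r hr hrH).symm)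
      · exact ((a1 i i.2).1.pow_dvd_iff_le_factorization hn0).2 (by omega)

theorem cr_rigid_even {m : ℕ} (hm : Odd m) (hg : CRGood (2 * m)) : CRRigid (2 * m) := by
  have hgm : CRGood m := cr_good_of_dvd (Dvd.intro_left _ rfl) hg
  have hm0 : m ≠ 0 := by rintro rfl; simp at hm
  intro G₁ G₂ _ _ _ _ hc1 hc2 hconf
  obtain ⟨K₁, t₁, hN₁, hK₁, ht₁, ht₁'⟩ := cr_even_split hm hc1
  obtain ⟨K₂, t₂, hN₂, hK₂, ht₂, ht₂'⟩ := cr_even_split hm hc2
  have hKc : CRConformal K₁ K₂ := by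
    intro d hd
    obtain ⟨h1, h2⟩ := cr_card_sol_odd hm hc1 K₁ hK₁ d hd
    obtain ⟨-, h3⟩ := cr_card_sol_odd hm hc2 K₂ hK₂ d hd
    rw [h2, h3]
    exact hconf _ h1
  obtain ⟨f0⟩ := cr_rigid_odd hm hgm K₁ K₂ hK₁ hK₂ hKc
  obtain ⟨ι, _, E, _, _, H, _, _, χ, p, b1, b2, b3, b4, b5, b6, b7, b8, ⟨e1⟩⟩ :=
    cr_structure' (G := K₁) (by rw [hK₁]; exact hm) (by rw [hK₁]; exact hgm)
  have e2 : K₂ ≃* CRModel χ := f0.symm.trans e1
  let c₁ : K₁ ≃* K₁ := MulAut.conjNormal t₁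
  let c₂ : K₂ ≃* K₂ := MulAut.conjNormal t₂
  have hc₁ : ∀ x, c₁ (c₁ x) = x := by
    intro x
    have : (MulAut.conjNormal (H := K₁) t₁) * (MulAut.conjNormal t₁) = 1 := by
      rw [← map_mul, ← pow_two, ht₁', map_one]
    exact DFunLike.congr_fun this x
  have hc₂ : ∀ x, c₂ (c₂ x) = x := by
    intro x
    have : (MulAut.conjNormal (H := K₂) t₂) * (MulAut.conjNormal t₂) = 1 := by
      rw [← map_mul, ← pow_two, ht₂', map_one]
    exact DFunLike.congr_fun this x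
  let τ₁ : CRModel χ ≃* CRModel χ := (e1.symm.trans c₁).trans e1
  let τ₂ : CRModel χ ≃* CRModel χ := (e2.symm.trans c₂).trans e2
  have hτ₁ : ∀ x, τ₁ (τ₁ x) = x := by
    intro x
    change e1 (c₁ (e1.symm (e1 (c₁ (e1.symm x))))) = x
    rw [MulEquiv.symm_apply_apply, hc₁, MulEquiv.apply_symm_apply]
  have hτ₂ : ∀ x, τ₂ (τ₂ x) = x := by
    intro x
    change e2 (c₂ (e2.symm (e2 (c₂ (e2.symm x))))) = x
    rw [MulEquiv.symm_apply_apply, hc₂, MulEquiv.apply_symm_apply]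
  have f1 : Nat.card {x : K₁ // c₁ x = x} = Nat.card {x : CRModel χ // τ₁ x = x} :=
    cr_card_fix_congr c₁ τ₁ e1.toEquiv (by
      intro x
      change e1 (c₁ x) = e1 (c₁ (e1.symm (e1 x)))
      rw [MulEquiv.symm_apply_apply])
  have f2 : Nat.card {x : K₂ // c₂ x = x} = Nat.card {x : CRModel χ // τ₂ x = x} :=
    cr_card_fix_congr c₂ τ₂ e2.toEquiv (by
      intro x
      change e2 (c₂ x) = e2 (c₂ (e2.symm (e2 x)))
      rw [MulEquiv.symm_apply_apply])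
  have i1 := cr_card_involutions hm hc1 K₁ hK₁ t₁ ht₁ ht₁'
  have i2 := cr_card_involutions hm hc2 K₂ hK₂ t₂ ht₂ ht₂'
  have hfix : Nat.card {x : CRModel χ // τ₁ x = x} = Nat.card {x : CRModel χ // τ₂ x = x} := by
    rw [← f1, ← f2]
    rw [hconf 2 (by norm_num)] at i1
    have hne : 0 < Nat.card {x : G₂ // x ^ 2 = 1} - 1 := by
      rcases Nat.eq_zero_or_pos (Nat.card {x : G₂ // x ^ 2 = 1} - 1) with h | h
      · rw [h, zero_mul] at i2
        exact absurd i2.symm hm0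
      · exact h
    exact Nat.eq_of_mul_eq_mul_left hne (i1.trans i2.symm)
  obtain ⟨β, hβ⟩ := cr_conj_model χ b1 b2 b3 b4 b5 p b6 b7 b8 τ₁ τ₂ hτ₁ hτ₂ hfix
  refine cr_ext_iso K₁ K₂ (by rw [hK₁]; exact hc1) (by rw [hK₂]; exact hc2) t₁ t₂ ht₁ ht₂ ht₁' ht₂'
    ((e1.trans β).trans e2.symm) ?_
  intro x
  have h1 := hβ (e1 x)
  change β (e1 (c₁ (e1.symm (e1 x)))) = e2 (c₂ (e2.symm (β (e1 x)))) at h1
  rw [MulEquiv.symm_apply_apply] at h1
  change e2.symm (β (e1 (c₁ x))) = c₂ (e2.symm (β (e1 x)))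
  rw [h1, MulEquiv.symm_apply_apply]
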