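import Mathlib
import Pool.Agent.MPcb9dee.J16

/-- the semidirect product of two cyclic groups of order four -/
structure CRB where
  a : ZMod 4
  b : ZMod 4
deriving DecidableEq, Fintype

instance CRB.instMul : Mul CRB :=
  ⟨fun x y => ⟨x.a + (if x.b.val % 2 = 0 then y.a else -y.a), x.b + y.b⟩⟩
instance CRB.instOne : One CRB := ⟨⟨0, 0⟩⟩
instance CRB.instInv : Inv CRB := ⟨fun x => ⟨if x.b.val % 2 = 0 then -x.a else x.a, -x.b⟩⟩

theorem CRB.assoc' : ∀ x y z : CRB, x * y * z = x * (y * z) := by decide +kernel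
theorem CRB.one_mul' : ∀ x : CRB, 1 * x = x := by decide +kernel
theorem CRB.inv_mul' : ∀ x : CRB, x⁻¹ * x = 1 := by decide +kernel

instance CRB.instGroup : Group CRB := Group.ofLeftAxioms CRB.assoc' CRB.one_mul' CRB.inv_mul'

/-- the abelian group -/
abbrev CRA : Type := Multiplicative (ZMod 4) × Multiplicative (ZMod 4)

theorem CRB.pow4 : ∀ x : CRB, x ^ 4 = 1 := by
  have h : ∀ x : CRB, x * x * x * x = 1 := by decide +kernel
  intro x
  rw [← h x, pow_succ, pow_succ, pow_succ, pow_one]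

theorem CRA.pow4 : ∀ x : CRA, x ^ 4 = 1 := by
  have h : ∀ x : CRA, x * x * x * x = 1 := by decide +kernel
  intro x
  rw [← h x, pow_succ, pow_succ, pow_succ, pow_one]

theorem cr_card_aux {G : Type} [Group G] (h : ∀ x : G, x ^ 4 = 1) (d : ℕ) :
    Nat.card {x : G // x ^ d = 1} = Nat.card {x : G // x ^ (d % 4) = 1} := by
  apply Nat.card_congr
  apply Equiv.subtypeEquivRight
  intro x
  rw [pow_eq_pow_mod d (h x)]

theorem cr_conf_AB : CRConformal CRA CRB := by
  intro d _
  rw [cr_card_aux CRA.pow4, cr_card_aux CRB.pow4]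
  have hlt : d % 4 < 4 := Nat.mod_lt _ (by norm_num)
  interval_cases h : d % 4
  · simp only [pow_zero]
    rw [Nat.card_eq_fintype_card, Nat.card_eq_fintype_card]
    decide +kernel
  · simp only [pow_one]
    rw [Nat.card_eq_fintype_card, Nat.card_eq_fintype_card]
    decide +kernel
  · simp only [pow_two]
    rw [Nat.card_eq_fintype_card, Nat.card_eq_fintype_card]
    decide +kernel
  · simp only [pow_succ, pow_zero, one_mul]
    rw [Nat.card_eq_fintype_card, Nat.card_eq_fintype_card]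
    decide +kernel

/-- TARGET: multiples of 16 are not rigid. -/
theorem cr_not_rigid_sixteen {n : ℕ} (hn : n ≠ 0) (h : 16 ∣ n) : ¬ CRRigid n := by
  intro hr
  obtain ⟨m, rfl⟩ := h
  have hm : m ≠ 0 := by
    rintro rfl
    simp at hn
  haveI : NeZero m := ⟨hm⟩
  have hZ : Nat.card (Multiplicative (ZMod m)) = m := by
    rw [Nat.card_congr Multiplicative.toAdd, Nat.card_zmod]
  have hA : Nat.card CRA = 16 := by
    rw [Nat.card_eq_fintype_card]
    decide +kernel
  have hB : Nat.card CRB = 16 := by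
    rw [Nat.card_eq_fintype_card]
    decide +kernel
  haveI : Finite (Multiplicative (ZMod m)) := Finite.of_equiv (ZMod m) Multiplicative.ofAdd
  obtain ⟨e⟩ := hr (CRA × Multiplicative (ZMod m)) (CRB × Multiplicative (ZMod m))
    (by rw [Nat.card_prod, hA, hZ]) (by rw [Nat.card_prod, hB, hZ])
    (cr_conformal_prod cr_conf_AB)
  have hcomm : ∀ x y : CRB × Multiplicative (ZMod m), x * y = y * x := by
    intro x y
    apply e.symm.injective
    rw [map_mul, map_mul, mul_comm]
  have h1 := congrArg Prod.fst (hcomm (⟨1, 0⟩, 1) (⟨0, 1⟩, 1))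
  have h2 : (⟨1, 0⟩ : CRB) * ⟨0, 1⟩ ≠ ⟨0, 1⟩ * ⟨1, 0⟩ := by decide +kernel
  exact h2 h1
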