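import Mathlib
import Pool.Agent.MPcb9dee.Even
import Pool.Agent.MPcb9dee.S16

theorem cr_main (n : ℕ) (hn : 0 < n) :
    (CRRigid n → ¬ 16 ∣ n ∧ CRGood n) ∧ (¬ 4 ∣ n → (CRRigid n ↔ CRGood n)) := by
  refine ⟨fun h => ⟨fun h16 => cr_not_rigid_sixteen hn.ne' h16 h, cr_good_of_rigid hn.ne' h⟩, fun h4 =>
    ⟨fun h => cr_good_of_rigid hn.ne' h, fun hg => ?_⟩⟩
  rcases Nat.even_or_odd n with he | ho
  · obtain ⟨m, rfl⟩ := he.two_dvd
    have hm : Odd m := by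
      rcases Nat.even_or_odd m with hm | hm
      · obtain ⟨k, rfl⟩ := hm.two_dvd
        exact absurd ⟨k, by ring⟩ h4
      · exact hm
    exact cr_rigid_even hm hg
  · exact cr_rigid_odd ho hg
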